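import Pool.Agent.Helper63.RP4.Defs

/-!
A03h.  Holley's inequality for uniform measures on finite sets of functions.
-/

open Finset
open scoped FinsetFamily

namespace RP4

/-
Four functions theorem (Mathlib: `four_functions_theorem`, for finsets of the distributive lattice
`V → ℤ`) with `s = B`, `t = A`,
`f₁ b = if b ∈ B then F b + K else 0`, `f₂ a = if a ∈ A then 1 else 0`, `f₃ c = if c ∈ B then 1 else 0`,
`f₄ d = if d ∈ A then F d + K else 0`, where `K` is so large that `F + K ≥ 0` on `A ∪ B`.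
(`B ⊼ A ⊆ B` and `B ⊻ A ⊆ A`.)  Then remove `K`: `K * B.card * A.card` cancels.
-/
lemma holley_sets (A B : Finset (V → ℤ)) (hsup : ∀ a ∈ A, ∀ b ∈ B, a ⊔ b ∈ A)
    (hinf : ∀ a ∈ A, ∀ b ∈ B, a ⊓ b ∈ B) (F : (V → ℤ) → ℝ)
    (hF : ∀ a ∈ A, ∀ b ∈ B, F b ≤ F (a ⊔ b)) :
    (∑ b ∈ B, F b) * A.card ≤ (∑ a ∈ A, F a) * B.card := by
  classical
  set K : ℝ := ∑ g ∈ A ∪ B, |F g| with hK
  have hK0 : ∀ g ∈ A ∪ B, 0 ≤ F g + K := by
    intro g hg
    have h1 : |F g| ≤ K := by
      rw [hK]
      exact Finset.single_le_sum (f := fun g => |F g|) (fun _ _ => abs_nonneg _) hg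
    have h2 := neg_abs_le (F g)
    linarith
  have hA0 : ∀ a ∈ A, 0 ≤ F a + K := fun a ha => hK0 a (Finset.mem_union_left _ ha)
  have hB0 : ∀ b ∈ B, 0 ≤ F b + K := fun b hb => hK0 b (Finset.mem_union_right _ hb)
  have key := four_functions_theorem (α := V → ℤ) (β := ℝ)
    (fun b => if b ∈ B then F b + K else 0) (fun a => if a ∈ A then 1 else 0)
    (fun c => if c ∈ B then 1 else 0) (fun d => if d ∈ A then F d + K else 0)
    (fun b => by
      by_cases h : b ∈ B
      · simpa [h] using hB0 b h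
      · simp [h])
    (fun a => by
      by_cases h : a ∈ A <;> simp [h])
    (fun c => by
      by_cases h : c ∈ B <;> simp [h])
    (fun d => by
      by_cases h : d ∈ A
      · simpa [h] using hA0 d h
      · simp [h])
    (fun b a => by
      by_cases hb : b ∈ B
      · by_cases ha : a ∈ A
        · have h1 : b ⊓ a ∈ B := by rw [inf_comm]; exact hinf a ha b hb
          have h2 : b ⊔ a ∈ A := by rw [sup_comm]; exact hsup a ha b hb
          have h3 : F b ≤ F (b ⊔ a) := by rw [sup_comm]; exact hF a ha b hb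
          simp only [hb, ha, h1, h2, if_true]
          linarith
        · simp only [ha, if_false, mul_zero]
          refine mul_nonneg ?_ ?_
          · split_ifs <;> norm_num
          · split_ifs with h
            · exact hA0 _ h
            · exact le_rfl
      · simp only [hb, if_false, zero_mul]
        refine mul_nonneg ?_ ?_
        · split_ifs <;> norm_num
        · split_ifs with h
          · exact hA0 _ h
          · exact le_rfl) B A
  have e1 : ∑ b ∈ B, (if b ∈ B then F b + K else 0) = ∑ b ∈ B, F b + B.card * K := by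
    rw [Finset.sum_congr rfl (fun b hb => if_pos hb), Finset.sum_add_distrib,
      Finset.sum_const, nsmul_eq_mul]
  have e2 : ∑ a ∈ A, (if a ∈ A then (1 : ℝ) else 0) = A.card := by
    rw [Finset.sum_congr rfl (fun b hb => if_pos hb), Finset.sum_const, nsmul_eq_mul, mul_one]
  have e3 : ∑ c ∈ B ⊼ A, (if c ∈ B then (1 : ℝ) else 0) ≤ B.card := by
    rw [← Finset.sum_filter, Finset.sum_const, nsmul_eq_mul, mul_one]
    have : ((B ⊼ A).filter (fun c => c ∈ B)) ⊆ B := fun c hc => (Finset.mem_filter.1 hc).2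
    exact_mod_cast Finset.card_le_card this
  have e4 : ∑ d ∈ B ⊻ A, (if d ∈ A then F d + K else 0) ≤ ∑ a ∈ A, F a + A.card * K := by
    rw [← Finset.sum_filter]
    have h1 : ((B ⊻ A).filter (fun c => c ∈ A)) ⊆ A := fun c hc => (Finset.mem_filter.1 hc).2
    calc _ ≤ ∑ a ∈ A, (F a + K) :=
          Finset.sum_le_sum_of_subset_of_nonneg h1 (fun a ha _ => hA0 a ha)
      _ = _ := by rw [Finset.sum_add_distrib, Finset.sum_const, nsmul_eq_mul]
  have p3 : 0 ≤ ∑ d ∈ B ⊻ A, (if d ∈ A then F d + K else 0) := by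
    refine Finset.sum_nonneg fun d _ => ?_
    split_ifs with h
    · exact hA0 d h
    · exact le_rfl
  have key2 : (∑ b ∈ B, F b + B.card * K) * A.card ≤ B.card * (∑ a ∈ A, F a + A.card * K) := by
    calc _ = (∑ b ∈ B, (if b ∈ B then F b + K else 0)) * ∑ a ∈ A, (if a ∈ A then (1 : ℝ) else 0) := by
          rw [e1, e2]
      _ ≤ (∑ c ∈ B ⊼ A, (if c ∈ B then (1 : ℝ) else 0)) * ∑ d ∈ B ⊻ A, (if d ∈ A then F d + K else 0) := key
      _ ≤ _ := mul_le_mul e3 e4 p3 (Nat.cast_nonneg _)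
  nlinarith [key2]

/-- the same as an inequality of averages -/
lemma holley_avg (A B : Finset (V → ℤ)) (hA : A.Nonempty) (hB : B.Nonempty)
    (hsup : ∀ a ∈ A, ∀ b ∈ B, a ⊔ b ∈ A)
    (hinf : ∀ a ∈ A, ∀ b ∈ B, a ⊓ b ∈ B) (F : (V → ℤ) → ℝ)
    (hF : ∀ a ∈ A, ∀ b ∈ B, F b ≤ F (a ⊔ b)) :
    avg B F ≤ avg A F := by
  have hA' : (0 : ℝ) < A.card := by exact_mod_cast hA.card_pos
  have hB' : (0 : ℝ) < B.card := by exact_mod_cast hB.card_pos
  unfold avg
  rw [div_le_div_iff₀ hB' hA']
  exact holley_sets A B hsup hinf F hF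

end RP4
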