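import Pool.Agent.Helper63.RP4.A03
import Pool.Agent.Helper63.RP4.A03h

/-!
A08.  Domination of the zero boundary pinned measure by the measure with boundary value `c ≥ 0`.
-/

open Finset

namespace RP4

/-- `D` without its boundary -/
noncomputable def core (D : Finset V) : Finset V := D \ bdry D

/-
`v ∈ bdry (core D)`: `v ∈ D`, `v ∉ bdry D`, some neighbour `u` of `v` is not in `core D`.
As `v ∉ bdry D`, all neighbours of `v` are in `D`, so `u ∈ bdry D`.
-/
lemma bdry_core {D : Finset V} {v : V} (hv : v ∈ bdry (core D)) :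
    v ∈ D ∧ v ∉ bdry D ∧ ∃ u ∈ bdry D, Adj u v := by
  obtain ⟨h1, u, hu, hu'⟩ := mem_bdry.1 hv
  unfold core at h1 hu'
  rw [Finset.mem_sdiff] at h1 hu'
  refine ⟨h1.1, h1.2, u, ?_, hu⟩
  by_contra hub
  apply h1.2
  refine mem_bdry.2 ⟨h1.1, u, hu, fun huD => hu' ⟨huD, hub⟩⟩

lemma adj_par {u v : V} (h : Adj u v) : Odd (par u - par v) := by
  unfold Adj at h
  unfold par
  rcases abs_cases (u.1 - v.1) with ⟨h1, _⟩ | ⟨h1, _⟩ <;>
  rcases abs_cases (u.2 - v.2) with ⟨h2, _⟩ | ⟨h2, _⟩ <;>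
  rw [h1, h2] at h <;>
  rw [Int.odd_iff] <;> omega

lemma core_bdryPar {D : Finset V} {q : ℤ} (h : BdryPar D q) : BdryPar (core D) (q + 1) := by
  intro v hv
  obtain ⟨_, _, u, hu, huv⟩ := bdry_core hv
  have h1 := h u hu
  have h2 := adj_par huv
  rw [Int.even_iff] at h1 ⊢
  rw [Int.odd_iff] at h2
  omega

/-
`holley_avg` with `A = Pin D w c`, `B = Pin D w 0` (nonempty: contains `flat D (par w)`).
-/
theorem dom_even (D : Finset V) (w : V) (c : ℤ) (hq : BdryPar D (par w)) (hw : w ∈ D)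
    (hc : 0 ≤ c) (hne : (Pin D w c).Nonempty) (x : V) (φ : ℤ → ℝ) (hφ : Monotone φ) :
    avg (Pin D w 0) (fun g => φ (g x)) ≤ avg (Pin D w c) (fun g => φ (g x)) := by
  refine holley_avg (Pin D w c) (Pin D w 0) hne ?_ ?_ ?_ (fun g => φ (g x)) ?_
  · refine ⟨flat D (par w), ?_⟩
    rw [Pin_zero_eq]
    refine flat_mem_Zs (Finset.subset_insert _ _) ?_ ?_
    · exact Finset.insert_subset hw (bdry_subset D)
    · intro v hv
      rcases Finset.mem_insert.1 hv with rfl | hv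
      · simp
      · exact hq v hv
  · intro a ha b hb
    rw [mem_Pin] at ha hb ⊢
    refine ⟨ha.1.sup hb.1, ?_, fun v hv => ?_⟩
    · rw [Pi.sup_apply, ha.2.1, hb.2.1, sup_idem]
    · rw [Pi.sup_apply, ha.2.2 v hv, hb.2.2 v hv]
      exact max_eq_left hc
  · intro a ha b hb
    rw [mem_Pin] at ha hb ⊢
    refine ⟨ha.1.inf hb.1, ?_, fun v hv => ?_⟩
    · rw [Pi.inf_apply, ha.2.1, hb.2.1, inf_idem]
    · rw [Pi.inf_apply, ha.2.2 v hv, hb.2.2 v hv]
      exact min_eq_right hc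
  · intro a _ b _
    exact hφ (le_max_right (a x) (b x))

end RP4
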