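import Pool.Agent.Helper63.RP4.A03

/-!
A03s.  The symmetry `g ↦ -g`.
-/

open Finset

namespace RP4

lemma neg_mem_Zs {D : Finset V} {p : ℤ} {Z : Finset V} (hZ : bdry D ⊆ Z) {g : V → ℤ}
    (hg : g ∈ Zs D p Z) : -g ∈ Zs D p Z := by
  rw [mem_Zs hZ] at hg ⊢
  refine ⟨hg.1.neg, fun v hv => ?_⟩
  rw [Pi.neg_apply, hg.2 v hv, neg_zero]

/-- symmetry `g ↦ -g` of the zero boundary measures -/
lemma avg_neg_Zs {D : Finset V} {p : ℤ} {Z : Finset V} (hZ : bdry D ⊆ Z) (F : (V → ℤ) → ℝ) :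
    avg (Zs D p Z) (fun g => F (-g)) = avg (Zs D p Z) F := by
  unfold avg
  congr 1
  exact Finset.sum_nbij' (fun g => -g) (fun g => -g) (fun g hg => neg_mem_Zs hZ hg)
    (fun g hg => neg_mem_Zs hZ hg) (fun g _ => neg_neg g) (fun g _ => neg_neg g) (fun g _ => rfl)

lemma avg_neg_Om {D : Finset V} (F : (V → ℤ) → ℝ) :
    avg (Om D) (fun g => F (-g)) = avg (Om D) F :=
  avg_neg_Zs (Subset.refl _) F

private lemma A03s_neg_mem {D : Finset V} {w : V} {c : ℤ} {g : V → ℤ} (hg : g ∈ Pin D w c) :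
    -g ∈ Pin D w (-c) := by
  rw [mem_Pin] at hg ⊢
  refine ⟨hg.1.neg, ?_, fun v hv => ?_⟩
  · rw [Pi.neg_apply, hg.2.1, neg_zero]
  · rw [Pi.neg_apply, hg.2.2 v hv]

private lemma A03s_neg_mem' {D : Finset V} {w : V} {c : ℤ} {g : V → ℤ} (hg : g ∈ Pin D w (-c)) :
    -g ∈ Pin D w c := by
  have := A03s_neg_mem hg
  rwa [neg_neg] at this

lemma card_Pin_neg (D : Finset V) (w : V) (c : ℤ) : (Pin D w (-c)).card = (Pin D w c).card :=
  Finset.card_nbij' (fun g => -g) (fun g => -g) (fun g hg => A03s_neg_mem' hg)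
    (fun g hg => A03s_neg_mem hg) (fun g _ => neg_neg g) (fun g _ => neg_neg g)

/-- symmetry `g ↦ -g` exchanges the boundary values `c` and `-c` -/
lemma avg_neg_Pin (D : Finset V) (w : V) (c : ℤ) (F : (V → ℤ) → ℝ) :
    avg (Pin D w (-c)) (fun g => F (-g)) = avg (Pin D w c) F := by
  unfold avg
  rw [card_Pin_neg]
  congr 1
  exact Finset.sum_nbij' (fun g => -g) (fun g => -g) (fun g hg => A03s_neg_mem' hg)
    (fun g hg => A03s_neg_mem hg) (fun g _ => neg_neg g) (fun g _ => neg_neg g) (fun g _ => rfl)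

end RP4
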