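import Pool.Agent.Helper63.RP4.Defs

/-!
E6a.  Riemann sums.
-/

open Finset Filter Topology MeasureTheory

namespace RP4

/-- the weights of the pairing `δ² ∑ f(δ x) h x` -/
noncomputable def wt (δ : ℝ) (f : ℝ × ℝ → ℝ) (x : V) : ℝ := δ ^ 2 * f (δ * x.1, δ * x.2)

/-- the cell of `x` -/
private def E6a_cell (δ : ℝ) (x : V) : Set (ℝ × ℝ) :=
  Set.Ico (δ * x.1) (δ * (x.1 + 1)) ×ˢ Set.Ico (δ * x.2) (δ * (x.2 + 1))

private lemma E6a_meas (δ : ℝ) (x : V) : MeasurableSet (E6a_cell δ x) :=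
  measurableSet_Ico.prod measurableSet_Ico

private lemma E6a_vol {δ : ℝ} (hδ : 0 < δ) (x : V) :
    (volume : Measure (ℝ × ℝ)) (E6a_cell δ x) = ENNReal.ofReal (δ ^ 2) := by
  unfold E6a_cell
  rw [Measure.volume_eq_prod, Measure.prod_prod, Real.volume_Ico, Real.volume_Ico,
    ← ENNReal.ofReal_mul (by nlinarith)]
  congr 1
  ring

private lemma E6a_mem {δ : ℝ} (hδ : 0 < δ) (x : V) (y : ℝ × ℝ) :
    y ∈ E6a_cell δ x ↔ x = (⌊y.1 / δ⌋, ⌊y.2 / δ⌋) := by
  unfold E6a_cell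
  rw [Set.mem_prod, Set.mem_Ico, Set.mem_Ico]
  have key : ∀ (a : ℤ) (t : ℝ), (δ * a ≤ t ∧ t < δ * (a + 1)) ↔ a = ⌊t / δ⌋ := by
    intro a t
    rw [eq_comm, Int.floor_eq_iff, le_div_iff₀ hδ, div_lt_iff₀ hδ, mul_comm (a : ℝ),
      mul_comm ((a : ℝ) + 1)]
  rw [key, key]
  constructor
  · rintro ⟨h1, h2⟩
    exact Prod.ext h1 h2
  · intro h
    exact ⟨congrArg Prod.fst h, congrArg Prod.snd h⟩

/-
`f` is uniformly continuous and vanishes outside `[-R, R]²`.  The half open cells `δ x + [0, δ)²` partition the plane; those meeting the support of `f` or with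
`f (δ x) ≠ 0` are at most `(2 R/δ + 3)²` many.  `|∑ δ² f(δ x) - ∫ f| ≤ ∑_cells ∫_cell |f (δ x) - f y| dy ≤ (2 R + 3 δ)² * osc`.
-/
theorem riemann_wt (f : ℝ × ℝ → ℝ) (hf : Continuous f) (hc : HasCompactSupport f) (ε : ℝ)
    (hε : 0 < ε) : ∃ δ₀ > 0, ∀ δ : ℝ, 0 < δ → δ < δ₀ → ∀ s : Finset V,
      (∀ x : V, f (δ * x.1, δ * x.2) ≠ 0 → x ∈ s) → |∑ x ∈ s, wt δ f x - ∫ y, f y| ≤ ε := by
  classical
  obtain ⟨R, hR⟩ := hc.isCompact.isBounded.subset_closedBall (0 : ℝ × ℝ)
  have hfR : ∀ y : ℝ × ℝ, R < ‖y‖ → f y = 0 := by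
    intro y hy
    by_contra h0
    have h1 := hR (subset_tsupport f h0)
    rw [mem_closedBall_zero_iff] at h1
    linarith
  set B : Set (ℝ × ℝ) := Metric.closedBall 0 (R + 1) with hB
  have hBfin : volume B < ⊤ := measure_closedBall_lt_top
  set K : ℝ := volume.real B with hK
  have hK0 : 0 ≤ K := measureReal_nonneg
  have huc := hc.uniformContinuous_of_continuous hf
  rw [Metric.uniformContinuous_iff] at huc
  obtain ⟨δ₁, hδ₁, hcont⟩ := huc (ε / (K + 1)) (by positivity)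
  refine ⟨min δ₁ 1, lt_min hδ₁ one_pos, fun δ hδ hδlt s hs => ?_⟩
  have hδ1 : δ < δ₁ := hδlt.trans_le (min_le_left _ _)
  have hδ2 : δ < 1 := hδlt.trans_le (min_le_right _ _)
  let ψ : ℝ × ℝ → ℝ × ℝ := fun y => (δ * (⌊y.1 / δ⌋ : ℝ), δ * (⌊y.2 / δ⌋ : ℝ))
  have hψ : ∀ y, dist (ψ y) y < δ := by
    intro y
    rw [Prod.dist_eq, max_lt_iff]
    have key : ∀ t : ℝ, dist (δ * (⌊t / δ⌋ : ℝ)) t < δ := by
      intro t
      have h1 := Int.floor_le (t / δ)
      have h2 := Int.lt_floor_add_one (t / δ)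
      rw [le_div_iff₀ hδ] at h1
      rw [div_lt_iff₀ hδ] at h2
      rw [Real.dist_eq, abs_lt]
      constructor <;> nlinarith
    exact ⟨key _, key _⟩
  let F : ℝ × ℝ → ℝ := fun y => ∑ x ∈ s, (E6a_cell δ x).indicator (fun _ => f (δ * x.1, δ * x.2)) y
  have hF : ∀ y, F y = f (ψ y) := by
    intro y
    show ∑ x ∈ s, (E6a_cell δ x).indicator (fun _ => f (δ * x.1, δ * x.2)) y = f (ψ y)
    by_cases hy : ((⌊y.1 / δ⌋, ⌊y.2 / δ⌋) : V) ∈ s
    · rw [Finset.sum_eq_single ((⌊y.1 / δ⌋, ⌊y.2 / δ⌋) : V)]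
      · rw [Set.indicator_of_mem ((E6a_mem hδ _ y).2 rfl)]
      · intro x _ hx
        exact Set.indicator_of_notMem (fun h => hx ((E6a_mem hδ x y).1 h)) _
      · intro h
        exact absurd hy h
    · have h0 : f (ψ y) = 0 := by
        by_contra h0
        exact hy (hs _ h0)
      rw [h0]
      apply Finset.sum_eq_zero
      intro x hx
      apply Set.indicator_of_notMem
      intro h
      apply hy
      rw [← (E6a_mem hδ x y).1 h]
      exact hx
  have hint : ∀ x ∈ s, Integrable ((E6a_cell δ x).indicator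
      (fun _ : ℝ × ℝ => f (δ * x.1, δ * x.2))) volume := by
    intro x _
    rw [integrable_indicator_iff (E6a_meas δ x)]
    refine integrableOn_const (by rw [E6a_vol hδ]; exact ENNReal.ofReal_ne_top) enorm_ne_top
  have hFint : Integrable F volume := integrable_finsetSum s hint
  have hsum : ∫ y, F y = ∑ x ∈ s, wt δ f x := by
    show ∫ y, ∑ x ∈ s, (E6a_cell δ x).indicator (fun _ => f (δ * x.1, δ * x.2)) y = _
    rw [integral_finsetSum s hint]
    apply Finset.sum_congr rfl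
    intro x _
    rw [integral_indicator_const _ (E6a_meas δ x), Measure.real, E6a_vol hδ,
      ENNReal.toReal_ofReal (by positivity), smul_eq_mul]
    rfl
  have hfint : Integrable f volume := hf.integrable_of_hasCompactSupport hc
  rw [← hsum, ← integral_sub hFint hfint]
  have hout : ∀ y, y ∉ B → F y - f y = 0 := by
    intro y hy
    rw [hB, mem_closedBall_zero_iff, not_le] at hy
    have h1 : f y = 0 := hfR y (by linarith)
    have h2 : f (ψ y) = 0 := by
      apply hfR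
      have h3 := hψ y
      rw [dist_eq_norm] at h3
      have h4 := norm_sub_norm_le y (ψ y)
      rw [norm_sub_rev] at h4
      linarith
    rw [hF, h1, h2, sub_zero]
  rw [← setIntegral_eq_integral_of_forall_compl_eq_zero hout, ← Real.norm_eq_abs]
  have hle : ∀ y ∈ B, ‖F y - f y‖ ≤ ε / (K + 1) := by
    intro y _
    rw [hF]
    have h1 := hcont ((hψ y).trans hδ1)
    rw [dist_eq_norm] at h1
    exact h1.le
  refine (norm_setIntegral_le_of_norm_le_const hBfin hle).trans ?_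
  rw [← hK, div_mul_eq_mul_div, div_le_iff₀ (by positivity)]
  nlinarith

end RP4
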