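import Pool.Agent.Helper63.RP4.H0

/-!
H1.  Discrete Fourier transform of the cell masses.
-/

open Real Set Filter Topology MeasureTheory

namespace RP4

/-- discrete Fourier transform (finite sum: `f` has compact support) -/
noncomputable def dc (δ : ℝ) (f : ℝ × ℝ → ℝ) (k : ℝ × ℝ) : ℝ :=
  ∑' x : V, mass δ f x * cos (k.1 * x.1 + k.2 * x.2)

noncomputable def ds (δ : ℝ) (f : ℝ × ℝ → ℝ) (k : ℝ × ℝ) : ℝ :=
  ∑' x : V, mass δ f x * sin (k.1 * x.1 + k.2 * x.2)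

variable {f : ℝ × ℝ → ℝ}

/-- index of the cell of `y` -/
private noncomputable def H1a_cz (δ : ℝ) (y : ℝ × ℝ) : V := (⌊y.1 / δ + 1 / 2⌋, ⌊y.2 / δ + 1 / 2⌋)

private lemma H1a_one {δ : ℝ} (hδ : 0 < δ) (a : ℤ) (t : ℝ) :
    t ∈ Ico (δ * (a - 1 / 2)) (δ * (a + 1 / 2)) ↔ ⌊t / δ + 1 / 2⌋ = a := by
  rw [Int.floor_eq_iff, mem_Ico]
  have h1 : δ * ((a : ℝ) - 1 / 2) ≤ t ↔ (a : ℝ) ≤ t / δ + 1 / 2 := by
    rw [← sub_le_iff_le_add, le_div_iff₀ hδ, mul_comm]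
  have h2 : t < δ * ((a : ℝ) + 1 / 2) ↔ t / δ + 1 / 2 < (a : ℝ) + 1 := by
    rw [← lt_sub_iff_add_lt, div_lt_iff₀ hδ, mul_comm]
    have : (a : ℝ) + 1 - 1 / 2 = a + 1 / 2 := by ring
    rw [this]
  rw [h1, h2]

private lemma H1a_mem {δ : ℝ} (hδ : 0 < δ) (x : V) (y : ℝ × ℝ) : y ∈ cell δ x ↔ H1a_cz δ y = x := by
  unfold cell H1a_cz
  rw [mem_prod, H1a_one hδ, H1a_one hδ, Prod.ext_iff]

private lemma H1a_meas (δ : ℝ) (x : V) : MeasurableSet (cell δ x) :=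
  measurableSet_Ico.prod measurableSet_Ico

private lemma H1a_hasSum {δ : ℝ} (hδ : 0 < δ) {g : ℝ × ℝ → ℝ} (hg : Integrable g) :
    HasSum (fun x : V => ∫ y in cell δ x, g y) (∫ y, g y) := by
  have hU : (⋃ x : V, cell δ x) = univ := by
    rw [eq_univ_iff_forall]
    intro y
    exact mem_iUnion.mpr ⟨H1a_cz δ y, (H1a_mem hδ _ _).mpr rfl⟩
  have hD : Pairwise (Function.onFun Disjoint (fun x : V => cell δ x)) := by
    intro x x' hne
    rw [Function.onFun, Set.disjoint_left]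
    intro y hy hy'
    exact hne (((H1a_mem hδ _ _).mp hy).symm.trans ((H1a_mem hδ _ _).mp hy'))
  have h := hasSum_integral_iUnion (fun x => H1a_meas δ x) hD (hg.integrableOn (s := ⋃ x : V, cell δ x))
  rwa [hU, setIntegral_univ] at h

private lemma H1a_supp (hc : HasCompactSupport f) :
    ∃ R : ℝ, 0 ≤ R ∧ ∀ y, f y ≠ 0 → |y.1| ≤ R ∧ |y.2| ≤ R := by
  obtain ⟨R, hR⟩ := hc.isCompact.isBounded.subset_closedBall (0 : ℝ × ℝ)
  refine ⟨max R 0, le_max_right _ _, fun y hy => ?_⟩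
  have h1 := hR (subset_tsupport f hy)
  rw [mem_closedBall_zero_iff, Prod.norm_def, max_le_iff, Real.norm_eq_abs, Real.norm_eq_abs] at h1
  exact ⟨h1.1.trans (le_max_left _ _), h1.2.trans (le_max_left _ _)⟩

private lemma H1a_near {δ : ℝ} (hδ : 0 < δ) (t : ℝ) : |δ * (⌊t / δ + 1 / 2⌋ : ℤ) - t| ≤ δ / 2 := by
  have h1 := (H1a_one hδ ⌊t / δ + 1 / 2⌋ t).mpr rfl
  rw [mem_Ico] at h1
  rw [abs_le]
  constructor <;> nlinarith [h1.1, h1.2]

private lemma H1a_measurable (δ : ℝ) (k : ℝ × ℝ) :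
    Measurable (fun y : ℝ × ℝ => k.1 * ((H1a_cz δ y).1 : ℝ) + k.2 * ((H1a_cz δ y).2 : ℝ)) := by
  have h1 : Measurable (fun y : ℝ × ℝ => ((⌊y.1 / δ + 1 / 2⌋ : ℤ) : ℝ)) :=
    (measurable_from_top (f := fun z : ℤ => (z : ℝ))).comp
      (Int.measurable_floor.comp ((measurable_fst.div_const δ).add_const (1 / 2)))
  have h2 : Measurable (fun y : ℝ × ℝ => ((⌊y.2 / δ + 1 / 2⌋ : ℤ) : ℝ)) :=
    (measurable_from_top (f := fun z : ℤ => (z : ℝ))).comp
      (Int.measurable_floor.comp ((measurable_snd.div_const δ).add_const (1 / 2)))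
  exact (h1.const_mul k.1).add (h2.const_mul k.2)

private lemma H1a_trans (hf : Continuous f) (hc : HasCompactSupport f) {δ : ℝ} (hδ : 0 < δ)
    (k : ℝ × ℝ) (tr : ℝ → ℝ) (htr : Continuous tr) (hb : ∀ t, |tr t| ≤ 1) :
    Integrable (fun y => f y * tr (k.1 * ((H1a_cz δ y).1 : ℝ) + k.2 * ((H1a_cz δ y).2 : ℝ))) ∧
    ∑' x : V, mass δ f x * tr (k.1 * x.1 + k.2 * x.2) =
      ∫ y, f y * tr (k.1 * ((H1a_cz δ y).1 : ℝ) + k.2 * ((H1a_cz δ y).2 : ℝ)) := by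
  have hfi : Integrable f := hf.integrable_of_hasCompactSupport hc
  have hI : Integrable (fun y => f y * tr (k.1 * ((H1a_cz δ y).1 : ℝ) + k.2 * ((H1a_cz δ y).2 : ℝ))) := by
    refine hfi.mul_bdd (c := 1) (htr.measurable.comp (H1a_measurable δ k)).aestronglyMeasurable ?_
    exact Filter.Eventually.of_forall fun y => hb _
  refine ⟨hI, ?_⟩
  rw [← (H1a_hasSum hδ hI).tsum_eq]
  congr 1
  funext x
  unfold mass
  rw [← integral_mul_const]
  refine setIntegral_congr_fun (H1a_meas δ x) fun y hy => ?_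
  show f y * tr (k.1 * x.1 + k.2 * x.2) =
    f y * tr (k.1 * ((H1a_cz δ y).1 : ℝ) + k.2 * ((H1a_cz δ y).2 : ℝ))
  rw [(H1a_mem hδ x y).mp hy]

private lemma H1a_diff (hf : Continuous f) (hc : HasCompactSupport f) {δ : ℝ} (hδ : 0 < δ)
    (ξ : ℝ × ℝ) {A : ℝ} (hA : 0 ≤ A) (hξ : ξ.1 ^ 2 + ξ.2 ^ 2 ≤ A ^ 2)
    (tr : ℝ → ℝ) (htr : Continuous tr) (hb : ∀ t, |tr t| ≤ 1) (hL : ∀ s t, |tr s - tr t| ≤ |s - t|) :
    |∑' x : V, mass δ f x * tr (δ * ξ.1 * x.1 + δ * ξ.2 * x.2) -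
      ∫ y, f y * tr (ξ.1 * y.1 + ξ.2 * y.2)| ≤ δ * A * ∫ y, |f y| := by
  have hfi : Integrable f := hf.integrable_of_hasCompactSupport hc
  obtain ⟨hI, heq⟩ := H1a_trans hf hc hδ (δ * ξ.1, δ * ξ.2) tr htr hb
  simp only at hI heq
  rw [heq]
  have hI2 : Integrable (fun y : ℝ × ℝ => f y * tr (ξ.1 * y.1 + ξ.2 * y.2)) := by
    refine hfi.mul_bdd (c := 1) (htr.comp (by fun_prop)).aestronglyMeasurable ?_
    exact Filter.Eventually.of_forall fun y => hb _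
  rw [← integral_sub hI hI2, ← integral_const_mul]
  have h1 : |ξ.1| ≤ A := abs_le_of_sq_le_sq (by nlinarith [sq_nonneg ξ.2]) hA
  have h2 : |ξ.2| ≤ A := abs_le_of_sq_le_sq (by nlinarith [sq_nonneg ξ.1]) hA
  rw [← Real.norm_eq_abs]
  refine norm_integral_le_of_norm_le (hfi.abs.const_mul _) (Filter.Eventually.of_forall fun y => ?_)
  rw [Real.norm_eq_abs, ← mul_sub, abs_mul, mul_comm]
  refine mul_le_mul_of_nonneg_right ((hL _ _).trans ?_) (abs_nonneg _)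
  have h3 := H1a_near hδ y.1
  have h4 := H1a_near hδ y.2
  have e : δ * ξ.1 * ((H1a_cz δ y).1 : ℝ) + δ * ξ.2 * ((H1a_cz δ y).2 : ℝ) - (ξ.1 * y.1 + ξ.2 * y.2) =
      ξ.1 * (δ * (⌊y.1 / δ + 1 / 2⌋ : ℤ) - y.1) + ξ.2 * (δ * (⌊y.2 / δ + 1 / 2⌋ : ℤ) - y.2) := by
    unfold H1a_cz
    ring
  rw [e]
  refine (abs_add_le _ _).trans ?_
  rw [abs_mul, abs_mul]
  have h5 := mul_le_mul h1 h3 (abs_nonneg _) hA
  have h6 := mul_le_mul h2 h4 (abs_nonneg _) hA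
  linarith

/-- only finitely many cells meet the support -/
lemma mass_finite (hf : Continuous f) (hc : HasCompactSupport f) {δ : ℝ} (hδ : 0 < δ) :
    (Function.support (mass δ f)).Finite := by
  obtain ⟨R, hR0, hR⟩ := H1a_supp hc
  set N : ℤ := ⌈R / δ⌉ + 1 with hN
  refine Set.Finite.subset ((Set.finite_Icc (-N) N).prod (Set.finite_Icc (-N) N)) ?_
  intro x hx
  have h1 : ∃ y ∈ cell δ x, f y ≠ 0 := by
    by_contra hcon
    push Not at hcon
    apply hx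
    unfold mass
    rw [setIntegral_congr_fun (g := fun _ => (0 : ℝ)) (H1a_meas δ x) (fun y hy => hcon y hy)]
    simp
  obtain ⟨y, hy, hfy⟩ := h1
  obtain ⟨h2, h3⟩ := hR y hfy
  have key : ∀ (a : ℤ) (t : ℝ), t ∈ Ico (δ * ((a : ℝ) - 1 / 2)) (δ * (a + 1 / 2)) → |t| ≤ R →
      a ∈ Set.Icc (-N) N := by
    intro a t ht hta
    rw [mem_Ico] at ht
    rw [abs_le] at hta
    have h4 : (R / δ : ℝ) ≤ ⌈R / δ⌉ := Int.le_ceil _
    rw [div_le_iff₀ hδ] at h4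
    have h5 : (a : ℝ) - 1 / 2 ≤ ⌈R / δ⌉ := by
      by_contra hcon
      push Not at hcon
      nlinarith [ht.1, hta.2]
    have h6 : -(⌈R / δ⌉ : ℝ) < (a : ℝ) + 1 / 2 := by
      by_contra hcon
      push Not at hcon
      nlinarith [ht.2, hta.1]
    have h7 : (a : ℝ) < ((⌈R / δ⌉ + 1 : ℤ) : ℝ) := by push_cast; linarith
    have h8 : ((-(⌈R / δ⌉ + 1) : ℤ) : ℝ) < a := by push_cast; linarith
    have h9 : a < ⌈R / δ⌉ + 1 := by exact_mod_cast h7
    have h10 : -(⌈R / δ⌉ + 1) < a := by exact_mod_cast h8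
    rw [hN, Set.mem_Icc]
    constructor <;> linarith
  unfold cell at hy
  rw [mem_prod] at hy
  exact Set.mk_mem_prod (key x.1 y.1 hy.1 h2) (key x.2 y.2 hy.2 h3)

/-- the cells partition the plane -/
lemma mass_sum (hf : Continuous f) (hc : HasCompactSupport f) {δ : ℝ} (hδ : 0 < δ) :
    ∑' x : V, mass δ f x = ∫ y, f y :=
  (H1a_hasSum hδ (hf.integrable_of_hasCompactSupport hc)).tsum_eq

/-
`dc δ f k = ∫ f y cos (k · round(y/δ)) dy`.  (a) convergence: `k = δ ξ`: `|δ ξ · round(y/δ) - ξ · y| ≤ δ |ξ|`.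
-/
lemma d_conv (hf : Continuous f) (hc : HasCompactSupport f) (A ε : ℝ) (hε : 0 < ε) :
    ∃ δ₀ > 0, ∀ δ, 0 < δ → δ < δ₀ → ∀ ξ : ℝ × ℝ, ξ.1 ^ 2 + ξ.2 ^ 2 ≤ A ^ 2 →
      |dc δ f (δ * ξ.1, δ * ξ.2) - ftc f ξ| ≤ ε ∧ |ds δ f (δ * ξ.1, δ * ξ.2) - fts f ξ| ≤ ε := by
  have hJ : 0 ≤ ∫ y, |f y| := integral_nonneg fun y => abs_nonneg _
  refine ⟨ε / (|A| * (∫ y, |f y|) + 1), by positivity, fun δ hδ hlt ξ hξ => ?_⟩
  rw [lt_div_iff₀ (by positivity)] at hlt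
  have hle : δ * |A| * ∫ y, |f y| ≤ ε := by nlinarith
  have hξ' : ξ.1 ^ 2 + ξ.2 ^ 2 ≤ |A| ^ 2 := by rwa [sq_abs]
  have hcl : ∀ s t : ℝ, |cos s - cos t| ≤ |s - t| := by
    intro s t
    have h := Real.abs_cos_sub_cos_le s t
    exact h
  have hsl : ∀ s t : ℝ, |sin s - sin t| ≤ |s - t| := by
    intro s t
    have h := Real.abs_sin_sub_sin_le s t
    exact h
  refine ⟨(H1a_diff hf hc hδ ξ (abs_nonneg A) hξ' cos continuous_cos abs_cos_le_one hcl).trans hle,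
    (H1a_diff hf hc hδ ξ (abs_nonneg A) hξ' sin continuous_sin abs_sin_le_one hsl).trans hle⟩

/-
(b) small `k`: `∫ f = 0` gives `dc δ f k = ∫ f y (cos (k · round(y/δ)) - 1) dy`, and `|k · round(y/δ)| ≤ |k| (R/δ + 1)`:
`|dc|, |ds| ≤ C |k| / δ` for `0 < δ ≤ 1`.
-/
lemma d_small (hf : Continuous f) (hc : HasCompactSupport f) (h0 : ∫ y, f y = 0) :
    ∃ C : ℝ, 0 < C ∧ ∀ δ, 0 < δ → δ ≤ 1 → ∀ k : ℝ × ℝ,
      dc δ f k ^ 2 + ds δ f k ^ 2 ≤ C * (k.1 ^ 2 + k.2 ^ 2) / δ ^ 2 := by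
  obtain ⟨R, hR0, hR⟩ := H1a_supp hc
  have hfi : Integrable f := hf.integrable_of_hasCompactSupport hc
  have hJ : 0 ≤ ∫ y, |f y| := integral_nonneg fun y => abs_nonneg _
  set J : ℝ := ∫ y, |f y| with hJdef
  refine ⟨4 * (J * (R + 1)) ^ 2 + 1, by positivity, fun δ hδ hδ1 k => ?_⟩
  -- the common bound
  have key : ∀ (tr : ℝ → ℝ) (c : ℝ), Continuous tr → (∀ t, |tr t| ≤ 1) → (∀ t, |tr t - c| ≤ |t|) →
      |∑' x : V, mass δ f x * tr (k.1 * x.1 + k.2 * x.2)| ≤ J * ((|k.1| + |k.2|) * ((R + 1) / δ)) := by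
    intro tr c htr hb hL
    obtain ⟨hI, heq⟩ := H1a_trans hf hc hδ k tr htr hb
    rw [heq]
    have e1 : ∫ y, f y * tr (k.1 * ((H1a_cz δ y).1 : ℝ) + k.2 * ((H1a_cz δ y).2 : ℝ)) =
        ∫ y, f y * (tr (k.1 * ((H1a_cz δ y).1 : ℝ) + k.2 * ((H1a_cz δ y).2 : ℝ)) - c) := by
      have e2 : ∫ y, f y * c = 0 := by rw [integral_mul_const, h0, zero_mul]
      rw [← sub_zero (∫ y, f y * tr (k.1 * ((H1a_cz δ y).1 : ℝ) + k.2 * ((H1a_cz δ y).2 : ℝ))), ← e2,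
        ← integral_sub hI (hfi.mul_const c)]
      congr 1
      funext y
      ring
    rw [e1, ← Real.norm_eq_abs, hJdef, ← integral_mul_const]
    refine norm_integral_le_of_norm_le (hfi.abs.mul_const _) (Filter.Eventually.of_forall fun y => ?_)
    rw [Real.norm_eq_abs, abs_mul]
    by_cases hy : f y = 0
    · rw [hy, abs_zero, zero_mul, zero_mul]
    refine mul_le_mul_of_nonneg_left ((hL _).trans ?_) (abs_nonneg _)
    obtain ⟨hy1, hy2⟩ := hR y hy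
    have hz : ∀ t : ℝ, |t| ≤ R → |((⌊t / δ + 1 / 2⌋ : ℤ) : ℝ)| ≤ (R + 1) / δ := by
      intro t ht
      have h3 := H1a_near hδ t
      rw [le_div_iff₀ hδ]
      have h4 : |((⌊t / δ + 1 / 2⌋ : ℤ) : ℝ)| * δ = |δ * ((⌊t / δ + 1 / 2⌋ : ℤ) : ℝ)| := by
        rw [abs_mul, abs_of_pos hδ, mul_comm]
      rw [h4]
      have h5 : |δ * ((⌊t / δ + 1 / 2⌋ : ℤ) : ℝ)| ≤ |δ * ((⌊t / δ + 1 / 2⌋ : ℤ) : ℝ) - t| + |t| := by
        have := abs_add_le (δ * ((⌊t / δ + 1 / 2⌋ : ℤ) : ℝ) - t) t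
        rwa [sub_add_cancel] at this
      linarith
    have h1 := hz y.1 hy1
    have h2 := hz y.2 hy2
    refine (abs_add_le _ _).trans ?_
    rw [abs_mul, abs_mul, add_mul]
    exact add_le_add (mul_le_mul_of_nonneg_left h1 (abs_nonneg _))
      (mul_le_mul_of_nonneg_left h2 (abs_nonneg _))
  have hcos := key cos 1 continuous_cos abs_cos_le_one (fun t => by
    have h := Real.abs_cos_sub_cos_le t 0
    rwa [cos_zero, sub_zero] at h)
  have hsin := key sin 0 continuous_sin abs_sin_le_one (fun t => by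
    have h := Real.abs_sin_sub_sin_le t 0
    rw [sin_zero, sub_zero, sub_zero] at h
    rwa [sub_zero])
  have hX : 0 ≤ J * ((|k.1| + |k.2|) * ((R + 1) / δ)) := by positivity
  have h1 : dc δ f k ^ 2 ≤ (J * ((|k.1| + |k.2|) * ((R + 1) / δ))) ^ 2 := by
    rw [← sq_abs (dc δ f k)]
    exact pow_le_pow_left₀ (abs_nonneg _) hcos 2
  have h2 : ds δ f k ^ 2 ≤ (J * ((|k.1| + |k.2|) * ((R + 1) / δ))) ^ 2 := by
    rw [← sq_abs (ds δ f k)]
    exact pow_le_pow_left₀ (abs_nonneg _) hsin 2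
  have h3 : (J * ((|k.1| + |k.2|) * ((R + 1) / δ))) ^ 2 =
      (J * (R + 1)) ^ 2 * (|k.1| + |k.2|) ^ 2 / δ ^ 2 := by
    field_simp
  have h4 : (|k.1| + |k.2|) ^ 2 ≤ 2 * (k.1 ^ 2 + k.2 ^ 2) := by
    have e3 := sq_abs k.1
    have e4 := sq_abs k.2
    nlinarith [sq_nonneg (|k.1| - |k.2|)]
  have hδ2 : 0 < δ ^ 2 := by positivity
  rw [h3] at h1 h2
  have h5 : (J * (R + 1)) ^ 2 * (|k.1| + |k.2|) ^ 2 / δ ^ 2 ≤
      (J * (R + 1)) ^ 2 * (2 * (k.1 ^ 2 + k.2 ^ 2)) / δ ^ 2 := by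
    gcongr
  have h6 : 2 * ((J * (R + 1)) ^ 2 * (2 * (k.1 ^ 2 + k.2 ^ 2)) / δ ^ 2) ≤
      (4 * (J * (R + 1)) ^ 2 + 1) * (k.1 ^ 2 + k.2 ^ 2) / δ ^ 2 := by
    rw [← mul_div_assoc]
    refine div_le_div_of_nonneg_right ?_ hδ2.le
    nlinarith [sq_nonneg k.1, sq_nonneg k.2, sq_nonneg (J * (R + 1))]
  linarith

private lemma H1_cell_meas (δ : ℝ) (x : V) : MeasurableSet (cell δ x) :=
  measurableSet_Ico.prod measurableSet_Ico

private lemma H1_Ico_disj {δ : ℝ} (hδ : 0 < δ) {a b : ℤ} (hab : a ≠ b) :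
    Disjoint (Ico (δ * ((a : ℝ) - 1 / 2)) (δ * ((a : ℝ) + 1 / 2)))
      (Ico (δ * ((b : ℝ) - 1 / 2)) (δ * ((b : ℝ) + 1 / 2))) := by
  rw [Set.disjoint_left]
  rintro t ⟨h1, h2⟩ ⟨h3, h4⟩
  have h5 : (a : ℝ) - 1 / 2 < (b : ℝ) + 1 / 2 := lt_of_mul_lt_mul_left (h1.trans_lt h4) hδ.le
  have h6 : (b : ℝ) - 1 / 2 < (a : ℝ) + 1 / 2 := lt_of_mul_lt_mul_left (h3.trans_lt h2) hδ.le
  have h7 : a < b + 1 := by
    have : (a : ℝ) < (b : ℝ) + 1 := by linarith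
    exact_mod_cast this
  have h8 : b < a + 1 := by
    have : (b : ℝ) < (a : ℝ) + 1 := by linarith
    exact_mod_cast this
  omega

private lemma H1_cell_disj {δ : ℝ} (hδ : 0 < δ) : Pairwise (Function.onFun Disjoint (cell δ)) := by
  intro x y hxy
  show Disjoint (cell δ x) (cell δ y)
  unfold cell
  rw [Set.disjoint_prod]
  by_cases h1 : x.1 = y.1
  · right
    apply H1_Ico_disj hδ
    intro h2
    exact hxy (Prod.ext h1 h2)
  · left
    exact H1_Ico_disj hδ h1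

private lemma H1_cell_summable {δ : ℝ} (hδ : 0 < δ) {g : ℝ × ℝ → ℝ} (hg : Integrable g) :
    Summable (fun x : V => ∫ y in cell δ x, g y) :=
  (hasSum_integral_iUnion (H1_cell_meas δ) (H1_cell_disj hδ) hg.integrableOn).summable

private lemma H1_cell_tsum_le {δ : ℝ} (hδ : 0 < δ) {g : ℝ × ℝ → ℝ} (hg : Integrable g)
    (hg0 : ∀ y, 0 ≤ g y) : ∑' x : V, ∫ y in cell δ x, g y ≤ ∫ y, g y := by
  rw [← integral_iUnion (H1_cell_meas δ) (H1_cell_disj hδ) hg.integrableOn]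
  exact setIntegral_le_integral hg (Eventually.of_forall hg0)

/-- summation by parts for absolutely summable families -/
private lemma H1_parts (m : V → ℝ) (hm : Summable (fun x => |m x|)) (k : ℝ × ℝ) (e : V) :
    ‖(1 : ℂ) - Complex.exp (((k.1 * e.1 + k.2 * e.2 : ℝ) : ℂ) * Complex.I)‖ *
      ‖∑' x : V, (m x : ℂ) * Complex.exp (((k.1 * x.1 + k.2 * x.2 : ℝ) : ℂ) * Complex.I)‖
      ≤ ∑' x : V, |m x - m (x - e)| := by
  set E : V → ℂ := fun x => Complex.exp (((k.1 * x.1 + k.2 * x.2 : ℝ) : ℂ) * Complex.I) with hE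
  have hEn : ∀ x, ‖E x‖ = 1 := fun x => Complex.norm_exp_ofReal_mul_I _
  have hEadd : ∀ x, E (x + e) = E e * E x := by
    intro x
    simp only [hE]
    rw [← Complex.exp_add]
    congr 1
    push_cast
    simp only [Prod.fst_add, Prod.snd_add]
    push_cast
    ring
  have hs : Summable (fun x : V => (m x : ℂ) * E x) := by
    apply Summable.of_norm
    refine hm.congr (fun x => ?_)
    rw [norm_mul, hEn, mul_one, Complex.norm_real, Real.norm_eq_abs]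
  have hm' : Summable (fun x : V => |m (x - e)|) :=
    (Equiv.subRight e).summable_iff.mpr hm
  have hs' : Summable (fun x : V => (m (x - e) : ℂ) * E x) := by
    apply Summable.of_norm
    refine hm'.congr (fun x => ?_)
    rw [norm_mul, hEn, mul_one, Complex.norm_real, Real.norm_eq_abs]
  have hshift : ∑' x : V, (m (x - e) : ℂ) * E x = E e * ∑' x : V, (m x : ℂ) * E x := by
    rw [← (Equiv.addRight e).tsum_eq (fun x : V => (m (x - e) : ℂ) * E x), ← tsum_mul_left]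
    apply tsum_congr
    intro x
    rw [Equiv.coe_addRight, add_sub_cancel_right, hEadd]
    ring
  have key : (1 - E e) * ∑' x : V, (m x : ℂ) * E x
      = ∑' x : V, ((m x : ℂ) - (m (x - e) : ℂ)) * E x := by
    rw [sub_mul, one_mul, ← hshift, ← hs.tsum_sub hs']
    exact tsum_congr (fun x => by ring)
  have hd : Summable (fun x : V => |m x - m (x - e)|) :=
    Summable.of_nonneg_of_le (fun x => abs_nonneg _) (fun x => abs_sub _ _) (hm.add hm')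
  show ‖1 - E e‖ * ‖∑' x : V, (m x : ℂ) * E x‖ ≤ _
  rw [← norm_mul, key]
  have hnorm : ∀ x : V, ‖((m x : ℂ) - (m (x - e) : ℂ)) * E x‖ = |m x - m (x - e)| := by
    intro x
    rw [norm_mul, hEn, mul_one, ← Complex.ofReal_sub, Complex.norm_real, Real.norm_eq_abs]
  refine (norm_tsum_le_tsum_norm (hd.congr (fun x => (hnorm x).symm))).trans ?_
  rw [tsum_congr hnorm]

/-- the norm of the complex sum -/
private lemma H1_normsq (δ : ℝ) (k : ℝ × ℝ) (hm : Summable (fun x => |mass δ f x|)) :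
    ‖∑' x : V, (mass δ f x : ℂ) *
      Complex.exp (((k.1 * x.1 + k.2 * x.2 : ℝ) : ℂ) * Complex.I)‖ ^ 2
      = dc δ f k ^ 2 + ds δ f k ^ 2 := by
  have hs : Summable (fun x : V => (mass δ f x : ℂ) *
      Complex.exp (((k.1 * x.1 + k.2 * x.2 : ℝ) : ℂ) * Complex.I)) := by
    apply Summable.of_norm
    refine hm.congr (fun x => ?_)
    rw [norm_mul, Complex.norm_exp_ofReal_mul_I, mul_one, Complex.norm_real, Real.norm_eq_abs]
  have hre : (∑' x : V, (mass δ f x : ℂ) *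
      Complex.exp (((k.1 * x.1 + k.2 * x.2 : ℝ) : ℂ) * Complex.I)).re = dc δ f k := by
    rw [Complex.re_tsum hs]
    unfold dc
    apply tsum_congr
    intro x
    rw [Complex.re_ofReal_mul, Complex.exp_ofReal_mul_I_re]
  have him : (∑' x : V, (mass δ f x : ℂ) *
      Complex.exp (((k.1 * x.1 + k.2 * x.2 : ℝ) : ℂ) * Complex.I)).im = ds δ f k := by
    rw [Complex.im_tsum hs]
    unfold ds
    apply tsum_congr
    intro x
    rw [Complex.im_ofReal_mul, Complex.exp_ofReal_mul_I_im]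
  rw [← hre, ← him, Complex.sq_norm, Complex.normSq_apply]
  ring

/-- lower bound for `|1 - e^{ia}|` -/
private lemma H1_chord {a : ℝ} (ha : |a| ≤ π) :
    4 / π ^ 2 * a ^ 2 ≤ ‖(1 : ℂ) - Complex.exp ((a : ℂ) * Complex.I)‖ ^ 2 := by
  have h1 : ‖(1 : ℂ) - Complex.exp ((a : ℂ) * Complex.I)‖ ^ 2 = 2 - 2 * cos a := by
    rw [Complex.sq_norm, Complex.normSq_apply]
    simp only [Complex.sub_re, Complex.sub_im, Complex.one_re, Complex.one_im,
      Complex.exp_ofReal_mul_I_re, Complex.exp_ofReal_mul_I_im]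
    nlinarith [Real.sin_sq_add_cos_sq a]
  have h2 := Real.cos_le_one_sub_mul_cos_sq ha
  rw [h1]
  have h3 : 4 / π ^ 2 * a ^ 2 = 2 * (2 / π ^ 2 * a ^ 2) := by ring
  rw [h3]
  linarith

/-- translation of the cells -/
private lemma H1_mass_shift (δ : ℝ) (x e : V) :
    mass δ f (x - e) = ∫ y in cell δ x, f (y - (δ * e.1, δ * e.2)) := by
  unfold mass
  set v : ℝ × ℝ := (δ * e.1, δ * e.2) with hv
  have h1 : cell δ x = (fun y => y - v) ⁻¹' cell δ (x - e) := by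
    ext y
    simp only [cell, Set.mem_prod, Set.mem_Ico, Set.mem_preimage, hv, Prod.fst_sub, Prod.snd_sub,
      Int.cast_sub]
    constructor
    · rintro ⟨⟨h1, h2⟩, h3, h4⟩
      refine ⟨⟨?_, ?_⟩, ?_, ?_⟩ <;> nlinarith
    · rintro ⟨⟨h1, h2⟩, h3, h4⟩
      refine ⟨⟨?_, ?_⟩, ?_, ?_⟩ <;> nlinarith
  rw [h1]
  exact ((measurePreserving_sub_right volume v).setIntegral_preimage_emb
    (Homeomorph.subRight v).measurableEmbedding f (cell δ (x - e))).symm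

/-- the sum of the mass differences -/
private lemma H1_diff (hf : ContDiff ℝ 1 f) (hc : HasCompactSupport f) :
    ∃ C : ℝ, 0 ≤ C ∧ ∀ δ, 0 < δ → δ ≤ 1 → ∀ e : V, |e.1| ≤ 1 → |e.2| ≤ 1 →
      ∑' x : V, |mass δ f x - mass δ f (x - e)| ≤ C * δ := by
  obtain ⟨L, hL⟩ := hf.lipschitzWith_of_hasCompactSupport hc one_ne_zero
  have hcont : Continuous f := hf.continuous
  have hint : Integrable f := hcont.integrable_of_hasCompactSupport hc
  obtain ⟨R, hR⟩ := hc.isCompact.isBounded.subset_closedBall (0 : ℝ × ℝ)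
  refine ⟨(L : ℝ) * volume.real (Metric.closedBall (0 : ℝ × ℝ) (R + 1)), by positivity, ?_⟩
  intro δ hδ hδ1 e he1 he2
  set v : ℝ × ℝ := (δ * e.1, δ * e.2) with hv
  have hvn : ‖v‖ ≤ δ := by
    rw [hv, Prod.norm_def]
    have h1 : |((e.1 : ℤ) : ℝ)| ≤ 1 := by exact_mod_cast he1
    have h2 : |((e.2 : ℤ) : ℝ)| ≤ 1 := by exact_mod_cast he2
    simp only [Real.norm_eq_abs, abs_mul, abs_of_pos hδ]
    apply max_le <;> nlinarith
  have hint' : Integrable (fun y => f (y - v)) := hint.comp_sub_right v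
  have hg : Integrable (fun y => |f y - f (y - v)|) := (hint.sub hint').abs
  have hdiff : ∀ x : V, |mass δ f x - mass δ f (x - e)| ≤ ∫ y in cell δ x, |f y - f (y - v)| := by
    intro x
    rw [H1_mass_shift, mass, ← integral_sub hint.integrableOn hint'.integrableOn]
    exact abs_integral_le_integral_abs
  have hsum := H1_cell_summable hδ hg
  have hsum' : Summable (fun x : V => |mass δ f x - mass δ f (x - e)|) :=
    Summable.of_nonneg_of_le (fun x => abs_nonneg _) hdiff hsum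
  refine (hsum'.tsum_le_tsum hdiff hsum).trans ?_
  refine (H1_cell_tsum_le hδ hg (fun y => abs_nonneg _)).trans ?_
  have hbound : ∀ y, |f y - f (y - v)|
      ≤ (Metric.closedBall (0 : ℝ × ℝ) (R + 1)).indicator (fun _ => (L : ℝ) * δ) y := by
    intro y
    by_cases hy : y ∈ Metric.closedBall (0 : ℝ × ℝ) (R + 1)
    · rw [Set.indicator_of_mem hy]
      have h1 := hL.dist_le_mul y (y - v)
      rw [Real.dist_eq] at h1
      refine h1.trans ?_
      have h2 : dist y (y - v) = ‖v‖ := by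
        rw [dist_eq_norm]
        congr 1
        abel
      rw [h2]
      exact mul_le_mul_of_nonneg_left hvn L.coe_nonneg
    · rw [Set.indicator_of_notMem hy]
      have hy' : R + 1 < ‖y‖ := by
        simpa using hy
      have h1 : f y = 0 := by
        by_contra hne
        have := hR (subset_tsupport f hne)
        rw [mem_closedBall_zero_iff] at this
        linarith
      have h2 : f (y - v) = 0 := by
        by_contra hne
        have := hR (subset_tsupport f hne)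
        rw [mem_closedBall_zero_iff] at this
        have h3 := norm_sub_norm_le y v
        linarith
      rw [h1, h2]
      simp
  have hfin : volume (Metric.closedBall (0 : ℝ × ℝ) (R + 1)) ≠ ⊤ :=
    measure_closedBall_lt_top.ne
  have hmeas : MeasurableSet (Metric.closedBall (0 : ℝ × ℝ) (R + 1)) :=
    Metric.isClosed_closedBall.measurableSet
  have hind : Integrable ((Metric.closedBall (0 : ℝ × ℝ) (R + 1)).indicator
      (fun _ => (L : ℝ) * δ)) := by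
    rw [integrable_indicator_iff hmeas]
    exact integrableOn_const hfin
  refine (integral_mono hg hind hbound).trans ?_
  rw [integral_indicator hmeas, setIntegral_const, smul_eq_mul]
  apply le_of_eq
  ring

/-
(c) decay: summation by parts. `|1 - e^{i k₁}| |Σ_x m x e^{ik·x}| = |Σ_x (m x - m (x - e₁)) e^{ik·x}| ≤ Σ_x |m x - m (x - e₁)| ≤ δ ∫ |∂₁ f|`
(`m x - m (x - e₁) = ∫_cell (f y - f (y - δ e₁)) dy`), and `|1 - e^{ik₁}| ≥ (2/π)|k₁|` for `|k₁| ≤ π`; the same for `k₂`.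
-/
lemma d_decay (hf : ContDiff ℝ 1 f) (hc : HasCompactSupport f) :
    ∃ C : ℝ, 0 < C ∧ ∀ δ, 0 < δ → δ ≤ 1 → ∀ k : ℝ × ℝ, k ∈ box →
      (k.1 ^ 2 + k.2 ^ 2) * (dc δ f k ^ 2 + ds δ f k ^ 2) ≤ C * δ ^ 2 := by
  obtain ⟨C, hC0, hC⟩ := H1_diff hf hc
  have hint : Integrable f := hf.continuous.integrable_of_hasCompactSupport hc
  refine ⟨π ^ 2 / 2 * C ^ 2 + 1, by positivity, ?_⟩
  intro δ hδ hδ1 k hk
  have hk1 : |k.1| ≤ π := abs_le.mpr ⟨hk.1.1, hk.1.2⟩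
  have hk2 : |k.2| ≤ π := abs_le.mpr ⟨hk.2.1, hk.2.2⟩
  have hm : Summable (fun x : V => |mass δ f x|) := by
    refine Summable.of_nonneg_of_le (fun x => abs_nonneg _) (fun x => ?_)
      (H1_cell_summable hδ hint.abs)
    exact abs_integral_le_integral_abs
  have hZ := H1_normsq δ k hm
  have e1 := (H1_parts (mass δ f) hm k (1, 0)).trans (hC δ hδ hδ1 (1, 0) (by simp) (by simp))
  have e2 := (H1_parts (mass δ f) hm k (0, 1)).trans (hC δ hδ hδ1 (0, 1) (by simp) (by simp))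
  have c1 := H1_chord hk1
  have c2 := H1_chord hk2
  set Z := ‖∑' x : V, (mass δ f x : ℂ) *
      Complex.exp (((k.1 * x.1 + k.2 * x.2 : ℝ) : ℂ) * Complex.I)‖ with hZdef
  have s1 : k.1 * ((1 : ℤ) : ℝ) + k.2 * ((0 : ℤ) : ℝ) = k.1 := by push_cast; ring
  have s2 : k.1 * ((0 : ℤ) : ℝ) + k.2 * ((1 : ℤ) : ℝ) = k.2 := by push_cast; ring
  simp only [s1] at e1
  simp only [s2] at e2
  set w1 := ‖(1 : ℂ) - Complex.exp ((k.1 : ℂ) * Complex.I)‖ with hw1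
  set w2 := ‖(1 : ℂ) - Complex.exp ((k.2 : ℂ) * Complex.I)‖ with hw2
  have hZ0 : 0 ≤ Z := norm_nonneg _
  have hw10 : 0 ≤ w1 := norm_nonneg _
  have hw20 : 0 ≤ w2 := norm_nonneg _
  have q1 : w1 ^ 2 * Z ^ 2 ≤ (C * δ) ^ 2 := by
    rw [← mul_pow]
    exact pow_le_pow_left₀ (mul_nonneg hw10 hZ0) e1 2
  have q2 : w2 ^ 2 * Z ^ 2 ≤ (C * δ) ^ 2 := by
    rw [← mul_pow]
    exact pow_le_pow_left₀ (mul_nonneg hw20 hZ0) e2 2
  rw [← hZ]
  have r1 : 4 / π ^ 2 * k.1 ^ 2 * Z ^ 2 ≤ (C * δ) ^ 2 :=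
    (mul_le_mul_of_nonneg_right c1 (sq_nonneg Z)).trans q1
  have r2 : 4 / π ^ 2 * k.2 ^ 2 * Z ^ 2 ≤ (C * δ) ^ 2 :=
    (mul_le_mul_of_nonneg_right c2 (sq_nonneg Z)).trans q2
  have hpi : (π : ℝ) ^ 2 / 4 * (4 / π ^ 2) = 1 := by
    have := Real.pi_ne_zero
    field_simp
  calc (k.1 ^ 2 + k.2 ^ 2) * Z ^ 2
      = π ^ 2 / 4 * (4 / π ^ 2) * ((k.1 ^ 2 + k.2 ^ 2) * Z ^ 2) := by rw [hpi, one_mul]
    _ = π ^ 2 / 4 * (4 / π ^ 2 * k.1 ^ 2 * Z ^ 2 + 4 / π ^ 2 * k.2 ^ 2 * Z ^ 2) := by ring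
    _ ≤ π ^ 2 / 4 * ((C * δ) ^ 2 + (C * δ) ^ 2) := by
        apply mul_le_mul_of_nonneg_left (add_le_add r1 r2)
        positivity
    _ = π ^ 2 / 2 * C ^ 2 * δ ^ 2 := by ring
    _ ≤ (π ^ 2 / 2 * C ^ 2 + 1) * δ ^ 2 := by nlinarith [sq_nonneg δ]

end RP4
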