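import Pool.Agent.Helper97.RP4.H3

/-!
H4.  Polarisation of the energy.
-/

open Real Set Filter Topology MeasureTheory

namespace RP4

/-- bilinear form of the energy -/
noncomputable def energy2 (f g : ℝ × ℝ → ℝ) : ℝ :=
  ∫ x : ℝ × ℝ, ∫ y : ℝ × ℝ,
    f x * g y * (-(1 / (2 * π)) * log (Real.sqrt ((x.1 - y.1) ^ 2 + (x.2 - y.2) ^ 2)))

private lemma h4_int {f g : ℝ × ℝ → ℝ} (hf : Continuous f) (hfc : HasCompactSupport f)
    (hg : Continuous g) (hgc : HasCompactSupport g) :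
    Integrable (fun p : (ℝ × ℝ) × (ℝ × ℝ) => f p.1 * g p.2 *
      (-(1 / (2 * π)) * log (Real.sqrt ((p.1.1 - p.2.1) ^ 2 + (p.1.2 - p.2.2) ^ 2))))
      ((volume : Measure (ℝ × ℝ)).prod (volume : Measure (ℝ × ℝ))) := by
  obtain ⟨R1, hR1⟩ := hfc.isCompact.isBounded.exists_norm_le
  obtain ⟨R2, hR2⟩ := hgc.isCompact.isBounded.exists_norm_le
  obtain ⟨C, hC⟩ := hfc.exists_bound_of_continuous hf
  have hK : Integrable (Set.indicator (Icc (-(R1 + R2)) (R1 + R2) ×ˢ Icc (-(R1 + R2)) (R1 + R2))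
      (fun z : ℝ × ℝ => log (Real.sqrt (z.1 ^ 2 + z.2 ^ 2)))) volume :=
    (log_locInt (R1 + R2)).integrable_indicator (measurableSet_Icc.prod measurableSet_Icc)
  have h1 := (hg.integrable_of_hasCompactSupport hgc (μ := volume)).convolution_integrand
    (ContinuousLinearMap.mul ℝ ℝ) hK
  have h2 : Integrable (fun p : (ℝ × ℝ) × (ℝ × ℝ) => f p.1 *
      (ContinuousLinearMap.mul ℝ ℝ (g p.2)
        ((Set.indicator (Icc (-(R1 + R2)) (R1 + R2) ×ˢ Icc (-(R1 + R2)) (R1 + R2))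
        (fun z : ℝ × ℝ => log (Real.sqrt (z.1 ^ 2 + z.2 ^ 2)))) (p.1 - p.2))))
      ((volume : Measure (ℝ × ℝ)).prod (volume : Measure (ℝ × ℝ))) := by
    refine h1.bdd_mul (c := C) ?_ ?_
    · exact (hf.comp continuous_fst).aestronglyMeasurable
    · exact Eventually.of_forall fun p => hC p.1
  have h3 := h2.const_mul (-(1 / (2 * π)))
  refine h3.congr (Eventually.of_forall fun p => ?_)
  simp only [ContinuousLinearMap.mul_apply']
  by_cases hfp : f p.1 = 0
  · rw [hfp]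
    ring
  by_cases hgp : g p.2 = 0
  · rw [hgp]
    ring
  have e1 := hR1 p.1 (subset_tsupport _ hfp)
  have e2 := hR2 p.2 (subset_tsupport _ hgp)
  have e3 : ‖p.1 - p.2‖ ≤ R1 + R2 := (norm_sub_le _ _).trans (add_le_add e1 e2)
  have e4 := (norm_fst_le (p.1 - p.2)).trans e3
  have e5 := (norm_snd_le (p.1 - p.2)).trans e3
  have e6 : p.1 - p.2 ∈ (Icc (-(R1 + R2)) (R1 + R2) ×ˢ Icc (-(R1 + R2)) (R1 + R2) : Set (ℝ × ℝ)) :=
    ⟨abs_le.1 e4, abs_le.1 e5⟩
  rw [Set.indicator_of_mem e6]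
  rw [Prod.fst_sub, Prod.snd_sub]
  ring

/-
`(f+g)(x)(f+g)(y) - (f-g)(x)(f-g)(y) = 2 f(x) g(y) + 2 g(x) f(y)`; `f x g y log |x - y|` is integrable on the product (`log_locInt` of Helper97/RP4/H3.lean, bounded functions with
compact support; change of variables `(x, y) ↦ (x, x - y)`), Fubini and the symmetry of the kernel.
-/
theorem energy_polar (f g : ℝ × ℝ → ℝ) (hf : Continuous f) (hfc : HasCompactSupport f)
    (hg : Continuous g) (hgc : HasCompactSupport g) :
    energy (fun y => f y + g y) - energy (fun y => f y - g y) = 4 * energy2 f g := by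
  have i1 := h4_int hf hfc hf hfc
  have i2 := h4_int hf hfc hg hgc
  have i3 := h4_int hg hgc hf hfc
  have i4 := h4_int hg hgc hg hgc
  have hsw : energy2 g f = energy2 f g := by
    unfold energy2
    rw [integral_integral_swap (f := fun x y : ℝ × ℝ => g x * f y *
      (-(1 / (2 * π)) * log (Real.sqrt ((x.1 - y.1) ^ 2 + (x.2 - y.2) ^ 2)))) i3]
    refine integral_congr_ae (Eventually.of_forall fun x => ?_)
    refine integral_congr_ae (Eventually.of_forall fun y => ?_)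
    change g y * f x * (-(1 / (2 * π)) * log (Real.sqrt ((y.1 - x.1) ^ 2 + (y.2 - x.2) ^ 2))) =
      f x * g y * (-(1 / (2 * π)) * log (Real.sqrt ((x.1 - y.1) ^ 2 + (x.2 - y.2) ^ 2)))
    rw [show (y.1 - x.1) ^ 2 + (y.2 - x.2) ^ 2 = (x.1 - y.1) ^ 2 + (x.2 - y.2) ^ 2 by ring]
    ring
  have e2 : energy2 f g = ∫ p, f p.1 * g p.2 *
      (-(1 / (2 * π)) * log (Real.sqrt ((p.1.1 - p.2.1) ^ 2 + (p.1.2 - p.2.2) ^ 2)))
      ∂((volume : Measure (ℝ × ℝ)).prod (volume : Measure (ℝ × ℝ))) :=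
    (integral_prod _ i2).symm
  have e3 : energy2 g f = ∫ p, g p.1 * f p.2 *
      (-(1 / (2 * π)) * log (Real.sqrt ((p.1.1 - p.2.1) ^ 2 + (p.1.2 - p.2.2) ^ 2)))
      ∂((volume : Measure (ℝ × ℝ)).prod (volume : Measure (ℝ × ℝ))) :=
    (integral_prod _ i3).symm
  have hfg : Continuous fun y => f y + g y := hf.add hg
  have hfgc : HasCompactSupport fun y => f y + g y := hfc.add hgc
  have hfs : Continuous fun y => f y - g y := hf.sub hg
  have hfsc : HasCompactSupport fun y => f y - g y := by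
    have h := hfc.add hgc.neg
    rw [← sub_eq_add_neg] at h
    exact h
  have j1 := h4_int hfg hfgc hfg hfgc
  have j2 := h4_int hfs hfsc hfs hfsc
  have e5 : energy (fun y => f y + g y) = ∫ p, (f p.1 + g p.1) * (f p.2 + g p.2) *
      (-(1 / (2 * π)) * log (Real.sqrt ((p.1.1 - p.2.1) ^ 2 + (p.1.2 - p.2.2) ^ 2)))
      ∂((volume : Measure (ℝ × ℝ)).prod (volume : Measure (ℝ × ℝ))) :=
    (integral_prod _ j1).symm
  have e6 : energy (fun y => f y - g y) = ∫ p, (f p.1 - g p.1) * (f p.2 - g p.2) *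
      (-(1 / (2 * π)) * log (Real.sqrt ((p.1.1 - p.2.1) ^ 2 + (p.1.2 - p.2.2) ^ 2)))
      ∂((volume : Measure (ℝ × ℝ)).prod (volume : Measure (ℝ × ℝ))) :=
    (integral_prod _ j2).symm
  rw [e5, e6, ← integral_sub j1 j2]
  have e7 : 4 * energy2 f g = 2 * energy2 f g + 2 * energy2 g f := by
    rw [hsw]
    ring
  rw [e7, e2, e3, ← integral_const_mul, ← integral_const_mul,
    ← integral_add (i2.const_mul 2) (i3.const_mul 2)]
  refine integral_congr_ae (Eventually.of_forall fun p => ?_)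
  ring

end RP4
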