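import Pool.Agent.Helper63.RP4.Conc

/-!
Data.  What the probabilistic part delivers to the analysis.
-/

open Real Filter Topology

namespace RP4

/-- `r α x` = infinite volume limit of `E cos (α (h x - h 0))`, `γ x` = limit of `E (h x - h 0)²` -/
structure Data (r : ℝ → V → ℝ) (γ : V → ℝ) : Prop where
  one : ∀ α > 0, r α 0 = 1
  abs_le : ∀ α > 0, ∀ x, |r α x| ≤ 1
  sym : ∀ α > 0, Sym4 (r α)
  rp1 : ∀ α > 0, RP1 (r α)
  rpd : ∀ α > 0, RPd (r α)
  lim : ∀ x, Tendsto (fun α => 2 * (1 - r α x) / α ^ 2) (𝓝[>] 0) (𝓝 (γ x))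

end RP4
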