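import Pool.Agent.Helper63.RP4.Mu
import Pool.Agent.Helper63.RP4.H1
import Pool.Agent.Helper63.RP4.H4
import Pool.Agent.Helper97.RP4.An

/-!
Two.  The two point function of the smeared field under the infinite volume gradient state.
-/

open Real Set Filter Topology MeasureTheory

namespace RP4

/-- linear functional with weights `m` (finitely many nonzero ones) -/
noncomputable def Lin (m : V → ℝ) (h : V → ℤ) : ℝ := ∑' x : V, m x * (h x : ℝ)

lemma Lin_eq {m : V → ℝ} {s : Finset V} (hs : ∀ x, m x ≠ 0 → x ∈ s) (h : V → ℤ) :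
    Lin m h = ∑ x ∈ s, m x * (h x : ℝ) := by
  unfold Lin
  apply tsum_eq_sum
  intro x hx
  have : m x = 0 := by
    by_contra h0
    exact hx (hs x h0)
  rw [this, zero_mul]

/-- a neutral functional depends on differences only -/
lemma Lin_loc {m : V → ℝ} {s : Finset V} (hs : ∀ x, m x ≠ 0 → x ∈ s) (h0 : ∑ x ∈ s, m x = 0) :
    Loc s (Lin m) := by
  intro h h' hh
  rw [Lin_eq hs, Lin_eq hs]
  rcases s.eq_empty_or_nonempty with rfl | ⟨w, hw⟩
  · simp
  have key : ∀ g : V → ℤ, ∑ x ∈ s, m x * (g x : ℝ) = ∑ x ∈ s, m x * ((g x - g w : ℤ) : ℝ) := by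
    intro g
    have h1 : ∑ x ∈ s, m x * ((g x - g w : ℤ) : ℝ) =
        ∑ x ∈ s, m x * (g x : ℝ) - (∑ x ∈ s, m x) * (g w : ℝ) := by
      rw [Finset.sum_mul, ← Finset.sum_sub_distrib]
      apply Finset.sum_congr rfl
      intro x _
      push_cast
      ring
    rw [h1, h0, zero_mul, sub_zero]
  rw [key h, key h']
  apply Finset.sum_congr rfl
  intro x hx
  rw [hh x hx w hw]

/-- `gfun_lim` and `mu_tendsto` -/
lemma mu_sq (hd : Deloc) (x y : V) :
    mu (fun h => (((h x - h y : ℤ) : ℝ)) ^ 2) = gfun (x - y) :=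
  (gfun_lim hd y x).limUnder_eq

lemma Two_prod {m m' : V → ℝ} {s : Finset V} (hs : ∀ x, m x ≠ 0 → x ∈ s)
    (hs' : ∀ x, m' x ≠ 0 → x ∈ s) (h0 : ∑ x ∈ s, m x = 0) (h0' : ∑ x ∈ s, m' x = 0)
    (h : V → ℤ) : Lin m h * Lin m' h =
      -(1 / 2) * ∑ x ∈ s, ∑ y ∈ s, m x * m' y * (((h x - h y : ℤ) : ℝ)) ^ 2 := by
  rw [Lin_eq hs, Lin_eq hs']
  have h1 : ∑ x ∈ s, ∑ y ∈ s, m x * m' y * (((h x - h y : ℤ) : ℝ)) ^ 2 =
      (∑ x ∈ s, m x * (h x : ℝ) ^ 2) * (∑ y ∈ s, m' y) +
      (∑ x ∈ s, m x) * (∑ y ∈ s, m' y * (h y : ℝ) ^ 2) -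
      2 * ((∑ x ∈ s, m x * (h x : ℝ)) * (∑ y ∈ s, m' y * (h y : ℝ))) := by
    rw [Finset.sum_mul_sum, Finset.sum_mul_sum, Finset.sum_mul_sum, Finset.mul_sum,
      ← Finset.sum_add_distrib, ← Finset.sum_sub_distrib]
    apply Finset.sum_congr rfl
    intro x _
    rw [Finset.mul_sum, ← Finset.sum_add_distrib, ← Finset.sum_sub_distrib]
    apply Finset.sum_congr rfl
    intro y _
    push_cast
    ring
  rw [h1, h0, h0']
  ring

/-
`(∑ m x h x)(∑ m' y h y) = -(1/2) ∑∑ m x m' y (h x - h y)²` for neutral weights; `mu_add`, `mu_smul`, `mu_sq`.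
-/
theorem mu_lin (hd : Deloc) {m m' : V → ℝ} {s : Finset V} (hs : ∀ x, m x ≠ 0 → x ∈ s)
    (hs' : ∀ x, m' x ≠ 0 → x ∈ s) (h0 : ∑ x ∈ s, m x = 0) (h0' : ∑ x ∈ s, m' x = 0) :
    mu (fun h => Lin m h * Lin m' h) = -(1 / 2) * ∑ x ∈ s, ∑ y ∈ s, m x * m' y * gfun (x - y) := by
  have key : ∀ D : Finset V, avg (Om D) (fun h => Lin m h * Lin m' h) =
      -(1 / 2) * ∑ x ∈ s, ∑ y ∈ s, m x * m' y *
        avg (Om D) (fun h => (((h x - h y : ℤ) : ℝ)) ^ 2) := by
    intro D
    unfold avg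
    have h1 : ∑ g ∈ Om D, Lin m g * Lin m' g =
        -(1 / 2) * ∑ x ∈ s, ∑ y ∈ s, m x * m' y *
          ∑ g ∈ Om D, (((g x - g y : ℤ) : ℝ)) ^ 2 := by
      rw [Finset.sum_congr rfl fun g _ => Two_prod hs hs' h0 h0' g, ← Finset.mul_sum]
      congr 1
      rw [Finset.sum_comm]
      apply Finset.sum_congr rfl
      intro x _
      rw [Finset.sum_comm]
      apply Finset.sum_congr rfl
      intro y _
      rw [Finset.mul_sum]
    rw [h1, mul_div_assoc, Finset.sum_div]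
    congr 1
    apply Finset.sum_congr rfl
    intro x _
    rw [Finset.sum_div]
    apply Finset.sum_congr rfl
    intro y _
    rw [mul_div_assoc]
  have hlim : Tendsto (fun D => avg (Om D) (fun h => Lin m h * Lin m' h)) dom
      (𝓝 (-(1 / 2) * ∑ x ∈ s, ∑ y ∈ s, m x * m' y * gfun (x - y))) := by
    simp only [key]
    apply Tendsto.const_mul
    apply tendsto_finset_sum
    intro x _
    apply tendsto_finset_sum
    intro y _
    exact (gfun_lim hd y x).const_mul _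
  exact hlim.limUnder_eq

/-- the cell masses form a family as in Helper97/RP4/H1.lean (`fcos (mass δ f) = dc δ f`, `fsin (mass δ f) = ds δ f`) -/
theorem mass_fam {f : ℝ × ℝ → ℝ} (hf : ContDiff ℝ 1 f) (hc : HasCompactSupport f)
    (h0 : ∫ y, f y = 0) : Fam (fun δ => mass δ f) f where
  fin := fun _ hδ => mass_finite hf.continuous hc hδ
  neutral := fun _ hδ => (mass_sum hf.continuous hc hδ).trans h0
  conv := fun A ε hε => d_conv hf.continuous hc A ε hε
  small := d_small hf.continuous hc h0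
  decay := d_decay hf hc

/-- the analytic theorem for all families -/
theorem analysis_all {r : ℝ → V → ℝ} {γ : V → ℝ} (h : Data r γ) :
    ∃ K : ℝ, 0 ≤ K ∧
      Tendsto (fun x : V => γ x / log (Real.sqrt ((x.1 : ℝ) ^ 2 + (x.2 : ℝ) ^ 2))) cofinite
        (𝓝 (K / π)) ∧
      ∀ (m : ℝ → V → ℝ) (f : ℝ × ℝ → ℝ), Continuous f → HasCompactSupport f → Fam m f →
        Tendsto (fun δ => qform γ (m δ)) (𝓝[>] 0) (𝓝 (K * energyF f)) := by
  obtain ⟨S, hS, ⟨M, hM⟩, hγ⟩ := seq_exists h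
  obtain ⟨φ, K, hφ, hK⟩ := two_point S hS M hM
  have hγ' := fun x => (hγ x).comp hφ.tendsto_atTop
  exact ⟨K, hK.nonneg, log_asymp' (fun n => S (φ n)) (fun n => hS _) M (fun n => hM _) K hK γ hγ',
    fun m f hf hc F => fam_asymp (fun n => S (φ n)) (fun n => hS _) M (fun n => hM _) K hK γ hγ'
      hf hc F⟩

/-
From the logarithmic asymptotics: all but finitely many `x` satisfy `γ x ≤ (K/π + 1) log |x|`, and `log (2 + |x|) ≥ log 2` for the others.
-/
theorem gfun_log_le {γ : V → ℝ} {K : ℝ} (hK : 0 ≤ K)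
    (h : Tendsto (fun x : V => γ x / log (Real.sqrt ((x.1 : ℝ) ^ 2 + (x.2 : ℝ) ^ 2))) cofinite
      (𝓝 (K / π))) :
    ∃ C : ℝ, 0 < C ∧ ∀ x : V, γ x ≤ C * log (2 + |(x.1 : ℝ)| + |(x.2 : ℝ)|) := by
  have h1 : {x : V | ¬ (γ x / log (Real.sqrt ((x.1 : ℝ) ^ 2 + (x.2 : ℝ) ^ 2)) < K / π + 1)}.Finite :=
    h.eventually_lt_const (lt_add_one (K / π))
  have h2 : {x : V | (x.1 : ℝ) ^ 2 + (x.2 : ℝ) ^ 2 ≤ 1}.Finite := by
    refine (((Set.finite_Icc (-1 : ℤ) 1)).prod ((Set.finite_Icc (-1 : ℤ) 1))).subset ?_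
    intro x hx
    have hx' : x.1 ^ 2 + x.2 ^ 2 ≤ 1 := by
      have h3 : (x.1 : ℝ) ^ 2 + (x.2 : ℝ) ^ 2 ≤ 1 := hx
      exact_mod_cast h3
    have a1 := sq_nonneg x.1
    have a2 := sq_nonneg x.2
    have key : ∀ n : ℤ, n ^ 2 ≤ 1 → n ∈ Icc (-1 : ℤ) 1 := by
      intro n hn
      exact ⟨by nlinarith, by nlinarith⟩
    exact ⟨key _ (by linarith), key _ (by linarith)⟩
  set T : Finset V := h1.toFinset ∪ h2.toFinset with hT
  have hlog2 : 0 < log 2 := log_pos one_lt_two
  have hS : 0 ≤ ∑ x ∈ T, |γ x| := Finset.sum_nonneg (fun x _ => abs_nonneg _)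
  have hKp : 0 ≤ K / π := div_nonneg hK pi_pos.le
  have hCp : 0 < K / π + 1 + (∑ x ∈ T, |γ x|) / log 2 := by positivity
  refine ⟨K / π + 1 + (∑ x ∈ T, |γ x|) / log 2, hCp, fun x => ?_⟩
  have hx0 : (0 : ℝ) ≤ |(x.1 : ℝ)| := abs_nonneg _
  have hx1 : (0 : ℝ) ≤ |(x.2 : ℝ)| := abs_nonneg _
  have hle : log 2 ≤ log (2 + |(x.1 : ℝ)| + |(x.2 : ℝ)|) :=
    log_le_log two_pos (by linarith)
  by_cases hx : x ∈ T
  · have h3 : |γ x| ≤ ∑ y ∈ T, |γ y| :=
      Finset.single_le_sum (f := fun y => |γ y|) (fun y _ => abs_nonneg _) hx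
    calc γ x ≤ |γ x| := le_abs_self _
      _ ≤ ∑ y ∈ T, |γ y| := h3
      _ = (∑ y ∈ T, |γ y|) / log 2 * log 2 := (div_mul_cancel₀ _ hlog2.ne').symm
      _ ≤ (K / π + 1 + (∑ x ∈ T, |γ x|) / log 2) * log 2 :=
        mul_le_mul_of_nonneg_right (by linarith) hlog2.le
      _ ≤ _ := mul_le_mul_of_nonneg_left hle hCp.le
  · rw [hT, Finset.mem_union, not_or] at hx
    have h3 : γ x / log (Real.sqrt ((x.1 : ℝ) ^ 2 + (x.2 : ℝ) ^ 2)) < K / π + 1 := by
      by_contra h4
      exact hx.1 (h1.mem_toFinset.2 h4)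
    have h4 : 1 < (x.1 : ℝ) ^ 2 + (x.2 : ℝ) ^ 2 := by
      by_contra h5
      exact hx.2 (h2.mem_toFinset.2 (not_lt.1 h5))
    have h5 : 0 < log (Real.sqrt ((x.1 : ℝ) ^ 2 + (x.2 : ℝ) ^ 2)) := by
      refine log_pos ?_
      rw [Real.lt_sqrt (by norm_num)]
      linarith
    have h6 : γ x ≤ (K / π + 1) * log (Real.sqrt ((x.1 : ℝ) ^ 2 + (x.2 : ℝ) ^ 2)) :=
      ((div_lt_iff₀ h5).1 h3).le
    have h7 : Real.sqrt ((x.1 : ℝ) ^ 2 + (x.2 : ℝ) ^ 2) ≤ 2 + |(x.1 : ℝ)| + |(x.2 : ℝ)| := by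
      refine (Real.sqrt_le_left (by positivity)).2 ?_
      have e1 := sq_abs (x.1 : ℝ)
      have e2 := sq_abs (x.2 : ℝ)
      nlinarith [mul_nonneg hx0 hx1]
    have h8 : 0 < Real.sqrt ((x.1 : ℝ) ^ 2 + (x.2 : ℝ) ^ 2) := Real.sqrt_pos.2 (by linarith)
    calc γ x ≤ (K / π + 1) * log (Real.sqrt ((x.1 : ℝ) ^ 2 + (x.2 : ℝ) ^ 2)) := h6
      _ ≤ (K / π + 1) * log (2 + |(x.1 : ℝ)| + |(x.2 : ℝ)|) :=
        mul_le_mul_of_nonneg_left (log_le_log h8 h7) (by linarith)
      _ ≤ _ := mul_le_mul_of_nonneg_right (le_add_of_nonneg_right (by positivity))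
        (hlog2.le.trans hle)

private lemma Two_qform {γ : V → ℝ} {m : V → ℝ} {s : Finset V} (hs : ∀ x, m x ≠ 0 → x ∈ s) :
    qform γ m = -(1 / 2) * ∑ x ∈ s, ∑ y ∈ s, m x * m y * γ (x - y) := by
  unfold qform
  congr 1
  rw [← Finset.sum_product']
  refine tsum_eq_sum fun p hp => ?_
  rw [Finset.mem_product, not_and_or] at hp
  rcases hp with hp | hp
  · have : m p.1 = 0 := by
      by_contra h0
      exact hp (hs _ h0)
    rw [this, zero_mul, zero_mul]
  · have : m p.2 = 0 := by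
      by_contra h0
      exact hp (hs _ h0)
    rw [this, mul_zero, zero_mul]

private lemma Two_polar (hd : Deloc) {m m' : V → ℝ} {s : Finset V} (hs : ∀ x, m x ≠ 0 → x ∈ s)
    (hs' : ∀ x, m' x ≠ 0 → x ∈ s) (h0 : ∑ x ∈ s, m x = 0) (h0' : ∑ x ∈ s, m' x = 0) :
    mu (fun h => Lin m h * Lin m' h) =
      (1 / 4) * (qform gfun (fun x => m x + m' x) - qform gfun (fun x => m x - m' x)) := by
  have e1 := mu_lin hd hs hs' h0 h0'
  have e2 := mu_lin hd hs' hs h0' h0
  have e3 : mu (fun h => Lin m' h * Lin m h) = mu (fun h => Lin m h * Lin m' h) := by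
    congr 1
    funext h
    ring
  rw [e3] at e2
  have q1 : qform gfun (fun x => m x + m' x) = _ := Two_qform (s := s) (by
    intro x hx
    by_contra h1
    have a1 : m x = 0 := by
      by_contra h2
      exact h1 (hs _ h2)
    have a2 : m' x = 0 := by
      by_contra h2
      exact h1 (hs' _ h2)
    exact hx (by rw [a1, a2, add_zero]))
  have q2 : qform gfun (fun x => m x - m' x) = _ := Two_qform (s := s) (by
    intro x hx
    by_contra h1
    have a1 : m x = 0 := by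
      by_contra h2
      exact h1 (hs _ h2)
    have a2 : m' x = 0 := by
      by_contra h2
      exact h1 (hs' _ h2)
    exact hx (by rw [a1, a2, sub_zero]))
  rw [q1, q2]
  have e4 : ∑ x ∈ s, ∑ y ∈ s, (m x + m' x) * (m y + m' y) * gfun (x - y) -
      ∑ x ∈ s, ∑ y ∈ s, (m x - m' x) * (m y - m' y) * gfun (x - y) =
      2 * (∑ x ∈ s, ∑ y ∈ s, m x * m' y * gfun (x - y)) +
        2 * (∑ x ∈ s, ∑ y ∈ s, m' x * m y * gfun (x - y)) := by
    rw [Finset.mul_sum, Finset.mul_sum, ← Finset.sum_sub_distrib, ← Finset.sum_add_distrib]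
    refine Finset.sum_congr rfl fun x _ => ?_
    rw [Finset.mul_sum, Finset.mul_sum, ← Finset.sum_sub_distrib, ← Finset.sum_add_distrib]
    refine Finset.sum_congr rfl fun y _ => ?_
    ring
  linarith

private lemma Two_mass_add {f g : ℝ × ℝ → ℝ} (hf : Continuous f) (hfc : HasCompactSupport f)
    (hg : Continuous g) (hgc : HasCompactSupport g) (δ : ℝ) :
    mass δ (fun y => f y + g y) = fun x => mass δ f x + mass δ g x := by
  funext x
  unfold mass
  exact integral_add (hf.integrable_of_hasCompactSupport hfc).integrableOn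
    (hg.integrable_of_hasCompactSupport hgc).integrableOn

private lemma Two_mass_sub {f g : ℝ × ℝ → ℝ} (hf : Continuous f) (hfc : HasCompactSupport f)
    (hg : Continuous g) (hgc : HasCompactSupport g) (δ : ℝ) :
    mass δ (fun y => f y - g y) = fun x => mass δ f x - mass δ g x := by
  funext x
  unfold mass
  exact integral_sub (hf.integrable_of_hasCompactSupport hfc).integrableOn
    (hg.integrable_of_hasCompactSupport hgc).integrableOn

/-
`analysis_all` for `data_of_deloc hd`; `charge_fam`, `mass_fam`, `energy_eq'`; the two point function by polarisation: `mass δ (f ± g) = mass δ f ± mass δ g`,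
`mu_lin` and `energy_polar` (H4.lean), `energy2`.
-/
theorem two_pt (hd : Deloc) :
    ∃ K : ℝ, 0 ≤ K ∧
      Tendsto (fun x : V => gfun x / log (Real.sqrt ((x.1 : ℝ) ^ 2 + (x.2 : ℝ) ^ 2))) cofinite
        (𝓝 (K / π)) ∧
      (∀ f : ℝ × ℝ → ℝ, ContDiff ℝ 1 f → HasCompactSupport f → ∫ y, f y = 0 →
        Tendsto (fun δ => qform gfun (charge f δ)) (𝓝[>] 0) (𝓝 (K * energy f))) ∧
      ∀ f g : ℝ × ℝ → ℝ, ContDiff ℝ 1 f → HasCompactSupport f → ∫ y, f y = 0 →
        ContDiff ℝ 1 g → HasCompactSupport g → ∫ y, g y = 0 →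
        Tendsto (fun δ => mu (fun h => Lin (mass δ f) h * Lin (mass δ g) h)) (𝓝[>] 0)
          (𝓝 (K * energy2 f g)) := by
  obtain ⟨K, hK, hlog, hall⟩ := analysis_all (data_of_deloc hd)
  refine ⟨K, hK, hlog, ?_, ?_⟩
  · intro f hf hc h0
    rw [← energy_eq' f hf hc h0]
    exact hall (charge f) f hf.continuous hc (charge_fam hf hc h0)
  · intro f g hf hfc hf0 hg hgc hg0
    have ff := hf.continuous
    have gg := hg.continuous
    have fi := ff.integrable_of_hasCompactSupport hfc (μ := volume)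
    have gi := gg.integrable_of_hasCompactSupport hgc (μ := volume)
    have pc : HasCompactSupport (fun y => f y + g y) := hfc.add hgc
    have mc : HasCompactSupport (fun y => f y - g y) := hfc.sub hgc
    have pd : ContDiff ℝ 1 (fun y => f y + g y) := hf.add hg
    have md : ContDiff ℝ 1 (fun y => f y - g y) := hf.sub hg
    have p0 : ∫ y, (f y + g y) = 0 := by rw [integral_add fi gi, hf0, hg0, add_zero]
    have m0 : ∫ y, (f y - g y) = 0 := by rw [integral_sub fi gi, hf0, hg0, sub_zero]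
    have t1 := hall (fun δ => mass δ (fun y => f y + g y)) _ pd.continuous pc (mass_fam pd pc p0)
    have t2 := hall (fun δ => mass δ (fun y => f y - g y)) _ md.continuous mc (mass_fam md mc m0)
    have t3 := (t1.sub t2).const_mul (1 / 4)
    have e : 1 / 4 * (K * energyF (fun y => f y + g y) - K * energyF (fun y => f y - g y)) =
        K * energy2 f g := by
      rw [energy_eq' _ pd pc p0, energy_eq' _ md mc m0]
      have := energy_polar f g ff hfc gg hgc
      have h2 : K * (energy (fun y => f y + g y) - energy (fun y => f y - g y)) =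
          K * (4 * energy2 f g) := by rw [this]
      linarith
    rw [e] at t3
    refine t3.congr' ?_
    filter_upwards [self_mem_nhdsWithin] with δ hδ
    have hδ' : 0 < δ := hδ
    have a1 := mass_finite ff hfc hδ'
    have a2 := mass_finite gg hgc hδ'
    have hs : ∀ x, mass δ f x ≠ 0 → x ∈ a1.toFinset ∪ a2.toFinset := fun x hx =>
      Finset.mem_union_left _ (a1.mem_toFinset.2 hx)
    have hs' : ∀ x, mass δ g x ≠ 0 → x ∈ a1.toFinset ∪ a2.toFinset := fun x hx =>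
      Finset.mem_union_right _ (a2.mem_toFinset.2 hx)
    have b1 : ∑ x ∈ a1.toFinset ∪ a2.toFinset, mass δ f x = 0 := by
      rw [← hf0, ← mass_sum ff hfc hδ']
      refine (tsum_eq_sum fun x hx => ?_).symm
      by_contra h1
      exact hx (hs x h1)
    have b2 : ∑ x ∈ a1.toFinset ∪ a2.toFinset, mass δ g x = 0 := by
      rw [← hg0, ← mass_sum gg hgc hδ']
      refine (tsum_eq_sum fun x hx => ?_).symm
      by_contra h1
      exact hx (hs' x h1)
    have b3 := Two_polar hd hs hs' b1 b2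
    rw [b3, Two_mass_add ff hfc gg hgc, Two_mass_sub ff hfc gg hgc]

end RP4
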