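import Pool.Agent.Helper63.RP4.A01

/-!
A02.  Finiteness and membership lemmas.
-/

open Finset

namespace RP4

/-
If `bdry D ⊆ Z` then `g b = 0` for the `b` of `IsHom.bound_bdry`, so `|g v| ≤ D.card` for `v ∈ D` and `g v = 0`
off `D`: injects into the functions `D → Icc (-N) N` (e.g. via `Set.Finite.subset` of the image of
`Finset.pi`/`Fintype.piFinset`, or `Set.Finite.of_injOn`).
-/
lemma A02_fin (D : Finset V) (N : ℤ) :
    {g : V → ℤ | (∀ v, v ∉ D → g v = 0) ∧ ∀ v ∈ D, |g v| ≤ N}.Finite := by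
  apply Set.Finite.of_finite_image (f := fun (g : V → ℤ) (v : D) => g v.1)
  · apply (Set.Finite.pi' (fun _ : D => Set.finite_Icc (-N) N)).subset
    rintro f ⟨g, hg, rfl⟩
    intro v
    exact abs_le.1 (hg.2 v.1 v.2)
  · intro g hg g' hg' h
    funext v
    by_cases hv : v ∈ D
    · exact congrFun h ⟨v, hv⟩
    · rw [hg.1 v hv, hg'.1 v hv]

lemma zeroSet_finite (D : Finset V) (p : ℤ) {Z : Finset V} (hZ : bdry D ⊆ Z) :
    (zeroSet D p Z).Finite := by
  apply (A02_fin D D.card).subset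
  rintro g ⟨hg, hg0⟩
  refine ⟨hg.off, fun v hv => ?_⟩
  obtain ⟨b, hb, hbv⟩ := hg.bound_bdry hv
  rw [hg0 b (hZ hb), sub_zero] at hbv
  exact hbv

/-- same with the bound `|g v| ≤ D.card + |c|` -/
lemma pinSet_finite (D : Finset V) (w : V) (c : ℤ) : (pinSet D w c).Finite := by
  apply (A02_fin D (D.card + |c|)).subset
  rintro g ⟨hg, -, hgc⟩
  refine ⟨hg.off, fun v hv => ?_⟩
  obtain ⟨b, hb, hbv⟩ := hg.bound_bdry hv
  rw [hgc b hb] at hbv
  have h1 := abs_add_le (g v - c) c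
  rw [sub_add_cancel] at h1
  linarith

lemma mem_Zs {D : Finset V} {p : ℤ} {Z : Finset V} (hZ : bdry D ⊆ Z) {g : V → ℤ} :
    g ∈ Zs D p Z ↔ IsHom D p g ∧ ∀ v ∈ Z, g v = 0 := by
  unfold Zs
  rw [dif_pos (zeroSet_finite D p hZ), Set.Finite.mem_toFinset]
  rfl

lemma mem_Pin {D : Finset V} {w : V} {c : ℤ} {g : V → ℤ} :
    g ∈ Pin D w c ↔ IsHom D (par w) g ∧ g w = 0 ∧ ∀ v ∈ bdry D, g v = c := by
  unfold Pin
  rw [dif_pos (pinSet_finite D w c), Set.Finite.mem_toFinset]
  rfl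

lemma mem_Om {D : Finset V} {g : V → ℤ} :
    g ∈ Om D ↔ IsHom D 0 g ∧ ∀ v ∈ bdry D, g v = 0 :=
  mem_Zs (Subset.refl _)

lemma Pin_zero_eq (D : Finset V) (w : V) :
    Pin D w 0 = Zs D (par w) (insert w (bdry D)) := by
  ext g
  rw [mem_Pin, mem_Zs (subset_insert w (bdry D))]
  constructor
  · rintro ⟨h1, h2, h3⟩
    refine ⟨h1, fun v hv => ?_⟩
    rcases mem_insert.1 hv with rfl | hv
    · exact h2
    · exact h3 v hv
  · rintro ⟨h1, h2⟩
    exact ⟨h1, h2 w (mem_insert_self _ _), fun v hv => h2 v (mem_insert_of_mem hv)⟩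

/-- the function `0` on one parity class, `1` on the other one (and `0` off `D`) -/
noncomputable def flat (D : Finset V) (p : ℤ) : V → ℤ := by
  classical exact fun v => if v ∈ D then (if Even (par v - p) then 0 else 1) else 0

lemma A02_adj {u v : V} (h : Adj u v) : par u = par v + 1 ∨ par u = par v - 1 := by
  unfold Adj at h
  unfold par
  rcases abs_cases (u.1 - v.1) with ⟨h1, h2⟩ | ⟨h1, h2⟩ <;>
    rcases abs_cases (u.2 - v.2) with ⟨h3, h4⟩ | ⟨h3, h4⟩ <;> rw [h1, h3] at h <;> omega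

lemma flat_isHom (D : Finset V) (p : ℤ) : IsHom D p (flat D p) := by
  classical
  refine ⟨fun v hv => ?_, fun v hv => ?_, fun u hu v hv h => ?_⟩
  · simp only [flat, if_neg hv]
  · simp only [flat, if_pos hv]
    split_ifs with h
    · rw [Int.even_iff] at h ⊢
      omega
    · rw [Int.even_iff] at h ⊢
      omega
  · have h1 := A02_adj h
    simp only [flat, if_pos hu, if_pos hv]
    split_ifs with h2 h3 h3
    · rw [Int.even_iff] at h2 h3
      omega
    · norm_num
    · norm_num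
    · rw [Int.even_iff] at h2 h3
      omega

lemma flat_mem_Zs {D : Finset V} {p : ℤ} {Z : Finset V} (hZ : bdry D ⊆ Z) (hZD : Z ⊆ D)
    (hp : ∀ v ∈ Z, Even (par v - p)) : flat D p ∈ Zs D p Z := by
  classical
  rw [mem_Zs hZ]
  refine ⟨flat_isHom D p, fun v hv => ?_⟩
  simp only [flat, if_pos (hZD hv), if_pos (hp v hv)]

/-- the boundary of a set is contained in the set -/
lemma bdry_subset (D : Finset V) : bdry D ⊆ D := by
  classical
  unfold bdry
  exact Finset.filter_subset _ _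

lemma Om_nonempty {D : Finset V} (hD : BdryPar D 0) : (Om D).Nonempty :=
  ⟨flat D 0, flat_mem_Zs (Subset.refl _) (bdry_subset D) hD⟩

end RP4
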