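import Pool.Agent.Helper63.RP4.A02

/-!
E1.  The covariance as a cluster quantity.
-/

open Finset

namespace RP4

/-- `y` can be reached from `x` through vertices where `g` does not vanish -/
def Conn (g : V → ℤ) (x y : V) : Prop :=
  g x ≠ 0 ∧ Relation.ReflTransGen (fun u v => Adj u v ∧ g v ≠ 0) x y

open Classical in
/-- cluster weight -/
noncomputable def clu (x y : V) (g : V → ℤ) : ℝ :=
  if Conn g x y then |(g x : ℝ)| * |(g y : ℝ)| else 0

lemma clu_nonneg (x y : V) (g : V → ℤ) : 0 ≤ clu x y g := by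
  unfold clu
  split_ifs
  · positivity
  · exact le_rfl

private lemma E1_conn_mono {x y : V} {g g' : V → ℤ} (h : ∀ v, g v ≠ 0 → g' v ≠ 0)
    (hc : Conn g x y) : Conn g' x y := by
  obtain ⟨hx, hr⟩ := hc
  refine ⟨h x hx, ?_⟩
  induction hr with
  | refl => exact Relation.ReflTransGen.refl
  | tail _ huv ih => exact ih.tail ⟨huv.1, h _ huv.2⟩

private lemma E1_conn_iff {x y : V} {g g' : V → ℤ} (h : ∀ v, |g v| = |g' v|) :
    Conn g x y ↔ Conn g' x y :=
  ⟨E1_conn_mono (fun v hv => abs_ne_zero.1 (by rw [← h v]; exact abs_ne_zero.2 hv)),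
    E1_conn_mono (fun v hv => abs_ne_zero.1 (by rw [h v]; exact abs_ne_zero.2 hv))⟩

/-- `Conn g x y → Conn g' x y` since `g v ≠ 0 → g' v ≠ 0` -/
lemma clu_mono {x y : V} {g g' : V → ℤ} (h : ∀ v, |g v| ≤ |g' v|) : clu x y g ≤ clu x y g' := by
  have h1 : ∀ v, |(g v : ℝ)| ≤ |(g' v : ℝ)| := by
    intro v
    have := h v
    exact_mod_cast this
  by_cases hc : Conn g x y
  · have hc' : Conn g' x y := E1_conn_mono (fun v hv => by
      intro h0
      have h2 := h v
      rw [h0, abs_zero] at h2
      exact hv (abs_nonpos_iff.1 h2)) hc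
    unfold clu
    rw [if_pos hc, if_pos hc']
    exact mul_le_mul (h1 x) (h1 y) (abs_nonneg _) (abs_nonneg _)
  · have h2 : clu x y g = 0 := by
      unfold clu
      rw [if_neg hc]
    rw [h2]
    exact clu_nonneg x y g'

lemma clu_abs (x y : V) (g : V → ℤ) : clu x y (fun v => |g v|) = clu x y g := by
  have h1 : Conn (fun v => |g v|) x y ↔ Conn g x y := E1_conn_iff (fun v => abs_abs (g v))
  unfold clu
  by_cases hc : Conn g x y
  · rw [if_pos hc, if_pos (h1.2 hc)]
    simp only [Int.cast_abs, abs_abs]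
  · rw [if_neg hc, if_neg (fun h => hc (h1.1 h))]

private lemma E1_adj_comm {u v : V} (h : Adj u v) : Adj v u := by
  unfold Adj at *
  rw [abs_sub_comm v.1, abs_sub_comm v.2]
  exact h

private lemma E1_ext {h : V → ℤ} {x u v : V} (hc : Conn h x u) (huv : Adj u v) (hv : h v ≠ 0) :
    Conn h x v := ⟨hc.1, hc.2.tail ⟨huv, hv⟩⟩

private lemma E1_sign {D : Finset V} {p : ℤ} {h : V → ℤ} (hh : IsHom D p h) {x y : V}
    (hc : Conn h x y) : 0 < h x * h y := by
  obtain ⟨hx, hr⟩ := hc
  induction hr with
  | refl => exact mul_self_pos.2 hx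
  | @tail u v _ huv ih =>
    have hu : h u ≠ 0 := by
      intro h0
      rw [h0, mul_zero] at ih
      exact lt_irrefl _ ih
    have huD : u ∈ D := by
      by_contra hcon
      exact hu (hh.off u hcon)
    have hvD : v ∈ D := by
      by_contra hcon
      exact huv.2 (hh.off v hcon)
    have h1 := hh.step u huD v hvD huv.1
    have h2 := huv.2
    have h3 : (0 < h u ∧ 0 < h v) ∨ (h u < 0 ∧ h v < 0) := by
      rcases abs_cases (h u - h v) with ⟨h4, h5⟩ | ⟨h4, h5⟩ <;> rw [h4] at h1 <;> omega
    rcases h3 with ⟨h4, h5⟩ | ⟨h4, h5⟩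
    · have h6 : 0 < h x := by
        by_contra hcon
        push Not at hcon
        have := mul_nonpos_of_nonpos_of_nonneg hcon h4.le
        omega
      exact mul_pos h6 h5
    · have h6 : h x < 0 := by
        by_contra hcon
        push Not at hcon
        have := mul_nonpos_of_nonneg_of_nonpos hcon h4.le
        omega
      exact mul_pos_of_neg_of_neg h6 h5

open Classical in
/-- flip of the cluster of `x` when it does not contain `y` -/
private noncomputable def E1_flip (x y : V) (h : V → ℤ) : V → ℤ :=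
  fun v => if Conn h x v ∧ ¬ Conn h x y then - h v else h v

private lemma E1_flip_pos {x y : V} {h : V → ℤ} {v : V} (hc : Conn h x v ∧ ¬ Conn h x y) :
    E1_flip x y h v = - h v := by
  unfold E1_flip
  rw [if_pos hc]

private lemma E1_flip_neg {x y : V} {h : V → ℤ} {v : V} (hc : ¬ (Conn h x v ∧ ¬ Conn h x y)) :
    E1_flip x y h v = h v := by
  unfold E1_flip
  rw [if_neg hc]

private lemma E1_flip_abs (x y : V) (h : V → ℤ) (v : V) : |E1_flip x y h v| = |h v| := by
  unfold E1_flip
  split_ifs
  · exact abs_neg _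
  · rfl

private lemma E1_flip_flip (x y : V) (h : V → ℤ) : E1_flip x y (E1_flip x y h) = h := by
  funext v
  have h1 : ∀ a b : V, Conn (E1_flip x y h) a b ↔ Conn h a b :=
    fun a b => E1_conn_iff (E1_flip_abs x y h)
  by_cases hc : Conn h x v ∧ ¬ Conn h x y
  · have h2 : Conn (E1_flip x y h) x v ∧ ¬ Conn (E1_flip x y h) x y := by
      rw [h1, h1]
      exact hc
    rw [E1_flip_pos h2, E1_flip_pos hc, neg_neg]
  · have h2 : ¬ (Conn (E1_flip x y h) x v ∧ ¬ Conn (E1_flip x y h) x y) := by
      rw [h1, h1]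
      exact hc
    rw [E1_flip_neg h2, E1_flip_neg hc]

private lemma E1_flip_mem {D : Finset V} {x y : V} {h : V → ℤ} (hh : h ∈ Om D) :
    E1_flip x y h ∈ Om D := by
  rw [mem_Om] at hh ⊢
  obtain ⟨hh, hb⟩ := hh
  refine ⟨⟨fun v hv => ?_, fun v hv => ?_, fun u hu v hv huv => ?_⟩, fun v hv => ?_⟩
  · have h1 := hh.off v hv
    have h2 := E1_flip_abs x y h v
    rw [h1, abs_zero] at h2
    exact abs_eq_zero.1 h2
  · have h1 := hh.par v hv
    unfold E1_flip
    split_ifs
    · rw [Int.even_iff] at h1 ⊢
      omega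
    · exact h1
  · have h1 := hh.step u hu v hv huv
    unfold E1_flip
    by_cases hu' : Conn h x u ∧ ¬ Conn h x y
    · by_cases hv' : Conn h x v ∧ ¬ Conn h x y
      · rw [if_pos hu', if_pos hv']
        have h2 : - h u - - h v = -(h u - h v) := by ring
        rw [h2, abs_neg, h1]
      · rw [if_pos hu', if_neg hv']
        have h2 : h v = 0 := by
          by_contra hcon
          exact hv' ⟨E1_ext hu'.1 huv hcon, hu'.2⟩
        rw [h2, sub_zero] at h1 ⊢
        rw [abs_neg, h1]
    · by_cases hv' : Conn h x v ∧ ¬ Conn h x y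
      · rw [if_neg hu', if_pos hv']
        have h2 : h u = 0 := by
          by_contra hcon
          exact hu' ⟨E1_ext hv'.1 (E1_adj_comm huv) hcon, hv'.2⟩
        rw [h2, zero_sub] at h1 ⊢
        rw [neg_neg]
        rw [abs_neg] at h1
        exact h1
      · rw [if_neg hu', if_neg hv']
        exact h1
  · have h1 := hb v hv
    have h2 := E1_flip_abs x y h v
    rw [h1, abs_zero] at h2
    exact abs_eq_zero.1 h2

/-
(1) If `Conn h x y` then `h x` and `h y` have the same sign (induction along the path: nonzero values only occur in `D` (`off`), and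
`|h u - h v| = 1` with both nonzero implies the same sign), so `h x * h y = |h x| |h y|`.
(2) The sum of `h x * h y` over `{h ∈ Om D | ¬ Conn h x y}` is `0`: involution `Φ h v := if Conn h x v then - h v else h v`.
`Φ h ∈ Om D`: if `u, v ∈ D` adjacent, `Conn h x u`, `¬ Conn h x v` then `h v = 0` (else the path could be extended), so `|Φ h u - Φ h v| = |h u| = 1`.
`|Φ h| = |h|`, so `Conn (Φ h) = Conn h`, `Φ (Φ h) = h`, `Φ h y = h y`, `Φ h x = - h x` (if `h x = 0` the summand vanishes).
-/
theorem cov_clu (D : Finset V) (x y : V) :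
    ∑ h ∈ Om D, (h x : ℝ) * h y = ∑ h ∈ Om D, clu x y h := by
  classical
  rw [← sub_eq_zero, ← Finset.sum_sub_distrib]
  have hcl : ∀ h ∈ Om D, Conn h x y → (h x : ℝ) * h y - clu x y h = 0 := by
    intro h hh hc
    have h1 := E1_sign (mem_Om.1 hh).1 hc
    have h2 : (0 : ℝ) < (h x : ℝ) * (h y : ℝ) := by exact_mod_cast h1
    unfold clu
    rw [if_pos hc, ← abs_mul, abs_of_pos h2, sub_self]
  have hncl : ∀ h : V → ℤ, ¬ Conn h x y → clu x y h = 0 := by
    intro h hc
    unfold clu
    rw [if_neg hc]
  refine Finset.sum_involution (fun h _ => E1_flip x y h) ?_ ?_ ?_ ?_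
  · intro h hh
    by_cases hc : Conn h x y
    · have h1 : E1_flip x y h = h := by
        funext v
        unfold E1_flip
        rw [if_neg (fun h => h.2 hc)]
      rw [h1, hcl h hh hc, add_zero]
    · have hc' : ¬ Conn (E1_flip x y h) x y := fun h' =>
        hc ((E1_conn_iff (E1_flip_abs x y h)).1 h')
      rw [hncl _ hc, hncl _ hc', sub_zero, sub_zero]
      by_cases hx : h x = 0
      · have h2 : E1_flip x y h x = 0 := by
          have h2 := E1_flip_abs x y h x
          rw [hx, abs_zero] at h2
          exact abs_eq_zero.1 h2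
        rw [hx, h2]
        simp
      · have h2 : E1_flip x y h x = - h x := by
          unfold E1_flip
          rw [if_pos ⟨⟨hx, Relation.ReflTransGen.refl⟩, hc⟩]
        have h3 : E1_flip x y h y = h y := by
          unfold E1_flip
          rw [if_neg (fun h' => hc h'.1)]
        rw [h2, h3]
        push_cast
        ring
  · intro h hh hne heq
    have hc : ¬ Conn h x y := fun hc => hne (hcl h hh hc)
    have hx : h x ≠ 0 := by
      intro h0
      apply hne
      rw [hncl h hc, h0]
      simp
    have h2 : E1_flip x y h x = - h x := by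
      unfold E1_flip
      rw [if_pos ⟨⟨hx, Relation.ReflTransGen.refl⟩, hc⟩]
    have h3 := congrFun heq x
    rw [h2] at h3
    omega
  · intro h hh
    exact E1_flip_mem hh
  · intro h hh
    exact E1_flip_flip x y h

end RP4
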