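import Pool.Agent.Helper63.RP4.A06
import Pool.Agent.Helper63.RP4.E1
import Pool.Agent.Helper63.RP4.E2

/-!
E3.  Covariances increase with the domain.
-/

open Finset

namespace RP4

/-- `avg_restrict` for functions which only depend on the inner part -/
private lemma E3_restrict (D D' : Finset V) (hDD' : D ⊆ D') (hp : BdryPar D 0)
    (hp' : BdryPar D' 0) (F : (V → ℤ) → ℝ)
    (hF : ∀ g ∈ Zs D' 0 (bdry D' ∪ bdry D), F g = F (A06_in D g)) :
    avg (Zs D' 0 (bdry D' ∪ bdry D)) F = avg (Om D) F := by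
  classical
  have eA : bdry D' ∪ bdry D ∪ (∅ : Finset V) = bdry D' ∪ bdry D := union_empty _
  have eB : bdry D ∪ (∅ : Finset V) = bdry D := union_empty _
  set A := Zs D' 0 (bdry D' ∪ bdry D) with hA
  set B := Zs D 0 (bdry D) with hB
  have hrho : ∀ g ∈ A, A06_in D g ∈ B := fun g hg => by
    have h := A06_rho hDD' (p := 0) (Z0 := ∅) (empty_subset D) (g := g) (by rw [eA]; exact hg)
    rwa [eB] at h
  have hglue : ∀ u ∈ B, ∀ g ∈ A, u + A06_out D g ∈ A := fun u hu g hg => by
    have h := A06_glue hDD' (p := 0) (Z0 := ∅) (u := u) (g := g) (by rw [eB]; exact hu)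
      (by rw [eA]; exact hg)
    rwa [eA] at h
  have hne : A.Nonempty := by
    refine ⟨flat D' 0, flat_mem_Zs subset_union_left ?_ ?_⟩
    · intro v hv
      rcases mem_union.1 hv with hv | hv
      · exact bdry_subset D' hv
      · exact hDD' (bdry_subset D hv)
    · intro v hv
      rcases mem_union.1 hv with hv | hv
      · exact hp' v hv
      · exact hp v hv
  have hBoff : ∀ u ∈ B, ∀ v, v ∉ D → u v = 0 := fun u hu v hv =>
    ((mem_Zs (subset_refl (bdry D))).1 hu).1.off v hv
  set O := A.image (A06_out D) with hO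
  have hOne : O.Nonempty := hne.image _
  have key : ∀ G : (V → ℤ) → ℝ, (∀ g ∈ A, G g = G (A06_in D g)) →
      ∑ g ∈ A, G g = O.card * ∑ u ∈ B, G u := by
    intro G hG
    have h1 : ∑ g ∈ A, G g = ∑ q ∈ B ×ˢ O, G q.1 := by
      refine Finset.sum_nbij' (fun g => (A06_in D g, A06_out D g)) (fun q => q.1 + q.2)
        ?_ ?_ ?_ ?_ ?_
      · intro g hg
        exact mem_product.2 ⟨hrho g hg, mem_image_of_mem _ hg⟩
      · intro q hq
        obtain ⟨h1, h2⟩ := mem_product.1 hq
        obtain ⟨g, hg, hg'⟩ := mem_image.1 h2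
        rw [← hg']
        exact hglue _ h1 g hg
      · intro g hg
        funext v
        by_cases hv : v ∈ D
        · simp only [Pi.add_apply, A06_in_mem D g hv, A06_out_mem D g hv, add_zero]
        · simp only [Pi.add_apply, A06_in_not D g hv, A06_out_not D g hv, zero_add]
      · intro q hq
        obtain ⟨h1, h2⟩ := mem_product.1 hq
        obtain ⟨g, hg, hg'⟩ := mem_image.1 h2
        have h3 := hBoff _ h1
        ext v
        · by_cases hv : v ∈ D
          · simp only [A06_in_mem D _ hv, Pi.add_apply, ← hg', A06_out_mem D g hv, add_zero]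
          · simp only [A06_in_not D _ hv, h3 v hv]
        · by_cases hv : v ∈ D
          · simp only [A06_out_mem D _ hv, ← hg']
          · simp only [A06_out_not D _ hv, Pi.add_apply, h3 v hv, zero_add]
      · intro g hg
        exact hG g hg
    rw [h1, Finset.sum_product, Finset.mul_sum]
    refine Finset.sum_congr rfl fun u _ => ?_
    simp only [sum_const, nsmul_eq_mul]
  have hc := key (fun _ => 1) (fun _ _ => rfl)
  simp only [sum_const, nsmul_eq_mul, mul_one] at hc
  have hOc : (O.card : ℝ) ≠ 0 := by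
    exact_mod_cast hOne.card_pos.ne'
  show avg A F = avg B F
  unfold avg
  rw [key F hF, hc, mul_div_mul_left _ _ hOc]

private lemma E3_step_in {D : Finset V} {g : V → ℤ} {v : V} (h : A06_in D g v ≠ 0) : g v ≠ 0 := by
  by_cases hv : v ∈ D
  · rwa [A06_in_mem D g hv] at h
  · exact absurd (A06_in_not D g hv) h

private lemma E3_conn {D : Finset V} {g : V → ℤ} (h0 : ∀ v ∈ bdry D, g v = 0) {x y : V}
    (hx : x ∈ D) : Conn g x y ↔ Conn (A06_in D g) x y := by
  constructor
  · rintro ⟨h1, h2⟩
    have key : ∀ z, Relation.ReflTransGen (fun u v => Adj u v ∧ g v ≠ 0) x z →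
        z ∈ D ∧ g z ≠ 0 ∧
          Relation.ReflTransGen (fun u v => Adj u v ∧ A06_in D g v ≠ 0) x z := by
      intro z hz
      induction hz with
      | refl => exact ⟨hx, h1, Relation.ReflTransGen.refl⟩
      | @tail b c _ hbc ih =>
        obtain ⟨i1, i2, i3⟩ := ih
        have hcD : c ∈ D := by
          by_contra hc
          exact i2 (h0 b (mem_bdry.2 ⟨i1, c, A06_adj hbc.1, hc⟩))
        refine ⟨hcD, hbc.2, i3.tail ⟨hbc.1, ?_⟩⟩
        rw [A06_in_mem D g hcD]
        exact hbc.2
    refine ⟨?_, (key y h2).2.2⟩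
    rw [A06_in_mem D g hx]
    exact h1
  · rintro ⟨h1, h2⟩
    exact ⟨E3_step_in h1, Relation.ReflTransGen.mono
      (fun u v huv => ⟨huv.1, E3_step_in huv.2⟩) _ _ h2⟩

/-
As `avg_restrict` (A06.lean, with `Z0 = ∅`): the bijection `g ↦ (A06_in D g, A06_out D g)`; for `g` vanishing on `bdry D` and `x, y ∈ D`:
`Conn g x y ↔ Conn (A06_in D g) x y` (a path from `x ∈ D` through nonzero values never leaves `D`: a vertex of `D` with a neighbour outside `D`
is in `bdry D`), so `clu x y g = clu x y (A06_in D g)`.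
-/
theorem clu_restrict (D D' : Finset V) (hDD' : D ⊆ D') (hp : BdryPar D 0) (hp' : BdryPar D' 0)
    (x y : V) (hx : x ∈ D) (hy : y ∈ D) :
    avg (Zs D' 0 (bdry D' ∪ bdry D)) (clu x y) = avg (Om D) (clu x y) := by
  classical
  refine E3_restrict D D' hDD' hp hp' _ fun g hg => ?_
  have h0 : ∀ v ∈ bdry D, g v = 0 := fun v hv =>
    ((mem_Zs subset_union_left).1 hg).2 v (mem_union_right _ hv)
  unfold clu
  rw [A06_in_mem D g hx, A06_in_mem D g hy]
  by_cases h : Conn g x y
  · rw [if_pos h, if_pos ((E3_conn h0 hx).1 h)]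
  · rw [if_neg h, if_neg fun h' => h ((E3_conn h0 hx).2 h')]

/-
`cov_clu`, `clu_restrict`, `abs_fkg_gen` with `Z = bdry D'`, `Z' = bdry D' ∪ bdry D`, `F = clu x y`.
-/
theorem cov_mono (D D' : Finset V) (hDD' : D ⊆ D') (hp : BdryPar D 0) (hp' : BdryPar D' 0)
    (x y : V) (hx : x ∈ D) (hy : y ∈ D) :
    avg (Om D) (fun h => (h x : ℝ) * h y) ≤ avg (Om D') (fun h => (h x : ℝ) * h y) := by
  classical
  have e1 : ∀ D : Finset V, avg (Om D) (fun h => (h x : ℝ) * h y) = avg (Om D) (clu x y) :=
    fun D => by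
      unfold avg
      rw [cov_clu]
  rw [e1, e1, ← clu_restrict D D' hDD' hp hp' x y hx hy]
  refine abs_fkg_gen D' 0 (bdry D') (bdry D' ∪ bdry D) (subset_refl _) subset_union_left ?_ ?_
    (clu x y) (clu_nonneg x y) (clu_abs x y) ?_
  · intro v hv
    rcases mem_union.1 hv with hv | hv
    · exact bdry_subset D' hv
    · exact hDD' (bdry_subset D hv)
  · intro v hv
    rcases mem_union.1 hv with hv | hv
    · exact hp' v hv
    · exact hp v hv
  · intro g g' hg hgg'
    refine clu_mono fun v => ?_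
    rw [abs_of_nonneg (hg v), abs_of_nonneg ((hg v).trans (hgg' v))]
    exact hgg' v

end RP4
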