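import Pool.Agent.Helper63.RP4.T1

/-!
T4.  Reflection positivity in finite volume.
-/

open Finset

namespace RP4

/-- data of a reflection: `H` is the closed half plane, the fixed points are its intersection with its image -/
structure ReflD (θ : V → V) (H : V → Prop) : Prop where
  inv : ∀ v, θ (θ v) = v
  adj : ∀ u v, Adj (θ u) (θ v) ↔ Adj u v
  par : ∀ v, Even (RP4.par (θ v) - RP4.par v)
  cover : ∀ v, H v ∨ H (θ v)
  fix : ∀ v, H v → H (θ v) → θ v = v
  edge : ∀ u v, Adj u v → (H u ∧ H v) ∨ (H (θ u) ∧ H (θ v))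

open Classical in
/-- the function equal to `u` on the half plane and to `v` off it -/
private noncomputable def T4_glue (H : V → Prop) (u v : V → ℤ) : V → ℤ :=
  fun w => if H w then u w else v w

open Classical in
/-- the restriction to the line of fixed points -/
private noncomputable def T4_key (θ : V → V) (H : V → Prop) (u : V → ℤ) : V → ℤ :=
  fun w => if H w ∧ H (θ w) then u w else 0

private lemma T4_bdry {θ : V → V} {H : V → Prop} (hR : ReflD θ H) {D : Finset V}
    (hD : ∀ v, v ∈ D ↔ θ v ∈ D) {v : V} (hv : v ∈ bdry D) : θ v ∈ bdry D := by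
  rw [mem_bdry] at hv ⊢
  obtain ⟨h1, u, h2, h3⟩ := hv
  exact ⟨(hD v).1 h1, θ u, (hR.adj u v).2 h2, fun h => h3 ((hD u).2 h)⟩

private lemma T4_comp {θ : V → V} {H : V → Prop} (hR : ReflD θ H) {D : Finset V}
    (hD : ∀ v, v ∈ D ↔ θ v ∈ D) {h : V → ℤ} (hh : h ∈ Om D) : (fun v => h (θ v)) ∈ Om D := by
  rw [mem_Om] at hh ⊢
  obtain ⟨h1, h2⟩ := hh
  refine ⟨⟨fun v hv => h1.off _ fun h => hv ((hD v).2 h), fun v hv => ?_,
    fun u hu v hv huv => ?_⟩, fun v hv => h2 _ (T4_bdry hR hD hv)⟩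
  · have h3 := h1.par _ ((hD v).1 hv)
    have h4 := hR.par v
    rw [Int.even_iff] at h3 h4 ⊢
    omega
  · exact h1.step _ ((hD u).1 hu) _ ((hD v).1 hv) ((hR.adj u v).2 huv)

private lemma T4_glue_mem {θ : V → V} {H : V → Prop} (hR : ReflD θ H) {D : Finset V}
    {u v : V → ℤ} (hu : u ∈ Om D) (hv : v ∈ Om D) (huv : ∀ w, H w → H (θ w) → u w = v w) :
    T4_glue H u v ∈ Om D := by
  classical
  rw [mem_Om] at hu hv ⊢
  obtain ⟨u1, u2⟩ := hu
  obtain ⟨v1, v2⟩ := hv
  have hx : ∀ w, H (θ w) → T4_glue H u v w = v w := by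
    intro w hw
    unfold T4_glue
    split_ifs with h
    · exact huv w h hw
    · rfl
  have hy : ∀ w, H w → T4_glue H u v w = u w := by
    intro w hw
    unfold T4_glue
    rw [if_pos hw]
  have hc : ∀ w, T4_glue H u v w = u w ∨ T4_glue H u v w = v w := by
    intro w
    unfold T4_glue
    split_ifs
    · exact Or.inl rfl
    · exact Or.inr rfl
  refine ⟨⟨fun w hw => ?_, fun w hw => ?_, fun a ha b hb hab => ?_⟩, fun w hw => ?_⟩
  · rcases hc w with h | h <;> rw [h]
    · exact u1.off w hw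
    · exact v1.off w hw
  · rcases hc w with h | h <;> rw [h]
    · exact u1.par w hw
    · exact v1.par w hw
  · rcases hR.edge a b hab with ⟨h1, h2⟩ | ⟨h1, h2⟩
    · rw [hy a h1, hy b h2]
      exact u1.step a ha b hb hab
    · rw [hx a h1, hx b h2]
      exact v1.step a ha b hb hab
  · rcases hc w with h | h <;> rw [h]
    · exact u2 w hw
    · exact v2 w hw

private lemma T4_sum_nonneg {α β : Type*} (S : Finset α) (k : α → β) (F : α → ℝ) :
    0 ≤ ∑ u ∈ S, ∑ v ∈ S, (open Classical in if k u = k v then F u * F v else 0) := by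
  classical
  rw [← Finset.sum_fiberwise_of_maps_to (fun u hu => Finset.mem_image_of_mem k hu)]
  apply Finset.sum_nonneg
  intro a _
  have h1 : ∑ u ∈ S with k u = a, ∑ v ∈ S, (if k u = k v then F u * F v else 0) =
      (∑ u ∈ S with k u = a, F u) * (∑ v ∈ S with k v = a, F v) := by
    rw [Finset.sum_mul]
    apply Finset.sum_congr rfl
    intro u hu
    rw [(Finset.mem_filter.1 hu).2, Finset.mul_sum, Finset.sum_filter]
    apply Finset.sum_congr rfl
    intro v _
    simp only [eq_comm]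
  rw [h1]
  exact mul_self_nonneg _

/-
`D` invariant under `θ`.  Let `Σ = {u ∈ Om D | u ∘ θ = u}` (symmetric height functions) and for `h ∈ Om D`: `R h v = h v` if `H v`, `h (θ v)` otherwise;
`L h = R (h ∘ θ)`.  `h ↦ (R h, L h)` is a bijection of `Om D` onto `{(u, v) ∈ Σ × Σ | u = v on the fixed points of θ}` (homomorphism property by
`edge`).  `F h = F (R h)` and `F (h ∘ θ) = F (L h)` as `F` depends only on the values on `H`.  So
`Σ_h F h F (h∘θ) = Σ_{(u,v)} F u F v = Σ_a (Σ_{u ∈ Σ, u = a on the line} F u)² ≥ 0`.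
(For the last step: the relation `u = v on the line` is an equivalence relation; group by the restriction of `u` to the line.)
-/
theorem rp_gen {θ : V → V} {H : V → Prop} (hR : ReflD θ H) (D : Finset V)
    (hD : ∀ v, v ∈ D ↔ θ v ∈ D) (F : (V → ℤ) → ℝ)
    (hF : ∀ g g' : V → ℤ, (∀ v, H v → g v = g' v) → F g = F g') :
    0 ≤ ∑ h ∈ Om D, F h * F (fun v => h (θ v)) := by
  classical
  set S : Finset (V → ℤ) := (Om D).filter (fun u => ∀ w, u (θ w) = u w) with hS
  have hkey : ∀ u v : V → ℤ, T4_key θ H u = T4_key θ H v ↔ ∀ w, H w → H (θ w) → u w = v w := by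
    intro u v
    constructor
    · intro h w h1 h2
      have h3 := congrFun h w
      unfold T4_key at h3
      rwa [if_pos ⟨h1, h2⟩, if_pos ⟨h1, h2⟩] at h3
    · intro h
      funext w
      unfold T4_key
      split_ifs with h1
      · exact h w h1.1 h1.2
      · rfl
  have hsym : ∀ h : V → ℤ, ∀ w, T4_glue H h (fun v => h (θ v)) (θ w) =
      T4_glue H h (fun v => h (θ v)) w := by
    intro h w
    unfold T4_glue
    by_cases h1 : H w
    · by_cases h2 : H (θ w)
      · rw [hR.fix w h1 h2]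
      · rw [if_neg h2, if_pos h1]
        show h (θ (θ w)) = h w
        rw [hR.inv]
    · have h2 : H (θ w) := (hR.cover w).resolve_left h1
      rw [if_pos h2, if_neg h1]
  have hinv : ∀ h : V → ℤ, (fun v => (fun w => h (θ w)) (θ v)) = h := by
    intro h
    funext v
    simp only [hR.inv]
  have hsym2 : ∀ h : V → ℤ, ∀ w, T4_glue H (fun v => h (θ v)) h (θ w) =
      T4_glue H (fun v => h (θ v)) h w := by
    intro h w
    have h1 := hsym (fun v => h (θ v)) w
    rwa [hinv h] at h1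
  have hbij : ∑ h ∈ Om D, F h * F (fun v => h (θ v)) =
      ∑ p ∈ (S ×ˢ S).filter (fun p => T4_key θ H p.1 = T4_key θ H p.2), F p.1 * F p.2 := by
    refine Finset.sum_nbij'
      (fun h => (T4_glue H h (fun v => h (θ v)), T4_glue H (fun v => h (θ v)) h))
      (fun p => T4_glue H p.1 p.2) ?_ ?_ ?_ ?_ ?_
    · intro h hh
      have hc := T4_comp hR hD hh
      have hf : ∀ w, H w → H (θ w) → h w = h (θ w) := fun w h1 h2 => by rw [hR.fix w h1 h2]
      rw [Finset.mem_filter, Finset.mem_product, hS, Finset.mem_filter, Finset.mem_filter]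
      refine ⟨⟨⟨T4_glue_mem hR hh hc hf, hsym h⟩,
        ⟨T4_glue_mem hR hc hh fun w h1 h2 => (hf w h1 h2).symm, hsym2 h⟩⟩, ?_⟩
      rw [hkey]
      intro w h1 h2
      show T4_glue H h (fun v => h (θ v)) w = T4_glue H (fun v => h (θ v)) h w
      unfold T4_glue
      rw [if_pos h1, if_pos h1]
      exact hf w h1 h2
    · intro p hp
      rw [Finset.mem_filter, Finset.mem_product, hS, Finset.mem_filter, Finset.mem_filter] at hp
      exact T4_glue_mem hR hp.1.1.1 hp.1.2.1 ((hkey _ _).1 hp.2)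
    · intro h hh
      funext w
      simp only [T4_glue]
      split_ifs <;> rfl
    · intro p hp
      rw [Finset.mem_filter, Finset.mem_product, hS, Finset.mem_filter, Finset.mem_filter] at hp
      obtain ⟨⟨⟨-, hu⟩, ⟨-, hv⟩⟩, hk⟩ := hp
      rw [hkey] at hk
      refine Prod.ext ?_ ?_
      · funext w
        simp only [T4_glue]
        by_cases h1 : H w
        · rw [if_pos h1, if_pos h1]
        · have h2 : H (θ w) := (hR.cover w).resolve_left h1
          rw [if_neg h1, if_pos h2, hu]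
      · funext w
        simp only [T4_glue]
        by_cases h1 : H w
        · rw [if_pos h1]
          by_cases h2 : H (θ w)
          · rw [if_pos h2, hu, hk w h1 h2]
          · rw [if_neg h2, hv]
        · rw [if_neg h1, if_neg h1]
    · intro h hh
      have e1 : F h = F (T4_glue H h (fun v => h (θ v))) := hF _ _ fun v hv => by
        simp only [T4_glue, if_pos hv]
      have e2 : F (fun v => h (θ v)) = F (T4_glue H (fun v => h (θ v)) h) := hF _ _ fun v hv => by
        simp only [T4_glue, if_pos hv]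
      rw [e1, e2]
  rw [hbij, Finset.sum_filter, Finset.sum_product]
  exact T4_sum_nonneg S (T4_key θ H) F

lemma reflD_axis : ReflD (fun v => (-v.1, v.2)) (fun v => 0 ≤ v.1) := by
  refine ⟨fun v => ?_, fun u v => ?_, fun v => ?_, fun v => ?_, fun v h1 h2 => ?_,
    fun u v h => ?_⟩
  · simp
  · unfold Adj
    show |(-u.1) - (-v.1)| + |u.2 - v.2| = 1 ↔ |u.1 - v.1| + |u.2 - v.2| = 1
    rw [show (-u.1) - (-v.1) = -(u.1 - v.1) by ring, abs_neg]
  · refine ⟨-v.1, ?_⟩
    show (-v.1 + v.2) - (v.1 + v.2) = _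
    ring
  · show 0 ≤ v.1 ∨ 0 ≤ -v.1
    omega
  · have h1' : 0 ≤ v.1 := h1
    have h2' : 0 ≤ -v.1 := h2
    apply Prod.ext
    · show -v.1 = v.1
      omega
    · rfl
  · have h' : |u.1 - v.1| + |u.2 - v.2| = 1 := h
    have h3 := abs_nonneg (u.2 - v.2)
    have h4 := le_abs_self (u.1 - v.1)
    have h5 := neg_abs_le (u.1 - v.1)
    show (0 ≤ u.1 ∧ 0 ≤ v.1) ∨ (0 ≤ -u.1 ∧ 0 ≤ -v.1)
    omega

lemma reflD_diag : ReflD (fun v => (-v.2, -v.1)) (fun v => 0 ≤ v.1 + v.2) := by
  refine ⟨fun v => ?_, fun u v => ?_, fun v => ?_, fun v => ?_, fun v h1 h2 => ?_,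
    fun u v h => ?_⟩
  · simp
  · unfold Adj
    show |(-u.2) - (-v.2)| + |(-u.1) - (-v.1)| = 1 ↔ |u.1 - v.1| + |u.2 - v.2| = 1
    rw [show (-u.1) - (-v.1) = -(u.1 - v.1) by ring,
      show (-u.2) - (-v.2) = -(u.2 - v.2) by ring, abs_neg, abs_neg, add_comm]
  · refine ⟨-(v.1 + v.2), ?_⟩
    show (-v.2 + -v.1) - (v.1 + v.2) = _
    ring
  · show 0 ≤ v.1 + v.2 ∨ 0 ≤ -v.2 + -v.1
    omega
  · have h1' : 0 ≤ v.1 + v.2 := h1
    have h2' : 0 ≤ -v.2 + -v.1 := h2
    apply Prod.ext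
    · show -v.2 = v.1
      omega
    · show -v.1 = v.2
      omega
  · have h' : |u.1 - v.1| + |u.2 - v.2| = 1 := h
    have h3 := le_abs_self (u.2 - v.2)
    have h4 := le_abs_self (u.1 - v.1)
    have h5 := neg_abs_le (u.1 - v.1)
    have h6 := neg_abs_le (u.2 - v.2)
    show (0 ≤ u.1 + u.2 ∧ 0 ≤ v.1 + v.2) ∨ (0 ≤ -u.2 + -u.1 ∧ 0 ≤ -v.2 + -v.1)
    omega

/-
`rp_gen` for `F h = Σ_{x ∈ s} f x cos (α h x)` and `F h = Σ_{x ∈ s} f x sin (α h x)`, sum of the two inequalities:
`cos a cos b + sin a sin b = cos (a - b)`.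
-/
theorem rp_cos {θ : V → V} {H : V → Prop} (hR : ReflD θ H) (D : Finset V)
    (hD : ∀ v, v ∈ D ↔ θ v ∈ D) (s : Finset V) (f : V → ℝ) (hs : ∀ x ∈ s, H x) (α : ℝ) :
    0 ≤ ∑ x ∈ s, ∑ y ∈ s, f x * f y * avg (Om D) (fun h => Real.cos (α * ((h x - h (θ y) : ℤ) : ℝ))) := by
  have h1 := rp_gen hR D hD (fun h => ∑ x ∈ s, f x * Real.cos (α * (h x : ℝ)))
    (fun g g' hg => Finset.sum_congr rfl fun x hx => by rw [hg x (hs x hx)])
  have h2 := rp_gen hR D hD (fun h => ∑ x ∈ s, f x * Real.sin (α * (h x : ℝ)))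
    (fun g g' hg => Finset.sum_congr rfl fun x hx => by rw [hg x (hs x hx)])
  have h3 := add_nonneg h1 h2
  rw [← Finset.sum_add_distrib] at h3
  have h4 : ∑ x ∈ s, ∑ y ∈ s, f x * f y *
      avg (Om D) (fun h => Real.cos (α * ((h x - h (θ y) : ℤ) : ℝ))) =
      (∑ h ∈ Om D, ((∑ x ∈ s, f x * Real.cos (α * (h x : ℝ))) *
        (∑ x ∈ s, f x * Real.cos (α * (h (θ x) : ℝ))) +
        (∑ x ∈ s, f x * Real.sin (α * (h x : ℝ))) *
        (∑ x ∈ s, f x * Real.sin (α * (h (θ x) : ℝ))))) / (Om D).card := by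
    have h5 : ∀ h : V → ℤ, (∑ x ∈ s, f x * Real.cos (α * (h x : ℝ))) *
        (∑ x ∈ s, f x * Real.cos (α * (h (θ x) : ℝ))) +
        (∑ x ∈ s, f x * Real.sin (α * (h x : ℝ))) *
        (∑ x ∈ s, f x * Real.sin (α * (h (θ x) : ℝ))) =
        ∑ x ∈ s, ∑ y ∈ s, f x * f y * Real.cos (α * ((h x - h (θ y) : ℤ) : ℝ)) := by
      intro h
      rw [Finset.sum_mul_sum, Finset.sum_mul_sum, ← Finset.sum_add_distrib]
      refine Finset.sum_congr rfl fun x _ => ?_
      rw [← Finset.sum_add_distrib]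
      refine Finset.sum_congr rfl fun y _ => ?_
      rw [Int.cast_sub, mul_sub, Real.cos_sub]
      ring
    simp only [h5]
    have h6 : ∑ h ∈ Om D, ∑ x ∈ s, ∑ y ∈ s,
        f x * f y * Real.cos (α * ((h x - h (θ y) : ℤ) : ℝ)) =
        ∑ x ∈ s, ∑ y ∈ s, ∑ h ∈ Om D,
        f x * f y * Real.cos (α * ((h x - h (θ y) : ℤ) : ℝ)) := by
      rw [Finset.sum_comm]
      exact Finset.sum_congr rfl fun x _ => Finset.sum_comm
    rw [h6, Finset.sum_div]
    refine Finset.sum_congr rfl fun x _ => ?_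
    rw [Finset.sum_div]
    refine Finset.sum_congr rfl fun y _ => ?_
    unfold avg
    rw [← mul_div_assoc, Finset.mul_sum]
  rw [h4]
  exact div_nonneg h3 (Nat.cast_nonneg _)

end RP4
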