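import Pool.Agent.Helper63.RP4.C1

/-!
H0.  Test functions: definitions.
-/

open Real Set Filter Topology MeasureTheory

namespace RP4

/-- the cell of the vertex `x` of `δ ℤ²` -/
def cell (δ : ℝ) (x : V) : Set (ℝ × ℝ) :=
  Ico (δ * (x.1 - 1 / 2)) (δ * (x.1 + 1 / 2)) ×ˢ Ico (δ * (x.2 - 1 / 2)) (δ * (x.2 + 1 / 2))

/-- mass given by `f` to the cell of `x`; then `∫ h_δ f = Σ_x mass δ f x * h x` for the step function `h_δ` -/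
noncomputable def mass (δ : ℝ) (f : ℝ × ℝ → ℝ) (x : V) : ℝ := ∫ y in cell δ x, f y

/-- Fourier transform of `f`: real and imaginary part -/
noncomputable def ftc (f : ℝ × ℝ → ℝ) (ξ : ℝ × ℝ) : ℝ := ∫ y, f y * cos (ξ.1 * y.1 + ξ.2 * y.2)

noncomputable def fts (f : ℝ × ℝ → ℝ) (ξ : ℝ × ℝ) : ℝ := ∫ y, f y * sin (ξ.1 * y.1 + ξ.2 * y.2)

/-- `⟨f, (-Δ)⁻¹ f⟩` of the whole plane, Fourier side -/
noncomputable def energyF (f : ℝ × ℝ → ℝ) : ℝ :=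
  (1 / (2 * π) ^ 2) * ∫ ξ : ℝ × ℝ, (ftc f ξ ^ 2 + fts f ξ ^ 2) / (ξ.1 ^ 2 + ξ.2 ^ 2)

/-- `⟨f, (-Δ)⁻¹ f⟩` of the whole plane for `∫ f = 0`: the covariance of the whole plane Gaussian free field -/
noncomputable def energy (f : ℝ × ℝ → ℝ) : ℝ :=
  ∫ x : ℝ × ℝ, ∫ y : ℝ × ℝ,
    f x * f y * (-(1 / (2 * π)) * log (Real.sqrt ((x.1 - y.1) ^ 2 + (x.2 - y.2) ^ 2)))

/-- the quadratic form of the infinite volume field on neutral charges -/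
noncomputable def qform (γ : V → ℝ) (m : V → ℝ) : ℝ :=
  -(1 / 2) * ∑' p : V × V, m p.1 * m p.2 * γ (p.1 - p.2)

end RP4
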