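import Pool.Agent.Helper63.RP4.T3
import Pool.Agent.Helper63.RP4.T4
import Pool.Agent.Helper63.RP4.Data

/-!
T5.  The data for the analysis.
-/

open Finset Filter Topology

namespace RP4

/-- `E cos (α (h x - h 0))` in infinite volume -/
noncomputable def rfun (α : ℝ) (x : V) : ℝ := Gam (fun t => Real.cos (α * t)) x

/-- truncated squares, to have a globally Lipschitz function -/
noncomputable def gfun (x : V) : ℝ := Gam (fun t => min ((t : ℝ) ^ 2) ((dist1 0 x : ℝ) ^ 2)) x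

/-
`main_limit` for `φ t = cos (α t)` (`L = |α|`) and for `φ t = min (t²) (d²)`, `d = dist1 0 (x-w)` (`L = 2 d`), and `|h x - h w| ≤ d` for
large `D` (`IsHom.lip`).
-/
theorem rfun_lim (hd : Deloc) (α : ℝ) (w x : V) :
    Tendsto (fun D => avg (Om D) (fun h => Real.cos (α * ((h x - h w : ℤ) : ℝ)))) dom
      (𝓝 (rfun α (x - w))) := by
  refine main_limit hd (fun t : ℤ => Real.cos (α * t)) (fun a => ?_) |α| (abs_nonneg _)
    (fun a b => ?_) w x
  · simp only [Int.cast_neg, mul_neg, Real.cos_neg]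
  · refine (Real.abs_cos_sub_cos_le _ _).trans_eq ?_
    rw [← mul_sub, abs_mul]

/-- distances are nonnegative -/
private lemma T5a_dist_nonneg (u v : V) : 0 ≤ dist1 u v := by
  unfold dist1
  positivity

private lemma T5a_dist_sub (w x : V) : dist1 0 (x - w) = dist1 w x := by
  simp only [dist1, Prod.fst_zero, Prod.snd_zero, Prod.fst_sub, Prod.snd_sub, zero_sub, abs_neg]
  rw [abs_sub_comm x.1, abs_sub_comm x.2]

/-- the truncated square is Lipschitz -/
private lemma T5a_lip (d : ℝ) (hd : 0 ≤ d) (a b : ℝ) :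
    |min (a ^ 2) (d ^ 2) - min (b ^ 2) (d ^ 2)| ≤ 2 * d * |a - b| := by
  have key : ∀ c : ℝ, min (c ^ 2) (d ^ 2) = (min |c| d) ^ 2 := by
    intro c
    rcases le_total |c| d with h | h
    · rw [min_eq_left h, min_eq_left, sq_abs]
      rw [← sq_abs c]
      exact pow_le_pow_left₀ (abs_nonneg c) h 2
    · rw [min_eq_right h, min_eq_right]
      rw [← sq_abs c]
      exact pow_le_pow_left₀ hd h 2
  rw [key a, key b, sq_sub_sq, abs_mul]
  have h1 : |min |a| d + min |b| d| ≤ 2 * d := by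
    rw [abs_of_nonneg (add_nonneg (le_min (abs_nonneg _) hd) (le_min (abs_nonneg _) hd))]
    have := min_le_right |a| d
    have := min_le_right |b| d
    linarith
  have h2 : |min |a| d - min |b| d| ≤ |a - b| := by
    refine (abs_min_sub_min_le_max _ _ _ _).trans ?_
    rw [sub_self, abs_zero, max_eq_left (abs_nonneg _)]
    exact abs_abs_sub_abs_le _ _
  exact mul_le_mul h1 h2 (abs_nonneg _) (by positivity)

/-- a box around `w` containing the ball -/
private lemma T5a_ball (w : V) (r : ℤ) : ∃ F : Finset V, ∀ v, dist1 w v ≤ r → v ∈ F := by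
  refine ⟨Finset.Icc (w.1 - r) (w.1 + r) ×ˢ Finset.Icc (w.2 - r) (w.2 + r), fun v hv => ?_⟩
  unfold dist1 at hv
  have h1 := abs_nonneg (w.1 - v.1)
  have h2 := abs_nonneg (w.2 - v.2)
  have h3 : |w.1 - v.1| ≤ r := by linarith
  have h4 : |w.2 - v.2| ≤ r := by linarith
  rw [abs_le] at h3 h4
  rw [Finset.mem_product, Finset.mem_Icc, Finset.mem_Icc]
  refine ⟨⟨?_, ?_⟩, ?_, ?_⟩ <;> omega

private lemma T5a_avg_congr {S : Finset (V → ℤ)} {F G : (V → ℤ) → ℝ} (h : ∀ g ∈ S, F g = G g) :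
    avg S F = avg S G := by
  unfold avg
  rw [Finset.sum_congr rfl h]

private lemma T5a_trunc {a d : ℤ} (h : |a| ≤ d) :
    min ((a : ℝ) ^ 2) ((d : ℝ) ^ 2) = (a : ℝ) ^ 2 := by
  apply min_eq_left
  rw [← sq_abs (a : ℝ)]
  have h1 : |(a : ℝ)| ≤ (d : ℝ) := by exact_mod_cast h
  exact pow_le_pow_left₀ (abs_nonneg _) h1 2

theorem gfun_lim (hd : Deloc) (w x : V) :
    Tendsto (fun D => avg (Om D) (fun h => (((h x - h w : ℤ) : ℝ)) ^ 2)) dom
      (𝓝 (gfun (x - w))) := by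
  have h0 : (0 : ℝ) ≤ (dist1 0 (x - w) : ℝ) := by exact_mod_cast T5a_dist_nonneg _ _
  have h1 := main_limit hd (fun t : ℤ => min ((t : ℝ) ^ 2) ((dist1 0 (x - w) : ℝ) ^ 2))
    (fun a => by simp only [Int.cast_neg, even_two, Even.neg_pow])
    (2 * (dist1 0 (x - w) : ℝ)) (by positivity)
    (fun a b => T5a_lip _ h0 _ _) w x
  refine h1.congr' ?_
  rw [EventuallyEq, eventually_dom]
  obtain ⟨F, hF⟩ := T5a_ball w (dist1 w x)
  refine ⟨F, fun D hD hp => T5a_avg_congr fun g hg => ?_⟩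
  have h2 := (mem_Om.1 hg).1.lip w x (fun v hv => hD (hF v hv))
  rw [T5a_dist_sub]
  exact T5a_trunc h2

lemma T5_avg_const {S : Finset (V → ℤ)} (hS : S.Nonempty) (c : ℝ) : avg S (fun _ => c) = c := by
  have h1 : (S.card : ℝ) ≠ 0 := by
    exact_mod_cast (Finset.card_pos.mpr hS).ne'
  unfold avg
  rw [Finset.sum_const, nsmul_eq_mul]
  field_simp

lemma T5_avg_abs {S : Finset (V → ℤ)} {F : (V → ℤ) → ℝ} {c : ℝ} (hc : 0 ≤ c)
    (h : ∀ g ∈ S, |F g| ≤ c) : |avg S F| ≤ c := by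
  unfold avg
  rcases S.eq_empty_or_nonempty with rfl | hS
  · simpa using hc
  · have h1 : (0 : ℝ) < S.card := by
      exact_mod_cast (Finset.card_pos.mpr hS)
    rw [abs_div, abs_of_pos h1, div_le_iff₀ h1]
    calc |∑ g ∈ S, F g| ≤ ∑ g ∈ S, |F g| := Finset.abs_sum_le_sum_abs _ _
      _ ≤ ∑ _g ∈ S, c := Finset.sum_le_sum h
      _ = c * S.card := by rw [Finset.sum_const, nsmul_eq_mul]; ring

/-- `2 (1 - E cos) / α² - E t²` is an average -/
lemma T5_avg_diff {S : Finset (V → ℤ)} (hS : S.Nonempty) (F G : (V → ℤ) → ℝ) (a : ℝ) :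
    2 * (1 - avg S F) / a - avg S G = avg S (fun h => 2 * (1 - F h) / a - G h) := by
  have h1 : (S.card : ℝ) ≠ 0 := by
    exact_mod_cast (Finset.card_pos.mpr hS).ne'
  unfold avg
  rw [Finset.sum_sub_distrib, ← Finset.sum_div, ← Finset.mul_sum, Finset.sum_sub_distrib,
    Finset.sum_const, nsmul_eq_mul]
  rcases eq_or_ne a 0 with rfl | ha
  · simp
    ring
  · field_simp

/-- an elementary inequality -/
lemma T5_cos_sq {α : ℝ} (hα : 0 < α) (t d : ℝ) (htd : |t| ≤ d) (hαd : α * d ≤ 1) :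
    |2 * (1 - Real.cos (α * t)) / α ^ 2 - t ^ 2| ≤ α ^ 2 * d ^ 4 := by
  have h1 : |α * t| ≤ 1 := by
    rw [abs_mul, abs_of_pos hα]
    exact le_trans (mul_le_mul_of_nonneg_left htd hα.le) hαd
  have h2 := Real.cos_bound h1
  have h3 : 2 * (1 - Real.cos (α * t)) / α ^ 2 - t ^ 2 =
      -(2 * (Real.cos (α * t) - (1 - (α * t) ^ 2 / 2))) / α ^ 2 := by
    field_simp
    ring
  rw [h3, abs_div, abs_neg, abs_mul, abs_of_pos (by positivity : (0 : ℝ) < α ^ 2),
    div_le_iff₀ (by positivity), abs_two]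
  have h4 : |α * t| ^ 4 ≤ (α * d) ^ 4 := by
    apply pow_le_pow_left₀ (abs_nonneg _)
    rw [abs_mul, abs_of_pos hα]
    exact mul_le_mul_of_nonneg_left htd hα.le
  have h5 : (α * d) ^ 4 = α ^ 2 * d ^ 4 * α ^ 2 := by ring
  have h6 : 0 ≤ |α * t| ^ 4 := by positivity
  rw [← h5]
  nlinarith

/-- the cosine is Lipschitz -/
lemma T5_cos_lip (α : ℝ) (a b : ℤ) :
    |Real.cos (α * (a : ℝ)) - Real.cos (α * (b : ℝ))| ≤ |α| * |(a : ℝ) - b| := by
  have h1 := Real.abs_cos_sub_cos_le (α * (a : ℝ)) (α * (b : ℝ))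
  have h2 : α * (a : ℝ) - α * (b : ℝ) = α * ((a : ℝ) - b) := by ring
  rw [h2, abs_mul] at h1
  exact h1

lemma T5_one (hd : Deloc) (α : ℝ) : rfun α 0 = 1 := by
  have h1 := rfun_lim hd α 0 0
  rw [sub_zero] at h1
  refine tendsto_nhds_unique h1 (tendsto_const_nhds.congr' ?_)
  rw [EventuallyEq, eventually_dom]
  refine ⟨∅, fun D _ hD => ?_⟩
  have h2 := T5_avg_const (Om_nonempty hD) 1
  simp only [sub_self, Int.cast_zero, mul_zero, Real.cos_zero]
  exact h2.symm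

lemma T5_abs_le (hd : Deloc) (α : ℝ) (x : V) : |rfun α x| ≤ 1 := by
  have h1 := (rfun_lim hd α 0 x).abs
  rw [sub_zero] at h1
  exact le_of_tendsto' h1 (fun D => T5_avg_abs zero_le_one (fun g _ => Real.abs_cos_le_one _))

lemma T5_sym (α : ℝ) : Sym4 (rfun α) := by
  have h1 := Gam_sym (fun t => Real.cos (α * t))
    (fun a => by push_cast; rw [mul_neg, Real.cos_neg]) |α| (abs_nonneg _) (T5_cos_lip α)
  exact h1

lemma T5_rp (hd : Deloc) (α : ℝ) {θ : V → V} {H : V → Prop} (hR : ReflD θ H)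
    (hθ : ∀ (m : ℕ) (v : V), v ∈ diam m ↔ θ v ∈ diam m) (s : Finset V) (f : V → ℝ)
    (hs : ∀ x ∈ s, H x) :
    0 ≤ ∑ x ∈ s, ∑ y ∈ s, f x * f y * rfun α (x - θ y) := by
  have h1 : Tendsto (fun m : ℕ => ∑ x ∈ s, ∑ y ∈ s, f x * f y *
      avg (Om (diam (2 * m))) (fun h => Real.cos (α * ((h x - h (θ y) : ℤ) : ℝ)))) atTop
      (𝓝 (∑ x ∈ s, ∑ y ∈ s, f x * f y * rfun α (x - θ y))) := by
    refine tendsto_finsetSum _ (fun x _ => tendsto_finsetSum _ (fun y _ => ?_))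
    exact ((rfun_lim hd α (θ y) x).comp diam_tendsto).const_mul _
  exact ge_of_tendsto' h1 (fun m => rp_cos hR _ (hθ _) s f hs α)

lemma T5_rp1 (hd : Deloc) (α : ℝ) : RP1 (rfun α) := by
  intro s f hs
  have h1 := T5_rp hd α reflD_axis (fun m v => by
    rw [mem_diam, mem_diam]
    simp only [abs_neg]) s f hs
  refine le_of_le_of_eq h1 (Finset.sum_congr rfl (fun x _ => Finset.sum_congr rfl (fun y _ => ?_)))
  have h2 : x - ((-y.1, y.2) : V) = (x.1 + y.1, x.2 - y.2) := by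
    ext <;> simp
  rw [h2]

lemma T5_rpd (hd : Deloc) (α : ℝ) : RPd (rfun α) := by
  intro s f hs
  have h1 := T5_rp hd α reflD_diag (fun m v => by
    rw [mem_diam, mem_diam]
    simp only [abs_neg]
    rw [add_comm]) s f hs
  refine le_of_le_of_eq h1 (Finset.sum_congr rfl (fun x _ => Finset.sum_congr rfl (fun y _ => ?_)))
  have h2 : x - ((-y.2, -y.1) : V) = (x.1 + y.2, x.2 + y.1) := by
    ext <;> simp
  rw [h2]

/-- the ball around `0` as a finite set -/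
lemma T5_ball (n : ℤ) : ∃ F : Finset V, ∀ v, dist1 0 v ≤ n → v ∈ F := by
  refine ⟨(Finset.Icc (-n) n) ×ˢ (Finset.Icc (-n) n), fun v hv => ?_⟩
  have h1 : dist1 0 v = |v.1| + |v.2| := by
    unfold dist1
    simp
  rw [h1] at hv
  have h2 := abs_nonneg v.1
  have h3 := abs_nonneg v.2
  have h4 := abs_le.mp (show |v.1| ≤ n by omega)
  have h5 := abs_le.mp (show |v.2| ≤ n by omega)
  rw [Finset.mem_product, Finset.mem_Icc, Finset.mem_Icc]
  exact ⟨h4, h5⟩

lemma T5_lim_bound (hd : Deloc) (x : V) {α : ℝ} (hα : 0 < α)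
    (hαd : α * (dist1 0 x : ℝ) ≤ 1) :
    |2 * (1 - rfun α x) / α ^ 2 - gfun x| ≤ α ^ 2 * (dist1 0 x : ℝ) ^ 4 := by
  have h1 := rfun_lim hd α 0 x
  have h2 := gfun_lim hd 0 x
  rw [sub_zero] at h1 h2
  have h3 := ((((h1.const_sub 1).const_mul 2).div_const (α ^ 2)).sub h2).abs
  have := dom_neBot
  refine le_of_tendsto h3 ?_
  rw [eventually_dom]
  obtain ⟨F, hF⟩ := T5_ball (dist1 0 x)
  refine ⟨F, fun D hFD hD => ?_⟩
  rw [T5_avg_diff (Om_nonempty hD)]
  refine T5_avg_abs (by positivity) (fun h hh => ?_)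
  refine T5_cos_sq hα _ _ ?_ hαd
  have h4 : |h x - h 0| ≤ dist1 0 x :=
    (mem_Om.mp hh).1.lip 0 x (fun v hv => hFD (hF v hv))
  exact_mod_cast h4

lemma T5_lim (hd : Deloc) (x : V) :
    Tendsto (fun α => 2 * (1 - rfun α x) / α ^ 2) (𝓝[>] 0) (𝓝 (gfun x)) := by
  rw [tendsto_iff_norm_sub_tendsto_zero]
  have h1 : Tendsto (fun α : ℝ => α ^ 2 * (dist1 0 x : ℝ) ^ 4) (𝓝[>] 0) (𝓝 0) := by
    have h2 : Tendsto (fun α : ℝ => α ^ 2 * (dist1 0 x : ℝ) ^ 4) (𝓝 0)
        (𝓝 ((0 : ℝ) ^ 2 * (dist1 0 x : ℝ) ^ 4)) :=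
      (tendsto_id.pow 2).mul_const _
    have h3 : (0 : ℝ) ^ 2 * (dist1 0 x : ℝ) ^ 4 = 0 := by ring
    rw [h3] at h2
    exact h2.mono_left nhdsWithin_le_nhds
  have h4 : ∀ᶠ α : ℝ in 𝓝[>] 0, α * (dist1 0 x : ℝ) ≤ 1 := by
    have h2 : Tendsto (fun α : ℝ => α * (dist1 0 x : ℝ)) (𝓝 0) (𝓝 ((0 : ℝ) * (dist1 0 x : ℝ))) :=
      tendsto_id.mul_const _
    rw [zero_mul] at h2
    have h3 := h2.mono_left (nhdsWithin_le_nhds (s := Set.Ioi 0))
    exact (h3.eventually (gt_mem_nhds zero_lt_one)).mono (fun _ h => le_of_lt h)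
  refine squeeze_zero' (Eventually.of_forall (fun _ => norm_nonneg _)) ?_ h1
  filter_upwards [h4, self_mem_nhdsWithin] with α h5 h6
  exact T5_lim_bound hd x h6 h5

/-
`rp1`, `rpd`: `rp_cos` with `D = diam (2m)`, `reflD_axis`, `reflD_diag`, and `m → ∞` (`diam_tendsto`, `rfun_lim`):
`x - θ y = (x.1 + y.1, x.2 - y.2)` resp. `(x.1 + y.2, x.2 + y.1)`.
`lim`: `|2 (1 - cos (α t))/α² - t²| ≤ α² t⁴/12` and `|h x - h 0| ≤ dist1 0 x`: pass to the limit.
-/
theorem data_of_deloc (hd : Deloc) : Data rfun gfun where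
  one := fun α _ => T5_one hd α
  abs_le := fun α _ x => T5_abs_le hd α x
  sym := fun α _ => T5_sym α
  rp1 := fun α _ => T5_rp1 hd α
  rpd := fun α _ => T5_rpd hd α
  lim := T5_lim hd

/-- upper bound for the zero boundary variance by the variogram: `pin_mono` -/
theorem var_le_gfun (hd : Deloc) (D : Finset V) (hD : BdryPar D 0) (x : V) (hx : x ∈ D) (v : V)
    (hv : v ∈ bdry D) : avg (Om D) (fun h => (h x : ℝ) ^ 2) ≤ gfun (x - v) := by
  have hpv : Even (par v) := by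
    have h := hD v hv
    rwa [sub_zero] at h
  have hOm : Om D = Pin D v 0 := by
    ext g
    rw [mem_Om, mem_Pin]
    constructor
    · rintro ⟨h1, h2⟩
      refine ⟨⟨h1.off, fun u hu => ?_, h1.step⟩, h2 v hv, h2⟩
      have h3 := h1.par u hu
      rw [Int.even_iff] at h3 hpv ⊢
      omega
    · rintro ⟨h1, -, h2⟩
      refine ⟨⟨h1.off, fun u hu => ?_, h1.step⟩, h2⟩
      have h3 := h1.par u hu
      rw [Int.even_iff] at h3 hpv ⊢
      omega
  set D1 := img (trans (-v)) D with hD1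
  have htv : trans (-v) v = (0, 0) := by
    unfold trans
    simp only [Equiv.coe_addRight, add_neg_cancel]
    rfl
  have htx : trans (-v) x = x - v := by
    unfold trans
    simp only [Equiv.coe_addRight, sub_eq_add_neg]
  have hp1 : BdryPar D1 (par ((0, 0) : V)) := by
    rw [← htv, hD1, bdryPar_img (trans_lsym _)]
    intro u hu
    have h3 := hD u hu
    rw [Int.even_iff] at h3 hpv ⊢
    omega
  have hmem : ∀ u ∈ D, trans (-v) u ∈ D1 := fun u hu =>
    Finset.mem_map_of_mem (trans (-v)).toEmbedding hu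
  have h01 : ((0, 0) : V) ∈ D1 := by
    rw [← htv]
    exact hmem v (bdry_subset D hv)
  have hx1 : x - v ∈ D1 := by
    rw [← htx]
    exact hmem x hx
  have hav : avg (Om D) (fun h => (h x : ℝ) ^ 2) =
      avg (Pin D1 (0, 0) 0) (fun g => ((g (x - v) : ℤ) : ℝ) ^ 2) := by
    rw [hOm, ← avg_Pin_img (trans_lsym (-v)) D v 0 (fun h => (h x : ℝ) ^ 2), htv]
    simp only [htx]
    rfl
  have hsq : ∀ E : Finset V, avg (Pin E (0, 0) 0) (fun g => ((g (x - v) : ℤ) : ℝ) ^ 2) =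
      avg (Pin E (0, 0) 0) (fun g => (fun a : ℤ => (a : ℝ) ^ 2) |g (x - v)|) := by
    intro E
    refine T5a_avg_congr fun g _ => ?_
    simp only
    rw [Int.cast_abs, sq_abs]
  rw [hav]
  have h0 : (0 : ℝ) ≤ (dist1 0 (x - v) : ℝ) := by exact_mod_cast T5a_dist_nonneg _ _
  obtain ⟨G, hG⟩ := pin_limit (fun t : ℤ => min ((t : ℝ) ^ 2) ((dist1 0 (x - v) : ℝ) ^ 2))
    (fun a => by simp only [Int.cast_neg, even_two, Even.neg_pow])
    (2 * (dist1 0 (x - v) : ℝ)) (by positivity)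
    (fun a b => T5a_lip _ h0 _ _) (x - v)
  have hgG : gfun (x - v) = G := hG.limUnder_eq
  rw [hgG]
  refine ge_of_tendsto hG ?_
  rw [eventually_dom]
  obtain ⟨F, hF⟩ := T5a_ball 0 (dist1 0 (x - v))
  classical
  refine ⟨D1 ∪ F, fun E hE hp => ?_⟩
  have hpE : BdryPar E (par ((0, 0) : V)) := by
    have e : par ((0, 0) : V) = 0 := by simp [par]
    rw [e]
    exact hp
  have h2 := pin_mono D1 E (subset_union_left.trans hE) (0, 0) h01 hp1 hpE (x - v) hx1
    (fun a : ℤ => (a : ℝ) ^ 2) (fun a b ha hab => by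
      have h3 : (0 : ℝ) ≤ (a : ℝ) := by exact_mod_cast ha
      have h4 : (a : ℝ) ≤ (b : ℝ) := by exact_mod_cast hab
      exact pow_le_pow_left₀ h3 h4 2)
  rw [← hsq, ← hsq] at h2
  refine h2.trans (le_of_eq (T5a_avg_congr fun g hg => ?_))
  obtain ⟨hg1, hg2, -⟩ := mem_Pin.1 hg
  have h5 := hg1.lip 0 (x - v) (fun u hu => hE (mem_union_right _ (hF u hu)))
  have h6 : g 0 = 0 := hg2
  rw [h6, sub_zero] at h5
  exact (T5a_trunc h5).symm

end RP4
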