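import Pool.Agent.Helper63.RP4.M5
import Pool.Agent.Helper63.RP4.T5

/-!
Mu.  The infinite volume gradient state.
-/

open Finset Filter Topology

namespace RP4

/-- `F` depends only on the height differences on `s` -/
def Loc (s : Finset V) (F : (V → ℤ) → ℝ) : Prop :=
  ∀ h h' : V → ℤ, (∀ x ∈ s, ∀ y ∈ s, h x - h y = h' x - h' y) → F h = F h'

/-- the infinite volume expectation -/
noncomputable def mu (F : (V → ℤ) → ℝ) : ℝ := limUnder dom (fun D => avg (Om D) F)

lemma Loc.mono {s t : Finset V} {F : (V → ℤ) → ℝ} (h : Loc s F) (hst : s ⊆ t) : Loc t F :=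
  fun g g' hg => h g g' fun x hx y hy => hg x (hst hx) y (hst hy)

lemma Loc.add {s : Finset V} {F G : (V → ℤ) → ℝ} (h : Loc s F) (h' : Loc s G) :
    Loc s (fun g => F g + G g) := fun g g' hg => by simp only [h g g' hg, h' g g' hg]

lemma Loc.mul {s : Finset V} {F G : (V → ℤ) → ℝ} (h : Loc s F) (h' : Loc s G) :
    Loc s (fun g => F g * G g) := fun g g' hg => by simp only [h g g' hg, h' g g' hg]

lemma Loc.comp {s : Finset V} {F : (V → ℤ) → ℝ} (h : Loc s F) (φ : ℝ → ℝ) :
    Loc s (fun g => φ (F g)) := fun g g' hg => by simp only [h g g' hg]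

lemma Loc.const (s : Finset V) (c : ℝ) : Loc s (fun _ => c) := fun _ _ _ => rfl

private lemma Mu_avg_const_tendsto (c : ℝ) :
    Tendsto (fun D => avg (Om D) (fun _ => c)) dom (𝓝 c) := by
  refine tendsto_const_nhds.congr' ?_
  refine eventually_dom.2 ⟨∅, fun D _ hD => ?_⟩
  have h1 : (0 : ℝ) < (Om D).card := by exact_mod_cast (Om_nonempty hD).card_pos
  change c = (∑ _g ∈ Om D, c) / ((Om D).card : ℝ)
  rw [Finset.sum_const, nsmul_eq_mul, mul_div_cancel_left₀ _ h1.ne']

private lemma Mu_ball (w : V) (r : ℤ) : ∃ F : Finset V, ∀ v, dist1 w v ≤ r → v ∈ F := by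
  refine ⟨Finset.Icc (w.1 - r) (w.1 + r) ×ˢ Finset.Icc (w.2 - r) (w.2 + r), fun v hv => ?_⟩
  unfold dist1 at hv
  have h1 := abs_nonneg (w.1 - v.1)
  have h2 := abs_nonneg (w.2 - v.2)
  have h3 : |w.1 - v.1| ≤ r := by linarith
  have h4 : |w.2 - v.2| ≤ r := by linarith
  rw [abs_le] at h3 h4
  rw [Finset.mem_product, Finset.mem_Icc, Finset.mem_Icc]
  refine ⟨⟨?_, ?_⟩, ?_, ?_⟩ <;> omega

private lemma Mu_lip (s : Finset V) : ∀ᶠ D in dom, ∀ h ∈ Om D, ∀ x ∈ s, ∀ y ∈ s,
    |h x - h y| ≤ dist1 x y := by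
  classical
  choose B hB using Mu_ball
  refine eventually_dom.2 ⟨s.biUnion fun x => s.biUnion fun y => B x (dist1 x y),
    fun D hD _ h hh x hx y hy => ?_⟩
  rw [abs_sub_comm]
  refine (mem_Om.1 hh).1.lip x y fun v hv => hD ?_
  rw [Finset.mem_biUnion]
  refine ⟨x, hx, ?_⟩
  rw [Finset.mem_biUnion]
  exact ⟨y, hy, hB x _ v hv⟩

/-
`s = ∅`: `F` is constant. Otherwise choose `w ∈ s`: `F h = F (fun v => h v - h w)`; `loc_limit` for `w`.
-/
theorem mu_tendsto (hd : Deloc) {s : Finset V} {F : (V → ℤ) → ℝ} (hF : Loc s F) :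
    Tendsto (fun D => avg (Om D) F) dom (𝓝 (mu F)) := by
  have := dom_neBot
  unfold mu
  rcases s.eq_empty_or_nonempty with rfl | ⟨w, hw⟩
  · have hc : ∀ h : V → ℤ, F h = F 0 := fun h => hF h 0 fun x hx => absurd hx (Finset.notMem_empty x)
    have h1 : F = fun _ => F 0 := funext hc
    refine tendsto_nhds_limUnder ⟨F 0, ?_⟩
    rw [h1]
    exact Mu_avg_const_tendsto (F 0)
  · have h1 : ∀ h : V → ℤ, F h = F (fun v => h v - h w) := fun h => hF _ _ fun x _ y _ => by ring
    refine tendsto_nhds_limUnder ⟨PinLim (fun g => F (fun v => g (v - w))), ?_⟩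
    have h2 := loc_limit hd w s F fun g g' hg => hF g g' fun x hx y hy => by rw [hg x hx, hg y hy]
    refine h2.congr fun D => ?_
    congr 1
    funext h
    exact (h1 h).symm

/-- only Lipschitz functions matter: for large `D`, `|h x - h y| ≤ dist1 x y` for `h ∈ Om D` -/
theorem mu_congr (hd : Deloc) {s : Finset V} {F G : (V → ℤ) → ℝ} (hF : Loc s F) (hG : Loc s G)
    (h : ∀ g : V → ℤ, (∀ x ∈ s, ∀ y ∈ s, |g x - g y| ≤ dist1 x y) → F g = G g) : mu F = mu G := by
  have := dom_neBot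
  refine tendsto_nhds_unique_of_eventuallyEq (mu_tendsto hd hF) (mu_tendsto hd hG) ?_
  filter_upwards [Mu_lip s] with D hD
  unfold avg
  rw [Finset.sum_congr rfl fun g hg => h g (hD g hg)]

theorem mu_mono (hd : Deloc) {s : Finset V} {F G : (V → ℤ) → ℝ} (hF : Loc s F) (hG : Loc s G)
    (h : ∀ g : V → ℤ, (∀ x ∈ s, ∀ y ∈ s, |g x - g y| ≤ dist1 x y) → F g ≤ G g) : mu F ≤ mu G := by
  have := dom_neBot
  refine le_of_tendsto_of_tendsto (mu_tendsto hd hF) (mu_tendsto hd hG) ?_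
  filter_upwards [Mu_lip s] with D hD
  unfold avg
  exact div_le_div_of_nonneg_right (Finset.sum_le_sum fun g hg => h g (hD g hg))
    (Nat.cast_nonneg _)

theorem mu_add (hd : Deloc) {s : Finset V} {F G : (V → ℤ) → ℝ} (hF : Loc s F) (hG : Loc s G) :
    mu (fun g => F g + G g) = mu F + mu G := by
  have := dom_neBot
  refine tendsto_nhds_unique (mu_tendsto hd (hF.add hG)) ?_
  refine ((mu_tendsto hd hF).add (mu_tendsto hd hG)).congr fun D => ?_
  unfold avg
  rw [Finset.sum_add_distrib, add_div]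

theorem mu_smul (hd : Deloc) {s : Finset V} {F : (V → ℤ) → ℝ} (hF : Loc s F) (c : ℝ) :
    mu (fun g => c * F g) = c * mu F := by
  have := dom_neBot
  refine tendsto_nhds_unique (mu_tendsto hd (hF.comp (fun t => c * t))) ?_
  refine ((mu_tendsto hd hF).const_mul c).congr fun D => ?_
  unfold avg
  rw [← Finset.mul_sum, mul_div_assoc]

theorem mu_const (c : ℝ) : mu (fun _ => c) = c := by
  have := dom_neBot
  exact (Mu_avg_const_tendsto c).limUnder_eq

private lemma Mu_val {s : Finset V} {F : (V → ℤ) → ℝ} (hF : Loc s F) (g g' : V → ℤ)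
    (h : ∀ x ∈ s, g x = g' x) : F g = F g' :=
  hF g g' fun x hx y hy => by rw [h x hx, h y hy]

private lemma Mu_sub {s : Finset V} {F : (V → ℤ) → ℝ} (hF : Loc s F) (h : V → ℤ) (w : V) :
    F (fun v => h v - h w) = F h :=
  hF _ _ fun x _ y _ => by ring

private lemma Mu_base (hd : Deloc) {s : Finset V} {F : (V → ℤ) → ℝ} (hF : Loc s F) (w : V) :
    mu F = PinLim (fun g => F (fun v => g (v - w))) := by
  have h1 := loc_limit hd w s F (Mu_val hF)
  have h2 : (fun D => avg (Om D) (fun h => F (fun v => h v - h w))) =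
      fun D => avg (Om D) F := by
    funext D
    congr 1
    funext h
    exact Mu_sub hF h w
  rw [h2] at h1
  exact h1.limUnder_eq

private lemma Mu_loc_img {s : Finset V} {F : (V → ℤ) → ℝ} (hF : Loc s F) (τ : V ≃ V) :
    Loc (img τ s) (fun h => F (fun v => h (τ v))) := fun _ _ h =>
  hF _ _ fun x hx y hy => h _ (Finset.mem_map.2 ⟨x, hx, rfl⟩) _ (Finset.mem_map.2 ⟨y, hy, rfl⟩)

private lemma Mu_img_tendsto {τ : V ≃ V} (h : LSym τ) (h0 : τ (0, 0) = (0, 0)) :
    Tendsto (img τ) dom dom := by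
  unfold dom
  refine tendsto_inf.2 ⟨?_, ?_⟩
  · refine Tendsto.mono_left ?_ inf_le_left
    refine tendsto_atTop.2 (fun F => ?_)
    refine (eventually_ge_atTop (img τ.symm F)).mono (fun D hD x hx => ?_)
    refine Finset.mem_map.2 ⟨τ.symm x, hD (Finset.mem_map.2 ⟨x, hx, rfl⟩), ?_⟩
    exact τ.apply_symm_apply x
  · refine tendsto_principal.2 ?_
    have h1 : ∀ᶠ D in (atTop ⊓ 𝓟 {D | BdryPar D 0} : Filter (Finset V)), BdryPar D 0 :=
      mem_inf_of_right (mem_principal_self _)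
    refine h1.mono (fun D hD => ?_)
    have h2 := bdryPar_img h D (0, 0)
    rw [h0] at h2
    have h3 : par ((0, 0) : V) = 0 := by simp [par]
    rw [h3] at h2
    exact h2.2 hD

private lemma Mu_img (hd : Deloc) {τ : V ≃ V} (h : LSym τ) (h0 : τ (0, 0) = (0, 0))
    (he : ∀ v, Even (par (τ v) - par v)) {s : Finset V} {F : (V → ℤ) → ℝ} (hF : Loc s F) :
    mu (fun g => F (fun v => g (τ v))) = mu F := by
  have h1 := (mu_tendsto hd (Mu_loc_img hF τ)).comp (Mu_img_tendsto h h0)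
  refine tendsto_nhds_unique h1 ((mu_tendsto hd hF).congr fun D => ?_)
  exact (avg_Om_img h he D F).symm

/-
By `loc_limit` with base points `w + u` and `w`: if `F` is local on `s ∋ w` then `F ∘ (shift by u)` is local on `s + u`.
-/
theorem mu_trans (hd : Deloc) {s : Finset V} {F : (V → ℤ) → ℝ} (hF : Loc s F) (u : V) :
    mu (fun h => F (fun v => h (v + u))) = mu F := by
  have hG : Loc (img (trans u) s) (fun h => F (fun v => h (v + u))) := Mu_loc_img hF (trans u)
  rw [Mu_base hd hG u, Mu_base hd hF (0, 0)]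
  congr 1
  funext g
  congr 1
  funext v
  have e1 : v + u - u = v := add_sub_cancel_right v u
  have e2 : v - (0, 0) = v := sub_zero v
  show g (v + u - u) = g (v - (0, 0))
  rw [e1, e2]

/-
The maps `v ↦ (-v.1, v.2)` and `v ↦ (v.2, v.1)` preserve the parity and map `dom` to `dom`: `avg_Om_img` (compare `Gam_sym` in T3.lean).
-/
theorem mu_refl1 (hd : Deloc) {s : Finset V} {F : (V → ℤ) → ℝ} (hF : Loc s F) :
    mu (fun h => F (fun v => h (-v.1, v.2))) = mu F := by
  refine Mu_img hd refl1_lsym (by simp [refl1]) (fun v => ?_) hF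
  refine ⟨-v.1, ?_⟩
  simp only [refl1, par, Equiv.coe_fn_mk]
  ring

theorem mu_swap (hd : Deloc) {s : Finset V} {F : (V → ℤ) → ℝ} (hF : Loc s F) :
    mu (fun h => F (fun v => h (v.2, v.1))) = mu F := by
  refine Mu_img hd swapV_lsym (by simp [swapV]) (fun v => ?_) hF
  refine ⟨0, ?_⟩
  simp only [swapV, par, Equiv.coe_fn_mk]
  ring

/-- `avg_neg_Om` -/
theorem mu_neg (hd : Deloc) {s : Finset V} {F : (V → ℤ) → ℝ} (hF : Loc s F) :
    mu (fun h => F (-h)) = mu F := by
  have hG : Loc s (fun h => F (-h)) := fun g g' h => hF _ _ fun x hx y hy => by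
    have := h x hx y hy
    simp only [Pi.neg_apply]
    omega
  refine tendsto_nhds_unique (mu_tendsto hd hG) ((mu_tendsto hd hF).congr fun D => ?_)
  exact (avg_neg_Om F).symm

private lemma Mu_rp_loc {θ : V → V} {H : V → Prop} (_hR : ReflD θ H) {s : Finset V}
    {F G : (V → ℤ) → ℝ} (hF : Loc s F) (hG : Loc s G) :
    Loc (s ∪ s.image θ) (fun h => F h * G (fun v => h (θ v))) := by
  intro g g' h
  have h1 : F g = F g' := hF g g' fun x hx y hy =>
    h x (Finset.mem_union_left _ hx) y (Finset.mem_union_left _ hy)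
  have h2 : G (fun v => g (θ v)) = G (fun v => g' (θ v)) := hG _ _ fun x hx y hy =>
    h _ (Finset.mem_union_right _ (Finset.mem_image_of_mem θ hx)) _
      (Finset.mem_union_right _ (Finset.mem_image_of_mem θ hy))
  show F g * G (fun v => g (θ v)) = F g' * G (fun v => g' (θ v))
  rw [h1, h2]

private lemma Mu_rp_gen (hd : Deloc) {θ : V → V} {H : V → Prop} (hR : ReflD θ H)
    (hθ : ∀ (m : ℕ) (v : V), v ∈ diam m ↔ θ v ∈ diam m) {s : Finset V} {F : (V → ℤ) → ℝ}
    (hF : Loc s F) (hs : ∀ x ∈ s, H x) : 0 ≤ mu (fun h => F h * F (fun v => h (θ v))) := by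
  refine ge_of_tendsto' ((mu_tendsto hd (Mu_rp_loc hR hF hF)).comp diam_tendsto) fun m => ?_
  show 0 ≤ avg (Om (diam (2 * m))) (fun h => F h * F (fun v => h (θ v)))
  unfold avg
  refine div_nonneg ?_ (Nat.cast_nonneg _)
  exact rp_gen hR _ (hθ _) F fun g g' h => Mu_val hF g g' fun x hx => h x (hs x hx)

private lemma Mu_rp_inv (hd : Deloc) {θ : V → V} {H : V → Prop} (hR : ReflD θ H)
    (h0 : θ (0, 0) = (0, 0)) {s : Finset V} {F : (V → ℤ) → ℝ} (hF : Loc s F) :
    mu (fun h => F (fun v => h (θ v))) = mu F := by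
  have h1 : LSym (⟨θ, θ, hR.inv, hR.inv⟩ : V ≃ V) := by
    refine ⟨hR.adj, fun u v => ?_⟩
    have h2 := (hR.par u).sub (hR.par v)
    have h3 : RP4.par (θ u) - RP4.par u - (RP4.par (θ v) - RP4.par v) =
        RP4.par (θ u) - RP4.par (θ v) - (RP4.par u - RP4.par v) := by ring
    rw [h3] at h2
    exact h2
  exact Mu_img hd h1 h0 hR.par hF

private lemma Mu_rp_comm (hd : Deloc) {θ : V → V} {H : V → Prop} (hR : ReflD θ H)
    (h0 : θ (0, 0) = (0, 0)) {s : Finset V} {F G : (V → ℤ) → ℝ} (hF : Loc s F) (hG : Loc s G) :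
    mu (fun h => G h * F (fun v => h (θ v))) = mu (fun h => F h * G (fun v => h (θ v))) := by
  rw [← Mu_rp_inv hd hR h0 (Mu_rp_loc hR hF hG)]
  congr 1
  funext h
  simp only [hR.inv]
  ring

private lemma Mu_rp_cs (hd : Deloc) {θ : V → V} {H : V → Prop} (hR : ReflD θ H)
    (hθ : ∀ (m : ℕ) (v : V), v ∈ diam m ↔ θ v ∈ diam m) (h0 : θ (0, 0) = (0, 0))
    {s : Finset V} {F G : (V → ℤ) → ℝ} (hF : Loc s F) (hG : Loc s G) (hs : ∀ x ∈ s, H x) :
    (mu (fun h => F h * G (fun v => h (θ v)))) ^ 2 ≤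
      mu (fun h => F h * F (fun v => h (θ v))) * mu (fun h => G h * G (fun v => h (θ v))) := by
  have hFF := Mu_rp_loc hR hF hF
  have hFG := Mu_rp_loc hR hF hG
  have hGF := Mu_rp_loc hR hG hF
  have hGG := Mu_rp_loc hR hG hG
  have key : ∀ t : ℝ, 0 ≤ mu (fun h => G h * G (fun v => h (θ v))) * (t * t) +
      (2 * mu (fun h => F h * G (fun v => h (θ v)))) * t +
        mu (fun h => F h * F (fun v => h (θ v))) := by
    intro t
    have h1 := Mu_rp_gen hd hR hθ (hF.add (hG.comp fun r => t * r)) hs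
    have h2 : (fun h : V → ℤ => (F h + t * G h) *
        (F (fun v => h (θ v)) + t * G (fun v => h (θ v)))) =
        fun h => (F h * F (fun v => h (θ v)) + t * (F h * G (fun v => h (θ v)))) +
          (t * (G h * F (fun v => h (θ v))) + t * t * (G h * G (fun v => h (θ v)))) := by
      funext h
      ring
    have h3 : mu (fun h : V → ℤ => (F h + t * G h) *
        (F (fun v => h (θ v)) + t * G (fun v => h (θ v)))) =
        mu (fun h => F h * F (fun v => h (θ v))) + t * mu (fun h => F h * G (fun v => h (θ v))) +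
          (t * mu (fun h => G h * F (fun v => h (θ v))) +
            t * t * mu (fun h => G h * G (fun v => h (θ v)))) := by
      rw [h2, mu_add hd (hFF.add (hFG.comp fun r => t * r))
        ((hGF.comp fun r => t * r).add (hGG.comp fun r => t * t * r)),
        mu_add hd hFF (hFG.comp fun r => t * r),
        mu_add hd (hGF.comp fun r => t * r) (hGG.comp fun r => t * t * r),
        mu_smul hd hFG, mu_smul hd hGF, mu_smul hd hGG]
    rw [h3, Mu_rp_comm hd hR h0 hF hG] at h1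
    linarith
  have h1 := discrim_le_zero key
  unfold discrim at h1
  nlinarith

private lemma Mu_diam_axis (m : ℕ) (v : V) : v ∈ diam m ↔ ((-v.1, v.2) : V) ∈ diam m := by
  rw [mem_diam, mem_diam]
  simp only [abs_neg]

private lemma Mu_diam_diag (m : ℕ) (v : V) : v ∈ diam m ↔ ((-v.2, -v.1) : V) ∈ diam m := by
  rw [mem_diam, mem_diam]
  simp only [abs_neg]
  rw [add_comm]

/-
`rp_gen` (T4.lean) with `D = diam (2 m)`, `reflD_axis`, `reflD_diag`; `diam_tendsto`.  The function `h ↦ F h * F (h ∘ θ)` is local on `s ∪ θ s`.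
-/
theorem mu_rp1 (hd : Deloc) {s : Finset V} {F : (V → ℤ) → ℝ} (hF : Loc s F)
    (hs : ∀ x ∈ s, 0 ≤ x.1) : 0 ≤ mu (fun h => F h * F (fun v => h (-v.1, v.2))) := by
  exact Mu_rp_gen hd reflD_axis Mu_diam_axis hF hs

theorem mu_rpd (hd : Deloc) {s : Finset V} {F : (V → ℤ) → ℝ} (hF : Loc s F)
    (hs : ∀ x ∈ s, 0 ≤ x.1 + x.2) : 0 ≤ mu (fun h => F h * F (fun v => h (-v.2, -v.1))) := by
  exact Mu_rp_gen hd reflD_diag Mu_diam_diag hF hs

/-- Cauchy-Schwarz for the form of `mu_rp1` -/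
theorem mu_cs1 (hd : Deloc) {s : Finset V} {F G : (V → ℤ) → ℝ} (hF : Loc s F) (hG : Loc s G)
    (hs : ∀ x ∈ s, 0 ≤ x.1) :
    (mu (fun h => F h * G (fun v => h (-v.1, v.2)))) ^ 2 ≤
      mu (fun h => F h * F (fun v => h (-v.1, v.2))) *
        mu (fun h => G h * G (fun v => h (-v.1, v.2))) := by
  exact Mu_rp_cs hd reflD_axis Mu_diam_axis (by simp) hF hG hs

theorem mu_csd (hd : Deloc) {s : Finset V} {F G : (V → ℤ) → ℝ} (hF : Loc s F) (hG : Loc s G)
    (hs : ∀ x ∈ s, 0 ≤ x.1 + x.2) :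
    (mu (fun h => F h * G (fun v => h (-v.2, -v.1)))) ^ 2 ≤
      mu (fun h => F h * F (fun v => h (-v.2, -v.1))) *
        mu (fun h => G h * G (fun v => h (-v.2, -v.1))) := by
  exact Mu_rp_cs hd reflD_diag Mu_diam_diag (by simp) hF hG hs

end RP4
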