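import Pool.Agent.Helper63.RP4.A03s
import Pool.Agent.Helper63.RP4.A03h

/-!
A09.  Two positivity lemmas.
-/

open Finset

namespace RP4

/-
`holley_avg` with `A = Pin D w c`, `B = Pin D w (-c)` (`c ≥ -c`) gives `avg B (g x) ≤ avg A (g x)`, and
`avg B (g x) = - avg A (g x)` by `avg_neg_Pin`.  (If `Pin D w c = ∅` the average is `0`.)
-/
theorem pin_mean_nonneg (D : Finset V) (w : V) (c : ℤ) (hc : 0 ≤ c) (x : V) :
    0 ≤ avg (Pin D w c) (fun g => (g x : ℝ)) := by
  rcases (Pin D w c).eq_empty_or_nonempty with h0 | hne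
  · rw [h0]; simp [avg]
  have hneB : (Pin D w (-c)).Nonempty := by
    rw [← Finset.card_pos, card_Pin_neg, Finset.card_pos]
    exact hne
  have hH := holley_avg (Pin D w c) (Pin D w (-c)) hne hneB ?_ ?_ (fun g => (g x : ℝ)) ?_
  · have hN := avg_neg_Pin D w c (fun g => (g x : ℝ))
    have h1 : avg (Pin D w (-c)) (fun g => (((-g) x : ℤ) : ℝ)) =
        - avg (Pin D w (-c)) (fun g => (g x : ℝ)) := by
      unfold avg
      rw [← neg_div, ← Finset.sum_neg_distrib]
      congr 1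
      apply Finset.sum_congr rfl
      intro g _
      simp
    have h2 : - avg (Pin D w (-c)) (fun g => (g x : ℝ)) = avg (Pin D w c) (fun g => (g x : ℝ)) := by
      rw [← h1]
      exact hN
    linarith
  · intro a ha b hb
    rw [mem_Pin] at ha hb ⊢
    refine ⟨ha.1.sup hb.1, ?_, ?_⟩
    · rw [Pi.sup_apply, ha.2.1, hb.2.1]; simp
    · intro v hv
      rw [Pi.sup_apply, ha.2.2 v hv, hb.2.2 v hv]
      exact sup_eq_left.mpr (by linarith)
  · intro a ha b hb
    rw [mem_Pin] at ha hb ⊢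
    refine ⟨ha.1.inf hb.1, ?_, ?_⟩
    · rw [Pi.inf_apply, ha.2.1, hb.2.1]; simp
    · intro v hv
      rw [Pi.inf_apply, ha.2.2 v hv, hb.2.2 v hv]
      exact inf_eq_right.mpr (by linarith)
  · intro a _ b _
    have : b x ≤ (a ⊔ b) x := by
      rw [Pi.sup_apply]; exact le_sup_right
    exact_mod_cast this

/-- reflection of the values in `i` -/
private noncomputable def A09_phi (D : Finset V) (i : ℤ) (h : V → ℤ) : V → ℤ := by
  classical exact fun v => if v ∈ D then 2 * i - h v else 0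

private lemma A09_phi_mem {D : Finset V} {i : ℤ} {h : V → ℤ} {v : V} (hv : v ∈ D) :
    A09_phi D i h v = 2 * i - h v := by
  simp [A09_phi, hv]

private lemma A09_phi_not {D : Finset V} {i : ℤ} {h : V → ℤ} {v : V} (hv : v ∉ D) :
    A09_phi D i h v = 0 := by
  simp [A09_phi, hv]

private lemma A09_phi_phi {D : Finset V} {i : ℤ} {h : V → ℤ} (h0 : ∀ v, v ∉ D → h v = 0) :
    A09_phi D i (A09_phi D i h) = h := by
  funext v
  by_cases hv : v ∈ D
  · rw [A09_phi_mem hv, A09_phi_mem hv]; ring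
  · rw [A09_phi_not hv, h0 v hv]

private lemma A09_phi_isHom {D : Finset V} {i : ℤ} {h : V → ℤ} (hh : IsHom D 0 h) :
    IsHom D 0 (A09_phi D i h) := by
  refine ⟨fun v hv => A09_phi_not hv, fun v hv => ?_, fun u hu v hv huv => ?_⟩
  · rw [A09_phi_mem hv]
    obtain ⟨m, hm⟩ := hh.par v hv
    exact ⟨i - m - par v, by linarith⟩
  · rw [A09_phi_mem hu, A09_phi_mem hv]
    have := hh.step u hu v hv huv
    rw [abs_sub_comm] at this
    have e : 2 * i - h u - (2 * i - h v) = h v - h u := by ring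
    rw [e]
    exact this

/-- the functions with value `i` at `x` -/
private noncomputable def A09_A (D : Finset V) (x : V) (i : ℤ) : Finset (V → ℤ) := by
  classical exact (Om D).filter (fun h => h x = i)

private lemma A09_mem_A {D : Finset V} {x : V} {i : ℤ} {h : V → ℤ} :
    h ∈ A09_A D x i ↔ (IsHom D 0 h ∧ ∀ v ∈ bdry D, h v = 0) ∧ h x = i := by
  classical
  unfold A09_A
  rw [Finset.mem_filter, mem_Om]

private noncomputable def A09_B (D : Finset V) (x : V) (i : ℤ) : Finset (V → ℤ) := by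
  classical exact (A09_A D x i).image (A09_phi D i)

private lemma A09_mem_B {D : Finset V} {x : V} (hx : x ∈ D) {i : ℤ} {b : V → ℤ} :
    b ∈ A09_B D x i ↔ (IsHom D 0 b ∧ ∀ v ∈ bdry D, b v = 2 * i) ∧ b x = i := by
  classical
  unfold A09_B
  rw [Finset.mem_image]
  constructor
  · rintro ⟨h, hh, rfl⟩
    rw [A09_mem_A] at hh
    refine ⟨⟨A09_phi_isHom hh.1.1, fun v hv => ?_⟩, ?_⟩
    · rw [A09_phi_mem (bdry_subset D hv), hh.1.2 v hv]; ring
    · rw [A09_phi_mem hx, hh.2]; ring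
  · rintro ⟨⟨h1, h2⟩, h3⟩
    refine ⟨A09_phi D i b, ?_, A09_phi_phi h1.off⟩
    rw [A09_mem_A]
    refine ⟨⟨A09_phi_isHom h1, fun v hv => ?_⟩, ?_⟩
    · rw [A09_phi_mem (bdry_subset D hv), h2 v hv]; ring
    · rw [A09_phi_mem hx, h3]; ring

private lemma A09_injOn (D : Finset V) (x : V) (i : ℤ) :
    Set.InjOn (A09_phi D i) (A09_A D x i : Set (V → ℤ)) := by
  intro a ha b hb hab
  have ha' := (A09_mem_A.mp (Finset.mem_coe.mp ha)).1.1.off
  have hb' := (A09_mem_A.mp (Finset.mem_coe.mp hb)).1.1.off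
  rw [← A09_phi_phi (i := i) ha', hab, A09_phi_phi hb']

private lemma A09_card (D : Finset V) (x : V) (i : ℤ) :
    (A09_B D x i).card = (A09_A D x i).card := by
  classical
  unfold A09_B
  exact Finset.card_image_of_injOn (A09_injOn D x i)

private lemma A09_sum (D : Finset V) (x w : V) (hw : w ∈ D) (i : ℤ) :
    ∑ b ∈ A09_B D x i, (b w : ℝ) =
      2 * (i : ℝ) * (A09_A D x i).card - ∑ h ∈ A09_A D x i, (h w : ℝ) := by
  classical
  unfold A09_B
  rw [Finset.sum_image (A09_injOn D x i)]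
  have : ∀ h ∈ A09_A D x i, ((A09_phi D i h w : ℤ) : ℝ) = 2 * (i : ℝ) - (h w : ℝ) := by
    intro h _
    rw [A09_phi_mem hw]
    push_cast
    ring
  rw [Finset.sum_congr rfl this, Finset.sum_sub_distrib, Finset.sum_const, nsmul_eq_mul]
  ring

private lemma A09_inner (D : Finset V) (x w : V) (hx : x ∈ D) (hw : w ∈ D) (i : ℤ) :
    0 ≤ ∑ h ∈ A09_A D x i, (i : ℝ) * ((i : ℝ) - (h w : ℝ)) := by
  set S : ℝ := ∑ h ∈ A09_A D x i, (h w : ℝ) with hS
  set n : ℝ := ((A09_A D x i).card : ℝ) with hn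
  have e : ∑ h ∈ A09_A D x i, (i : ℝ) * ((i : ℝ) - (h w : ℝ)) = (i : ℝ) * ((i : ℝ) * n - S) := by
    rw [← Finset.mul_sum, Finset.sum_sub_distrib, Finset.sum_const, nsmul_eq_mul]
    rw [← hS, ← hn]; ring
  rw [e]
  have hn0 : 0 ≤ n := by rw [hn]; positivity
  rcases hn0.eq_or_lt with h0 | hpos
  · have hemp : A09_A D x i = ∅ := by
      rw [← Finset.card_eq_zero]
      have : ((A09_A D x i).card : ℝ) = 0 := by rw [← hn, ← h0]
      exact_mod_cast this
    have : S = 0 := by rw [hS, hemp]; simp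
    rw [this, ← h0]; simp
  rcases le_total 0 i with hi | hi
  · have H := holley_sets (A09_B D x i) (A09_A D x i) ?_ ?_ (fun g => (g w : ℝ)) ?_
    · rw [A09_sum D x w hw i, A09_card, ← hS, ← hn] at H
      have h1 : S ≤ 2 * (i : ℝ) * n - S := le_of_mul_le_mul_right H hpos
      have h2 : 0 ≤ (i : ℝ) := by exact_mod_cast hi
      have h3 : 0 ≤ (i : ℝ) * n - S := by linarith
      exact mul_nonneg h2 h3
    · intro a ha b hb
      rw [A09_mem_B hx] at ha ⊢
      rw [A09_mem_A] at hb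
      refine ⟨⟨ha.1.1.sup hb.1.1, fun v hv => ?_⟩, ?_⟩
      · rw [Pi.sup_apply, ha.1.2 v hv, hb.1.2 v hv]
        exact sup_eq_left.mpr (by linarith)
      · rw [Pi.sup_apply, ha.2, hb.2, sup_idem]
    · intro a ha b hb
      rw [A09_mem_B hx] at ha
      rw [A09_mem_A] at hb ⊢
      refine ⟨⟨ha.1.1.inf hb.1.1, fun v hv => ?_⟩, ?_⟩
      · rw [Pi.inf_apply, ha.1.2 v hv, hb.1.2 v hv]
        exact inf_eq_right.mpr (by linarith)
      · rw [Pi.inf_apply, ha.2, hb.2, inf_idem]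
    · intro a _ b _
      have : b w ≤ (a ⊔ b) w := by
        rw [Pi.sup_apply]; exact le_sup_right
      exact_mod_cast this
  · have H := holley_sets (A09_A D x i) (A09_B D x i) ?_ ?_ (fun g => (g w : ℝ)) ?_
    · rw [A09_sum D x w hw i, A09_card, ← hS, ← hn] at H
      have h1 : 2 * (i : ℝ) * n - S ≤ S := le_of_mul_le_mul_right H hpos
      have h2 : (i : ℝ) ≤ 0 := by exact_mod_cast hi
      have h3 : (i : ℝ) * n - S ≤ 0 := by linarith
      exact mul_nonneg_of_nonpos_of_nonpos h2 h3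
    · intro a ha b hb
      rw [A09_mem_B hx] at hb
      rw [A09_mem_A] at ha ⊢
      refine ⟨⟨ha.1.1.sup hb.1.1, fun v hv => ?_⟩, ?_⟩
      · rw [Pi.sup_apply, ha.1.2 v hv, hb.1.2 v hv]
        exact sup_eq_left.mpr (by linarith)
      · rw [Pi.sup_apply, ha.2, hb.2, sup_idem]
    · intro a ha b hb
      rw [A09_mem_B hx] at hb ⊢
      rw [A09_mem_A] at ha
      refine ⟨⟨ha.1.1.inf hb.1.1, fun v hv => ?_⟩, ?_⟩
      · rw [Pi.inf_apply, ha.1.2 v hv, hb.1.2 v hv]
        exact inf_eq_right.mpr (by linarith)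
      · rw [Pi.inf_apply, ha.2, hb.2, inf_idem]
    · intro a _ b _
      have : b w ≤ (a ⊔ b) w := by
        rw [Pi.sup_apply]; exact le_sup_right
      exact_mod_cast this

/-
`Σ_{h ∈ Om D} h x (h x - h w) = Σ_i Σ_{h ∈ A_i} i (i - h w)`, `A_i := {h ∈ Om D | h x = i}`; show every inner sum is `≥ 0`.
By the symmetry `h ↦ -h` it is enough to treat `i ≥ 0` (`i = 0` trivial).
Let `B_i := {2 i - h on D, 0 off D | h ∈ A_i}` : homs of the same parity (`i` even or odd does not matter), boundary value `2 i ≥ 0`,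
value `i` at `x`. For `b ∈ B_i`, `a ∈ A_i`: `b ⊔ a ∈ B_i` (boundary `max (2i) 0`; `2i - (b ⊔ a) ∈ A_i`) and `b ⊓ a ∈ A_i`.
Holley: `avg A_i (h w) ≤ avg B_i (h w) = 2 i - avg A_i (h w)`, so `avg A_i (h w) ≤ i`.
-/
theorem corr_nonneg (D : Finset V) (x w : V) (hx : x ∈ D) (hw : w ∈ D) :
    0 ≤ avg (Om D) (fun h => (h x : ℝ) * ((h x : ℝ) - h w)) := by
  classical
  unfold avg
  apply div_nonneg _ (Nat.cast_nonneg _)
  rw [← Finset.sum_fiberwise_of_maps_to (s := Om D) (t := (Om D).image (fun h => h x))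
    (g := fun h => h x) (fun h hh => Finset.mem_image_of_mem _ hh)]
  apply Finset.sum_nonneg
  intro i _
  have H := A09_inner D x w hx hw i
  have e : ∑ h ∈ (Om D).filter (fun h => h x = i), (h x : ℝ) * ((h x : ℝ) - h w) =
      ∑ h ∈ A09_A D x i, (i : ℝ) * ((i : ℝ) - (h w : ℝ)) := by
    have e0 : A09_A D x i = (Om D).filter (fun h => h x = i) := by
      ext h
      rw [A09_mem_A, Finset.mem_filter, mem_Om]
    rw [e0]
    apply Finset.sum_congr rfl
    intro h hh
    rw [(Finset.mem_filter.mp hh).2]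
  rw [e]
  exact H

end RP4
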