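import Pool.Agent.Helper63.RP4.A02

/-!
A10.  Decomposition of `Om D` according to the value at `w`.
-/

open Finset

namespace RP4

/-- heights relative to the height at `w` -/
noncomputable def shift (D : Finset V) (w : V) (h : V → ℤ) : V → ℤ := by
  classical exact fun v => if v ∈ D then h v - h w else 0

private lemma A10_shift_mem {D : Finset V} {w : V} {h : V → ℤ} {v : V} (hv : v ∈ D) :
    shift D w h v = h v - h w := by
  unfold shift
  exact if_pos hv

private lemma A10_shift_not {D : Finset V} {w : V} {h : V → ℤ} {v : V} (hv : v ∉ D) :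
    shift D w h v = 0 := by
  unfold shift
  exact if_neg hv

/-- the inverse map -/
private noncomputable def A10_inv (D : Finset V) (c : ℤ) (g : V → ℤ) : V → ℤ := by
  classical exact fun v => if v ∈ D then g v - c else 0

private lemma A10_inv_mem {D : Finset V} {c : ℤ} {g : V → ℤ} {v : V} (hv : v ∈ D) :
    A10_inv D c g v = g v - c := by
  unfold A10_inv
  exact if_pos hv

private lemma A10_inv_not {D : Finset V} {c : ℤ} {g : V → ℤ} {v : V} (hv : v ∉ D) :
    A10_inv D c g v = 0 := by
  unfold A10_inv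
  exact if_neg hv

/-
`h ↦ (c, g) := (-(h w), shift D w h)` is a bijection from `Om D` onto `{(c, g) | g ∈ Pin D w c}`, and `|h w| ≤ D.card`
(`IsHom.bound_bdry`).  Inverse: `h = g - c` on `D`, `0` off `D`.  Parities: for `h`: `h v ≡ par v`, so
`g v = h v - h w ≡ par v + par w`.  Conversely for `g ∈ Pin D w c` and a boundary vertex `b` (exists,
`exists_bdry_right`): `c = g b ≡ par b + par w ≡ par w` since `BdryPar D 0`.
-/
theorem sum_Om (D : Finset V) (hq : BdryPar D 0) (w : V) (hw : w ∈ D) (F : ℤ → (V → ℤ) → ℝ) :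
    ∑ h ∈ Om D, F (-(h w)) (shift D w h) =
      ∑ c ∈ Finset.Icc (-(D.card : ℤ)) (D.card : ℤ), ∑ g ∈ Pin D w c, F c g := by
  classical
  have hsub : ∀ v ∈ bdry D, v ∈ D := fun v hv => (mem_bdry.1 hv).1
  rw [Finset.sum_sigma']
  refine Finset.sum_bij' (fun h _ => (⟨-(h w), shift D w h⟩ : Σ _ : ℤ, (V → ℤ)))
    (fun q _ => A10_inv D q.1 q.2) ?_ ?_ ?_ ?_ ?_
  · intro h hh
    obtain ⟨h1, h2⟩ := mem_Om.1 hh
    rw [mem_sigma]
    refine ⟨?_, ?_⟩
    · obtain ⟨b, hb, hb2⟩ := h1.bound_bdry hw
      rw [h2 b hb, sub_zero, abs_le] at hb2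
      rw [mem_Icc]
      simp only
      omega
    · rw [mem_Pin]
      refine ⟨⟨fun v hv => A10_shift_not hv, ?_, ?_⟩, ?_, ?_⟩
      · intro v hv
        simp only
        rw [A10_shift_mem hv]
        obtain ⟨r, hr⟩ := h1.par v hv
        obtain ⟨s, hs⟩ := h1.par w hw
        exact ⟨r - s - par w, by omega⟩
      · intro u hu v hv huv
        simp only
        rw [A10_shift_mem hu, A10_shift_mem hv]
        have h3 := h1.step u hu v hv huv
        have h4 : h u - h w - (h v - h w) = h u - h v := by ring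
        rw [h4]
        exact h3
      · simp only
        rw [A10_shift_mem hw, sub_self]
      · intro v hv
        simp only
        rw [A10_shift_mem (hsub v hv), h2 v hv, zero_sub]
  · rintro ⟨c, g⟩ hq'
    obtain ⟨-, hg⟩ := mem_sigma.1 hq'
    obtain ⟨h1, h2, h3⟩ := mem_Pin.1 hg
    simp only at h1 h2 h3
    rw [mem_Om]
    refine ⟨⟨fun v hv => A10_inv_not hv, ?_, ?_⟩, ?_⟩
    · intro v hv
      simp only
      rw [A10_inv_mem hv]
      obtain ⟨b, hb, -⟩ := exists_bdry_right D hv
      obtain ⟨r, hr⟩ := h1.par v hv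
      obtain ⟨s, hs⟩ := h1.par b (hsub b hb)
      obtain ⟨t, ht⟩ := hq b hb
      have h4 := h3 b hb
      exact ⟨r - s - t, by omega⟩
    · intro u hu v hv huv
      simp only
      rw [A10_inv_mem hu, A10_inv_mem hv]
      have h4 := h1.step u hu v hv huv
      have h5 : g u - c - (g v - c) = g u - g v := by ring
      rw [h5]
      exact h4
    · intro v hv
      simp only
      rw [A10_inv_mem (hsub v hv), h3 v hv, sub_self]
  · intro h hh
    obtain ⟨h1, h2⟩ := mem_Om.1 hh
    funext v
    simp only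
    by_cases hv : v ∈ D
    · rw [A10_inv_mem hv, A10_shift_mem hv]
      ring
    · rw [A10_inv_not hv, h1.off v hv]
  · rintro ⟨c, g⟩ hq'
    obtain ⟨-, hg⟩ := mem_sigma.1 hq'
    obtain ⟨h1, h2, h3⟩ := mem_Pin.1 hg
    simp only at h1 h2 h3
    have h4 : shift D w (A10_inv D c g) = g := by
      funext v
      by_cases hv : v ∈ D
      · rw [A10_shift_mem hv, A10_inv_mem hv, A10_inv_mem hw, h2]
        ring
      · rw [A10_shift_not hv, h1.off v hv]
    have h5 : -(A10_inv D c g w) = c := by
      rw [A10_inv_mem hw, h2]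
      ring
    simp only
    rw [h4, h5]
  · intro h hh
    rfl

end RP4
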