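import Pool.Agent.Helper63.RP4.A08s
import Pool.Agent.Helper63.RP4.A09
import Pool.Agent.Helper63.RP4.A10

/-!
A11.  The key estimate: comparison of the law of `h x - h w` with the pinned law.
-/

open Finset

namespace RP4

/-- averages are linear -/
private lemma A11_avg_lin (S : Finset (V → ℤ)) (x : V) (L s : ℝ) (φ : ℤ → ℝ) :
    avg S (fun g => L * (g x : ℝ) + s * φ (g x)) =
      L * avg S (fun g => (g x : ℝ)) + s * avg S (fun g => φ (g x)) := by
  unfold avg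
  rw [Finset.sum_add_distrib, ← Finset.mul_sum, ← Finset.mul_sum, add_div, mul_div_assoc,
    mul_div_assoc]

private lemma A11_sum_avg (S : Finset (V → ℤ)) (F : (V → ℤ) → ℝ) :
    ∑ g ∈ S, F g = S.card * avg S F := by
  unfold avg
  rcases S.eq_empty_or_nonempty with h | h
  · rw [h]; simp
  · have : (S.card : ℝ) ≠ 0 := by
      exact_mod_cast (Finset.card_pos.2 h).ne'
    field_simp

private lemma A11_sum_neg (D : Finset V) (w : V) (c : ℤ) (F : (V → ℤ) → ℝ) :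
    ∑ g ∈ Pin D w (-c), F (-g) = ∑ g ∈ Pin D w c, F g := by
  rw [A11_sum_avg (Pin D w c) F, ← avg_neg_Pin D w c F, ← card_Pin_neg D w c, ← A11_sum_avg]

/-- the mean of the symmetric pinned measure vanishes -/
private lemma A11_mean_zero (D : Finset V) (w x : V) :
    avg (Pin D w 0) (fun g => (g x : ℝ)) = 0 := by
  have h := avg_neg_Pin D w 0 (fun g => (g x : ℝ))
  rw [neg_zero] at h
  have h1 : avg (Pin D w 0) (fun g => (((-g) x : ℤ) : ℝ)) =
      - avg (Pin D w 0) (fun g => (g x : ℝ)) := by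
    unfold avg
    rw [← neg_div, ← Finset.sum_neg_distrib]
    congr 1
    apply Finset.sum_congr rfl
    intro g _
    simp
  have h2 : - avg (Pin D w 0) (fun g => (g x : ℝ)) = avg (Pin D w 0) (fun g => (g x : ℝ)) := by
    rw [← h1]
    exact h
  linarith

private lemma A11_mono (L s : ℝ) (hs : s = 1 ∨ s = -1) (φ : ℤ → ℝ)
    (hL : ∀ a b : ℤ, |φ a - φ b| ≤ L * |(a : ℝ) - b|) :
    Monotone (fun t : ℤ => L * (t : ℝ) + s * φ t) := by
  intro a b hab
  have h1 := hL a b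
  have h2 : (a : ℝ) ≤ b := by exact_mod_cast hab
  rw [abs_of_nonpos (show (a : ℝ) - b ≤ 0 by linarith)] at h1
  have h3 := (abs_le.1 h1)
  simp only
  rcases hs with rfl | rfl
  · nlinarith [h3.1, h3.2]
  · nlinarith [h3.1, h3.2]

private lemma A11_star (D : Finset V) (hq : BdryPar D 0) (w x : V) (hw : w ∈ dstar D w)
    (hx : x ∈ dstar D w) (φ : ℤ → ℝ) (L : ℝ)
    (hL : ∀ a b : ℤ, |φ a - φ b| ≤ L * |(a : ℝ) - b|) (c : ℤ) (hc : 0 ≤ c)
    (hne : (Pin D w c).Nonempty) :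
    |avg (Pin D w c) (fun g => φ (g x)) - avg (Pin (dstar D w) w 0) (fun g => φ (g x))| ≤
      L * avg (Pin D w c) (fun g => (g x : ℝ)) := by
  have h1 := dom_star D w c hq hw hc hne x hx _ (A11_mono L 1 (Or.inl rfl) φ hL)
  have h2 := dom_star D w c hq hw hc hne x hx _ (A11_mono L (-1) (Or.inr rfl) φ hL)
  rw [A11_avg_lin, A11_avg_lin, A11_mean_zero] at h1 h2
  rw [abs_le]
  constructor <;> linarith

/-- the three facts on the pinned sums for `c ≥ 0` -/
private lemma A11_pos (D : Finset V) (hq : BdryPar D 0) (w x : V)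
    (hball : ∀ v, dist1 w v ≤ dist1 w x → v ∈ D) (hw : w ∈ dstar D w) (hx : x ∈ dstar D w)
    (φ : ℤ → ℝ) (L : ℝ) (hL : ∀ a b : ℤ, |φ a - φ b| ≤ L * |(a : ℝ) - b|) (c : ℤ) (hc : 0 ≤ c) :
    |∑ g ∈ Pin D w c, (φ (g x) - avg (Pin (dstar D w) w 0) (fun g => φ (g x)))| ≤
      L * ∑ g ∈ Pin D w c, (g x : ℝ) ∧ 0 ≤ ∑ g ∈ Pin D w c, (g x : ℝ) ∧
      ∑ g ∈ Pin D w c, (g x : ℝ) ≤ (Pin D w c).card * (dist1 w x : ℝ) := by
  rcases (Pin D w c).eq_empty_or_nonempty with h0 | hne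
  · rw [h0]; simp
  refine ⟨?_, ?_, ?_⟩
  · have h1 := A11_star D hq w x hw hx φ L hL c hc hne
    rw [Finset.sum_sub_distrib, Finset.sum_const, nsmul_eq_mul, A11_sum_avg,
      A11_sum_avg (Pin D w c) (fun g => (g x : ℝ)), ← mul_sub, abs_mul, Nat.abs_cast]
    have h2 : (0 : ℝ) ≤ (Pin D w c).card := Nat.cast_nonneg _
    nlinarith [mul_le_mul_of_nonneg_left h1 h2]
  · rw [A11_sum_avg]
    exact mul_nonneg (Nat.cast_nonneg _) (pin_mean_nonneg D w c hc x)
  · rw [← nsmul_eq_mul]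
    apply Finset.sum_le_card_nsmul
    intro g hg
    rw [mem_Pin] at hg
    have h3 := hg.1.lip w x hball
    rw [hg.2.1, sub_zero] at h3
    have h4 := (abs_le.1 h3).2
    exact_mod_cast h4

/-- the same facts for all `c` -/
private lemma A11_all (D : Finset V) (hq : BdryPar D 0) (w x : V)
    (hball : ∀ v, dist1 w v ≤ dist1 w x → v ∈ D) (hw : w ∈ dstar D w) (hx : x ∈ dstar D w)
    (φ : ℤ → ℝ) (hφ : ∀ a, φ (-a) = φ a) (L : ℝ)
    (hL : ∀ a b : ℤ, |φ a - φ b| ≤ L * |(a : ℝ) - b|) (c : ℤ) :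
    |∑ g ∈ Pin D w c, (φ (g x) - avg (Pin (dstar D w) w 0) (fun g => φ (g x)))| ≤
      L * |∑ g ∈ Pin D w c, (g x : ℝ)| ∧
      |(c : ℝ)| * |∑ g ∈ Pin D w c, (g x : ℝ)| = c * ∑ g ∈ Pin D w c, (g x : ℝ) ∧
      |∑ g ∈ Pin D w c, (g x : ℝ)| ≤ (Pin D w c).card * (dist1 w x : ℝ) := by
  rcases le_total 0 c with hc | hc
  · obtain ⟨h1, h2, h3⟩ := A11_pos D hq w x hball hw hx φ L hL c hc
    rw [abs_of_nonneg h2]
    refine ⟨h1, ?_, h3⟩
    rw [abs_of_nonneg (by exact_mod_cast hc)]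
  · obtain ⟨c', rfl⟩ : ∃ c', c = -c' := ⟨-c, by ring⟩
    have hc' : 0 ≤ c' := by omega
    obtain ⟨h1, h2, h3⟩ := A11_pos D hq w x hball hw hx φ L hL c' hc'
    have e1 : ∑ g ∈ Pin D w (-c'), (φ (g x) - avg (Pin (dstar D w) w 0) (fun g => φ (g x))) =
        ∑ g ∈ Pin D w c', (φ (g x) - avg (Pin (dstar D w) w 0) (fun g => φ (g x))) := by
      rw [← A11_sum_neg D w c' (fun g => φ (g x) - avg (Pin (dstar D w) w 0) (fun g => φ (g x)))]
      apply Finset.sum_congr rfl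
      intro g _
      rw [Pi.neg_apply, hφ]
    have e2 : ∑ g ∈ Pin D w (-c'), (g x : ℝ) = - ∑ g ∈ Pin D w c', (g x : ℝ) := by
      rw [← Finset.sum_neg_distrib, ← A11_sum_neg D w c' (fun g => -(g x : ℝ))]
      apply Finset.sum_congr rfl
      intro g _
      rw [Pi.neg_apply]
      push_cast
      ring
    rw [e1, e2, abs_neg, abs_of_nonneg h2, card_Pin_neg]
    refine ⟨h1, ?_, h3⟩
    push_cast
    rw [abs_neg, abs_of_nonneg (show (0 : ℝ) ≤ (c' : ℝ) by exact_mod_cast hc')]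
    ring

/-
Let `d = dist1 w x`, `e c := avg (Pin D w c) (g x)`.
(1) For `c ≥ 0` with `Pin D w c ≠ ∅`: `|avg (Pin D w c) φ(g x) - avg (Pin (dstar D w) w 0) φ(g x)| ≤ L * e c`:
  `dom_star` for the monotone functions `t ↦ L t + φ t` and `t ↦ L t - φ t` (monotone on `ℤ` since `φ` is `L`-Lipschitz), and
  `avg (Pin (dstar D w) w 0) (g x) = 0` by symmetry (`avg_neg_Pin` with `c = 0`).
  For `c < 0`: by `avg_neg_Pin` and `φ` even the same with `e |c|`.
(2) By `sum_Om`: `avg (Om D) φ(h x - h w) = (1/N) Σ_c (card Pin_c) avg (Pin D w c) φ(g x)` (`N = (Om D).card = Σ_c card Pin_c`),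
  so the difference in question is `≤ L (1/N) Σ_c card Pin_c * e |c|`.
(3) `e |c| ≤ d` (`IsHom.lip`), and `(1/N) Σ_c card Pin_c |c| e |c| = (1/N) Σ_c Σ_{g ∈ Pin_c} c * g x`
  `= avg (Om D) ((-(h w)) (h x - h w)) ≤ avg (Om D) ((h x - h w)^2) ≤ d^2`,
  the inequality being `corr_nonneg`: `(h x - h w)^2 + h w (h x - h w) = h x (h x - h w)`.
(4) split `|c| < J` and `|c| ≥ J` (`e ≤ |c| e / J`).
-/
theorem key_est (D : Finset V) (hq : BdryPar D 0) (w x : V)
    (hball : ∀ v, dist1 w v ≤ dist1 w x → v ∈ D) (hw : w ∈ dstar D w) (hx : x ∈ dstar D w)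
    (φ : ℤ → ℝ) (hφ : ∀ a, φ (-a) = φ a) (L : ℝ) (hL0 : 0 ≤ L)
    (hL : ∀ a b : ℤ, |φ a - φ b| ≤ L * |(a : ℝ) - b|) (J : ℕ) (hJ : 0 < J) :
    |avg (Om D) (fun h => φ (h x - h w)) - avg (Pin (dstar D w) w 0) (fun g => φ (g x))| ≤
      L * ((dist1 w x : ℝ) * avg (Om D) (fun h => if |h w| < J then 1 else 0) +
        (dist1 w x : ℝ) ^ 2 / J) := by
  classical
  have hD : dstar D w ⊆ D := by
    unfold dstar
    split_ifs
    · exact subset_rfl
    · exact Finset.sdiff_subset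
  have hwD : w ∈ D := hD hw
  have hxD : x ∈ D := hD hx
  have hd0 : (0 : ℝ) ≤ (dist1 w x : ℝ) := by
    have : 0 ≤ dist1 w x := by unfold dist1; positivity
    exact_mod_cast this
  have hJ' : (0 : ℝ) < J := by exact_mod_cast hJ
  have hN : (0 : ℝ) < ((Om D).card : ℝ) := by
    exact_mod_cast Finset.card_pos.2 (Om_nonempty hq)
  set a : ℝ := avg (Pin (dstar D w) w 0) (fun g => φ (g x)) with ha
  set d : ℝ := (dist1 w x : ℝ) with hd
  have hsh : ∀ h : V → ℤ, shift D w h x = h x - h w := by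
    intro h
    unfold shift
    simp [hxD]
  -- the three uses of the decomposition
  have s1 : ∑ h ∈ Om D, (φ (h x - h w) - a) =
      ∑ c ∈ Finset.Icc (-(D.card : ℤ)) (D.card : ℤ), ∑ g ∈ Pin D w c, (φ (g x) - a) := by
    rw [← sum_Om D hq w hwD (fun _ g => φ (g x) - a)]
    apply Finset.sum_congr rfl
    intro h _
    rw [hsh]
  have s2 : ∑ h ∈ Om D, (if |h w| < (J : ℤ) then (1 : ℝ) else 0) =
      ∑ c ∈ Finset.Icc (-(D.card : ℤ)) (D.card : ℤ),
        ∑ g ∈ Pin D w c, (if |c| < (J : ℤ) then (1 : ℝ) else 0) := by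
    rw [← sum_Om D hq w hwD (fun c _ => if |c| < (J : ℤ) then (1 : ℝ) else 0)]
    apply Finset.sum_congr rfl
    intro h _
    rw [abs_neg]
  have s3 : ∑ h ∈ Om D, (-(h w : ℝ)) * ((h x : ℝ) - h w) =
      ∑ c ∈ Finset.Icc (-(D.card : ℤ)) (D.card : ℤ), ∑ g ∈ Pin D w c, (c : ℝ) * (g x : ℝ) := by
    rw [← sum_Om D hq w hwD (fun c g => (c : ℝ) * (g x : ℝ))]
    apply Finset.sum_congr rfl
    intro h _
    rw [hsh]
    push_cast
    ring
  -- the second moment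
  have s4 : ∑ h ∈ Om D, (-(h w : ℝ)) * ((h x : ℝ) - h w) ≤ (Om D).card * d ^ 2 := by
    have h1 := corr_nonneg D x w hxD hwD
    have h2 : 0 ≤ ∑ h ∈ Om D, (h x : ℝ) * ((h x : ℝ) - h w) := by
      rw [A11_sum_avg]
      exact mul_nonneg hN.le h1
    have h3 : ∑ h ∈ Om D, ((h x : ℝ) - h w) ^ 2 ≤ (Om D).card * d ^ 2 := by
      rw [← nsmul_eq_mul]
      apply Finset.sum_le_card_nsmul
      intro h hh
      rw [mem_Om] at hh
      have h4 := hh.1.lip w x hball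
      have h5 : |(h x : ℝ) - h w| ≤ d := by
        rw [hd]
        exact_mod_cast h4
      rw [← sq_abs]
      exact pow_le_pow_left₀ (abs_nonneg _) h5 2
    have h6 : ∑ h ∈ Om D, (-(h w : ℝ)) * ((h x : ℝ) - h w) =
        ∑ h ∈ Om D, ((h x : ℝ) - h w) ^ 2 - ∑ h ∈ Om D, (h x : ℝ) * ((h x : ℝ) - h w) := by
      rw [← Finset.sum_sub_distrib]
      apply Finset.sum_congr rfl
      intro h _
      ring
    rw [h6]
    linarith
  -- bound for each value of c
  have s5 : ∀ c : ℤ, |∑ g ∈ Pin D w c, (φ (g x) - a)| ≤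
      L * (d * (∑ g ∈ Pin D w c, (if |c| < (J : ℤ) then (1 : ℝ) else 0)) +
        (∑ g ∈ Pin D w c, (c : ℝ) * (g x : ℝ)) / J) := by
    intro c
    obtain ⟨h1, h2, h3⟩ := A11_all D hq w x hball hw hx φ hφ L hL c
    rw [← ha] at h1
    refine h1.trans (mul_le_mul_of_nonneg_left ?_ hL0)
    rw [← Finset.mul_sum, ← h2]
    by_cases hcJ : |c| < (J : ℤ)
    · rw [Finset.sum_congr rfl (fun _ _ => if_pos hcJ), Finset.sum_const, nsmul_eq_mul, mul_one]
      have h4 : 0 ≤ |(c : ℝ)| * |∑ g ∈ Pin D w c, (g x : ℝ)| / J := by positivity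
      linarith
    · rw [Finset.sum_congr rfl (fun _ _ => if_neg hcJ), Finset.sum_const_zero, mul_zero, zero_add,
        le_div_iff₀ hJ', mul_comm]
      apply mul_le_mul_of_nonneg_right _ (abs_nonneg _)
      push Not at hcJ
      exact_mod_cast hcJ
  -- conclusion
  have e1 : avg (Om D) (fun h => φ (h x - h w)) - a =
      (∑ h ∈ Om D, (φ (h x - h w) - a)) / (Om D).card := by
    unfold avg
    rw [Finset.sum_sub_distrib, Finset.sum_const, nsmul_eq_mul]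
    field_simp
  have e2 : avg (Om D) (fun h => if |h w| < (J : ℤ) then (1 : ℝ) else 0) =
      (∑ h ∈ Om D, (if |h w| < (J : ℤ) then (1 : ℝ) else 0)) / (Om D).card := rfl
  rw [e1, e2, abs_div, Nat.abs_cast, div_le_iff₀ hN, s1]
  refine (Finset.abs_sum_le_sum_abs _ _).trans ((Finset.sum_le_sum (fun c _ => s5 c)).trans ?_)
  rw [← Finset.mul_sum, Finset.sum_add_distrib, ← Finset.mul_sum, ← Finset.sum_div, ← s2, ← s3,
    mul_assoc]
  apply mul_le_mul_of_nonneg_left _ hL0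
  rw [add_mul, mul_assoc, div_mul_cancel₀ _ hN.ne']
  have h7 : (∑ h ∈ Om D, (-(h w : ℝ)) * ((h x : ℝ) - h w)) / J ≤ (Om D).card * d ^ 2 / J :=
    div_le_div_of_nonneg_right s4 hJ'.le
  have h8 : ((Om D).card : ℝ) * d ^ 2 / J = d ^ 2 / J * (Om D).card := by ring
  linarith

end RP4
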