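import Pool.Agent.Helper63.RP4.T2
import Pool.Agent.Helper63.RP4.A11

/-!
T3.  Existence and invariance of the infinite volume limit.
-/

open Finset Filter Topology

namespace RP4

/-- the filter of large domains with even boundary -/
def dom : Filter (Finset V) := atTop ⊓ 𝓟 {D | BdryPar D 0}

lemma eventually_dom {P : Finset V → Prop} :
    (∀ᶠ D in dom, P D) ↔ ∃ F : Finset V, ∀ D, F ⊆ D → BdryPar D 0 → P D := by
  unfold dom
  rw [eventually_inf_principal, eventually_atTop]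
  rfl

/-- the diamonds `|x|₁ ≤ m`; for even `m` they have even boundary -/
noncomputable def diam (m : ℕ) : Finset V :=
  ((Finset.Icc (-(m : ℤ)) m) ×ˢ (Finset.Icc (-(m : ℤ)) m)).filter (fun x => |x.1| + |x.2| ≤ m)

lemma mem_diam {m : ℕ} {x : V} : x ∈ diam m ↔ |x.1| + |x.2| ≤ m := by
  unfold diam
  rw [Finset.mem_filter, Finset.mem_product, Finset.mem_Icc, Finset.mem_Icc]
  refine ⟨fun h => h.2, fun h => ⟨?_, h⟩⟩
  have h1 := abs_nonneg x.1
  have h2 := abs_nonneg x.2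
  have h3 := abs_le.1 (show |x.1| ≤ m by linarith)
  have h4 := abs_le.1 (show |x.2| ≤ m by linarith)
  exact ⟨h3, h4⟩

lemma bdry_diam {m : ℕ} {x : V} : x ∈ bdry (diam m) ↔ |x.1| + |x.2| = m := by
  rw [mem_bdry, mem_diam]
  constructor
  · rintro ⟨h1, u, h2, h3⟩
    rw [mem_diam, not_le] at h3
    unfold Adj at h2
    have h4 : |u.1| ≤ |u.1 - x.1| + |x.1| := by
      have := abs_add_le (u.1 - x.1) x.1
      rwa [sub_add_cancel] at this
    have h5 : |u.2| ≤ |u.2 - x.2| + |x.2| := by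
      have := abs_add_le (u.2 - x.2) x.2
      rwa [sub_add_cancel] at this
    omega
  · intro h
    refine ⟨h.le, ?_⟩
    rcases le_or_gt 0 x.1 with h1 | h1
    · refine ⟨(x.1 + 1, x.2), ?_, ?_⟩
      · unfold Adj
        simp
      · rw [mem_diam, not_le]
        show (m : ℤ) < |x.1 + 1| + |x.2|
        rw [abs_of_nonneg h1] at h
        rw [abs_of_nonneg (by omega)]
        omega
    · refine ⟨(x.1 - 1, x.2), ?_, ?_⟩
      · unfold Adj
        simp
      · rw [mem_diam, not_le]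
        show (m : ℤ) < |x.1 - 1| + |x.2|
        rw [abs_of_neg h1] at h
        rw [abs_of_neg (by omega)]
        omega

lemma diam_bdryPar (m : ℕ) (hm : Even m) : BdryPar (diam m) 0 := by
  intro v hv
  rw [bdry_diam] at hv
  have h1 : Even (|v.1| + |v.2|) := by
    rw [hv]
    exact_mod_cast hm
  unfold par
  rw [sub_zero]
  rw [Int.even_add, even_abs, even_abs] at h1
  rw [Int.even_add]
  exact h1

lemma diam_tendsto : Tendsto (fun m : ℕ => diam (2 * m)) atTop dom := by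
  unfold dom
  rw [tendsto_inf]
  refine ⟨?_, ?_⟩
  · rw [tendsto_atTop]
    intro F
    rw [eventually_atTop]
    refine ⟨F.sup (fun x => (|x.1| + |x.2|).toNat), fun m hm x hx => ?_⟩
    rw [mem_diam]
    have h1 : (|x.1| + |x.2|).toNat ≤ m :=
      (Finset.le_sup (f := fun x : V => (|x.1| + |x.2|).toNat) hx).trans hm
    have h2 := abs_nonneg x.1
    have h3 := abs_nonneg x.2
    push_cast
    omega
  · rw [tendsto_principal]
    exact Eventually.of_forall fun m => diam_bdryPar _ (even_two_mul m)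

instance dom_neBot : dom.NeBot := by
  exact diam_tendsto.neBot

private lemma T3_mono_limit (M : Finset V → ℝ) (F₀ : Finset V) (B : ℝ)
    (hmono : ∀ D D' : Finset V, F₀ ⊆ D → D ⊆ D' → BdryPar D 0 → BdryPar D' 0 → M D ≤ M D')
    (hB : ∀ D : Finset V, F₀ ⊆ D → BdryPar D 0 → M D ≤ B) :
    ∃ S : ℝ, Tendsto M dom (𝓝 S) := by
  set T : Set ℝ := {r | ∃ D, F₀ ⊆ D ∧ BdryPar D 0 ∧ M D = r} with hT
  have hne : T.Nonempty := by
    have h0 : ∀ᶠ D in dom, F₀ ⊆ D ∧ BdryPar D 0 :=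
      eventually_dom.2 ⟨F₀, fun D h1 h2 => ⟨h1, h2⟩⟩
    obtain ⟨D, hD⟩ := h0.exists
    exact ⟨M D, D, hD.1, hD.2, rfl⟩
  have hbd : BddAbove T := ⟨B, by rintro r ⟨D, h1, h2, rfl⟩; exact hB D h1 h2⟩
  refine ⟨sSup T, ?_⟩
  rw [Metric.tendsto_nhds]
  intro ε hε
  obtain ⟨r, ⟨D₀, h1, h2, rfl⟩, hr⟩ := exists_lt_of_lt_csSup hne (sub_lt_self (sSup T) hε)
  rw [eventually_dom]
  refine ⟨D₀, fun D hD hD' => ?_⟩
  have h3 := hmono D₀ D h1 hD h2 hD'
  have h4 : M D ≤ sSup T := le_csSup hbd ⟨D, h1.trans hD, hD', rfl⟩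
  rw [Real.dist_eq, abs_lt]
  constructor <;> linarith

private lemma T3_pin_mono_limit (ψ : ℤ → ℝ) (hψ : ∀ a b : ℤ, 0 ≤ a → a ≤ b → ψ a ≤ ψ b) (y : V) :
    ∃ S : ℝ, Tendsto (fun D => avg (Pin D (0, 0) 0) (fun g => ψ |g y|)) dom (𝓝 S) := by
  have hp0 : par ((0, 0) : V) = 0 := by simp [par]
  set m : ℕ := (dist1 (0, 0) y).toNat with hm
  have hd0 : 0 ≤ dist1 (0, 0) y := by unfold dist1; positivity
  have hd : dist1 (0, 0) y = |y.1| + |y.2| := by simp [dist1]
  have hmd : (m : ℤ) = dist1 (0, 0) y := by rw [hm]; exact Int.toNat_of_nonneg hd0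
  have hy : y ∈ diam m := by rw [mem_diam, hmd, hd]
  have h0 : ((0, 0) : V) ∈ diam m := by
    rw [mem_diam]
    simp
  have hball : ∀ v, dist1 (0, 0) v ≤ dist1 (0, 0) y → v ∈ diam m := by
    intro v hv
    rw [mem_diam, hmd]
    refine le_trans (le_of_eq ?_) hv
    simp [dist1]
  refine T3_mono_limit _ (diam m) (ψ (dist1 (0, 0) y)) ?_ ?_
  · intro D D' hD hDD' hp hp'
    exact pin_mono D D' hDD' (0, 0) (hD h0) (by rwa [hp0]) (by rwa [hp0]) y (hD hy) ψ hψ
  · intro D hD hp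
    have hne : (Pin D (0, 0) 0).Nonempty := by
      refine ⟨flat D (par ((0, 0) : V)), ?_⟩
      rw [Pin_zero_eq]
      refine flat_mem_Zs (Finset.subset_insert _ _) ?_ ?_
      · exact Finset.insert_subset (hD h0) (bdry_subset D)
      · intro v hv
        rcases Finset.mem_insert.1 hv with rfl | hv
        · simp
        · rw [hp0]
          exact hp v hv
    have hc : (0 : ℝ) < (Pin D (0, 0) 0).card := by exact_mod_cast Finset.card_pos.2 hne
    unfold avg
    rw [div_le_iff₀ hc, mul_comm, ← nsmul_eq_mul]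
    apply Finset.sum_le_card_nsmul
    intro g hg
    rw [mem_Pin] at hg
    apply hψ _ _ (abs_nonneg _)
    have h3 := hg.1.lip (0, 0) y (fun v hv => hD (hball v hv))
    rwa [hg.2.1, sub_zero] at h3

/-
`φ` even and `L`-Lipschitz.  `ψ₁ t = φ t + L |t|` and `ψ₂ t = L |t|` are monotone functions of `|t|`; `avg (Pin D 0 0) ψ_i(g y)` is nondecreasing in
`D ∋ 0, y` (`pin_mono`) and bounded (`|g y| ≤ dist1 0 y` once `D` contains the ball), hence convergent along `dom`
(`dom` is directed: for a monotone bounded function on the directed set of domains use the supremum; every pair of domains is contained in a third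
one: a diamond).
-/
theorem pin_limit (φ : ℤ → ℝ) (hφ : ∀ a, φ (-a) = φ a) (L : ℝ) (hL0 : 0 ≤ L)
    (hL : ∀ a b : ℤ, |φ a - φ b| ≤ L * |(a : ℝ) - b|) (y : V) :
    ∃ G : ℝ, Tendsto (fun D => avg (Pin D (0, 0) 0) (fun g => φ (g y))) dom (𝓝 G) := by
  obtain ⟨S₁, h₁⟩ := T3_pin_mono_limit (fun t => φ t + L * |(t : ℝ)|) (by
    intro a b ha hab
    have h1 := hL a b
    have h2 : (a : ℝ) ≤ b := by exact_mod_cast hab
    have h3 : (0 : ℝ) ≤ a := by exact_mod_cast ha
    rw [abs_of_nonpos (show (a : ℝ) - b ≤ 0 by linarith)] at h1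
    have h4 := (abs_le.1 h1).2
    rw [abs_of_nonneg h3, abs_of_nonneg (h3.trans h2)]
    linarith) y
  obtain ⟨S₂, h₂⟩ := T3_pin_mono_limit (fun t => L * |(t : ℝ)|) (by
    intro a b ha hab
    have h2 : (a : ℝ) ≤ b := by exact_mod_cast hab
    have h3 : (0 : ℝ) ≤ a := by exact_mod_cast ha
    rw [abs_of_nonneg h3, abs_of_nonneg (h3.trans h2)]
    exact mul_le_mul_of_nonneg_left h2 hL0) y
  refine ⟨S₁ - S₂, (h₁.sub h₂).congr fun D => ?_⟩
  unfold avg
  rw [← sub_div, ← Finset.sum_sub_distrib]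
  congr 1
  apply Finset.sum_congr rfl
  intro g _
  have h5 : φ |g y| = φ (g y) := by
    rcases abs_choice (g y) with h | h
    · rw [h]
    · rw [h, hφ]
  rw [h5]
  ring

/-- the limit -/
noncomputable def Gam (φ : ℤ → ℝ) (y : V) : ℝ :=
  limUnder dom (fun D => avg (Pin D (0, 0) 0) (fun g => φ (g y)))

/-- the neighbourhood of a set -/
private noncomputable def T3_nb (F : Finset V) : Finset V :=
  F.biUnion (fun v => (Finset.Icc (v.1 - 1) (v.1 + 1)) ×ˢ (Finset.Icc (v.2 - 1) (v.2 + 1)))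

private lemma T3_mem_dstar {D : Finset V} {F : Finset V} (h : T3_nb F ⊆ D) (w : V) {v : V}
    (hv : v ∈ F) : v ∈ dstar D w := by
  have h1 : ∀ u : V, |u.1 - v.1| + |u.2 - v.2| ≤ 1 → u ∈ D := by
    intro u hu
    apply h
    unfold T3_nb
    rw [Finset.mem_biUnion]
    refine ⟨v, hv, ?_⟩
    rw [Finset.mem_product, Finset.mem_Icc, Finset.mem_Icc]
    have h2 := abs_nonneg (u.1 - v.1)
    have h3 := abs_nonneg (u.2 - v.2)
    have h4 := abs_le.1 (show |u.1 - v.1| ≤ 1 by omega)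
    have h5 := abs_le.1 (show |u.2 - v.2| ≤ 1 by omega)
    omega
  have hvD : v ∈ D := h1 v (by simp)
  unfold dstar
  split_ifs
  · exact hvD
  · unfold core
    rw [Finset.mem_sdiff]
    refine ⟨hvD, fun hb => ?_⟩
    obtain ⟨_, u, hu, hu'⟩ := mem_bdry.1 hb
    exact hu' (h1 u (le_of_eq hu))

/-- `D ↦ dstar D w - w` tends to `dom` along `dom` -/
private lemma T3_star_tendsto (w : V) :
    Tendsto (fun D => img (trans (-w)) (dstar D w)) dom dom := by
  intro P hP
  have hP' : ∀ᶠ D in dom, D ∈ P := hP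
  rw [eventually_dom] at hP'
  obtain ⟨F, hF⟩ := hP'
  change ∀ᶠ D in dom, img (trans (-w)) (dstar D w) ∈ P
  rw [eventually_dom]
  refine ⟨T3_nb (img (trans w) F), fun D hD hp => hF _ ?_ ?_⟩
  · intro v hv
    unfold img
    rw [Finset.mem_map]
    refine ⟨v + w, T3_mem_dstar hD w ?_, ?_⟩
    · unfold img
      rw [Finset.mem_map]
      exact ⟨v, hv, by simp [trans]⟩
    · simp [trans]
  · have h1 := (bdryPar_img (trans_lsym (-w)) (dstar D w) w).2 (dstar_bdryPar hp w)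
    have h2 : par (trans (-w) w) = 0 := by simp [trans, par]
    rwa [h2] at h1

private lemma T3_Gam (φ : ℤ → ℝ) (hφ : ∀ a, φ (-a) = φ a) (L : ℝ) (hL0 : 0 ≤ L)
    (hL : ∀ a b : ℤ, |φ a - φ b| ≤ L * |(a : ℝ) - b|) (y : V) :
    Tendsto (fun D => avg (Pin D (0, 0) 0) (fun g => φ (g y))) dom (𝓝 (Gam φ y)) :=
  tendsto_nhds_limUnder (pin_limit φ hφ L hL0 hL y)

/-
`key_est` for the pair `w, x`; by `deloc_small` and large `J` the right hand side tends to `0`.
`avg (Pin (dstar D w) w 0) φ(g x) = avg (Pin (dstar D w - w) 0 0) φ(g (x - w))` (`avg_Pin_img`), and `D ↦ dstar D w - w` tends to `dom` along `dom`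
(`dstar_bdryPar`, `bdryPar_img`; `core D ⊇ F` if `D ⊇ F ∪` neighbours of `F`).
-/
theorem main_limit (hd : Deloc) (φ : ℤ → ℝ) (hφ : ∀ a, φ (-a) = φ a) (L : ℝ) (hL0 : 0 ≤ L)
    (hL : ∀ a b : ℤ, |φ a - φ b| ≤ L * |(a : ℝ) - b|) (w x : V) :
    Tendsto (fun D => avg (Om D) (fun h => φ (h x - h w))) dom (𝓝 (Gam φ (x - w))) := by
  have hB : Tendsto (fun D => avg (Pin (dstar D w) w 0) (fun g => φ (g x))) dom
      (𝓝 (Gam φ (x - w))) := by
    refine ((T3_Gam φ hφ L hL0 hL (x - w)).comp (T3_star_tendsto w)).congr fun D => ?_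
    have h1 := avg_Pin_img (trans_lsym (-w)) (dstar D w) w 0 (fun g => φ (g x))
    have h2 : trans (-w) w = (0, 0) := by simp [trans]; rfl
    have h3 : trans (-w) x = x - w := by simp [trans, sub_eq_add_neg]
    rw [h2] at h1
    simp only [h3] at h1
    exact h1
  have hd0 : (0 : ℝ) ≤ (dist1 w x : ℝ) := by
    have : 0 ≤ dist1 w x := by unfold dist1; positivity
    exact_mod_cast this
  set d : ℝ := (dist1 w x : ℝ) with hdd
  have hA : Tendsto (fun D => avg (Om D) (fun h => φ (h x - h w)) -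
      avg (Pin (dstar D w) w 0) (fun g => φ (g x))) dom (𝓝 0) := by
    rw [Metric.tendsto_nhds]
    intro ε hε
    obtain ⟨J, hJ⟩ := exists_nat_gt (2 * L * d ^ 2 / ε)
    have hJ1 : 2 * L * d ^ 2 / ε < ((J + 1 : ℕ) : ℝ) := by push_cast; linarith
    have hJ0 : (0 : ℝ) < ((J + 1 : ℕ) : ℝ) := by positivity
    obtain ⟨F, hF⟩ := deloc_small hd w (J + 1) (ε / (2 * (L * d + 1))) (by positivity)
    rw [eventually_dom]
    refine ⟨F ∪ (T3_nb {w, x} ∪ (Finset.Icc (w.1 - dist1 w x) (w.1 + dist1 w x)) ×ˢ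
      (Finset.Icc (w.2 - dist1 w x) (w.2 + dist1 w x))), fun D hD hp => ?_⟩
    have hD1 := Finset.union_subset_left hD
    have hD2 := Finset.union_subset_left (Finset.union_subset_right hD)
    have hD3 := Finset.union_subset_right (Finset.union_subset_right hD)
    have hball : ∀ v, dist1 w v ≤ dist1 w x → v ∈ D := by
      intro v hv
      apply hD3
      rw [Finset.mem_product, Finset.mem_Icc, Finset.mem_Icc]
      have h1 : |w.1 - v.1| + |w.2 - v.2| ≤ dist1 w x := hv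
      have h2 := abs_nonneg (w.1 - v.1)
      have h3 := abs_nonneg (w.2 - v.2)
      have h4 := abs_le.1 (show |w.1 - v.1| ≤ dist1 w x by omega)
      have h5 := abs_le.1 (show |w.2 - v.2| ≤ dist1 w x by omega)
      omega
    have h1 := key_est D hp w x hball (T3_mem_dstar hD2 w (by simp))
      (T3_mem_dstar hD2 w (by simp)) φ hφ L hL0 hL (J + 1) (Nat.succ_pos J)
    have h2 := hF D hD1 hp
    rw [Real.dist_eq, sub_zero]
    refine lt_of_le_of_lt h1 ?_
    rw [← hdd]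
    have h3 : L * (d * avg (Om D) (fun h => if |h w| < ((J + 1 : ℕ) : ℤ) then 1 else 0)) ≤
        L * d * (ε / (2 * (L * d + 1))) := by
      rw [← mul_assoc]
      exact mul_le_mul_of_nonneg_left h2.le (by positivity)
    have h4 : L * d * (ε / (2 * (L * d + 1))) ≤ ε / 2 := by
      rw [mul_div_assoc', div_le_div_iff₀ (by positivity) (by norm_num)]
      nlinarith [mul_nonneg hL0 hd0]
    have h5 : L * (d ^ 2 / ((J + 1 : ℕ) : ℝ)) < ε / 2 := by
      rw [mul_div_assoc', div_lt_div_iff₀ hJ0 (by norm_num)]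
      rw [div_lt_iff₀ hε] at hJ1
      linarith
    rw [mul_add]
    linarith
  have := hA.add hB
  simpa using this

private lemma T3_img_tendsto {τ : V ≃ V} (h : LSym τ) (h0 : τ (0, 0) = (0, 0)) :
    Tendsto (img τ) dom dom := by
  unfold dom
  refine tendsto_inf.2 ⟨?_, ?_⟩
  · refine Tendsto.mono_left ?_ inf_le_left
    refine tendsto_atTop.2 (fun F => ?_)
    refine (eventually_ge_atTop (img τ.symm F)).mono (fun D hD x hx => ?_)
    refine Finset.mem_map.2 ⟨τ.symm x, hD (Finset.mem_map.2 ⟨x, hx, rfl⟩), ?_⟩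
    exact τ.apply_symm_apply x
  · refine tendsto_principal.2 ?_
    have h1 : ∀ᶠ D in (atTop ⊓ 𝓟 {D | BdryPar D 0} : Filter (Finset V)), BdryPar D 0 :=
      mem_inf_of_right (mem_principal_self _)
    refine h1.mono (fun D hD => ?_)
    have h2 := bdryPar_img h D (0, 0)
    rw [h0] at h2
    have h3 : par ((0, 0) : V) = 0 := by simp [par]
    rw [h3] at h2
    exact h2.2 hD

private lemma T3_Gam_img {τ : V ≃ V} (h : LSym τ) (h0 : τ (0, 0) = (0, 0)) (φ : ℤ → ℝ)
    (hφ : ∀ a, φ (-a) = φ a) (L : ℝ) (hL0 : 0 ≤ L)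
    (hL : ∀ a b : ℤ, |φ a - φ b| ≤ L * |(a : ℝ) - b|) (y : V) : Gam φ (τ y) = Gam φ y := by
  obtain ⟨G, hG⟩ := pin_limit φ hφ L hL0 hL (τ y)
  have h1 : Gam φ (τ y) = G := hG.limUnder_eq
  have h2 := hG.comp (T3_img_tendsto h h0)
  have h3 : ((fun D => avg (Pin D (0, 0) 0) (fun g => φ (g (τ y)))) ∘ img τ) =
      fun D => avg (Pin D (0, 0) 0) (fun g => φ (g y)) := by
    funext D
    have h4 := avg_Pin_img h D (0, 0) 0 (fun g => φ (g y))
    rw [h0] at h4
    exact h4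
  rw [h3] at h2
  have h5 : Gam φ y = G := h2.limUnder_eq
  rw [h1, h5]

/-- by `avg_Pin_img` for `refl1`, `swapV`, which map `dom` to `dom` -/
theorem Gam_sym (φ : ℤ → ℝ) (hφ : ∀ a, φ (-a) = φ a) (L : ℝ) (hL0 : 0 ≤ L)
    (hL : ∀ a b : ℤ, |φ a - φ b| ≤ L * |(a : ℝ) - b|) : Sym4 (Gam φ) := by
  refine ⟨fun a b => ?_, fun a b => ?_⟩
  · exact T3_Gam_img refl1_lsym (by simp [refl1]) φ hφ L hL0 hL (a, b)
  · exact T3_Gam_img swapV_lsym (by simp [swapV]) φ hφ L hL0 hL (a, b)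

end RP4
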