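import Pool.Agent.Helper63.RP4.E3
import Pool.Agent.Helper63.RP4.T3

/-!
E4.  The limiting covariances in the localised case.
-/

open Finset Filter Topology

namespace RP4

private lemma E4_mono_limit (M : Finset V → ℝ) (F₀ : Finset V) (B : ℝ)
    (hmono : ∀ D D' : Finset V, F₀ ⊆ D → D ⊆ D' → BdryPar D 0 → BdryPar D' 0 → M D ≤ M D')
    (hB : ∀ D : Finset V, F₀ ⊆ D → BdryPar D 0 → M D ≤ B) :
    ∃ S : ℝ, Tendsto M dom (𝓝 S) := by
  set T : Set ℝ := {r | ∃ D, F₀ ⊆ D ∧ BdryPar D 0 ∧ M D = r} with hT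
  have hne : T.Nonempty := by
    have h0 : ∀ᶠ D in dom, F₀ ⊆ D ∧ BdryPar D 0 :=
      eventually_dom.2 ⟨F₀, fun D h1 h2 => ⟨h1, h2⟩⟩
    obtain ⟨D, hD⟩ := h0.exists
    exact ⟨M D, D, hD.1, hD.2, rfl⟩
  have hbd : BddAbove T := ⟨B, by rintro r ⟨D, h1, h2, rfl⟩; exact hB D h1 h2⟩
  refine ⟨sSup T, ?_⟩
  rw [Metric.tendsto_nhds]
  intro ε hε
  obtain ⟨r, ⟨D₀, h1, h2, rfl⟩, hr⟩ := exists_lt_of_lt_csSup hne (sub_lt_self (sSup T) hε)
  rw [eventually_dom]
  refine ⟨D₀, fun D hD hD' => ?_⟩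
  have h3 := hmono D₀ D h1 hD h2 hD'
  have h4 : M D ≤ sSup T := le_csSup hbd ⟨D, h1.trans hD, hD', rfl⟩
  rw [Real.dist_eq, abs_lt]
  constructor <;> linarith

private lemma E4_le (C : ℝ) (hC : ∀ D : Finset V, BdryPar D 0 → ∀ w ∈ D,
    avg (Om D) (fun h => (h w : ℝ) ^ 2) ≤ C) (D : Finset V) (hD : BdryPar D 0) (x y : V)
    (hx : x ∈ D) (hy : y ∈ D) : avg (Om D) (fun h => (h x : ℝ) * h y) ≤ C := by
  have h1 := hC D hD x hx
  have h2 := hC D hD y hy
  have h3 : avg (Om D) (fun h => (h x : ℝ) * h y) ≤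
      (avg (Om D) (fun h => (h x : ℝ) ^ 2) + avg (Om D) (fun h => (h y : ℝ) ^ 2)) / 2 := by
    unfold avg
    rw [← add_div, div_div, mul_comm ((Om D).card : ℝ) 2, ← div_div]
    apply div_le_div_of_nonneg_right _ (Nat.cast_nonneg _)
    rw [← Finset.sum_add_distrib, Finset.sum_div]
    apply Finset.sum_le_sum
    intro h _
    have := sq_nonneg ((h x : ℝ) - h y)
    nlinarith
  linarith

private lemma E4_trans_tendsto (w : V) (hw : Even (par w)) :
    Tendsto (img (trans w)) dom dom := by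
  unfold dom
  refine tendsto_inf.2 ⟨?_, ?_⟩
  · refine Tendsto.mono_left ?_ inf_le_left
    refine tendsto_atTop.2 (fun F => ?_)
    refine (eventually_ge_atTop (img (trans w).symm F)).mono (fun D hD x hx => ?_)
    refine Finset.mem_map.2 ⟨(trans w).symm x, hD (Finset.mem_map.2 ⟨x, hx, rfl⟩), ?_⟩
    exact (trans w).apply_symm_apply x
  · refine tendsto_principal.2 ?_
    have h1 : ∀ᶠ D in (atTop ⊓ 𝓟 {D | BdryPar D 0} : Filter (Finset V)), BdryPar D 0 :=
      mem_inf_of_right (mem_principal_self _)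
    refine h1.mono (fun D hD => ?_)
    have h2 := bdryPar_img (trans_lsym w) D (0, 0)
    have h3 : par ((0, 0) : V) = 0 := by simp [par]
    have h4 : par (trans w (0, 0)) = par w := by simp [trans, par]
    rw [h3, h4] at h2
    have h5 := h2.2 hD
    intro v hv
    have h6 := h5 v hv
    rw [Int.even_iff] at h6 hw ⊢
    omega

private lemma E4_psd (D : Finset V) (s : Finset V) (f : V → ℝ) :
    0 ≤ ∑ x ∈ s, ∑ y ∈ s, f x * f y * avg (Om D) (fun h => (h x : ℝ) * h y) := by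
  have h1 : ∀ h : V → ℤ, (∑ x ∈ s, f x * (h x : ℝ)) ^ 2 =
      ∑ x ∈ s, ∑ y ∈ s, f x * f y * ((h x : ℝ) * h y) := by
    intro h
    rw [sq, Finset.sum_mul_sum]
    apply Finset.sum_congr rfl
    intro x _
    apply Finset.sum_congr rfl
    intro y _
    ring
  have key : ∑ x ∈ s, ∑ y ∈ s, f x * f y * avg (Om D) (fun h => (h x : ℝ) * h y) =
      (∑ h ∈ Om D, (∑ x ∈ s, f x * (h x : ℝ)) ^ 2) / (Om D).card := by
    unfold avg
    simp only [h1]
    rw [Finset.sum_comm, Finset.sum_comm (s := Om D), Finset.sum_div, Finset.sum_comm]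
    apply Finset.sum_congr rfl
    intro x _
    rw [Finset.sum_comm, Finset.sum_div]
    apply Finset.sum_congr rfl
    intro y _
    rw [← Finset.mul_sum, mul_div_assoc]
  rw [key]
  exact div_nonneg (Finset.sum_nonneg fun h _ => sq_nonneg _) (Nat.cast_nonneg _)

/-
`D ↦ avg (Om D) (h x * h y)` is nondecreasing on domains containing `x, y` (`cov_mono`) and bounded by `C` (`2 |h x h y| ≤ (h x)² + (h y)²`), so it converges
along `dom` to its supremum (as in the proof of `pin_limit`, T3.lean).  Invariance: `avg_Om_img` with `trans w` (`w` even), and `D ↦ img (trans w) D` tends to `dom`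
along `dom` (compare the proof of `Gam_sym`).  Positivity: `avg (Om D) ((Σ f x h x)²) ≥ 0`.
-/
theorem cov_limit (C : ℝ) (hC : ∀ D : Finset V, BdryPar D 0 → ∀ w ∈ D,
    avg (Om D) (fun h => (h w : ℝ) ^ 2) ≤ C) :
    ∃ c : V → V → ℝ,
      (∀ x y, Tendsto (fun D => avg (Om D) (fun h => (h x : ℝ) * h y)) dom (𝓝 (c x y))) ∧
      (∀ x y w, Even (par w) → c (x + w) (y + w) = c x y) ∧
      (∀ x, c x x ≤ C) ∧ (∀ x y, c x y = c y x) ∧
      ∀ (s : Finset V) (f : V → ℝ), 0 ≤ ∑ x ∈ s, ∑ y ∈ s, f x * f y * c x y := by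
  have hex : ∀ x y : V, ∃ S : ℝ,
      Tendsto (fun D => avg (Om D) (fun h => (h x : ℝ) * h y)) dom (𝓝 S) := by
    intro x y
    refine E4_mono_limit _ {x, y} C (fun D D' hD hDD' hp hp' => ?_) (fun D hD hp => ?_)
    · exact cov_mono D D' hDD' hp hp' x y (hD (by simp)) (hD (by simp))
    · exact E4_le C hC D hp x y (hD (by simp)) (hD (by simp))
  choose c hc using hex
  refine ⟨c, hc, fun x y w hw => ?_, fun x => ?_, fun x y => ?_, fun s f => ?_⟩
  · have h1 := (hc (x + w) (y + w)).comp (E4_trans_tendsto w hw)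
    refine tendsto_nhds_unique h1 ((hc x y).congr fun D => ?_)
    have h2 := avg_Om_img (trans_lsym w) (fun v => by
      have h3 : par (trans w v) - par v = par w := by
        simp only [trans, par, Equiv.coe_addRight, Prod.fst_add, Prod.snd_add]
        ring
      rw [h3]
      exact hw) D (fun h => (h x : ℝ) * h y)
    exact h2.symm
  · refine le_of_tendsto (hc x x) ?_
    rw [eventually_dom]
    refine ⟨{x}, fun D hD hp => ?_⟩
    exact E4_le C hC D hp x x (hD (by simp)) (hD (by simp))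
  · refine tendsto_nhds_unique (hc x y) ((hc y x).congr fun D => ?_)
    unfold avg
    congr 1
    apply Finset.sum_congr rfl
    intro h _
    ring
  · refine ge_of_tendsto' (x := dom)
      (f := fun D => ∑ x ∈ s, ∑ y ∈ s, f x * f y * avg (Om D) (fun h => (h x : ℝ) * h y)) ?_
      (fun D => E4_psd D s f)
    exact tendsto_finsetSum _ fun x _ => tendsto_finsetSum _ fun y _ =>
      (hc x y).const_mul (f x * f y)

end RP4
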