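import Pool.Agent.Helper63.RP4.E6b

/-!
E6c.  Smeared variances vanish for a bounded kernel invariant under even translations.
-/

open Finset Filter Topology MeasureTheory

namespace RP4

private noncomputable def E6c_bl (c : V → V → ℝ) (s : Finset V) (f g : V → ℝ) : ℝ :=
  ∑ x ∈ s, ∑ y ∈ s, f x * g y * c x y

private lemma E6c_bl_comm {c : V → V → ℝ} (hs : ∀ x y, c x y = c y x) (s : Finset V)
    (f g : V → ℝ) : E6c_bl c s g f = E6c_bl c s f g := by
  unfold E6c_bl
  rw [Finset.sum_comm]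
  refine Finset.sum_congr rfl fun x _ => Finset.sum_congr rfl fun y _ => ?_
  rw [hs y x]
  ring

private lemma E6c_add {c : V → V → ℝ} (hs : ∀ x y, c x y = c y x) (s : Finset V)
    (f g : V → ℝ) (t : ℝ) : kq c s (fun x => f x * t + g x) =
      kq c s f * (t * t) + (2 * E6c_bl c s f g) * t + kq c s g := by
  have h1 : kq c s (fun x => f x * t + g x) =
      kq c s f * (t * t) + (E6c_bl c s f g + E6c_bl c s g f) * t + kq c s g := by
    unfold kq E6c_bl
    simp only [Finset.sum_mul, add_mul, ← Finset.sum_add_distrib]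
    refine Finset.sum_congr rfl fun x _ => Finset.sum_congr rfl fun y _ => ?_
    ring
  rw [h1, E6c_bl_comm hs]
  ring

private lemma E6c_cs {c : V → V → ℝ} (hs : ∀ x y, c x y = c y x)
    (hp : ∀ (s : Finset V) (f : V → ℝ), 0 ≤ ∑ x ∈ s, ∑ y ∈ s, f x * f y * c x y) (s : Finset V)
    (f g : V → ℝ) : E6c_bl c s f g ^ 2 ≤ kq c s f * kq c s g := by
  have h1 : ∀ t : ℝ, 0 ≤ kq c s f * (t * t) + (2 * E6c_bl c s f g) * t + kq c s g := by
    intro t
    rw [← E6c_add hs]
    exact hp s _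
  have h2 := discrim_le_zero h1
  rw [discrim] at h2
  nlinarith [h2]

private lemma E6c_tri {c : V → V → ℝ} (hs : ∀ x y, c x y = c y x)
    (hp : ∀ (s : Finset V) (f : V → ℝ), 0 ≤ ∑ x ∈ s, ∑ y ∈ s, f x * f y * c x y) (s : Finset V)
    (f g : V → ℝ) : √(kq c s (fun x => f x + g x)) ≤ √(kq c s f) + √(kq c s g) := by
  have hf : 0 ≤ kq c s f := hp s f
  have hg : 0 ≤ kq c s g := hp s g
  have h1 := E6c_add hs s f g 1
  simp only [mul_one] at h1
  have h2 : E6c_bl c s f g ≤ √(kq c s f) * √(kq c s g) := by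
    rw [← Real.sqrt_mul hf]
    exact (le_abs_self _).trans (Real.abs_le_sqrt (E6c_cs hs hp s f g))
  rw [Real.sqrt_le_iff]
  refine ⟨by positivity, ?_⟩
  rw [h1]
  nlinarith [Real.sq_sqrt hf, Real.sq_sqrt hg]

private lemma E6c_sum {c : V → V → ℝ} (hs : ∀ x y, c x y = c y x)
    (hp : ∀ (s : Finset V) (f : V → ℝ), 0 ≤ ∑ x ∈ s, ∑ y ∈ s, f x * f y * c x y) (s : Finset V)
    {ι : Type} (t : Finset ι) (F : ι → V → ℝ) :
    √(kq c s (fun x => ∑ i ∈ t, F i x)) ≤ ∑ i ∈ t, √(kq c s (F i)) := by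
  classical
  induction t using Finset.induction_on with
  | empty =>
    simp [kq]
  | insert i t hi ih =>
    rw [Finset.sum_insert hi]
    have h1 : (fun x => ∑ j ∈ insert i t, F j x) = fun x => F i x + ∑ j ∈ t, F j x := by
      funext x
      rw [Finset.sum_insert hi]
    rw [h1]
    exact (E6c_tri hs hp s (F i) _).trans (by linarith)

private lemma E6c_smul (c : V → V → ℝ) (s : Finset V) (a : ℝ) (f : V → ℝ) :
    √(kq c s (fun x => a * f x)) = |a| * √(kq c s f) := by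
  have h1 : kq c s (fun x => a * f x) = a ^ 2 * kq c s f := by
    unfold kq
    rw [Finset.mul_sum]
    refine Finset.sum_congr rfl fun x _ => ?_
    rw [Finset.mul_sum]
    refine Finset.sum_congr rfl fun y _ => ?_
    ring
  rw [h1, Real.sqrt_mul (sq_nonneg a), Real.sqrt_sq_eq_abs]

private lemma E6c_abs {c : V → V → ℝ} {C : ℝ} (hC : ∀ x, c x x ≤ C)
    (hs : ∀ x y, c x y = c y x)
    (hp : ∀ (s : Finset V) (f : V → ℝ), 0 ≤ ∑ x ∈ s, ∑ y ∈ s, f x * f y * c x y) (x y : V) :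
    |c x y| ≤ C := by
  by_cases hxy : x = y
  · subst hxy
    have h1 := hp {x} (fun _ => 1)
    simp only [Finset.sum_singleton, one_mul] at h1
    rw [abs_of_nonneg h1]
    exact hC x
  · have h1 := hp {x, y} (fun _ => 1)
    have h2 := hp {x, y} (fun z => if z = x then 1 else -1)
    rw [Finset.sum_pair hxy, Finset.sum_pair hxy, Finset.sum_pair hxy] at h1 h2
    simp only [if_true, if_neg (Ne.symm hxy), one_mul, mul_one, mul_neg, neg_mul, neg_neg] at h1 h2
    have h3 := hs y x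
    have h4 := hC x
    have h5 := hC y
    rw [abs_le]
    constructor <;> linarith

private lemma E6c_l1 {c : V → V → ℝ} {C : ℝ} (hC : ∀ x, c x x ≤ C)
    (hs : ∀ x y, c x y = c y x)
    (hp : ∀ (s : Finset V) (f : V → ℝ), 0 ≤ ∑ x ∈ s, ∑ y ∈ s, f x * f y * c x y) (s : Finset V)
    (f : V → ℝ) : √(kq c s f) ≤ √C * ∑ x ∈ s, |f x| := by
  have hC0 : 0 ≤ C := (abs_nonneg _).trans (E6c_abs hC hs hp 0 0)
  have h1 : kq c s f ≤ C * (∑ x ∈ s, |f x|) ^ 2 := by
    unfold kq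
    rw [sq, Finset.sum_mul_sum, Finset.mul_sum]
    refine Finset.sum_le_sum fun x _ => ?_
    rw [Finset.mul_sum]
    refine Finset.sum_le_sum fun y _ => ?_
    calc f x * f y * c x y ≤ |f x * f y * c x y| := le_abs_self _
      _ = |f x| * |f y| * |c x y| := by rw [abs_mul, abs_mul]
      _ ≤ |f x| * |f y| * C :=
          mul_le_mul_of_nonneg_left (E6c_abs hC hs hp x y) (by positivity)
      _ = C * (|f x| * |f y|) := by ring
  calc √(kq c s f) ≤ √(C * (∑ x ∈ s, |f x|) ^ 2) := Real.sqrt_le_sqrt h1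
    _ = √C * ∑ x ∈ s, |f x| := by
        rw [Real.sqrt_mul hC0, Real.sqrt_sq (Finset.sum_nonneg fun x _ => abs_nonneg _)]

private lemma E6c_congr {c : V → V → ℝ} {s : Finset V} {f g : V → ℝ} (h : ∀ x ∈ s, f x = g x) :
    kq c s f = kq c s g := by
  unfold kq
  exact Finset.sum_congr rfl fun x hx => Finset.sum_congr rfl fun y hy => by rw [h x hx, h y hy]

private lemma E6c_zof {n : ℕ} (hn : 0 < n) {x z : V} (h : x ∈ blk n z) : zof n x = z := by
  unfold blk at h
  rw [Finset.mem_product, Finset.mem_Ico, Finset.mem_Ico] at h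
  obtain ⟨⟨h1, h2⟩, h3, h4⟩ := h
  have hn' : (0 : ℤ) < 2 * n := by omega
  have key : ∀ a b : ℤ, 2 * n * b ≤ a → a < 2 * n * b + 2 * n → a / (2 * n) = b := by
    intro a b hab hba
    apply le_antisymm
    · have : a / (2 * n) < b + 1 := Int.ediv_lt_of_lt_mul hn' (by linarith)
      omega
    · exact Int.le_ediv_of_mul_le hn' (by linarith)
  unfold zof
  exact Prod.ext (key _ _ h1 h2) (key _ _ h3 h4)

private lemma E6c_blk_disj {n : ℕ} (hn : 0 < n) (Z : Finset V) :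
    (Z : Set V).PairwiseDisjoint (blk n) := by
  intro z _ z' _ hne
  rw [Function.onFun, Finset.disjoint_left]
  intro x hx hx'
  exact hne ((E6c_zof hn hx).symm.trans (E6c_zof hn hx'))

private lemma E6c_card {n : ℕ} (z : V) : ((blk n z).card : ℝ) = (2 * (n : ℝ)) ^ 2 := by
  unfold blk
  rw [Finset.card_product, Int.card_Ico, Int.card_Ico]
  have h1 : ∀ a : ℤ, (2 * (n : ℤ) * a + 2 * n - 2 * n * a).toNat = 2 * n := by
    intro a
    omega
  rw [h1, h1]
  push_cast
  ring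

private lemma E6c_bav_sum {n : ℕ} (hn : 0 < n) (z : V) {S : Finset V} (hS : blk n z ⊆ S) :
    ∑ x ∈ S, |bav n z x| = 1 := by
  have hn' : (0 : ℝ) < n := by exact_mod_cast hn
  have h1 : ∀ x, |bav n z x| = if x ∈ blk n z then 1 / (2 * (n : ℝ)) ^ 2 else 0 := by
    intro x
    unfold bav
    split_ifs
    · rw [abs_of_nonneg (by positivity)]
    · rw [abs_zero]
  rw [Finset.sum_congr rfl fun x _ => h1 x, ← Finset.sum_filter, Finset.sum_const, nsmul_eq_mul]
  have h2 : S.filter (fun x => x ∈ blk n z) = blk n z := by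
    ext x
    rw [Finset.mem_filter]
    exact ⟨fun h => h.2, fun h => ⟨hS h, h⟩⟩
  rw [h2, E6c_card]
  field_simp

/-- the left side as a quadratic form -/
private lemma E6c_lhs (c : V → V → ℝ) (w : V → ℝ) (s S : Finset V) (hsS : s ⊆ S) (h0 : (0 : V) ∈ S)
    (hw : ∀ x, x ∉ s → w x = 0) :
    ∑ x ∈ s, ∑ y ∈ s, w x * w y * (c x y - c x 0 - c 0 y + c 0 0) =
      kq c S (fun x => w x - (∑ y ∈ s, w y) * (if x = 0 then 1 else 0)) := by
  classical
  set η : ℝ := ∑ y ∈ s, w y with hη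
  have hηS : ∑ y ∈ S, w y = η := by
    rw [hη]
    exact (Finset.sum_subset hsS fun x _ hx => hw x hx).symm
  have h1 : ∑ x ∈ s, ∑ y ∈ s, w x * w y * (c x y - c x 0 - c 0 y + c 0 0) =
      ∑ x ∈ S, ∑ y ∈ S, w x * w y * (c x y - c x 0 - c 0 y + c 0 0) := by
    rw [← Finset.sum_subset hsS (f := fun x => ∑ y ∈ S, w x * w y *
      (c x y - c x 0 - c 0 y + c 0 0))]
    · refine Finset.sum_congr rfl fun x _ => ?_
      refine Finset.sum_subset hsS fun y _ hy => ?_
      rw [hw y hy]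
      ring
    · intro x _ hx
      refine Finset.sum_eq_zero fun y _ => ?_
      rw [hw x hx]
      ring
  rw [h1]
  have h2 : ∀ x ∈ S, ∑ y ∈ S, w x * w y * (c x y - c x 0 - c 0 y + c 0 0) =
      (∑ y ∈ S, w x * w y * c x y) - η * (w x * c x 0) - w x * (∑ y ∈ S, w y * c 0 y) +
        η * w x * c 0 0 := by
    intro x _
    have e : ∀ y ∈ S, w x * w y * (c x y - c x 0 - c 0 y + c 0 0) =
        w x * w y * c x y - w y * (w x * c x 0) - w x * (w y * c 0 y) + w y * (w x * c 0 0) :=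
      fun y _ => by ring
    rw [Finset.sum_congr rfl e, Finset.sum_add_distrib, Finset.sum_sub_distrib,
      Finset.sum_sub_distrib, ← Finset.sum_mul, ← Finset.sum_mul, ← Finset.mul_sum, hηS]
    ring
  rw [Finset.sum_congr rfl h2, Finset.sum_add_distrib, Finset.sum_sub_distrib,
    Finset.sum_sub_distrib, ← Finset.mul_sum, ← Finset.sum_mul, hηS]
  have h3 : ∑ x ∈ S, η * w x * c 0 0 = η * η * c 0 0 := by
    rw [← Finset.sum_mul, ← Finset.mul_sum, hηS]
  rw [h3]
  unfold kq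
  have h4 : ∀ x ∈ S, ∑ y ∈ S, (w x - η * (if x = 0 then 1 else 0)) *
      (w y - η * (if y = 0 then 1 else 0)) * c x y =
      (∑ y ∈ S, w x * w y * c x y) - η * (w x * c x 0) -
        (if x = 0 then η * ∑ y ∈ S, w y * c x y else 0) + (if x = 0 then η * η * c x 0 else 0) := by
    intro x _
    have e : ∀ y ∈ S, (w x - η * (if x = 0 then 1 else 0)) *
        (w y - η * (if y = 0 then 1 else 0)) * c x y =
        w x * w y * c x y - (if y = 0 then η * (w x * c x y) else 0) -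
          (if x = 0 then 1 else 0) * (η * (w y * c x y)) +
          (if y = 0 then (if x = 0 then 1 else 0) * (η * η * c x y) else 0) := by
      intro y _
      split_ifs <;> ring
    rw [Finset.sum_congr rfl e, Finset.sum_add_distrib, Finset.sum_sub_distrib,
      Finset.sum_sub_distrib, Finset.sum_ite_eq', Finset.sum_ite_eq', if_pos h0, if_pos h0,
      ← Finset.mul_sum, ← Finset.mul_sum]
    split_ifs <;> ring
  rw [Finset.sum_congr rfl h4, Finset.sum_add_distrib, Finset.sum_sub_distrib,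
    Finset.sum_sub_distrib, Finset.sum_ite_eq', Finset.sum_ite_eq', if_pos h0, if_pos h0,
    ← Finset.mul_sum]

private lemma E6c_main (c : V → V → ℝ) (C : ℝ) (hC : ∀ x, c x x ≤ C)
    (hs : ∀ x y, c x y = c y x)
    (hp : ∀ (s : Finset V) (f : V → ℝ), 0 ≤ ∑ x ∈ s, ∑ y ∈ s, f x * f y * c x y)
    (n : ℕ) (hn : 0 < n) (ε₁ : ℝ)
    (he : ∀ (z : V) (s : Finset V), blk n z ∪ blk n 0 ⊆ s →
      kq c s (fun x => bav n z x - bav n 0 x) ≤ ε₁)
    (w : V → ℝ) (K ε₂ ε₃ : ℝ) (hK : ∀ s : Finset V, ∑ x ∈ s, |w x| ≤ K)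
    (h2 : ∀ s : Finset V,
      ∑ x ∈ s, |w x - (∑ y ∈ blk n (zof n x), w y) / (2 * (n : ℝ)) ^ 2| ≤ ε₂)
    (s : Finset V) (hw : ∀ x, x ∉ s → w x = 0) (h3 : |∑ y ∈ s, w y| ≤ ε₃) :
    √(∑ x ∈ s, ∑ y ∈ s, w x * w y * (c x y - c x 0 - c 0 y + c 0 0)) ≤
      √C * ε₂ + K * √ε₁ + 2 * √C * ε₃ := by
  classical
  set Z : Finset V := insert 0 (s.image (zof n)) with hZ
  set S : Finset V := Z.biUnion (blk n) with hS
  have hn' : (0 : ℝ) < n := by exact_mod_cast hn
  have hsS : s ⊆ S := by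
    intro x hx
    rw [hS, Finset.mem_biUnion]
    exact ⟨zof n x, Finset.mem_insert_of_mem (Finset.mem_image_of_mem _ hx), mem_blk_zof hn x⟩
  have h0Z : (0 : V) ∈ Z := Finset.mem_insert_self _ _
  have hblk : ∀ z ∈ Z, blk n z ⊆ S := fun z hz => Finset.subset_biUnion_of_mem (blk n) hz
  have h00 : (0 : V) ∈ blk n 0 := by
    unfold blk
    rw [Finset.mem_product, Finset.mem_Ico, Finset.mem_Ico]
    simp [hn]
  have h0S : (0 : V) ∈ S := hblk 0 h0Z h00
  set η : ℝ := ∑ y ∈ s, w y with hη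
  set M : V → ℝ := fun z => ∑ y ∈ blk n z, w y with hM
  have hηS : ∑ y ∈ S, w y = η := by
    rw [hη]
    exact (Finset.sum_subset hsS fun x _ hx => hw x hx).symm
  have hMη : ∑ z ∈ Z, M z = η := by
    rw [← hηS, hS, Finset.sum_biUnion (E6c_blk_disj hn Z)]
  have hMK : ∑ z ∈ Z, |M z| ≤ K := by
    calc ∑ z ∈ Z, |M z| ≤ ∑ z ∈ Z, ∑ y ∈ blk n z, |w y| :=
          Finset.sum_le_sum fun z _ => Finset.abs_sum_le_sum_abs _ _
      _ = ∑ y ∈ S, |w y| := by
          rw [hS, Finset.sum_biUnion (E6c_blk_disj hn Z)]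
      _ ≤ K := hK S
  rw [E6c_lhs c w s S hsS h0S hw]
  have hdec : ∀ x ∈ S, w x - η * (if x = 0 then 1 else 0) =
      ((w x - (∑ y ∈ blk n (zof n x), w y) / (2 * (n : ℝ)) ^ 2) +
        ∑ z ∈ Z, M z * (bav n z x - bav n 0 x)) +
        η * (bav n 0 x - (if x = 0 then 1 else 0)) := by
    intro x hx
    have hzx : zof n x ∈ Z := by
      rw [hS, Finset.mem_biUnion] at hx
      obtain ⟨z, hz, hxz⟩ := hx
      rw [E6c_zof hn hxz]
      exact hz
    have e1 : ∑ z ∈ Z, M z * bav n z x =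
        (∑ y ∈ blk n (zof n x), w y) / (2 * (n : ℝ)) ^ 2 := by
      have e2 : ∀ z ∈ Z, M z * bav n z x = if z = zof n x then M z / (2 * (n : ℝ)) ^ 2 else 0 := by
        intro z _
        unfold bav
        by_cases hz : x ∈ blk n z
        · rw [if_pos hz, if_pos (E6c_zof hn hz).symm]
          ring
        · rw [if_neg hz, if_neg]
          · ring
          · rintro rfl
            exact hz (mem_blk_zof hn x)
      rw [Finset.sum_congr rfl e2, Finset.sum_ite_eq', if_pos hzx]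
    have e3 : ∑ z ∈ Z, M z * (bav n z x - bav n 0 x) =
        (∑ y ∈ blk n (zof n x), w y) / (2 * (n : ℝ)) ^ 2 - η * bav n 0 x := by
      rw [← e1, ← hMη, Finset.sum_mul, ← Finset.sum_sub_distrib]
      exact Finset.sum_congr rfl fun z _ => by ring
    rw [e3]
    ring
  rw [E6c_congr hdec]
  have hb1 : √(kq c S (fun x => w x - (∑ y ∈ blk n (zof n x), w y) / (2 * (n : ℝ)) ^ 2)) ≤
      √C * ε₂ :=
    (E6c_l1 hC hs hp S _).trans (mul_le_mul_of_nonneg_left (h2 S) (Real.sqrt_nonneg _))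
  have hb2 : √(kq c S (fun x => ∑ z ∈ Z, M z * (bav n z x - bav n 0 x))) ≤ K * √ε₁ := by
    refine (E6c_sum hs hp S Z fun z x => M z * (bav n z x - bav n 0 x)).trans ?_
    calc ∑ z ∈ Z, √(kq c S (fun x => M z * (bav n z x - bav n 0 x)))
        ≤ ∑ z ∈ Z, |M z| * √ε₁ := by
          refine Finset.sum_le_sum fun z hz => ?_
          rw [E6c_smul]
          refine mul_le_mul_of_nonneg_left (Real.sqrt_le_sqrt ?_) (abs_nonneg _)
          exact he z S (Finset.union_subset (hblk z hz) (hblk 0 h0Z))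
      _ = (∑ z ∈ Z, |M z|) * √ε₁ := by rw [Finset.sum_mul]
      _ ≤ K * √ε₁ := mul_le_mul_of_nonneg_right hMK (Real.sqrt_nonneg _)
  have hb3 : √(kq c S (fun x => η * (bav n 0 x - (if x = 0 then 1 else 0)))) ≤
      2 * √C * ε₃ := by
    rw [E6c_smul]
    have e1 : √(kq c S (fun x => bav n 0 x - (if x = 0 then 1 else 0))) ≤ √C * 2 := by
      refine (E6c_l1 hC hs hp S _).trans (mul_le_mul_of_nonneg_left ?_ (Real.sqrt_nonneg _))
      calc ∑ x ∈ S, |bav n 0 x - (if x = 0 then 1 else 0)|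
          ≤ ∑ x ∈ S, (|bav n 0 x| + if x = 0 then 1 else 0) := by
            refine Finset.sum_le_sum fun x _ => ?_
            refine (abs_sub _ _).trans ?_
            split_ifs <;> simp
        _ = 2 := by
            rw [Finset.sum_add_distrib, E6c_bav_sum hn 0 (hblk 0 h0Z), Finset.sum_ite_eq',
              if_pos h0S]
            norm_num
    calc |η| * √(kq c S (fun x => bav n 0 x - (if x = 0 then 1 else 0)))
        ≤ ε₃ * (√C * 2) :=
          mul_le_mul h3 e1 (Real.sqrt_nonneg _) ((abs_nonneg _).trans h3)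
      _ = 2 * √C * ε₃ := by ring
  refine (E6c_tri hs hp S _ _).trans ?_
  refine add_le_add ((E6c_tri hs hp S _ _).trans ?_) hb3
  exact add_le_add hb1 hb2

/-
Think of vectors `h x` in a semi-inner product space with `⟨h x, h y⟩ = c x y` (`‖h x‖² ≤ C`); the left side is `‖∑_{x ∈ s} wt x (h x - h 0)‖²`.
Let `K` be the mass bound (`wt_mass`), `n` from `ergodic` for a small `ε₁`.  Enlarge `s` to a finite union `s'` of blocks `blk n z` containing `s` (the new weights are `0`).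
With `w̄ x` = the average of `wt` over the block of `x`, `M_z = ∑_{x ∈ blk n z} wt x`, `A_z = ∑ x, bav n z x • h x`, `η = ∑_{x ∈ s} wt x`:
`∑_{x ∈ s'} wt x (h x - h 0) = ∑_{x ∈ s'} (wt x - w̄ x) h x + ∑_z M_z (A_z - A_0) + η (A_0 - h 0)`,
norm `≤ √C * ε₂ + K √ε₁ + 2 √C |η|`, where `ε₂` is from `wt_osc` and `|η| ≤ ε₃` by `riemann_wt` (`∫ f = 0`).
-/
theorem loc_pair (c : V → V → ℝ) (C : ℝ) (hC : ∀ x, c x x ≤ C) (hs : ∀ x y, c x y = c y x)
    (hp : ∀ (s : Finset V) (f : V → ℝ), 0 ≤ ∑ x ∈ s, ∑ y ∈ s, f x * f y * c x y)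
    (hi : ∀ x y w, Even (par w) → c (x + w) (y + w) = c x y)
    (f : ℝ × ℝ → ℝ) (hf : Continuous f) (hc : HasCompactSupport f) (h0 : ∫ y, f y = 0)
    (ε : ℝ) (hε : 0 < ε) : ∃ δ₀ > 0, ∀ δ : ℝ, 0 < δ → δ < δ₀ → ∀ s : Finset V,
      (∀ x : V, f (δ * x.1, δ * x.2) ≠ 0 → x ∈ s) →
      ∑ x ∈ s, ∑ y ∈ s, wt δ f x * wt δ f y * (c x y - c x 0 - c 0 y + c 0 0) ≤ ε := by
  have hC0 : 0 ≤ C := (abs_nonneg _).trans (E6c_abs hC hs hp 0 0)
  obtain ⟨K, hK0, hK⟩ := wt_mass f hf hc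
  set q : ℝ := √ε / 3 with hq
  have hq0 : 0 < q := by
    rw [hq]
    have := Real.sqrt_pos.2 hε
    positivity
  set r : ℝ := √C + 1 with hr
  have hsC : 0 ≤ √C := Real.sqrt_nonneg _
  have hr0 : 0 < r := by positivity
  obtain ⟨n, hn, he⟩ := ergodic c C hC hs hp hi ((q / (K + 1)) ^ 2) (by positivity)
  obtain ⟨δ₁, hδ₁, h1⟩ := wt_osc f hf hc n hn (q / r) (by positivity)
  obtain ⟨δ₂, hδ₂, h2⟩ := riemann_wt f hf hc (q / (2 * r)) (by positivity)
  refine ⟨min 1 (min δ₁ δ₂), by positivity, fun δ hδ hδ' s hsf => ?_⟩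
  have hd1 : δ < 1 := lt_of_lt_of_le hδ' (min_le_left _ _)
  have hd2 : δ < δ₁ := lt_of_lt_of_le hδ' ((min_le_right _ _).trans (min_le_left _ _))
  have hd3 : δ < δ₂ := lt_of_lt_of_le hδ' ((min_le_right _ _).trans (min_le_right _ _))
  have hw : ∀ x, x ∉ s → wt δ f x = 0 := by
    intro x hx
    unfold wt
    by_contra hne
    exact hx (hsf x fun h => hne (by rw [h, mul_zero]))
  have h3 : |∑ y ∈ s, wt δ f y| ≤ q / (2 * r) := by
    have := h2 δ hδ hd3 s hsf
    rwa [h0, sub_zero] at this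
  have hmain := E6c_main c C hC hs hp n hn _ he (wt δ f) K (q / r) (q / (2 * r))
    (hK δ hδ hd1) (h1 δ hδ hd2) s hw h3
  have hb1 : √C * (q / r) ≤ q := by
    rw [mul_div_assoc', div_le_iff₀ hr0, hr]
    nlinarith
  have hb2 : K * √((q / (K + 1)) ^ 2) ≤ q := by
    rw [Real.sqrt_sq (by positivity), mul_div_assoc', div_le_iff₀ (by positivity)]
    nlinarith
  have hb3 : 2 * √C * (q / (2 * r)) ≤ q := by
    rw [mul_div_assoc', div_le_iff₀ (by positivity), hr]
    nlinarith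
  have h4 : √(∑ x ∈ s, ∑ y ∈ s, wt δ f x * wt δ f y * (c x y - c x 0 - c 0 y + c 0 0)) ≤
      √ε := by
    refine hmain.trans ?_
    have : √ε = q + q + q := by
      rw [hq]
      ring
    linarith
  exact (Real.sqrt_le_sqrt_iff hε.le).1 h4

end RP4
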