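import Pool.Agent.Helper63.RP4.T5
import Pool.Agent.Helper63.RP4.E4
import Pool.Agent.Helper63.RP4.E6c
import Pool.Agent.Helper97.RP4.AnP

/-!
Fin.  Assembly of the main theorem, in terms of the averages over `Om D`.
-/

open Finset Filter Topology MeasureTheory

namespace RP4

/-- Euclidean length of a lattice vector -/
noncomputable def elen (x : V) : ℝ := Real.sqrt ((x.1 : ℝ) ^ 2 + (x.2 : ℝ) ^ 2)

lemma elen_zero : elen 0 = 0 := by
  simp [elen]

/-- nonzero lattice vectors have length at least one -/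
lemma one_le_elen {x : V} (hx : x ≠ 0) : 1 ≤ elen x := by
  unfold elen
  rw [Real.one_le_sqrt]
  have h1 : (1 : ℤ) ≤ x.1 ^ 2 + x.2 ^ 2 := by
    by_contra h
    have h2 : x.1 ^ 2 + x.2 ^ 2 = 0 := by nlinarith [sq_nonneg x.1, sq_nonneg x.2]
    have h3 : x.1 = 0 := by nlinarith [sq_nonneg x.1, sq_nonneg x.2]
    have h4 : x.2 = 0 := by nlinarith [sq_nonneg x.1, sq_nonneg x.2]
    exact hx (Prod.ext h3 h4)
  exact_mod_cast h1

lemma log_elen_nonneg (x : V) : 0 ≤ Real.log (elen x) := by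
  by_cases hx : x = 0
  · rw [hx, elen_zero, Real.log_zero]
  · exact Real.log_nonneg (one_le_elen hx)

/-- statements for all but finitely many vertices hold for all large vertices -/
lemma exists_radius {P : V → Prop} (h : ∀ᶠ x in cofinite, P x) : ∃ R : ℝ, 1 < R ∧
    ∀ x : V, R ≤ elen x → P x := by
  have hfin : {x : V | ¬ P x}.Finite := h
  obtain ⟨M, hM⟩ := (hfin.image elen).bddAbove
  refine ⟨max M 1 + 1, by linarith [le_max_right M 1], fun x hx => ?_⟩
  by_contra hP
  have h1 := hM (Set.mem_image_of_mem elen (show x ∈ {x : V | ¬ P x} from hP))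
  linarith [le_max_left M 1]

lemma avg_add (S : Finset (V → ℤ)) (F G : (V → ℤ) → ℝ) :
    avg S (fun h => F h + G h) = avg S F + avg S G := by
  unfold avg
  rw [Finset.sum_add_distrib, add_div]

lemma avg_const_mul (S : Finset (V → ℤ)) (a : ℝ) (F : (V → ℤ) → ℝ) :
    avg S (fun h => a * F h) = a * avg S F := by
  unfold avg
  rw [← Finset.mul_sum, mul_div_assoc]

lemma avg_nonneg (S : Finset (V → ℤ)) (F : (V → ℤ) → ℝ) (h : ∀ g, 0 ≤ F g) : 0 ≤ avg S F := by
  unfold avg
  exact div_nonneg (Finset.sum_nonneg fun g _ => h g) (Nat.cast_nonneg _)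

lemma dist_expand (S : Finset (V → ℤ)) (x y : V) :
    avg S (fun h => (((h x - h y : ℤ) : ℝ)) ^ 2) =
      avg S (fun h => (h x : ℝ) * h x) + avg S (fun h => (h y : ℝ) * h y) +
        (-2) * avg S (fun h => (h x : ℝ) * h y) := by
  rw [← avg_const_mul, ← avg_add, ← avg_add]
  congr 1
  funext h
  push_cast
  ring

lemma avg_sum {ι : Type*} (S : Finset (V → ℤ)) (t : Finset ι) (F : ι → (V → ℤ) → ℝ) :
    avg S (fun h => ∑ i ∈ t, F i h) = ∑ i ∈ t, avg S (F i) := by
  unfold avg
  rw [Finset.sum_comm, Finset.sum_div]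

/-- the covariances of the pairings converge if the variances of the differences do -/
lemma pair_tendsto {a : V → V → ℝ}
    (ha : ∀ x y, Tendsto (fun D => avg (Om D) (fun h => (((h x - h y : ℤ) : ℝ)) ^ 2)) dom
      (𝓝 (a x y))) (u w : V → ℝ) (s t : Finset V) :
    Tendsto (fun D => avg (Om D) (fun h => (∑ x ∈ s, u x * ((h x : ℝ) - h 0)) *
      ∑ y ∈ t, w y * ((h y : ℝ) - h 0))) dom
      (𝓝 (∑ x ∈ s, ∑ y ∈ t, u x * w y * ((a x 0 + a y 0 - a x y) / 2))) := by
  have h1 : ∀ D : Finset V, avg (Om D) (fun h => (∑ x ∈ s, u x * ((h x : ℝ) - h 0)) *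
      ∑ y ∈ t, w y * ((h y : ℝ) - h 0)) = ∑ x ∈ s, ∑ y ∈ t, u x * w y *
        ((avg (Om D) (fun h => (((h x - h 0 : ℤ) : ℝ)) ^ 2) +
          avg (Om D) (fun h => (((h y - h 0 : ℤ) : ℝ)) ^ 2) -
          avg (Om D) (fun h => (((h x - h y : ℤ) : ℝ)) ^ 2)) / 2) := by
    intro D
    have h2 : (fun h : V → ℤ => (∑ x ∈ s, u x * ((h x : ℝ) - h 0)) *
        ∑ y ∈ t, w y * ((h y : ℝ) - h 0)) = fun h => ∑ x ∈ s, ∑ y ∈ t,
          (u x * w y / 2) * ((((h x - h 0 : ℤ) : ℝ)) ^ 2 + (((h y - h 0 : ℤ) : ℝ)) ^ 2 +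
            (-1) * (((h x - h y : ℤ) : ℝ)) ^ 2) := by
      funext h
      rw [Finset.sum_mul_sum]
      refine Finset.sum_congr rfl fun x _ => Finset.sum_congr rfl fun y _ => ?_
      push_cast
      ring
    rw [h2, avg_sum]
    refine Finset.sum_congr rfl fun x _ => ?_
    rw [avg_sum]
    refine Finset.sum_congr rfl fun y _ => ?_
    rw [avg_const_mul, avg_add, avg_add, avg_const_mul]
    ring
  simp only [h1]
  refine tendsto_finset_sum _ fun x _ => tendsto_finset_sum _ fun y _ => ?_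
  exact ((((ha x 0).add (ha y 0)).sub (ha x y)).div_const 2).const_mul _

lemma large_elen : ∀ᶠ x : V in cofinite, 1 < elen x := by
  have h1 : {x : V | ¬ 1 < elen x} ⊆ ((Finset.Icc (-1 : ℤ) 1 ×ˢ Finset.Icc (-1 : ℤ) 1 : Finset V) : Set V) := by
    intro x hx
    have h2 : elen x ≤ 1 := not_lt.1 hx
    unfold elen at h2
    rw [Real.sqrt_le_one] at h2
    have h3 : x.1 ^ 2 + x.2 ^ 2 ≤ 1 := by exact_mod_cast h2
    simp only [Finset.coe_product, Finset.coe_Icc, Set.mem_prod, Set.mem_Icc]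
    refine ⟨⟨?_, ?_⟩, ?_, ?_⟩ <;> nlinarith [sq_nonneg x.1, sq_nonneg x.2]
  exact (Finset.finite_toSet _).subset h1

theorem core_theorem : ∃ (K : ℝ) (a : V → V → ℝ), 0 ≤ K ∧
    (∀ x y, Tendsto (fun D => avg (Om D) (fun h => (((h x - h y : ℤ) : ℝ)) ^ 2)) dom
      (𝓝 (a x y))) ∧
    (∀ ε > 0, ∃ R : ℝ, 1 < R ∧ ∀ x y : V, R ≤ elen (x - y) →
      |a x y / Real.log (elen (x - y)) - K / Real.pi| ≤ ε) ∧
    (∀ f : ℝ × ℝ → ℝ, ContDiff ℝ 1 f → HasCompactSupport f → ∫ y, f y = 0 → ∀ ε > 0,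
      ∃ δ₀ > 0, ∀ δ : ℝ, 0 < δ → δ < δ₀ → ∀ s : Finset V,
        (∀ x : V, f (δ * x.1, δ * x.2) ≠ 0 → x ∈ s) →
        |(∑ x ∈ s, ∑ y ∈ s, wt δ f x * wt δ f y * ((a x 0 + a y 0 - a x y) / 2)) -
          K * energy f| ≤ ε) ∧
    (∀ ε > 0, ∃ C : ℝ, ∀ D : Finset V, BdryPar D 0 → ∀ x ∈ D, ∀ v ∈ bdry D,
      avg (Om D) (fun h => (h x : ℝ) ^ 2) ≤ (K / Real.pi + ε) * Real.log (elen (x - v)) + C) := by
  by_cases hd : Deloc
  · obtain ⟨K, hK, hlog, hf⟩ := analysis_pair (data_of_deloc hd)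
    have hlog' : Tendsto (fun x : V => gfun x / Real.log (elen x)) cofinite (𝓝 (K / Real.pi)) := hlog
    refine ⟨K, fun x y => gfun (x - y), hK, fun x y => gfun_lim hd y x, fun ε hε => ?_,
      fun f h1 h2 h3 ε hε => ?_, fun ε hε => ?_⟩
    · have h1 : ∀ᶠ x : V in cofinite, |gfun x / Real.log (elen x) - K / Real.pi| ≤ ε := by
        have h2 := (Metric.tendsto_nhds.1 hlog') ε hε
        filter_upwards [h2] with x hx
        rw [Real.dist_eq] at hx
        exact hx.le
      obtain ⟨R, hR, h⟩ := exists_radius h1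
      exact ⟨R, hR, fun x y hxy => h (x - y) hxy⟩
    · obtain ⟨δ₀, hδ₀, h⟩ := hf f h1 h2 h3 ε hε
      refine ⟨δ₀, hδ₀, fun δ hδ hδ' s hs => ?_⟩
      have h4 := h δ hδ hδ' s hs
      unfold pform at h4
      simpa only [sub_zero] using h4
    · have h1 : ∀ᶠ x : V in cofinite, |gfun x / Real.log (elen x) - K / Real.pi| ≤ ε := by
        have h2 := (Metric.tendsto_nhds.1 hlog') ε hε
        filter_upwards [h2] with x hx
        rw [Real.dist_eq] at hx
        exact hx.le
      have hfin : {x : V | ¬ (|gfun x / Real.log (elen x) - K / Real.pi| ≤ ε ∧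
          1 < elen x)}.Finite := h1.and large_elen
      obtain ⟨M, hM⟩ := (hfin.image gfun).bddAbove
      refine ⟨max M 0, fun D hD x hx v hv => ?_⟩
      refine (var_le_gfun hd D hD x hx v hv).trans ?_
      have h0 : 0 ≤ K / Real.pi + ε := add_nonneg (div_nonneg hK Real.pi_pos.le) hε.le
      have hl := log_elen_nonneg (x - v)
      by_cases hP : |gfun (x - v) / Real.log (elen (x - v)) - K / Real.pi| ≤ ε ∧
          1 < elen (x - v)
      · have h5 := (abs_le.1 hP.1).2
        have h7 : 0 < Real.log (elen (x - v)) := Real.log_pos hP.2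
        have h6 : gfun (x - v) ≤ (K / Real.pi + ε) * Real.log (elen (x - v)) := by
          rw [← div_le_iff₀ h7]
          linarith
        linarith [le_max_right M 0]
      · have h8 := hM (Set.mem_image_of_mem gfun (show x - v ∈ {x : V | ¬ (|gfun x /
          Real.log (elen x) - K / Real.pi| ≤ ε ∧ 1 < elen x)} from hP))
        have h9 : 0 ≤ (K / Real.pi + ε) * Real.log (elen (x - v)) := mul_nonneg h0 hl
        linarith [le_max_left M 0]
  · obtain ⟨C, hC⟩ := not_deloc_bdd hd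
    obtain ⟨c, hc, hinv, hcC, hsym, hpos⟩ := cov_limit C hC
    have hC0 : 0 ≤ C := by
      have h1 := hpos {0} (fun _ => 1)
      rw [Finset.sum_singleton, Finset.sum_singleton] at h1
      have h2 := hcC 0
      linarith
    have hcs : ∀ x y, |c x y| ≤ C := by
      intro x y
      by_cases hxy : x = y
      · subst hxy
        have h1 := hpos {x} (fun _ => 1)
        rw [Finset.sum_singleton, Finset.sum_singleton] at h1
        rw [abs_of_nonneg (by linarith)]
        exact hcC x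
      · have h1 := hpos {x, y} (fun _ => 1)
        have h2 := hpos {x, y} (fun z => if z = x then 1 else -1)
        rw [Finset.sum_pair hxy, Finset.sum_pair hxy, Finset.sum_pair hxy] at h1 h2
        rw [if_pos rfl, if_neg (Ne.symm hxy)] at h2
        have h3 := hsym y x
        have h4 := hcC x
        have h5 := hcC y
        rw [abs_le]
        constructor <;> linarith
    have hlim : ∀ x y, Tendsto (fun D => avg (Om D) (fun h => (((h x - h y : ℤ) : ℝ)) ^ 2)) dom
        (𝓝 (c x x + c y y + (-2) * c x y)) := by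
      intro x y
      simp only [dist_expand]
      exact ((hc x x).add (hc y y)).add ((hc x y).const_mul _)
    refine ⟨0, fun x y => c x x + c y y + (-2) * c x y, le_rfl, hlim, fun ε hε => ?_,
      fun f h1 h2 h3 ε hε => ?_, fun ε hε => ⟨C, fun D hD x hx v hv => ?_⟩⟩
    · refine ⟨max (Real.exp (4 * C / ε)) 1 + 1, by linarith [le_max_right (Real.exp (4 * C / ε)) 1],
        fun x y hxy => ?_⟩
      have h1 : Real.exp (4 * C / ε) < elen (x - y) := by
        linarith [le_max_left (Real.exp (4 * C / ε)) 1]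
      have h2 : 4 * C / ε < Real.log (elen (x - y)) := by
        rw [Real.lt_log_iff_exp_lt (lt_trans (Real.exp_pos _) h1)]
        exact h1
      have h3 : 0 < Real.log (elen (x - y)) := lt_of_le_of_lt (by positivity) h2
      have h4 := abs_le.1 (hcs x x)
      have h5 := abs_le.1 (hcs y y)
      have h6 := abs_le.1 (hcs x y)
      rw [zero_div, sub_zero, abs_div, abs_of_pos h3, div_le_iff₀ h3]
      rw [div_lt_iff₀ hε] at h2
      rw [abs_le]
      constructor <;> nlinarith
    · obtain ⟨δ₀, hδ₀, h⟩ := loc_pair c C hcC hsym hpos hinv f h1.continuous h2 h3 ε hε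
      refine ⟨δ₀, hδ₀, fun δ hδ hδ' s hs => ?_⟩
      have h4 := h δ hδ hδ' s hs
      have h5 : ∀ x y, ((c x x + c 0 0 + (-2) * c x 0) + (c y y + c 0 0 + (-2) * c y 0) -
          (c x x + c y y + (-2) * c x y)) / 2 = c x y - c x 0 - c 0 y + c 0 0 := by
        intro x y
        rw [hsym 0 y]
        ring
      have h6 := ge_of_tendsto' (pair_tendsto hlim (wt δ f) (wt δ f) s s)
        (fun D => avg_nonneg (Om D) _ fun h => mul_self_nonneg _)
      simp only [h5] at h6
      simp only [h5, zero_mul, sub_zero]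
      rw [abs_of_nonneg h6]
      exact h4
    · have h0 : 0 ≤ ε * Real.log (elen (x - v)) := mul_nonneg hε.le (log_elen_nonneg _)
      have := hC D hD x hx
      simp only [zero_div, zero_add]
      linarith

end RP4
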