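import Pool.Agent.Helper63.RP4.E5
import Pool.Agent.Helper63.RP4.E6a

/-!
E6b.  Mass bound and block oscillation of the weights.
-/

open Finset Filter Topology MeasureTheory

namespace RP4

private lemma E6b_count (R M δ : ℝ) (hM : 0 ≤ M) (hR : 0 ≤ R) (hδ : 0 < δ) (hδ1 : δ < 1)
    (g : V → ℝ) (h1 : ∀ x, |g x| ≤ δ ^ 2 * M)
    (h2 : ∀ x : V, g x ≠ 0 → |δ * (x.1 : ℝ)| ≤ R ∧ |δ * (x.2 : ℝ)| ≤ R) (s : Finset V) :
    ∑ x ∈ s, |g x| ≤ (2 * R + 1) ^ 2 * M := by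
  classical
  set N : ℕ := ⌊R / δ⌋₊ with hN
  set T : Finset V := (Finset.Icc (-(N : ℤ)) N) ×ˢ (Finset.Icc (-(N : ℤ)) N) with hT
  have key : ∀ a : ℤ, |δ * (a : ℝ)| ≤ R → a ∈ Finset.Icc (-(N : ℤ)) N := by
    intro a ha
    rw [abs_mul, abs_of_pos hδ] at ha
    have h3 : ((a.natAbs : ℕ) : ℝ) ≤ R / δ := by
      rw [le_div_iff₀ hδ, Nat.cast_natAbs, Int.cast_abs]
      linarith
    have h4 : a.natAbs ≤ N := Nat.le_floor h3
    rw [Finset.mem_Icc]
    omega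
  have hmem : ∀ x : V, g x ≠ 0 → x ∈ T := by
    intro x hx
    rw [hT, Finset.mem_product]
    exact ⟨key _ (h2 x hx).1, key _ (h2 x hx).2⟩
  have hcard : (T.card : ℝ) = (2 * (N : ℝ) + 1) ^ 2 := by
    rw [hT, Finset.card_product, Int.card_Icc]
    have : ((N : ℤ) + 1 - -(N : ℤ)).toNat = 2 * N + 1 := by omega
    rw [this]
    push_cast
    ring
  have hs : ∑ x ∈ s, |g x| ≤ ∑ x ∈ T, |g x| := by
    have e1 : ∑ x ∈ s, |g x| = ∑ x ∈ s.filter (· ∈ T), |g x| := by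
      symm
      apply Finset.sum_filter_of_ne
      intro x _ hx
      apply hmem
      intro h
      apply hx
      rw [h, abs_zero]
    rw [e1]
    apply Finset.sum_le_sum_of_subset_of_nonneg
    · intro x hx
      exact (Finset.mem_filter.mp hx).2
    · intro x _ _
      exact abs_nonneg _
  refine hs.trans ?_
  have h5 : ∑ x ∈ T, |g x| ≤ ∑ _x ∈ T, δ ^ 2 * M := Finset.sum_le_sum fun x _ => h1 x
  refine h5.trans ?_
  rw [Finset.sum_const, nsmul_eq_mul, hcard]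
  have hN1 : (N : ℝ) * δ ≤ R := by
    have := Nat.floor_le (div_nonneg hR hδ.le)
    rw [← hN, le_div_iff₀ hδ] at this
    exact this
  have hN0 : (0 : ℝ) ≤ N := Nat.cast_nonneg _
  have h6 : (2 * (N : ℝ) + 1) * δ ≤ 2 * R + 1 := by nlinarith
  have h7 : ((2 * (N : ℝ) + 1) * δ) ^ 2 ≤ (2 * R + 1) ^ 2 :=
    pow_le_pow_left₀ (by positivity) h6 2
  calc (2 * (N : ℝ) + 1) ^ 2 * (δ ^ 2 * M) = ((2 * (N : ℝ) + 1) * δ) ^ 2 * M := by ring
    _ ≤ (2 * R + 1) ^ 2 * M := mul_le_mul_of_nonneg_right h7 hM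

private lemma E6b_supp {f : ℝ × ℝ → ℝ} (hc : HasCompactSupport f) :
    ∃ R : ℝ, 0 ≤ R ∧ ∀ y, f y ≠ 0 → |y.1| ≤ R ∧ |y.2| ≤ R := by
  obtain ⟨R, hR⟩ := hc.isCompact.isBounded.subset_closedBall (0 : ℝ × ℝ)
  refine ⟨max R 0, le_max_right _ _, fun y hy => ?_⟩
  have h1 := hR (subset_tsupport f hy)
  rw [mem_closedBall_zero_iff, Prod.norm_def, max_le_iff, Real.norm_eq_abs, Real.norm_eq_abs] at h1
  exact ⟨h1.1.trans (le_max_left _ _), h1.2.trans (le_max_left _ _)⟩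

/-- `|f| ≤ B`, support in `[-R, R]²`; at most `(2 R / δ + 1)²` nonzero terms of size `≤ δ² B` -/
theorem wt_mass (f : ℝ × ℝ → ℝ) (hf : Continuous f) (hc : HasCompactSupport f) :
    ∃ K : ℝ, 0 ≤ K ∧ ∀ δ : ℝ, 0 < δ → δ < 1 → ∀ s : Finset V, ∑ x ∈ s, |wt δ f x| ≤ K := by
  obtain ⟨R, hR0, hR⟩ := E6b_supp hc
  obtain ⟨B, hB⟩ := hc.exists_bound_of_continuous hf
  have hB0 : 0 ≤ B := (norm_nonneg _).trans (hB 0)
  refine ⟨(2 * R + 1) ^ 2 * B, by positivity, fun δ hδ hδ1 s => ?_⟩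
  apply E6b_count R B δ hB0 hR0 hδ hδ1
  · intro x
    unfold wt
    rw [abs_mul, abs_of_nonneg (sq_nonneg δ)]
    exact mul_le_mul_of_nonneg_left (hB _) (sq_nonneg δ)
  · intro x hx
    apply hR (δ * (x.1 : ℝ), δ * (x.2 : ℝ))
    intro h
    apply hx
    unfold wt
    rw [h, mul_zero]

/-- index of the block containing `x` -/
def zof (n : ℕ) (x : V) : V := (x.1 / (2 * n), x.2 / (2 * n))

private lemma E6b_div (n : ℕ) (hn : 0 < n) (a : ℤ) :
    a ∈ Finset.Ico (2 * (n : ℤ) * (a / (2 * n))) (2 * n * (a / (2 * n)) + 2 * n) := by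
  have h0 : (0 : ℤ) < 2 * n := by omega
  have h1 := Int.mul_ediv_add_emod a (2 * (n : ℤ))
  have h2 := Int.emod_nonneg a h0.ne'
  have h3 := Int.emod_lt_of_pos a h0
  rw [Finset.mem_Ico]
  constructor <;> linarith

lemma mem_blk_zof {n : ℕ} (hn : 0 < n) (x : V) : x ∈ blk n (zof n x) := by
  unfold blk zof
  rw [Finset.mem_product]
  exact ⟨E6b_div n hn x.1, E6b_div n hn x.2⟩

private lemma E6b_card (n : ℕ) (z : V) : ((blk n z).card : ℝ) = (2 * (n : ℝ)) ^ 2 := by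
  unfold blk
  rw [Finset.card_product, Int.card_Ico, Int.card_Ico]
  have h1 : (2 * (n : ℤ) * z.1 + 2 * n - 2 * n * z.1).toNat = 2 * n := by
    rw [add_sub_cancel_left]
    omega
  have h2 : (2 * (n : ℤ) * z.2 + 2 * n - 2 * n * z.2).toNat = 2 * n := by
    rw [add_sub_cancel_left]
    omega
  rw [h1, h2]
  push_cast
  ring

private lemma E6b_near {n : ℕ} {z x y : V} (hx : x ∈ blk n z) (hy : y ∈ blk n z) :
    |(x.1 : ℝ) - y.1| ≤ 2 * n ∧ |(x.2 : ℝ) - y.2| ≤ 2 * n := by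
  unfold blk at hx hy
  rw [Finset.mem_product, Finset.mem_Ico, Finset.mem_Ico] at hx hy
  have h1 : |x.1 - y.1| ≤ 2 * (n : ℤ) := by
    rw [abs_le]
    constructor <;> linarith [hx.1.1, hx.1.2, hy.1.1, hy.1.2]
  have h2 : |x.2 - y.2| ≤ 2 * (n : ℤ) := by
    rw [abs_le]
    constructor <;> linarith [hx.2.1, hx.2.2, hy.2.1, hy.2.2]
  constructor
  · exact_mod_cast h1
  · exact_mod_cast h2

/-
The block of `x` has diameter `≤ 4 n δ` after scaling, `f` is uniformly continuous: each summand is `≤ δ² * osc`, and only the `x` within distance `2 n` of the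
support contribute.
-/
theorem wt_osc (f : ℝ × ℝ → ℝ) (hf : Continuous f) (hc : HasCompactSupport f) (n : ℕ) (hn : 0 < n)
    (ε : ℝ) (hε : 0 < ε) : ∃ δ₀ > 0, ∀ δ : ℝ, 0 < δ → δ < δ₀ → ∀ s : Finset V,
      ∑ x ∈ s, |wt δ f x - (∑ y ∈ blk n (zof n x), wt δ f y) / (2 * (n : ℝ)) ^ 2| ≤ ε := by
  obtain ⟨R, hR0, hR⟩ := E6b_supp hc
  have huc := hc.uniformContinuous_of_continuous hf
  rw [Metric.uniformContinuous_iff] at huc
  set ε₁ : ℝ := ε / (2 * (R + 1) + 1) ^ 2 with hε₁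
  have hε₁0 : 0 < ε₁ := by positivity
  obtain ⟨δ₁, hδ₁, hcont⟩ := huc ε₁ hε₁0
  have hn0 : (0 : ℝ) < n := by exact_mod_cast hn
  have hn1 : (1 : ℝ) ≤ n := by exact_mod_cast hn
  refine ⟨min (δ₁ / (2 * n)) (1 / (2 * n)), lt_min (by positivity) (by positivity),
    fun δ hδ hlt s => ?_⟩
  have hl1 : 2 * (n : ℝ) * δ < δ₁ := by
    have h := hlt.trans_le (min_le_left _ _)
    rw [lt_div_iff₀ (by positivity)] at h
    linarith
  have hl2 : 2 * (n : ℝ) * δ < 1 := by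
    have h := hlt.trans_le (min_le_right _ _)
    rw [lt_div_iff₀ (by positivity)] at h
    linarith
  have hδ1 : δ < 1 := by nlinarith
  have hdist : ∀ x y : V, y ∈ blk n (zof n x) →
      |δ * (x.1 : ℝ) - δ * y.1| ≤ 2 * n * δ ∧ |δ * (x.2 : ℝ) - δ * y.2| ≤ 2 * n * δ := by
    intro x y hy
    obtain ⟨h1, h2⟩ := E6b_near (mem_blk_zof hn x) hy
    rw [← mul_sub, ← mul_sub, abs_mul, abs_mul, abs_of_pos hδ]
    constructor <;> nlinarith
  have hosc : ∀ x y : V, y ∈ blk n (zof n x) → |wt δ f x - wt δ f y| ≤ δ ^ 2 * ε₁ := by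
    intro x y hy
    obtain ⟨h1, h2⟩ := hdist x y hy
    unfold wt
    rw [← mul_sub, abs_mul, abs_of_nonneg (sq_nonneg δ)]
    refine mul_le_mul_of_nonneg_left ?_ (sq_nonneg δ)
    have h3 : dist ((δ * (x.1 : ℝ), δ * (x.2 : ℝ)) : ℝ × ℝ) (δ * (y.1 : ℝ), δ * (y.2 : ℝ)) < δ₁ := by
      rw [Prod.dist_eq, max_lt_iff, Real.dist_eq, Real.dist_eq]
      exact ⟨h1.trans_lt hl1, h2.trans_lt hl1⟩
    have h4 := hcont h3
    rw [Real.dist_eq] at h4
    exact h4.le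
  have hq : (0 : ℝ) < (2 * (n : ℝ)) ^ 2 := by positivity
  have heq : ∀ x : V, wt δ f x - (∑ y ∈ blk n (zof n x), wt δ f y) / (2 * (n : ℝ)) ^ 2 =
      (∑ y ∈ blk n (zof n x), (wt δ f x - wt δ f y)) / (2 * (n : ℝ)) ^ 2 := by
    intro x
    rw [Finset.sum_sub_distrib, Finset.sum_const, nsmul_eq_mul, E6b_card, sub_div,
      mul_div_cancel_left₀ _ hq.ne']
  have hfin := E6b_count (R + 1) ε₁ δ hε₁0.le (by linarith) hδ hδ1
    (fun x => wt δ f x - (∑ y ∈ blk n (zof n x), wt δ f y) / (2 * (n : ℝ)) ^ 2) ?_ ?_ s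
  · refine hfin.trans (le_of_eq ?_)
    rw [hε₁]
    field_simp
  · intro x
    rw [heq x, abs_div, abs_of_pos hq, div_le_iff₀ hq]
    refine (Finset.abs_sum_le_sum_abs _ _).trans ?_
    refine (Finset.sum_le_sum fun y hy => hosc x y hy).trans (le_of_eq ?_)
    rw [Finset.sum_const, nsmul_eq_mul, E6b_card]
    ring
  · intro x hx
    by_contra hcon
    apply hx
    have hall : ∀ y ∈ blk n (zof n x), wt δ f y = 0 := by
      intro y hy
      unfold wt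
      have : f (δ * (y.1 : ℝ), δ * (y.2 : ℝ)) = 0 := by
        by_contra h0
        obtain ⟨h1, h2⟩ := hR _ h0
        obtain ⟨h3, h4⟩ := hdist x y hy
        apply hcon
        rw [abs_le] at h1 h2 h3 h4
        constructor
        · rw [abs_le]; constructor <;> linarith [h1.1, h1.2, h3.1, h3.2]
        · rw [abs_le]; constructor <;> linarith [h2.1, h2.2, h4.1, h4.2]
      rw [this, mul_zero]
    rw [hall x (mem_blk_zof hn x), Finset.sum_eq_zero hall, zero_div, sub_zero]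

end RP4
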