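import Pool.Agent.Helper63.RP4.Defs

/-!
A01.  Going to the right from `v` one reaches a boundary vertex; hence a bound for `g v`.
-/

open Finset

namespace RP4

/-
Proof: let `b.1` be the largest `t` such that `(t', v.2) ∈ D` for all `v.1 ≤ t' ≤ t` (exists: `D` finite).
Then `(b.1 + 1, v.2) ∉ D`, it is adjacent to `b`, so `b ∈ bdry D`.
The points `(t, v.2)`, `v.1 ≤ t ≤ b.1`, are distinct elements of `D`, so `b.1 - v.1 + 1 ≤ D.card`.
-/
lemma exists_bdry_right (D : Finset V) {v : V} (hv : v ∈ D) :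
    ∃ b ∈ bdry D, b.2 = v.2 ∧ v.1 ≤ b.1 ∧ (∀ t : ℤ, v.1 ≤ t → t ≤ b.1 → (t, v.2) ∈ D) ∧
      b.1 - v.1 + 1 ≤ D.card := by
  classical
  have hex : ∃ k : ℕ, k ≤ D.card ∧ ((v.1 + (k : ℤ), v.2) : V) ∉ D := by
    by_contra hcon
    push Not at hcon
    have h1 : (range (D.card + 1)).image (fun k : ℕ => ((v.1 + (k : ℤ), v.2) : V)) ⊆ D := by
      intro u hu
      obtain ⟨k, hk, rfl⟩ := mem_image.1 hu
      exact hcon k (Nat.lt_succ_iff.1 (mem_range.1 hk))
    have h2 := card_le_card h1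
    rw [card_image_of_injective, card_range] at h2
    · omega
    · intro a b hab
      have h3 := congrArg Prod.fst hab
      simp only at h3
      omega
  have hex' : ∃ k : ℕ, ((v.1 + (k : ℤ), v.2) : V) ∉ D := by
    obtain ⟨k, -, hk⟩ := hex
    exact ⟨k, hk⟩
  obtain ⟨k, hk, hk'⟩ := hex
  set m := Nat.find hex' with hm
  have hm1 : ((v.1 + (m : ℤ), v.2) : V) ∉ D := Nat.find_spec hex'
  have hm2 : ∀ j < m, ((v.1 + (j : ℤ), v.2) : V) ∈ D := fun j hj => not_not.1 (Nat.find_min hex' hj)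
  have hm3 : m ≤ D.card := (Nat.find_min' hex' hk').trans hk
  have hm0 : 1 ≤ m := by
    rcases Nat.eq_zero_or_pos m with h0 | h0
    · exfalso
      rw [h0] at hm1
      simp only [Nat.cast_zero, add_zero] at hm1
      exact hm1 hv
    · exact h0
  have hb : ((v.1 + ((m - 1 : ℕ) : ℤ), v.2) : V) ∈ D := hm2 _ (by omega)
  have hc : ((m - 1 : ℕ) : ℤ) = (m : ℤ) - 1 := by omega
  refine ⟨(v.1 + ((m - 1 : ℕ) : ℤ), v.2), mem_bdry.2 ⟨hb, (v.1 + (m : ℤ), v.2), ?_, hm1⟩, rfl, ?_,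
    ?_, ?_⟩
  · have h1 : v.1 + (m : ℤ) - (v.1 + ((m - 1 : ℕ) : ℤ)) = 1 := by omega
    simp only [Adj, h1, sub_self, abs_zero, abs_one, add_zero]
  · simp only
    omega
  · intro t ht1 ht2
    simp only at ht2
    have h1 : t = v.1 + ((t - v.1).toNat : ℤ) := by omega
    rw [h1]
    exact hm2 _ (by omega)
  · simp only
    omega

/-- walks inside `D` -/
lemma A01_walk {D : Finset V} {p : ℤ} {g : V → ℤ} (h : IsHom D p g) (u : ℕ → V) (k : ℕ)
    (hu : ∀ i ≤ k, u i ∈ D) (ha : ∀ i < k, Adj (u (i + 1)) (u i)) : |g (u k) - g (u 0)| ≤ k := by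
  induction k with
  | zero => simp
  | succ k ih =>
    have h1 := ih (fun i hi => hu i (by omega)) (fun i hi => ha i (by omega))
    have h2 := h.step (u (k + 1)) (hu _ le_rfl) (u k) (hu _ (by omega)) (ha k (by omega))
    have h3 := abs_add_le (g (u (k + 1)) - g (u k)) (g (u k) - g (u 0))
    have h4 : g (u (k + 1)) - g (u k) + (g (u k) - g (u 0)) = g (u (k + 1)) - g (u 0) := by ring
    rw [h4] at h3
    push_cast
    omega

/-- steps along the path of `exists_bdry_right` -/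
lemma IsHom.bound_bdry {D : Finset V} {p : ℤ} {g : V → ℤ} (h : IsHom D p g) {v : V} (hv : v ∈ D) :
    ∃ b ∈ bdry D, |g v - g b| ≤ D.card := by
  obtain ⟨b, hb, hb2, hb1, hbD, hbc⟩ := exists_bdry_right D hv
  refine ⟨b, hb, ?_⟩
  have h1 := A01_walk h (fun i => ((v.1 + (i : ℤ), v.2) : V)) (b.1 - v.1).toNat
    (fun i hi => hbD _ (by omega) (by omega)) (fun i _ => by
      have h1 : v.1 + ((i + 1 : ℕ) : ℤ) - (v.1 + (i : ℤ)) = 1 := by push_cast; ring
      simp only [Adj, h1, sub_self, abs_zero, abs_one, add_zero])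
  have h2 : ((v.1 + ((b.1 - v.1).toNat : ℤ), v.2) : V) = b := by
    ext
    · simp only
      omega
    · exact hb2.symm
  have h3 : ((v.1 + ((0 : ℕ) : ℤ), v.2) : V) = v := by
    ext
    · simp
    · rfl
  simp only [h2, h3] at h1
  rw [abs_sub_comm]
  omega

/-
`|g x - g w| ≤ dist1 w x` if `D` contains the whole ball: walk from `w` first horizontally, then
vertically to `x`; all vertices of this path are at distance `≤ dist1 w x` of `w`.
-/
lemma IsHom.lip {D : Finset V} {p : ℤ} {g : V → ℤ} (h : IsHom D p g) (w x : V)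
    (hball : ∀ v, dist1 w v ≤ dist1 w x → v ∈ D) : |g x - g w| ≤ dist1 w x := by
  have hsg : ∀ z : ℤ, ∃ s : ℤ, (s = 1 ∨ s = -1) ∧ z = s * (z.natAbs : ℤ) := by
    intro z
    rcases le_total 0 z with hz | hz
    · exact ⟨1, Or.inl rfl, by omega⟩
    · exact ⟨-1, Or.inr rfl, by omega⟩
  obtain ⟨s, hs, hsx⟩ := hsg (x.1 - w.1)
  obtain ⟨t, ht, htx⟩ := hsg (x.2 - w.2)
  have hst : ∀ s : ℤ, (s = 1 ∨ s = -1) → |s| = 1 := by
    rintro s (rfl | rfl) <;> simp
  have hd : dist1 w x = ((x.1 - w.1).natAbs : ℤ) + ((x.2 - w.2).natAbs : ℤ) := by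
    unfold dist1
    rw [abs_sub_comm w.1, abs_sub_comm w.2, Int.abs_eq_natAbs, Int.abs_eq_natAbs]
  have h1 := A01_walk h (fun i => ((w.1 + s * (i : ℤ), w.2) : V)) (x.1 - w.1).natAbs
    (fun i hi => hball _ (by
      rw [hd]
      have h2 : w.1 - (w.1 + s * (i : ℤ)) = -(s * i) := by ring
      simp only [dist1, h2, sub_self, abs_zero, abs_neg, abs_mul, hst s hs, one_mul, add_zero]
      rw [abs_of_nonneg (by positivity)]
      omega)) (fun i _ => by
      have h1 : w.1 + s * ((i + 1 : ℕ) : ℤ) - (w.1 + s * (i : ℤ)) = s := by push_cast; ring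
      simp only [Adj, h1, sub_self, abs_zero, hst s hs, add_zero])
  have h2 := A01_walk h (fun i => ((x.1, w.2 + t * (i : ℤ)) : V)) (x.2 - w.2).natAbs
    (fun i hi => hball _ (by
      rw [hd]
      have h2 : w.2 - (w.2 + t * (i : ℤ)) = -(t * i) := by ring
      simp only [dist1, h2, abs_neg, abs_mul, hst t ht, one_mul]
      rw [abs_of_nonneg (show (0 : ℤ) ≤ (i : ℤ) by positivity), abs_sub_comm, Int.abs_eq_natAbs]
      omega)) (fun i _ => by
      have h1 : w.2 + t * ((i + 1 : ℕ) : ℤ) - (w.2 + t * (i : ℤ)) = t := by push_cast; ring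
      simp only [Adj, h1, sub_self, abs_zero, hst t ht, zero_add])
  have e1 : ((w.1 + s * ((x.1 - w.1).natAbs : ℤ), w.2) : V) = (x.1, w.2) := by
    rw [← hsx]
    ext <;> simp
  have e2 : ((w.1 + s * ((0 : ℕ) : ℤ), w.2) : V) = w := by
    ext <;> simp
  have e3 : ((x.1, w.2 + t * ((x.2 - w.2).natAbs : ℤ)) : V) = x := by
    rw [← htx]
    ext <;> simp
  have e4 : ((x.1, w.2 + t * ((0 : ℕ) : ℤ)) : V) = (x.1, w.2) := by
    ext <;> simp
  simp only [e1, e2] at h1
  simp only [e3, e4] at h2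
  have h3 := abs_add_le (g x - g (x.1, w.2)) (g (x.1, w.2) - g w)
  have h4 : g x - g (x.1, w.2) + (g (x.1, w.2) - g w) = g x - g w := by ring
  rw [h4] at h3
  rw [hd]
  linarith

end RP4
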