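import Pool.Agent.Helper63.RP4.A02

/-!
A03.  Closure of homomorphisms under `⊔`, `⊓`, `-`, `|·|`.
-/

open Finset

namespace RP4

/-
On an edge `u, v`: `g u - g' u` and `g v - g' v` are even (by `par`) and the steps are `±1`:
case analysis with `omega`.
-/
lemma IsHom.sup {D : Finset V} {p : ℤ} {g g' : V → ℤ} (h : IsHom D p g) (h' : IsHom D p g') :
    IsHom D p (g ⊔ g') := by
  refine ⟨fun v hv => ?_, fun v hv => ?_, fun u hu v hv huv => ?_⟩
  · simp [h.off v hv, h'.off v hv]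
  · obtain ⟨a, ha⟩ := h.par v hv
    obtain ⟨b, hb⟩ := h'.par v hv
    rw [Pi.sup_apply]
    rcases max_cases (g v) (g' v) with ⟨hm, _⟩ | ⟨hm, _⟩
    · rw [hm]; exact ⟨a, ha⟩
    · rw [hm]; exact ⟨b, hb⟩
  · obtain ⟨a, ha⟩ := h.par u hu
    obtain ⟨b, hb⟩ := h'.par u hu
    obtain ⟨c, hc⟩ := h.par v hv
    obtain ⟨d, hd⟩ := h'.par v hv
    have h1 := h.step u hu v hv huv
    have h2 := h'.step u hu v hv huv
    rw [Pi.sup_apply, Pi.sup_apply]
    rcases max_cases (g u) (g' u) with ⟨hm, hm'⟩ | ⟨hm, hm'⟩ <;>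
    rcases max_cases (g v) (g' v) with ⟨hn, hn'⟩ | ⟨hn, hn'⟩ <;>
    rw [hm, hn] <;>
    rcases abs_cases (g u - g v) with ⟨k1, _⟩ | ⟨k1, _⟩ <;>
    rcases abs_cases (g' u - g' v) with ⟨k2, _⟩ | ⟨k2, _⟩ <;>
    rw [k1] at h1 <;> rw [k2] at h2 <;>
    first
      | (rw [k1]; omega)
      | (rw [k2]; omega)
      | (rw [abs_eq (by norm_num)]; omega)

lemma IsHom.neg {D : Finset V} {p : ℤ} {g : V → ℤ} (h : IsHom D p g) : IsHom D p (-g) := by
  refine ⟨fun v hv => ?_, fun v hv => ?_, fun u hu v hv huv => ?_⟩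
  · simp [h.off v hv]
  · obtain ⟨a, ha⟩ := h.par v hv
    refine ⟨-a - RP4.par v - p, ?_⟩
    rw [Pi.neg_apply]
    omega
  · have h1 := h.step u hu v hv huv
    rw [Pi.neg_apply, Pi.neg_apply, ← abs_neg]
    rw [← h1]
    congr 1
    ring

lemma IsHom.inf {D : Finset V} {p : ℤ} {g g' : V → ℤ} (h : IsHom D p g) (h' : IsHom D p g') :
    IsHom D p (g ⊓ g') := by
  have key := (h.neg.sup h'.neg).neg
  have e : -((-g) ⊔ (-g')) = g ⊓ g' := by
    ext v
    simp [Pi.sup_apply, Pi.inf_apply, Pi.neg_apply, max_neg_neg]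
  rwa [e] at key

lemma IsHom.abs {D : Finset V} {p : ℤ} {g : V → ℤ} (h : IsHom D p g) :
    IsHom D p (fun v => |g v|) := by
  have key := h.sup h.neg
  have e : g ⊔ (-g) = fun v => |g v| := by
    ext v
    rw [Pi.sup_apply, Pi.neg_apply, abs_eq_max_neg]
  rwa [e] at key

end RP4
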