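import Pool.Agent.Helper63.RP4.A03

/-!
A04.  FKG for the absolute value: enlarging the zero set decreases `|g|`.
-/

open Finset

namespace RP4

open Classical in
/-- number of homomorphisms with absolute value `ξ` (all of them have zero set `⊇ Z0 := bdry D`) -/
noncomputable def mult (D : Finset V) (p : ℤ) (ξ : V → ℤ) : ℕ :=
  ((Zs D p (bdry D)).filter (fun g => (fun v => |g v|) = ξ)).card

/-- sign patterns compatible with `ξ` -/
def A04_G (D : Finset V) (ξ : V → ℤ) : Submodule (ZMod 2) (D → ZMod 2) where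
  carrier := {σ | ∀ u v : D, Adj u.1 v.1 → ξ u.1 ≠ 0 → ξ v.1 ≠ 0 → σ u = σ v}
  add_mem' := fun {a b} ha hb u v h1 h2 h3 => by
    simp only [Pi.add_apply, ha u v h1 h2 h3, hb u v h1 h2 h3]
  zero_mem' := fun u v _ _ _ => rfl
  smul_mem' := fun c a ha u v h1 h2 h3 => by
    simp only [Pi.smul_apply, ha u v h1 h2 h3]

lemma A04_mem_G {D : Finset V} {ξ : V → ℤ} {σ : D → ZMod 2} :
    σ ∈ A04_G D ξ ↔ ∀ u v : D, Adj u.1 v.1 → ξ u.1 ≠ 0 → ξ v.1 ≠ 0 → σ u = σ v := Iff.rfl

lemma A04_zmod (x : ZMod 2) : x = 0 ∨ x = 1 := by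
  fin_cases x
  · exact Or.inl rfl
  · exact Or.inr rfl

open Classical in
/-- the sign pattern applied to `ξ` -/
noncomputable def A04_app (D : Finset V) (ξ : V → ℤ) (σ : D → ZMod 2) : V → ℤ :=
  fun v => if h : v ∈ D then (if σ ⟨v, h⟩ = 1 then -ξ v else ξ v) else 0

lemma A04_app_hom {D : Finset V} {p : ℤ} {ξ : V → ℤ} (h : IsHom D p ξ) (h0 : ∀ v, 0 ≤ ξ v)
    {σ : D → ZMod 2} (hσ : σ ∈ A04_G D ξ) : IsHom D p (A04_app D ξ σ) := by
  refine ⟨fun v hv => ?_, fun v hv => ?_, fun u hu v hv huv => ?_⟩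
  · simp only [A04_app, dif_neg hv]
  · obtain ⟨a, ha⟩ := h.par v hv
    simp only [A04_app, dif_pos hv]
    split_ifs
    · exact ⟨-a - RP4.par v - p, by omega⟩
    · exact ⟨a, ha⟩
  · have h1 := h.step u hu v hv huv
    simp only [A04_app, dif_pos hu, dif_pos hv]
    by_cases hz : ξ u ≠ 0 ∧ ξ v ≠ 0
    · have h2 := hσ ⟨u, hu⟩ ⟨v, hv⟩ huv hz.1 hz.2
      rw [h2]
      split_ifs
      · rw [← h1, ← abs_neg (ξ u - ξ v)]
        congr 1
        ring
      · exact h1
    · have h3 : ξ u = 0 ∨ ξ v = 0 := by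
        by_contra hc
        push Not at hc
        exact hz hc
      have hu0 := h0 u
      have hv0 := h0 v
      rcases h3 with h3 | h3
      · rw [h3] at h1 ⊢
        rw [zero_sub, abs_neg] at h1
        split_ifs <;> simp [h1]
      · rw [h3] at h1 ⊢
        rw [sub_zero] at h1
        split_ifs <;> simp [h1]

lemma A04_app_abs {D : Finset V} {p : ℤ} {ξ : V → ℤ} (h : IsHom D p ξ) (h0 : ∀ v, 0 ≤ ξ v)
    (σ : D → ZMod 2) : (fun v => |A04_app D ξ σ v|) = ξ := by
  funext v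
  by_cases hv : v ∈ D
  · simp only [A04_app, dif_pos hv]
    split_ifs
    · rw [abs_neg, abs_of_nonneg (h0 v)]
    · rw [abs_of_nonneg (h0 v)]
  · simp only [A04_app, dif_neg hv, abs_zero, h.off v hv]

open Classical in
/-- the sign pattern of `g`, with free values on the zeros of `ξ` -/
noncomputable def A04_sg (D : Finset V) (ξ g : V → ℤ) (τ : {v : D // ξ v.1 = 0} → ZMod 2) :
    D → ZMod 2 :=
  fun v => if h : ξ v.1 = 0 then τ ⟨v, h⟩ else if g v.1 < 0 then 1 else 0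

lemma A04_sg_mem {D : Finset V} {p : ℤ} {ξ g : V → ℤ} (hg : IsHom D p g)
    (ha : (fun v => |g v|) = ξ) (τ : {v : D // ξ v.1 = 0} → ZMod 2) :
    A04_sg D ξ g τ ∈ A04_G D ξ := by
  intro u v huv hu hv
  have h1 := hg.step u.1 u.2 v.1 v.2 huv
  have h2 := congrFun ha u.1
  have h3 := congrFun ha v.1
  simp only [A04_sg, dif_neg hu, dif_neg hv]
  rw [← h2] at hu
  rw [← h3] at hv
  rw [abs_ne_zero] at hu hv
  have h4 : g u.1 < 0 ↔ g v.1 < 0 := by
    rcases abs_cases (g u.1 - g v.1) with ⟨k1, _⟩ | ⟨k1, _⟩ <;> rw [k1] at h1 <;> omega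
  simp only [h4]

open Classical in
/-- the bijection -/
noncomputable def A04_equiv {D : Finset V} {p : ℤ} {ξ : V → ℤ} (h : IsHom D p ξ)
    (h0 : ∀ v, 0 ≤ ξ v) (hb : ∀ v ∈ bdry D, ξ v = 0) :
    A04_G D ξ ≃ {g // g ∈ (Zs D p (bdry D)).filter (fun g => (fun v => |g v|) = ξ)} ×
      ({v : D // ξ v.1 = 0} → ZMod 2) where
  toFun σ := (⟨A04_app D ξ σ.1, by
    rw [mem_filter, mem_Zs subset_rfl]
    refine ⟨⟨A04_app_hom h h0 σ.2, fun v hv => ?_⟩, A04_app_abs h h0 σ.1⟩
    have h1 := congrFun (A04_app_abs h h0 σ.1) v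
    rw [hb v hv, abs_eq_zero] at h1
    exact h1⟩, fun v => σ.1 v.1)
  invFun x := ⟨A04_sg D ξ x.1.1 x.2, by
    have h1 := mem_filter.1 x.1.2
    rw [mem_Zs subset_rfl] at h1
    exact A04_sg_mem h1.1.1 h1.2 x.2⟩
  left_inv σ := by
    apply Subtype.ext
    funext v
    simp only [A04_sg]
    split_ifs with h1 h2
    · rfl
    · simp only [A04_app, dif_pos v.2] at h2
      rcases A04_zmod (σ.1 v) with h3 | h3
      · exfalso
        have h4 : σ.1 ⟨v.1, v.2⟩ = 0 := h3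
        rw [h4, if_neg (by decide)] at h2
        have := h0 v.1
        omega
      · exact h3.symm
    · simp only [A04_app, dif_pos v.2] at h2
      rcases A04_zmod (σ.1 v) with h3 | h3
      · exact h3.symm
      · exfalso
        have h4 : σ.1 ⟨v.1, v.2⟩ = 1 := h3
        rw [h4, if_pos rfl] at h2
        have := h0 v.1
        omega
  right_inv x := by
    have hx := mem_filter.1 x.1.2
    rw [mem_Zs subset_rfl] at hx
    obtain ⟨⟨hx1, -⟩, hx2⟩ := hx
    apply Prod.ext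
    · apply Subtype.ext
      funext v
      simp only [A04_app]
      have h5 := congrFun hx2 v
      by_cases hv : v ∈ D
      · rw [dif_pos hv]
        simp only [A04_sg]
        by_cases h1 : ξ v = 0
        · have h6 : ∀ c : Prop, [Decidable c] → (if c then -ξ v else ξ v) = 0 := by
            intro c _
            rw [h1, neg_zero, ite_self]
          rw [h6]
          rw [h1, abs_eq_zero] at h5
          exact h5.symm
        · rw [dif_neg h1]
          by_cases h2 : x.1.1 v < 0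
          · rw [if_pos h2, if_pos rfl, ← h5, abs_of_neg h2, neg_neg]
          · rw [if_neg h2, if_neg (by decide), ← h5, abs_of_nonneg (not_lt.1 h2)]
      · rw [dif_neg hv, hx1.off v hv]
    · funext v
      simp only [A04_sg]
      rw [dif_pos v.2]

lemma A04_card {D : Finset V} {p : ℤ} {ξ : V → ℤ} (h : IsHom D p ξ)
    (h0 : ∀ v, 0 ≤ ξ v) (hb : ∀ v ∈ bdry D, ξ v = 0) :
    Nat.card (A04_G D ξ) = mult D p ξ * 2 ^ (D.filter (fun v => ξ v = 0)).card := by
  classical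
  rw [Nat.card_congr (A04_equiv h h0 hb), Nat.card_prod, Nat.card_eq_fintype_card,
    Fintype.card_coe, Nat.card_eq_fintype_card, Fintype.card_fun, ZMod.card]
  congr 2
  rw [Fintype.card_subtype]
  rw [← card_image_of_injective _ Subtype.val_injective]
  congr 1
  ext v
  simp only [mem_image, mem_filter, mem_univ, true_and, Subtype.exists, exists_and_left,
    exists_prop, and_comm]
  constructor
  · rintro ⟨a, rfl, ha⟩
    exact ha
  · intro ha
    exact ⟨v, rfl, ha⟩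

lemma A04_inf {D : Finset V} {p : ℤ} {ξ η : V → ℤ} (h : IsHom D p ξ) (h' : IsHom D p η)
    (h0 : ∀ v, 0 ≤ ξ v) (h0' : ∀ v, 0 ≤ η v) : A04_G D ξ ⊓ A04_G D η ≤ A04_G D (ξ ⊔ η) := by
  rintro σ ⟨h1, h2⟩ u v huv hu hv
  rw [Pi.sup_apply] at hu hv
  obtain ⟨a, ha⟩ := h.par u.1 u.2
  obtain ⟨b, hb⟩ := h'.par u.1 u.2
  obtain ⟨c, hc⟩ := h.par v.1 v.2
  obtain ⟨d, hd⟩ := h'.par v.1 v.2
  have k1 := h0 u.1
  have k2 := h0 v.1
  have k3 := h0' u.1
  have k4 := h0' v.1
  have hpar := A02_adj huv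
  by_cases hc1 : ξ u.1 ≠ 0 ∧ ξ v.1 ≠ 0
  · exact h1 u v huv hc1.1 hc1.2
  · apply h2 u v huv
    · intro hc2
      rw [hc2] at hu
      rw [max_eq_left k1] at hu
      have h5 : ξ v.1 = 0 := by
        by_contra hc3
        exact hc1 ⟨hu, hc3⟩
      omega
    · intro hc2
      rw [hc2] at hv
      rw [max_eq_left k2] at hv
      have h5 : ξ u.1 = 0 := by
        by_contra hc3
        exact hc1 ⟨hc3, hv⟩
      omega

lemma A04_sup {D : Finset V} {ξ η : V → ℤ}
    (h0 : ∀ v, 0 ≤ ξ v) (h0' : ∀ v, 0 ≤ η v) : A04_G D ξ ⊔ A04_G D η ≤ A04_G D (ξ ⊓ η) := by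
  apply sup_le
  · intro σ h1 u v huv hu hv
    rw [Pi.inf_apply] at hu hv
    apply h1 u v huv
    · intro hc
      rw [hc, min_eq_left (h0' _)] at hu
      exact hu rfl
    · intro hc
      rw [hc, min_eq_left (h0' _)] at hv
      exact hv rfl
  · intro σ h1 u v huv hu hv
    rw [Pi.inf_apply] at hu hv
    apply h1 u v huv
    · intro hc
      rw [hc, min_eq_right (h0 _)] at hu
      exact hu rfl
    · intro hc
      rw [hc, min_eq_right (h0 _)] at hv
      exact hv rfl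

lemma A04_natcard {D : Finset V} (H : Submodule (ZMod 2) (D → ZMod 2)) :
    Nat.card H = 2 ^ Module.finrank (ZMod 2) H := by
  rw [Module.natCard_eq_pow_finrank (K := ZMod 2) (V := H), Nat.card_zmod]

lemma A04_main {D : Finset V} {p : ℤ} {ξ η : V → ℤ} (h : IsHom D p ξ) (h' : IsHom D p η)
    (h0 : ∀ v, 0 ≤ ξ v) (h0' : ∀ v, 0 ≤ η v) :
    Nat.card (A04_G D ξ) * Nat.card (A04_G D η) ≤
      Nat.card (A04_G D (ξ ⊓ η)) * Nat.card (A04_G D (ξ ⊔ η)) := by
  simp only [A04_natcard, ← pow_add]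
  apply Nat.pow_le_pow_right (by norm_num)
  rw [← Submodule.finrank_sup_add_finrank_inf_eq]
  exact add_le_add (Submodule.finrank_mono (A04_sup h0 h0'))
    (Submodule.finrank_mono (A04_inf h h' h0 h0'))

lemma A04_zeros (D : Finset V) {ξ η : V → ℤ} (h0 : ∀ v, 0 ≤ ξ v) (h0' : ∀ v, 0 ≤ η v) :
    (D.filter (fun v => (ξ ⊓ η) v = 0)).card + (D.filter (fun v => (ξ ⊔ η) v = 0)).card =
      (D.filter (fun v => ξ v = 0)).card + (D.filter (fun v => η v = 0)).card := by
  classical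
  rw [← card_union_add_card_inter (D.filter (fun v => ξ v = 0)), ← filter_or, ← filter_and]
  congr 2
  · apply filter_congr
    intro v _
    rw [Pi.inf_apply]
    have := h0 v
    have := h0' v
    omega
  · apply filter_congr
    intro v _
    rw [Pi.sup_apply]
    have := h0 v
    have := h0' v
    omega

/-
Log-supermodularity of the number of sign choices.
For `ξ` with `mult D p ξ > 0`: `ξ` itself is in `Zs D p (bdry D)` (`IsHom.abs`), and
`{g : |g| = ξ}` is in bijection with `{σ : V → ZMod 2 | σ = 0 off D, σ u = σ v for adjacent u v ∈ D with ξ u ≠ 0, ξ v ≠ 0,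
 and σ v = 0 if ξ v = 0}`.
Let `G ξ := {σ : V → ZMod 2 | σ = 0 off D ∧ ∀ adjacent u v ∈ D, ξ u ≠ 0 → ξ v ≠ 0 → σ u = σ v}` (a finite subgroup);
then `card (G ξ) = mult ξ * 2 ^ #{v ∈ D | ξ v = 0}`.
Vertices with `par v - p` odd have `ξ v ≠ 0` always (odd value), and adjacent vertices have different parity. So
`G (ξ ⊔ η) = G ξ ⊓ G η`, `G ξ ⊔ G η ≤ G (ξ ⊓ η)`, and `|H| * |K| = |H ⊔ K| * |H ⊓ K|` for finite subgroups
(`Subgroup.card_mul...` / for submodules over `ZMod 2`: `Submodule.finrank_sup_add_finrank_inf_eq`; or prove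
directly: the map `H × K → (H ⊔ K)`, `(h,k) ↦ h + k` has fibres of size `|H ⊓ K|`).
Moreover `#{ξ ⊔ η = 0} + #{ξ ⊓ η = 0} = #{ξ = 0} + #{η = 0}` on `D` since `ξ, η ≥ 0`.
-/
lemma mult_supermodular (D : Finset V) (p : ℤ) (ξ η : V → ℤ) :
    mult D p ξ * mult D p η ≤ mult D p (ξ ⊓ η) * mult D p (ξ ⊔ η) := by
  classical
  rcases Nat.eq_zero_or_pos (mult D p ξ) with h1 | h1
  · rw [h1, zero_mul]
    exact Nat.zero_le _
  rcases Nat.eq_zero_or_pos (mult D p η) with h2 | h2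
  · rw [h2, mul_zero]
    exact Nat.zero_le _
  unfold mult at h1 h2
  obtain ⟨g, hg⟩ := card_pos.1 h1
  obtain ⟨g', hg'⟩ := card_pos.1 h2
  obtain ⟨hg12, hg3⟩ := mem_filter.1 hg
  obtain ⟨hg12', hg3'⟩ := mem_filter.1 hg'
  obtain ⟨hg1, hg2⟩ := (mem_Zs subset_rfl).1 hg12
  obtain ⟨hg1', hg2'⟩ := (mem_Zs subset_rfl).1 hg12'
  have hξ : IsHom D p ξ := hg3 ▸ hg1.abs
  have hη : IsHom D p η := hg3' ▸ hg1'.abs
  have h0 : ∀ v, 0 ≤ ξ v := fun v => by rw [← congrFun hg3 v]; exact abs_nonneg _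
  have h0' : ∀ v, 0 ≤ η v := fun v => by rw [← congrFun hg3' v]; exact abs_nonneg _
  have hb : ∀ v ∈ bdry D, ξ v = 0 := fun v hv => by
    rw [← congrFun hg3 v]
    simp only [hg2 v hv, abs_zero]
  have hb' : ∀ v ∈ bdry D, η v = 0 := fun v hv => by
    rw [← congrFun hg3' v]
    simp only [hg2' v hv, abs_zero]
  have key := A04_main hξ hη h0 h0'
  rw [A04_card hξ h0 hb, A04_card hη h0' hb',
    A04_card (hξ.inf hη) (fun v => le_inf (h0 v) (h0' v))
      (fun v hv => by rw [Pi.inf_apply, hb v hv, hb' v hv, min_self]),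
    A04_card (hξ.sup hη) (fun v => (h0 v).trans le_sup_left)
      (fun v hv => by rw [Pi.sup_apply, hb v hv, hb' v hv, max_self]),
    mul_mul_mul_comm (mult D p ξ), mul_mul_mul_comm (mult D p (ξ ⊓ η)), ← pow_add, ← pow_add,
    A04_zeros D h0 h0'] at key
  exact Nat.le_of_mul_le_mul_right key (by positivity)

end RP4
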