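import Pool.Agent.Helper63.RP4.A04

/-!
A05.  FKG for the absolute value: enlarging the zero set decreases `|g|`.
-/

open Finset

namespace RP4

/-- membership in the image of the absolute value -/
private lemma A05_mem_image {D : Finset V} {p : ℤ} {Z : Finset V} (hZ : bdry D ⊆ Z)
    [DecidableEq (V → ℤ)] {ξ : V → ℤ} :
    ξ ∈ (Zs D p Z).image (fun g v => |g v|) ↔
      IsHom D p ξ ∧ (∀ v ∈ Z, ξ v = 0) ∧ ∀ v, 0 ≤ ξ v := by
  constructor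
  · intro h
    obtain ⟨g, hg, rfl⟩ := Finset.mem_image.1 h
    obtain ⟨h1, h2⟩ := (mem_Zs hZ).1 hg
    refine ⟨h1.abs, fun v hv => ?_, fun v => abs_nonneg _⟩
    show |g v| = 0
    rw [h2 v hv, abs_zero]
  · rintro ⟨h1, h2, h3⟩
    refine Finset.mem_image.2 ⟨ξ, (mem_Zs hZ).2 ⟨h1, h2⟩, ?_⟩
    funext v
    exact abs_of_nonneg (h3 v)

/-- sums of functions of the absolute value -/
private lemma A05_sum {D : Finset V} {p : ℤ} {Z : Finset V} (hZ : bdry D ⊆ Z)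
    [DecidableEq (V → ℤ)] (F : (V → ℤ) → ℝ) :
    ∑ g ∈ Zs D p Z, F (fun v => |g v|) =
      ∑ ξ ∈ (Zs D p Z).image (fun g v => |g v|), (mult D p ξ : ℝ) * F ξ := by
  classical
  rw [← Finset.sum_fiberwise_of_maps_to (s := Zs D p Z)
    (t := (Zs D p Z).image (fun g v => |g v|)) (g := fun g v => |g v|)
    (fun g hg => Finset.mem_image_of_mem _ hg)]
  refine Finset.sum_congr rfl fun ξ hξ => ?_
  obtain ⟨-, h2, -⟩ := (A05_mem_image hZ).1 hξ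
  have hset : ((Zs D p Z).filter (fun g => (fun v => |g v|) = ξ)) =
      ((Zs D p (bdry D)).filter (fun g => (fun v => |g v|) = ξ)) := by
    ext g
    simp only [Finset.mem_filter, mem_Zs hZ, mem_Zs (Finset.Subset.refl (bdry D))]
    constructor
    · rintro ⟨⟨h3, h4⟩, h5⟩
      exact ⟨⟨h3, fun v hv => h4 v (hZ hv)⟩, h5⟩
    · rintro ⟨⟨h3, -⟩, h5⟩
      refine ⟨⟨h3, fun v hv => ?_⟩, h5⟩
      have h6 : |g v| = ξ v := congrFun h5 v
      rw [h2 v hv] at h6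
      exact abs_eq_zero.1 h6
  have hsum : ∑ g ∈ (Zs D p Z).filter (fun g => (fun v => |g v|) = ξ), F (fun v => |g v|) =
      ∑ g ∈ (Zs D p Z).filter (fun g => (fun v => |g v|) = ξ), F ξ := by
    refine Finset.sum_congr rfl fun g hg => ?_
    rw [(Finset.mem_filter.1 hg).2]
  rw [hsum, Finset.sum_const, nsmul_eq_mul, hset]
  unfold mult
  congr!

/-
Four functions theorem on `V → ℤ` (finsets `s = S' := image |·| (Zs D p Z')`, `t = S := image |·| (Zs D p Z)`), with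
`μ = mult D p` (real valued) and `ψ` shifted by a constant `K` so that it is `≥ 0` on the values that occur
(`ψ a + K ≥ ψ a - ψ 0 ≥ 0` for `a ≥ 0`: take `K = -ψ 0`):
`f₁ a = [a ∈ S'] μ a (ψ(a x)+K)`, `f₂ b = [b ∈ S] μ b`, `f₃ c = [c ∈ S'] μ c`, `f₄ d = [d ∈ S] μ d (ψ(d x)+K)`.
For `a ∈ S'`, `b ∈ S` : `a ⊓ b` vanishes on `Z'`, `a ⊔ b` vanishes on `Z` (as `Z ⊆ Z'`), both are homs (A03), they are
`≥ 0`, so `a ⊓ b ∈ S'` and `a ⊔ b ∈ S` (a nonnegative hom is its own absolute value), and `ψ (a x) ≤ ψ ((a ⊔ b) x)`.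
Sum over `g` = sum over `ξ` of `mult ξ`: for `ξ ∈ S`, all `g ∈ Zs D p (bdry D)` with `|g| = ξ` are in `Zs D p Z`.
The shift by a constant: `avg (ψ + K) = avg ψ + K` (sets nonempty: `flat_mem_Zs`).
-/
theorem abs_fkg (D : Finset V) (p : ℤ) (Z Z' : Finset V) (hZ : bdry D ⊆ Z) (hZZ' : Z ⊆ Z')
    (hZ'D : Z' ⊆ D) (hpar : ∀ v ∈ Z', Even (par v - p)) (x : V) (ψ : ℤ → ℝ)
    (hψ : ∀ a b : ℤ, 0 ≤ a → a ≤ b → ψ a ≤ ψ b) :
    avg (Zs D p Z') (fun g => ψ |g x|) ≤ avg (Zs D p Z) (fun g => ψ |g x|) := by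
  classical
  have hZ' : bdry D ⊆ Z' := hZ.trans hZZ'
  have hne : (Zs D p Z).Nonempty :=
    ⟨_, flat_mem_Zs hZ (hZZ'.trans hZ'D) (fun v hv => hpar v (hZZ' hv))⟩
  have hne' : (Zs D p Z').Nonempty := ⟨_, flat_mem_Zs hZ' hZ'D hpar⟩
  have hN : (0 : ℝ) < ((Zs D p Z).card : ℝ) := by exact_mod_cast hne.card_pos
  have hN' : (0 : ℝ) < ((Zs D p Z').card : ℝ) := by exact_mod_cast hne'.card_pos
  obtain ⟨S, hS⟩ : ∃ S : Finset (V → ℤ), S = (Zs D p Z).image (fun g v => |g v|) := ⟨_, rfl⟩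
  obtain ⟨S', hS'⟩ : ∃ S : Finset (V → ℤ), S = (Zs D p Z').image (fun g v => |g v|) := ⟨_, rfl⟩
  have hmem : ∀ ξ, ξ ∈ S ↔ IsHom D p ξ ∧ (∀ v ∈ Z, ξ v = 0) ∧ ∀ v, 0 ≤ ξ v := by
    intro ξ
    rw [hS]
    exact A05_mem_image hZ
  have hmem' : ∀ ξ, ξ ∈ S' ↔ IsHom D p ξ ∧ (∀ v ∈ Z', ξ v = 0) ∧ ∀ v, 0 ≤ ξ v := by
    intro ξ
    rw [hS']
    exact A05_mem_image hZ'
  -- the sums
  have e1 : ∑ g ∈ Zs D p Z, (ψ |g x| - ψ 0) = ∑ ξ ∈ S, (mult D p ξ : ℝ) * (ψ (ξ x) - ψ 0) := by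
    rw [hS]
    exact A05_sum hZ (fun ξ => ψ (ξ x) - ψ 0)
  have e1' : ∑ g ∈ Zs D p Z', (ψ |g x| - ψ 0) =
      ∑ ξ ∈ S', (mult D p ξ : ℝ) * (ψ (ξ x) - ψ 0) := by
    rw [hS']
    exact A05_sum hZ' (fun ξ => ψ (ξ x) - ψ 0)
  have e2 : ((Zs D p Z).card : ℝ) = ∑ ξ ∈ S, (mult D p ξ : ℝ) := by
    have h := A05_sum (D := D) (p := p) hZ (fun _ => (1 : ℝ))
    simp only [Finset.sum_const, nsmul_eq_mul, mul_one] at h
    rw [hS]
    exact h
  have e2' : ((Zs D p Z').card : ℝ) = ∑ ξ ∈ S', (mult D p ξ : ℝ) := by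
    have h := A05_sum (D := D) (p := p) hZ' (fun _ => (1 : ℝ))
    simp only [Finset.sum_const, nsmul_eq_mul, mul_one] at h
    rw [hS']
    exact h
  -- the four functions
  have hψ0 : ∀ a : ℤ, 0 ≤ a → 0 ≤ ψ a - ψ 0 := fun a ha => sub_nonneg.2 (hψ 0 a le_rfl ha)
  obtain ⟨f₁, hf₁⟩ : ∃ f : (V → ℤ) → ℝ,
      f = fun a => if a ∈ S' then (mult D p a : ℝ) * (ψ (a x) - ψ 0) else 0 := ⟨_, rfl⟩
  obtain ⟨f₂, hf₂⟩ : ∃ f : (V → ℤ) → ℝ,
      f = fun a => if a ∈ S then (mult D p a : ℝ) else 0 := ⟨_, rfl⟩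
  obtain ⟨f₃, hf₃⟩ : ∃ f : (V → ℤ) → ℝ,
      f = fun a => if a ∈ S' then (mult D p a : ℝ) else 0 := ⟨_, rfl⟩
  obtain ⟨f₄, hf₄⟩ : ∃ f : (V → ℤ) → ℝ,
      f = fun a => if a ∈ S then (mult D p a : ℝ) * (ψ (a x) - ψ 0) else 0 := ⟨_, rfl⟩
  have p1 : 0 ≤ f₁ := by
    intro a
    rw [hf₁]
    show 0 ≤ (if a ∈ S' then (mult D p a : ℝ) * (ψ (a x) - ψ 0) else 0)
    split_ifs with h
    · exact mul_nonneg (Nat.cast_nonneg _) (hψ0 _ (((hmem' a).1 h).2.2 x))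
    · exact le_rfl
  have p2 : 0 ≤ f₂ := by
    intro a
    rw [hf₂]
    show 0 ≤ (if a ∈ S then (mult D p a : ℝ) else 0)
    split_ifs
    · exact Nat.cast_nonneg _
    · exact le_rfl
  have p3 : 0 ≤ f₃ := by
    intro a
    rw [hf₃]
    show 0 ≤ (if a ∈ S' then (mult D p a : ℝ) else 0)
    split_ifs
    · exact Nat.cast_nonneg _
    · exact le_rfl
  have p4 : 0 ≤ f₄ := by
    intro a
    rw [hf₄]
    show 0 ≤ (if a ∈ S then (mult D p a : ℝ) * (ψ (a x) - ψ 0) else 0)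
    split_ifs with h
    · exact mul_nonneg (Nat.cast_nonneg _) (hψ0 _ (((hmem a).1 h).2.2 x))
    · exact le_rfl
  have hkey : ∀ a b, f₁ a * f₂ b ≤ f₃ (a ⊓ b) * f₄ (a ⊔ b) := by
    intro a b
    by_cases ha : a ∈ S'
    · by_cases hb : b ∈ S
      · obtain ⟨a1, a2, a3⟩ := (hmem' a).1 ha
        obtain ⟨b1, b2, b3⟩ := (hmem b).1 hb
        have hinf : a ⊓ b ∈ S' := by
          refine (hmem' _).2 ⟨a1.inf b1, fun v hv => ?_, fun v => ?_⟩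
          · show min (a v) (b v) = 0
            rw [a2 v hv]
            exact min_eq_left (b3 v)
          · show 0 ≤ min (a v) (b v)
            exact le_min (a3 v) (b3 v)
        have hsup : a ⊔ b ∈ S := by
          refine (hmem _).2 ⟨a1.sup b1, fun v hv => ?_, fun v => ?_⟩
          · show max (a v) (b v) = 0
            rw [a2 v (hZZ' hv), b2 v hv, max_self]
          · show 0 ≤ max (a v) (b v)
            exact le_max_of_le_left (a3 v)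
        have h1 : f₁ a = (mult D p a : ℝ) * (ψ (a x) - ψ 0) := by rw [hf₁]; exact if_pos ha
        have h2 : f₂ b = (mult D p b : ℝ) := by rw [hf₂]; exact if_pos hb
        have h3 : f₃ (a ⊓ b) = (mult D p (a ⊓ b) : ℝ) := by rw [hf₃]; exact if_pos hinf
        have h4 : f₄ (a ⊔ b) = (mult D p (a ⊔ b) : ℝ) * (ψ ((a ⊔ b) x) - ψ 0) := by
          rw [hf₄]; exact if_pos hsup
        rw [h1, h2, h3, h4]
        have hm : (mult D p a : ℝ) * mult D p b ≤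
            (mult D p (a ⊓ b) : ℝ) * mult D p (a ⊔ b) := by
          exact_mod_cast mult_supermodular D p a b
        have hle : ψ (a x) - ψ 0 ≤ ψ ((a ⊔ b) x) - ψ 0 := by
          have h5 : a x ≤ (a ⊔ b) x := le_max_left (a x) (b x)
          have h6 := hψ (a x) ((a ⊔ b) x) (a3 x) h5
          linarith
        have h0 : 0 ≤ ψ (a x) - ψ 0 := hψ0 _ (a3 x)
        have hmm : (0 : ℝ) ≤ (mult D p (a ⊓ b) : ℝ) * mult D p (a ⊔ b) :=
          mul_nonneg (Nat.cast_nonneg _) (Nat.cast_nonneg _)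
        calc (mult D p a : ℝ) * (ψ (a x) - ψ 0) * mult D p b
            = ((mult D p a : ℝ) * mult D p b) * (ψ (a x) - ψ 0) := by ring
          _ ≤ ((mult D p (a ⊓ b) : ℝ) * mult D p (a ⊔ b)) * (ψ (a x) - ψ 0) :=
              mul_le_mul_of_nonneg_right hm h0
          _ ≤ ((mult D p (a ⊓ b) : ℝ) * mult D p (a ⊔ b)) * (ψ ((a ⊔ b) x) - ψ 0) :=
              mul_le_mul_of_nonneg_left hle hmm
          _ = (mult D p (a ⊓ b) : ℝ) * ((mult D p (a ⊔ b) : ℝ) * (ψ ((a ⊔ b) x) - ψ 0)) := by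
              ring
      · have h2 : f₂ b = 0 := by rw [hf₂]; exact if_neg hb
        rw [h2, mul_zero]
        exact mul_nonneg (p3 _) (p4 _)
    · have h1 : f₁ a = 0 := by rw [hf₁]; exact if_neg ha
      rw [h1, zero_mul]
      exact mul_nonneg (p3 _) (p4 _)
  have hfour := four_functions_theorem f₁ f₂ f₃ f₄ p1 p2 p3 p4 hkey S' S
  have s1 : ∑ a ∈ S', f₁ a = ∑ ξ ∈ S', (mult D p ξ : ℝ) * (ψ (ξ x) - ψ 0) := by
    refine Finset.sum_congr rfl fun a ha => ?_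
    rw [hf₁]
    exact if_pos ha
  have s2 : ∑ a ∈ S, f₂ a = ∑ ξ ∈ S, (mult D p ξ : ℝ) := by
    refine Finset.sum_congr rfl fun a ha => ?_
    rw [hf₂]
    exact if_pos ha
  have s3 : ∀ T : Finset (V → ℤ), ∑ a ∈ T, f₃ a ≤ ∑ ξ ∈ S', (mult D p ξ : ℝ) := by
    intro T
    rw [hf₃, ← Finset.sum_filter]
    refine Finset.sum_le_sum_of_subset_of_nonneg (fun a ha => (Finset.mem_filter.1 ha).2)
      (fun a _ _ => Nat.cast_nonneg _)
  have s4 : ∀ T : Finset (V → ℤ), ∑ a ∈ T, f₄ a ≤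
      ∑ ξ ∈ S, (mult D p ξ : ℝ) * (ψ (ξ x) - ψ 0) := by
    intro T
    rw [hf₄, ← Finset.sum_filter]
    refine Finset.sum_le_sum_of_subset_of_nonneg (fun a ha => (Finset.mem_filter.1 ha).2)
      (fun a ha _ => mul_nonneg (Nat.cast_nonneg _) (hψ0 _ (((hmem a).1 ha).2.2 x)))
  have hfin : (∑ g ∈ Zs D p Z', (ψ |g x| - ψ 0)) * ((Zs D p Z).card : ℝ) ≤
      ((Zs D p Z').card : ℝ) * ∑ g ∈ Zs D p Z, (ψ |g x| - ψ 0) := by
    rw [e1, e1', e2, e2', ← s1, ← s2]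
    refine hfour.trans ?_
    refine mul_le_mul (s3 _) (s4 _) (Finset.sum_nonneg fun a _ => p4 a)
      (Finset.sum_nonneg fun a _ => Nat.cast_nonneg _)
  have hsub : ∑ g ∈ Zs D p Z, (ψ |g x| - ψ 0) =
      (∑ g ∈ Zs D p Z, ψ |g x|) - ((Zs D p Z).card : ℝ) * ψ 0 := by
    rw [Finset.sum_sub_distrib, Finset.sum_const, nsmul_eq_mul]
  have hsub' : ∑ g ∈ Zs D p Z', (ψ |g x| - ψ 0) =
      (∑ g ∈ Zs D p Z', ψ |g x|) - ((Zs D p Z').card : ℝ) * ψ 0 := by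
    rw [Finset.sum_sub_distrib, Finset.sum_const, nsmul_eq_mul]
  unfold avg
  rw [div_le_div_iff₀ hN' hN]
  rw [hsub, hsub'] at hfin
  nlinarith [hfin]

end RP4
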