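import Pool.Agent.Helper63.RP4.A02

/-!
A06.  Restriction (domain Markov property) for zero boundary values.
-/

open Finset

namespace RP4

/-- the inner part of a function -/
def A06_in (D : Finset V) (g : V → ℤ) : V → ℤ := fun v => if v ∈ D then g v else 0

/-- the outer part of a function -/
def A06_out (D : Finset V) (g : V → ℤ) : V → ℤ := fun v => if v ∈ D then 0 else g v

lemma A06_in_mem (D : Finset V) (g : V → ℤ) {v : V} (hv : v ∈ D) : A06_in D g v = g v := if_pos hv

lemma A06_in_not (D : Finset V) (g : V → ℤ) {v : V} (hv : v ∉ D) : A06_in D g v = 0 := if_neg hv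

lemma A06_out_mem (D : Finset V) (g : V → ℤ) {v : V} (hv : v ∈ D) : A06_out D g v = 0 := if_pos hv

lemma A06_out_not (D : Finset V) (g : V → ℤ) {v : V} (hv : v ∉ D) : A06_out D g v = g v :=
  if_neg hv

lemma A06_adj {u v : V} (h : Adj u v) : Adj v u := by
  unfold Adj at h ⊢
  rw [abs_sub_comm v.1, abs_sub_comm v.2]
  exact h

lemma A06_sub1 (D D' Z0 : Finset V) : bdry D' ⊆ bdry D' ∪ bdry D ∪ Z0 := by
  intro v hv
  exact mem_union_left _ (mem_union_left _ hv)

lemma A06_sub2 (D Z0 : Finset V) : bdry D ⊆ bdry D ∪ Z0 := subset_union_left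

lemma A06_rho {D D' : Finset V} (hDD' : D ⊆ D') {p : ℤ} {Z0 : Finset V} (hZ0 : Z0 ⊆ D)
    {g : V → ℤ} (hg : g ∈ Zs D' p (bdry D' ∪ bdry D ∪ Z0)) :
    A06_in D g ∈ Zs D p (bdry D ∪ Z0) := by
  rw [mem_Zs (A06_sub1 D D' Z0)] at hg
  rw [mem_Zs (A06_sub2 D Z0)]
  obtain ⟨h, h0⟩ := hg
  refine ⟨⟨fun v hv => A06_in_not D g hv, fun v hv => ?_, fun u hu v hv ha => ?_⟩, fun v hv => ?_⟩
  · rw [A06_in_mem D g hv]
    exact h.par v (hDD' hv)
  · rw [A06_in_mem D g hu, A06_in_mem D g hv]
    exact h.step u (hDD' hu) v (hDD' hv) ha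
  · have hvD : v ∈ D := by
      rcases mem_union.1 hv with hv | hv
      · exact bdry_subset D hv
      · exact hZ0 hv
    rw [A06_in_mem D g hvD]
    apply h0
    rcases mem_union.1 hv with hv | hv
    · exact mem_union_left _ (mem_union_right _ hv)
    · exact mem_union_right _ hv

lemma A06_glue {D D' : Finset V} (hDD' : D ⊆ D') {p : ℤ} {Z0 : Finset V}
    {u g : V → ℤ} (hu : u ∈ Zs D p (bdry D ∪ Z0))
    (hg : g ∈ Zs D' p (bdry D' ∪ bdry D ∪ Z0)) :
    u + A06_out D g ∈ Zs D' p (bdry D' ∪ bdry D ∪ Z0) := by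
  rw [mem_Zs (A06_sub1 D D' Z0)] at hg ⊢
  rw [mem_Zs (A06_sub2 D Z0)] at hu
  obtain ⟨h, h0⟩ := hg
  obtain ⟨k, k0⟩ := hu
  have e1 : ∀ v ∈ D, (u + A06_out D g) v = u v := by
    intro v hv
    rw [Pi.add_apply, A06_out_mem D g hv, add_zero]
  have e2 : ∀ v, v ∉ D → (u + A06_out D g) v = g v := by
    intro v hv
    rw [Pi.add_apply, A06_out_not D g hv, k.off v hv, zero_add]
  have hb : ∀ a ∈ D, ∀ b, b ∉ D → Adj a b → u a = 0 ∧ g a = 0 := by
    intro a ha b hb hab
    have hab' : a ∈ bdry D := mem_bdry.2 ⟨ha, b, A06_adj hab, hb⟩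
    exact ⟨k0 a (mem_union_left _ hab'), h0 a (mem_union_left _ (mem_union_right _ hab'))⟩
  refine ⟨⟨fun v hv => ?_, fun v hv => ?_, fun a ha b hb' hab => ?_⟩, fun v hv => ?_⟩
  · rw [e2 v (fun h1 => hv (hDD' h1)), h.off v hv]
  · by_cases hvD : v ∈ D
    · rw [e1 v hvD]
      exact k.par v hvD
    · rw [e2 v hvD]
      exact h.par v hv
  · by_cases haD : a ∈ D
    · by_cases hbD : b ∈ D
      · rw [e1 a haD, e1 b hbD]
        exact k.step a haD b hbD hab
      · rw [e1 a haD, e2 b hbD]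
        obtain ⟨h1, h2⟩ := hb a haD b hbD hab
        rw [h1, ← h2]
        exact h.step a ha b hb' hab
    · by_cases hbD : b ∈ D
      · rw [e2 a haD, e1 b hbD]
        obtain ⟨h1, h2⟩ := hb b hbD a haD (A06_adj hab)
        rw [h1, ← h2]
        exact h.step a ha b hb' hab
      · rw [e2 a haD, e2 b hbD]
        exact h.step a ha b hb' hab
  · by_cases hvD : v ∈ D
    · rw [e1 v hvD]
      apply k0
      rcases mem_union.1 hv with hv | hv
      · rcases mem_union.1 hv with hv | hv
        · obtain ⟨-, w, hw, hw'⟩ := mem_bdry.1 hv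
          exact mem_union_left _ (mem_bdry.2 ⟨hvD, w, hw, fun h1 => hw' (hDD' h1)⟩)
        · exact mem_union_left _ hv
      · exact mem_union_right _ hv
    · rw [e2 v hvD]
      exact h0 v hv

/-
Let `Ω' = Zs D' p (bdry D' ∪ bdry D ∪ Z0)`, `Ω = Zs D p (bdry D ∪ Z0)`.
Restriction `ρ g := g` on `D`, `0` off `D`, maps `Ω'` to `Ω`:
a vertex of `bdry D'` which lies in `D` is in `bdry D`.
For `u ∈ Ω` the fibre `ρ⁻¹ u` is in bijection with `{k : V → ℤ | k is the outside part}`: for `u, u' ∈ Ω` the map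
`g ↦ (u' on D, g off D)` is a bijection from the fibre of `u` to the fibre of `u'` :
edges between `D` and `D' \ D` have their endpoint in `D` in `bdry D`, where all functions vanish.
Hence all fibres have the same cardinality and the averages agree.  (The fibre of `flat D p` contains `flat D' p`.)
-/
theorem avg_restrict (D D' : Finset V) (hDD' : D ⊆ D') (p : ℤ) (hp : BdryPar D p)
    (hp' : BdryPar D' p) (Z0 : Finset V) (hZ0 : Z0 ⊆ D) (hZ0p : ∀ v ∈ Z0, Even (par v - p))
    (x : V) (hx : x ∈ D) (φ : ℤ → ℝ) :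
    avg (Zs D' p (bdry D' ∪ bdry D ∪ Z0)) (fun g => φ (g x)) =
      avg (Zs D p (bdry D ∪ Z0)) (fun g => φ (g x)) := by
  classical
  set A := Zs D' p (bdry D' ∪ bdry D ∪ Z0) with hA
  set B := Zs D p (bdry D ∪ Z0) with hB
  have hne : A.Nonempty := by
    refine ⟨flat D' p, flat_mem_Zs (A06_sub1 D D' Z0) ?_ ?_⟩
    · intro v hv
      rcases mem_union.1 hv with hv | hv
      · rcases mem_union.1 hv with hv | hv
        · exact bdry_subset D' hv
        · exact hDD' (bdry_subset D hv)
      · exact hDD' (hZ0 hv)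
    · intro v hv
      rcases mem_union.1 hv with hv | hv
      · rcases mem_union.1 hv with hv | hv
        · exact hp' v hv
        · exact hp v hv
      · exact hZ0p v hv
  set O := A.image (A06_out D) with hO
  have hOne : O.Nonempty := hne.image _
  have key : ∀ ψ : ℤ → ℝ, ∑ g ∈ A, ψ (g x) = O.card * ∑ u ∈ B, ψ (u x) := by
    intro ψ
    have h1 : ∑ g ∈ A, ψ (g x) = ∑ q ∈ B ×ˢ O, ψ (q.1 x) := by
      refine Finset.sum_nbij' (fun g => (A06_in D g, A06_out D g)) (fun q => q.1 + q.2) ?_ ?_ ?_ ?_ ?_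
      · intro g hg
        exact mem_product.2 ⟨A06_rho hDD' hZ0 hg, mem_image_of_mem _ hg⟩
      · intro q hq
        obtain ⟨h1, h2⟩ := mem_product.1 hq
        obtain ⟨g, hg, hg'⟩ := mem_image.1 h2
        rw [← hg']
        exact A06_glue hDD' h1 hg
      · intro g hg
        funext v
        by_cases hv : v ∈ D
        · simp only [Pi.add_apply, A06_in_mem D g hv, A06_out_mem D g hv, add_zero]
        · simp only [Pi.add_apply, A06_in_not D g hv, A06_out_not D g hv, zero_add]
      · intro q hq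
        obtain ⟨h1, h2⟩ := mem_product.1 hq
        obtain ⟨g, hg, hg'⟩ := mem_image.1 h2
        have h3 := ((mem_Zs (A06_sub2 D Z0)).1 h1).1.off
        ext v
        · by_cases hv : v ∈ D
          · simp only [A06_in_mem D _ hv, Pi.add_apply, ← hg', A06_out_mem D g hv, add_zero]
          · simp only [A06_in_not D _ hv, h3 v hv]
        · by_cases hv : v ∈ D
          · simp only [A06_out_mem D _ hv, ← hg']
          · simp only [A06_out_not D _ hv, Pi.add_apply, h3 v hv, zero_add]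
      · intro g hg
        simp only [A06_in_mem D g hx]
    rw [h1, Finset.sum_product, Finset.mul_sum]
    refine Finset.sum_congr rfl fun u _ => ?_
    simp only [sum_const, nsmul_eq_mul]
  have hc := key (fun _ => 1)
  simp only [sum_const, nsmul_eq_mul, mul_one] at hc
  unfold avg
  have hOc : (O.card : ℝ) ≠ 0 := by
    exact_mod_cast hOne.card_pos.ne'
  rw [key φ, hc, mul_div_mul_left _ _ hOc]

end RP4
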