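import Pool.Agent.Helper63.RP4.A05
import Pool.Agent.Helper63.RP4.A06

/-!
A07.  Monotonicity in the domain.
-/

open Finset

namespace RP4

/-- both statements at once: `Z0` is the additional zero set -/
private lemma A07_mono (D D' : Finset V) (hDD' : D ⊆ D') (p : ℤ)
    (hp : BdryPar D p) (hp' : BdryPar D' p) (Z0 : Finset V) (hZ0 : Z0 ⊆ D)
    (hZ0p : ∀ v ∈ Z0, Even (par v - p)) (x : V) (hx : x ∈ D) (ψ : ℤ → ℝ)
    (hψ : ∀ a b : ℤ, 0 ≤ a → a ≤ b → ψ a ≤ ψ b) :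
    avg (Zs D p (bdry D ∪ Z0)) (fun g => ψ |g x|) ≤
      avg (Zs D' p (bdry D' ∪ Z0)) (fun g => ψ |g x|) := by
  have h1 := avg_restrict D D' hDD' p hp hp' Z0 hZ0 hZ0p x hx (fun a => ψ |a|)
  rw [← h1]
  refine abs_fkg D' p (bdry D' ∪ Z0) (bdry D' ∪ bdry D ∪ Z0) subset_union_left
    (union_subset_union_left subset_union_left) ?_ ?_ x ψ hψ
  · refine union_subset (union_subset (bdry_subset D') ((bdry_subset D).trans hDD'))
      (hZ0.trans hDD')
  · intro v hv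
    rcases mem_union.1 hv with hv | hv
    · rcases mem_union.1 hv with hv | hv
      · exact hp' v hv
      · exact hp v hv
    · exact hZ0p v hv

/-
`Pin D w 0 = Zs D (par w) (bdry D ∪ {w})`; A06 with `Z0 = {w}` and A05 with
`Z = bdry D' ∪ {w}`, `Z' = bdry D' ∪ bdry D ∪ {w}`.
-/
theorem pin_mono (D D' : Finset V) (hDD' : D ⊆ D') (w : V) (hw : w ∈ D)
    (hp : BdryPar D (par w)) (hp' : BdryPar D' (par w)) (x : V) (hx : x ∈ D) (ψ : ℤ → ℝ)
    (hψ : ∀ a b : ℤ, 0 ≤ a → a ≤ b → ψ a ≤ ψ b) :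
    avg (Pin D w 0) (fun g => ψ |g x|) ≤ avg (Pin D' w 0) (fun g => ψ |g x|) := by
  have h1 := A07_mono D D' hDD' (par w) hp hp' {w} (singleton_subset_iff.2 hw)
    (fun v hv => by rw [mem_singleton.1 hv, sub_self]; exact Even.zero) x hx ψ hψ
  rw [Pin_zero_eq, Pin_zero_eq, insert_eq, insert_eq, union_comm {w}, union_comm {w}]
  exact h1

/-- the same without pin -/
theorem om_mono (D D' : Finset V) (hDD' : D ⊆ D')
    (hp : BdryPar D 0) (hp' : BdryPar D' 0) (x : V) (hx : x ∈ D) (ψ : ℤ → ℝ)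
    (hψ : ∀ a b : ℤ, 0 ≤ a → a ≤ b → ψ a ≤ ψ b) :
    avg (Om D) (fun g => ψ |g x|) ≤ avg (Om D') (fun g => ψ |g x|) := by
  have h1 := A07_mono D D' hDD' 0 hp hp' ∅ (empty_subset _)
    (fun v hv => absurd hv (notMem_empty v)) x hx ψ hψ
  rw [union_empty, union_empty] at h1
  exact h1

end RP4
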