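import Pool.Agent.Helper63.RP4.A08

/-!
A08o.  Domination, odd case.
-/

open Finset

namespace RP4

lemma A08o_adj_symm {u v : V} (h : Adj u v) : Adj v u := by
  unfold Adj at h ⊢
  rw [abs_sub_comm v.1, abs_sub_comm v.2]
  exact h

lemma A08o_core_not_bdry {D : Finset V} {v : V} (h : v ∈ core D) : v ∈ D ∧ v ∉ bdry D := by
  unfold core at h
  exact mem_sdiff.1 h

lemma A08o_not_core {D : Finset V} {v : V} (h : v ∈ bdry D) : v ∉ core D := by
  intro h1
  exact (A08o_core_not_bdry h1).2 h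

lemma A08o_mem_core {D : Finset V} {v : V} (h : v ∈ D) (h' : v ∉ bdry D) : v ∈ core D := by
  unfold core
  exact mem_sdiff.2 ⟨h, h'⟩

lemma A08o_bdry_core {D : Finset V} {u v : V} (hv : v ∈ core D) (hu : u ∈ bdry D) (h : Adj u v) :
    v ∈ bdry (core D) :=
  mem_bdry.2 ⟨hv, u, h, A08o_not_core hu⟩

lemma A08o_flat {D : Finset V} {w : V} (hq : BdryPar D (par w + 1)) (hw : w ∈ core D) :
    flat (core D) (par w) ∈ Pin (core D) w 0 := by
  rw [Pin_zero_eq]
  refine flat_mem_Zs (subset_insert _ _) (insert_subset hw (bdry_subset _)) ?_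
  intro v hv
  rcases mem_insert.1 hv with rfl | hv
  · rw [sub_self]
    exact Even.zero
  · have h1 := core_bdryPar hq v hv
    rw [Int.even_iff] at h1 ⊢
    omega

open Classical in
/-- extension of a function on the core -/
noncomputable def A08o_ext (D : Finset V) (g : V → ℤ) : V → ℤ :=
  fun v => if v ∈ bdry D then 1 else g v

open Classical in
/-- restriction to the core -/
noncomputable def A08o_res (D : Finset V) (g : V → ℤ) : V → ℤ :=
  fun v => if v ∈ bdry D then 0 else g v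

lemma A08o_ext_mem {D : Finset V} {w : V} (hq : BdryPar D (par w + 1)) (hw : w ∈ core D)
    {g : V → ℤ} (hg : g ∈ Pin (core D) w 0) :
    A08o_ext D g ∈ Pin D w 1 ∧ ∀ v ∈ bdry (core D), A08o_ext D g v = 0 := by
  obtain ⟨h1, h2, h3⟩ := mem_Pin.1 hg
  refine ⟨mem_Pin.2 ⟨⟨?_, ?_, ?_⟩, ?_, ?_⟩, ?_⟩
  · intro v hv
    have h4 : v ∉ bdry D := fun h => hv (bdry_subset D h)
    have h5 : v ∉ core D := fun h => hv (A08o_core_not_bdry h).1
    unfold A08o_ext
    rw [if_neg h4]
    exact h1.off v h5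
  · intro v hv
    unfold A08o_ext
    by_cases h4 : v ∈ bdry D
    · rw [if_pos h4]
      have h5 := hq v h4
      rw [Int.even_iff] at h5 ⊢
      omega
    · rw [if_neg h4]
      exact h1.par v (A08o_mem_core hv h4)
  · intro u hu v hv huv
    unfold A08o_ext
    by_cases h4 : u ∈ bdry D
    · by_cases h5 : v ∈ bdry D
      · exfalso
        have h6 := adj_par huv
        have h7 := hq u h4
        have h8 := hq v h5
        rw [Int.even_iff] at h7 h8
        rw [Int.odd_iff] at h6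
        omega
      · rw [if_pos h4, if_neg h5, h3 v (A08o_bdry_core (A08o_mem_core hv h5) h4 huv)]
        norm_num
    · by_cases h5 : v ∈ bdry D
      · rw [if_neg h4, if_pos h5,
          h3 u (A08o_bdry_core (A08o_mem_core hu h4) h5 (A08o_adj_symm huv))]
        norm_num
      · rw [if_neg h4, if_neg h5]
        exact h1.step u (A08o_mem_core hu h4) v (A08o_mem_core hv h5) huv
  · unfold A08o_ext
    rw [if_neg (A08o_core_not_bdry hw).2]
    exact h2
  · intro v hv
    unfold A08o_ext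
    rw [if_pos hv]
  · intro v hv
    unfold A08o_ext
    rw [if_neg (A08o_core_not_bdry (bdry_subset _ hv)).2]
    exact h3 v hv

lemma A08o_res_mem {D : Finset V} {w : V} (hw : w ∈ core D)
    {g : V → ℤ} (hg : g ∈ Pin D w 1) (hg' : ∀ v ∈ bdry (core D), g v = 0) :
    A08o_res D g ∈ Pin (core D) w 0 := by
  obtain ⟨h1, h2, h3⟩ := mem_Pin.1 hg
  refine mem_Pin.2 ⟨⟨?_, ?_, ?_⟩, ?_, ?_⟩
  · intro v hv
    unfold A08o_res
    by_cases h4 : v ∈ bdry D
    · rw [if_pos h4]
    · rw [if_neg h4]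
      apply h1.off
      intro h5
      exact hv (A08o_mem_core h5 h4)
  · intro v hv
    unfold A08o_res
    rw [if_neg (A08o_core_not_bdry hv).2]
    exact h1.par v (A08o_core_not_bdry hv).1
  · intro u hu v hv huv
    unfold A08o_res
    rw [if_neg (A08o_core_not_bdry hu).2, if_neg (A08o_core_not_bdry hv).2]
    exact h1.step u (A08o_core_not_bdry hu).1 v (A08o_core_not_bdry hv).1 huv
  · unfold A08o_res
    rw [if_neg (A08o_core_not_bdry hw).2]
    exact h2
  · intro v hv
    unfold A08o_res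
    rw [if_neg (A08o_core_not_bdry (bdry_subset _ hv)).2]
    exact hg' v hv

/-
Let `D₀ = core D`, `B = {g | IsHom D (par w) g ∧ g w = 0 ∧ g = 1 on bdry D ∧ g = 0 on bdry D₀}`, `A = Pin D w c`.
`a ∈ A`, `b ∈ B`: on `bdry D₀` : `a ∈ {c-1, c+1}` (adjacent to `bdry D`), so `a ≥ 0` and `(a ⊓ b) = 0`; on `bdry D`:
`a ⊔ b = max c 1 = c`, `a ⊓ b = 1`. So `holley_avg` gives `avg B ≤ avg A`.
`B` is in bijection with `Pin D₀ w 0` : restrict to `D₀` / extend by `1` on `bdry D` (two vertices of `bdry D` are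
not adjacent: same parity; a vertex of `D₀` adjacent to a vertex of `bdry D` is in `bdry D₀`, where `g = 0`).
`Pin D₀ w 0` is nonempty (`flat`), `BdryPar D₀ (par w)` up to even numbers by `core_bdryPar`.
-/
theorem dom_odd (D : Finset V) (w : V) (c : ℤ) (hq : BdryPar D (par w + 1)) (hw : w ∈ core D)
    (hc : 1 ≤ c) (hne : (Pin D w c).Nonempty) (x : V) (hx : x ∈ core D) (φ : ℤ → ℝ)
    (hφ : Monotone φ) :
    avg (Pin (core D) w 0) (fun g => φ (g x)) ≤ avg (Pin D w c) (fun g => φ (g x)) := by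
  classical
  obtain ⟨B, hB⟩ : ∃ B : Finset (V → ℤ), ∀ g, g ∈ B ↔
      (g ∈ Pin D w 1 ∧ ∀ v ∈ bdry (core D), g v = 0) :=
    ⟨(Pin D w 1).filter (fun g => ∀ v ∈ bdry (core D), g v = 0), fun g => mem_filter⟩
  have hxb : x ∉ bdry D := (A08o_core_not_bdry hx).2
  have hext : ∀ g ∈ Pin (core D) w 0, A08o_ext D g ∈ B :=
    fun g hg => (hB _).2 (A08o_ext_mem hq hw hg)
  have hres : ∀ g ∈ B, A08o_res D g ∈ Pin (core D) w 0 :=
    fun g hg => A08o_res_mem hw ((hB g).1 hg).1 ((hB g).1 hg).2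
  have hl : ∀ g ∈ Pin (core D) w 0, A08o_res D (A08o_ext D g) = g := by
    intro g hg
    funext v
    unfold A08o_res A08o_ext
    by_cases h4 : v ∈ bdry D
    · simp only [if_pos h4]
      exact ((mem_Pin.1 hg).1.off v (A08o_not_core h4)).symm
    · simp only [if_neg h4]
  have hr : ∀ g ∈ B, A08o_ext D (A08o_res D g) = g := by
    intro g hg
    funext v
    unfold A08o_res A08o_ext
    by_cases h4 : v ∈ bdry D
    · simp only [if_pos h4]
      exact ((mem_Pin.1 ((hB g).1 hg).1).2.2 v h4).symm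
    · simp only [if_neg h4]
  have hcard : (Pin (core D) w 0).card = B.card :=
    Finset.card_nbij' (A08o_ext D) (A08o_res D) hext hres hl hr
  have hsum : ∑ g ∈ Pin (core D) w 0, φ (g x) = ∑ g ∈ B, φ (g x) := by
    refine Finset.sum_nbij' (A08o_ext D) (A08o_res D) hext hres hl hr ?_
    intro g hg
    have : A08o_ext D g x = g x := by
      unfold A08o_ext
      rw [if_neg hxb]
    rw [this]
  have havg : avg (Pin (core D) w 0) (fun g => φ (g x)) = avg B (fun g => φ (g x)) := by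
    unfold avg
    rw [hcard, hsum]
  rw [havg]
  have hBne : B.Nonempty := ⟨_, hext _ (A08o_flat hq hw)⟩
  refine holley_avg _ B hne hBne ?_ ?_ _ ?_
  · intro a ha b hb
    obtain ⟨a1, a2, a3⟩ := mem_Pin.1 ha
    obtain ⟨b1, b2, b3⟩ := mem_Pin.1 ((hB b).1 hb).1
    refine mem_Pin.2 ⟨a1.sup b1, ?_, ?_⟩
    · rw [Pi.sup_apply, a2, b2, sup_idem]
    · intro v hv
      rw [Pi.sup_apply, a3 v hv, b3 v hv]
      exact sup_eq_left.2 hc
  · intro a ha b hb
    obtain ⟨a1, a2, a3⟩ := mem_Pin.1 ha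
    obtain ⟨hb1, hb2⟩ := (hB b).1 hb
    obtain ⟨b1, b2, b3⟩ := mem_Pin.1 hb1
    refine (hB _).2 ⟨mem_Pin.2 ⟨a1.inf b1, ?_, ?_⟩, ?_⟩
    · rw [Pi.inf_apply, a2, b2, inf_idem]
    · intro v hv
      rw [Pi.inf_apply, a3 v hv, b3 v hv]
      exact inf_eq_right.2 hc
    · intro v hv
      obtain ⟨v1, v2, u, hu, huv⟩ := bdry_core hv
      rw [Pi.inf_apply, hb2 v hv]
      apply inf_eq_right.2
      have h5 := a1.step u (bdry_subset D hu) v v1 huv
      rw [a3 u hu] at h5
      have h6 := le_abs_self (c - a v)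
      omega
  · intro a ha b hb
    exact hφ (le_sup_right : b x ≤ (a ⊔ b) x)

end RP4
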