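import Pool.Agent.Helper63.RP4.A08o

/-!
A08s.  Domination, both cases.
-/

open Finset

namespace RP4

open Classical in
/-- the domain with boundary of the parity of `w` used for the pin at `w` -/
noncomputable def dstar (D : Finset V) (w : V) : Finset V := if Even (par w) then D else core D

lemma dstar_bdryPar {D : Finset V} (hq : BdryPar D 0) (w : V) : BdryPar (dstar D w) (par w) := by
  unfold dstar
  split_ifs with h
  · intro v hv
    have h1 := hq v hv
    rw [Int.even_iff] at h h1 ⊢
    omega
  · intro v hv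
    have h1 := core_bdryPar hq v hv
    rw [Int.even_iff] at h h1 ⊢
    omega

/-
Even `par w`: `dom_even`.  Odd `par w`: `BdryPar D (par w + 1)`; `c` is odd since `g b = c` for a boundary vertex `b`
(`D` is nonempty, so `bdry D` is nonempty by `exists_bdry_right`), so `1 ≤ c`; `dom_odd`.
-/
theorem dom_star (D : Finset V) (w : V) (c : ℤ) (hq : BdryPar D 0) (hw : w ∈ dstar D w)
    (hc : 0 ≤ c) (hne : (Pin D w c).Nonempty) (x : V) (hx : x ∈ dstar D w) (φ : ℤ → ℝ)
    (hφ : Monotone φ) :
    avg (Pin (dstar D w) w 0) (fun g => φ (g x)) ≤ avg (Pin D w c) (fun g => φ (g x)) := by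
  have hpar := dstar_bdryPar hq w
  unfold dstar at hw hx hpar ⊢
  split_ifs at hw hx hpar ⊢ with h
  · exact dom_even D w c hpar hw hc hne x φ hφ
  · refine dom_odd D w c ?_ hw ?_ hne x hx φ hφ
    · intro v hv
      have h1 := hq v hv
      rw [Int.even_iff] at h h1 ⊢
      omega
    · obtain ⟨g, hg⟩ := hne
      obtain ⟨h1, -, h3⟩ := mem_Pin.1 hg
      have hwD : w ∈ D := (A08o_core_not_bdry hw).1
      obtain ⟨b, hb, -⟩ := exists_bdry_right D hwD
      have h4 := h1.par b (bdry_subset D hb)
      have h5 := hq b hb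
      rw [h3 b hb] at h4
      rw [Int.even_iff] at h h4 h5
      omega

end RP4
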