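import Pool.Agent.Helper63.RP4.A03s
import Pool.Agent.Helper63.RP4.A03h

/-!
A12.  Log-concavity of the law of `h w`, and its consequences.
-/

open Finset
open scoped FinsetFamily

namespace RP4

open Classical in
/-- number of height functions with value `i` at `w` -/
noncomputable def cnt (D : Finset V) (w : V) (i : ℤ) : ℕ := ((Om D).filter (fun h => h w = i)).card

open Classical in
/-- adding `s` on `D` -/
noncomputable def A12_shift (D : Finset V) (s : ℤ) (h : V → ℤ) : V → ℤ :=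
  fun v => if v ∈ D then h v + s else 0

lemma A12_shift_in {D : Finset V} {s : ℤ} {h : V → ℤ} {v : V} (hv : v ∈ D) :
    A12_shift D s h v = h v + s := by
  simp [A12_shift, hv]

lemma A12_shift_off {D : Finset V} {s : ℤ} {h : V → ℤ} {v : V} (hv : v ∉ D) :
    A12_shift D s h v = 0 := by
  simp [A12_shift, hv]

lemma A12_shift_hom {D : Finset V} {s : ℤ} (hs : Even s) {h : V → ℤ} (hh : IsHom D 0 h) :
    IsHom D 0 (A12_shift D s h) where
  off := fun v hv => A12_shift_off hv
  par := fun v hv => by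
    rw [A12_shift_in hv]
    obtain ⟨k, hk⟩ := hh.par v hv
    obtain ⟨m, hm⟩ := hs
    exact ⟨k + m, by omega⟩
  step := fun u hu v hv huv => by
    rw [A12_shift_in hu, A12_shift_in hv]
    have := hh.step u hu v hv huv
    rw [← this]
    congr 1
    ring

lemma A12_shift_inj {D : Finset V} {s : ℤ} {g h : V → ℤ} (hg : IsHom D 0 g) (hh : IsHom D 0 h)
    (e : A12_shift D s g = A12_shift D s h) : g = h := by
  funext v
  by_cases hv : v ∈ D
  · have := congrFun e v
    rw [A12_shift_in hv, A12_shift_in hv] at this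
    omega
  · rw [hg.off v hv, hh.off v hv]

/-
`A = {h ∈ Om D | h w = a}`, `B = {h + s (on D) | h ∈ Om D, h w = b}` (boundary value `s ≥ 0`, value `b + s` at `w`).
`Finset.le_card_infs_mul_card_sups : #A * #B ≤ #(A ⊼ B) * #(A ⊻ B)`; `A ⊼ B` has boundary value `min 0 s = 0` and value
`min a (b+s) = b + s` at `w`; `A ⊻ B` has boundary value `s`, value `a` at `w`: subtracting `s` on `D` gives `h w = a - s`.
-/
theorem cnt_exch (D : Finset V) (w : V) (hw : w ∈ D) (a b s : ℤ) (hs : 0 ≤ s) (hse : Even s)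
    (hab : b + s ≤ a) : cnt D w a * cnt D w b ≤ cnt D w (b + s) * cnt D w (a - s) := by
  classical
  set A := (Om D).filter (fun h => h w = a) with hA
  set B0 := (Om D).filter (fun h => h w = b) with hB0
  set B := B0.image (A12_shift D s) with hB
  have hcB : B.card = B0.card := by
    refine Finset.card_image_of_injOn ?_
    intro g hg h hh e
    have hg' := (mem_Om.1 (Finset.mem_filter.1 (Finset.mem_coe.1 hg)).1).1
    have hh' := (mem_Om.1 (Finset.mem_filter.1 (Finset.mem_coe.1 hh)).1).1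
    exact A12_shift_inj hg' hh' e
  have key := Finset.le_card_infs_mul_card_sups A B
  have h1 : (Finset.card (A ⊼ B)) ≤ cnt D w (b + s) := by
    unfold cnt
    refine Finset.card_le_card ?_
    intro f hf
    obtain ⟨g, hg, g', hg', rfl⟩ := Finset.mem_infs.1 hf
    obtain ⟨h, hh, rfl⟩ := Finset.mem_image.1 hg'
    obtain ⟨hg1, hg2⟩ := Finset.mem_filter.1 hg
    obtain ⟨hh1, hh2⟩ := Finset.mem_filter.1 hh
    obtain ⟨hg3, hg4⟩ := mem_Om.1 hg1
    obtain ⟨hh3, hh4⟩ := mem_Om.1 hh1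
    refine Finset.mem_filter.2 ⟨mem_Om.2 ⟨hg3.inf (A12_shift_hom hse hh3), ?_⟩, ?_⟩
    · intro v hv
      rw [Pi.inf_apply, A12_shift_in (bdry_subset D hv), hg4 v hv, hh4 v hv]
      simpa using hs
    · rw [Pi.inf_apply, A12_shift_in hw, hg2, hh2]
      exact min_eq_right hab
  have h2 : (Finset.card (A ⊻ B)) ≤ cnt D w (a - s) := by
    have hinj : Set.InjOn (A12_shift D (-s)) (↑(A ⊻ B) : Set (V → ℤ)) := by
      intro f hf f' hf' e
      obtain ⟨g, hg, g', hg', rfl⟩ := Finset.mem_sups.1 (Finset.mem_coe.1 hf)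
      obtain ⟨h, hh, rfl⟩ := Finset.mem_image.1 hg'
      obtain ⟨k, hk, k', hk', rfl⟩ := Finset.mem_sups.1 (Finset.mem_coe.1 hf')
      obtain ⟨l, hl, rfl⟩ := Finset.mem_image.1 hk'
      have e1 := (mem_Om.1 (Finset.mem_filter.1 hg).1).1
      have e2 := (mem_Om.1 (Finset.mem_filter.1 hh).1).1
      have e3 := (mem_Om.1 (Finset.mem_filter.1 hk).1).1
      have e4 := (mem_Om.1 (Finset.mem_filter.1 hl).1).1
      exact A12_shift_inj (e1.sup (A12_shift_hom hse e2)) (e3.sup (A12_shift_hom hse e4)) e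
    unfold cnt
    rw [← Finset.card_image_of_injOn hinj]
    refine Finset.card_le_card ?_
    intro f hf
    obtain ⟨f', hf', rfl⟩ := Finset.mem_image.1 hf
    obtain ⟨g, hg, g', hg', rfl⟩ := Finset.mem_sups.1 hf'
    obtain ⟨h, hh, rfl⟩ := Finset.mem_image.1 hg'
    obtain ⟨hg1, hg2⟩ := Finset.mem_filter.1 hg
    obtain ⟨hh1, hh2⟩ := Finset.mem_filter.1 hh
    obtain ⟨hg3, hg4⟩ := mem_Om.1 hg1
    obtain ⟨hh3, hh4⟩ := mem_Om.1 hh1
    refine Finset.mem_filter.2 ⟨mem_Om.2
      ⟨A12_shift_hom hse.neg (hg3.sup (A12_shift_hom hse hh3)), ?_⟩, ?_⟩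
    · intro v hv
      have hvD := bdry_subset D hv
      rw [A12_shift_in hvD, Pi.sup_apply, A12_shift_in hvD, hg4 v hv, hh4 v hv]
      rw [zero_add, max_eq_right hs]
      ring
    · rw [A12_shift_in hw, Pi.sup_apply, A12_shift_in hw, hg2, hh2, max_eq_left hab]
      ring
  have h3 : cnt D w a = A.card := by
    unfold cnt
    rfl
  have h4 : cnt D w b = B.card := by
    rw [hcB]
    unfold cnt
    rfl
  rw [h3, h4]
  exact key.trans (Nat.mul_le_mul h1 h2)

theorem cnt_neg (D : Finset V) (w : V) (i : ℤ) : cnt D w (-i) = cnt D w i := by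
  classical
  unfold cnt
  refine Finset.card_bij' (fun h _ => -h) (fun h _ => -h) ?_ ?_ ?_ ?_
  · intro h hh
    obtain ⟨h1, h2⟩ := Finset.mem_filter.1 hh
    refine Finset.mem_filter.2 ⟨neg_mem_Zs (Finset.Subset.refl _) h1, ?_⟩
    rw [Pi.neg_apply, h2, neg_neg]
  · intro h hh
    obtain ⟨h1, h2⟩ := Finset.mem_filter.1 hh
    refine Finset.mem_filter.2 ⟨neg_mem_Zs (Finset.Subset.refl _) h1, ?_⟩
    rw [Pi.neg_apply, h2]
  · intro h _
    exact neg_neg h
  · intro h _
    exact neg_neg h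

/-
For `a ≥ 1`: `cnt_exch` with `b = -a`, `s = 2`: `cnt(a)^2 ≤ cnt(2 - a) cnt(a - 2) = cnt(a-2)^2`, so `cnt a ≤ cnt (a-2)`;
induction down to `0` for even `a ≥ 0` (for odd `i` the count is `0` since `h w ≡ par w`), negative `i` by `cnt_neg`.
-/
theorem cnt_le (D : Finset V) (w : V) (hw : w ∈ D) (he : Even (par w)) (i : ℤ) :
    cnt D w i ≤ cnt D w 0 := by
  classical
  have hstep : ∀ a : ℤ, 1 ≤ a → cnt D w a ≤ cnt D w (a - 2) := by
    intro a ha
    have h := cnt_exch D w hw a (-a) 2 (by norm_num) (by decide) (by omega)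
    rw [cnt_neg, show -a + 2 = -(a - 2) by ring, cnt_neg] at h
    exact Nat.mul_self_le_mul_self_iff.1 h
  have hev : ∀ j : ℕ, cnt D w (2 * (j : ℤ)) ≤ cnt D w 0 := by
    intro j
    induction j with
    | zero => simp
    | succ j ih =>
      have h := hstep (2 * ((j + 1 : ℕ) : ℤ)) (by push_cast; omega)
      rw [show 2 * ((j + 1 : ℕ) : ℤ) - 2 = 2 * (j : ℤ) by push_cast; ring] at h
      exact h.trans ih
  have hodd : ∀ i : ℤ, ¬ Even i → cnt D w i = 0 := by
    intro i hi
    unfold cnt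
    rw [Finset.card_eq_zero, Finset.filter_eq_empty_iff]
    intro h hh e
    have h1 := (mem_Om.1 hh).1.par w hw
    rw [e] at h1
    apply hi
    obtain ⟨k, hk⟩ := h1
    obtain ⟨m, hm⟩ := he
    exact ⟨k + m, by omega⟩
  have hnn : ∀ i : ℤ, 0 ≤ i → cnt D w i ≤ cnt D w 0 := by
    intro i hi
    by_cases hie : Even i
    · obtain ⟨k, hk⟩ := hie
      have h2 : i = 2 * ((k.toNat : ℕ) : ℤ) := by omega
      rw [h2]
      exact hev _
    · rw [hodd i hie]
      exact Nat.zero_le _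
  rcases le_total 0 i with h | h
  · exact hnn i h
  · rw [← cnt_neg]
    exact hnn (-i) (by omega)

end RP4
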