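import Pool.Agent.Helper63.RP4.A12

/-!
A12t.  Tail bound for the one point law.
-/

open Finset

namespace RP4

private theorem A12t_step (D : Finset V) (w : V) (hw : w ∈ D) (a : ℤ) (ha : 1 ≤ a) :
    cnt D w a ≤ cnt D w (a - 2) := by
  have h := cnt_exch D w hw a (-a) 2 (by norm_num) (by decide) (by omega)
  have e1 : cnt D w (-a) = cnt D w a := cnt_neg D w a
  have e2 : cnt D w (-a + 2) = cnt D w (a - 2) := by
    rw [← cnt_neg D w (a - 2)]
    congr 1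
    ring
  rw [e1, e2] at h
  exact Nat.mul_self_le_mul_self_iff.1 h

private theorem A12t_mono (D : Finset V) (w : V) (hw : w ∈ D) (j k : ℕ) :
    cnt D w (2 * ((j + k : ℕ) : ℤ)) ≤ cnt D w (2 * (j : ℤ)) := by
  induction k with
  | zero => simp
  | succ k ih =>
    refine le_trans ?_ ih
    have h := A12t_step D w hw (2 * ((j + (k + 1) : ℕ) : ℤ)) (by push_cast; omega)
    refine h.trans (le_of_eq ?_)
    congr 1
    push_cast
    ring

open Classical in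
private theorem A12t_sum (D : Finset V) (w : V) (m : ℕ) :
    ∑ j ∈ range (m + 1), cnt D w (2 * (j : ℤ)) ≤ (Om D).card := by
  unfold cnt
  rw [← Finset.card_biUnion]
  · exact Finset.card_le_card (Finset.biUnion_subset.2 fun j _ => Finset.filter_subset _ _)
  · intro i _ j _ hij
    rw [Function.onFun, Finset.disjoint_left]
    intro h h1 h2
    rw [Finset.mem_filter] at h1 h2
    apply hij
    have := h1.2.symm.trans h2.2
    have h3 : (i : ℤ) = j := by omega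
    exact_mod_cast h3

private theorem A12t_top (D : Finset V) (w : V) (hw : w ∈ D) (m : ℕ) :
    (m + 1) * cnt D w (2 * (m : ℤ)) ≤ (Om D).card := by
  refine le_trans ?_ (A12t_sum D w m)
  have h : ∀ j ∈ range (m + 1), cnt D w (2 * (m : ℤ)) ≤ cnt D w (2 * (j : ℤ)) := by
    intro j hj
    have hjm : j ≤ m := by
      rw [Finset.mem_range] at hj
      omega
    obtain ⟨k, rfl⟩ := Nat.exists_eq_add_of_le hjm
    exact A12t_mono D w hw j k
  calc (m + 1) * cnt D w (2 * (m : ℤ)) = ∑ _j ∈ range (m + 1), cnt D w (2 * (m : ℤ)) := by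
        rw [Finset.sum_const, Finset.card_range, smul_eq_mul]
    _ ≤ _ := Finset.sum_le_sum h

private theorem A12t_half (D : Finset V) (w : V) (hw : w ∈ D) (m : ℕ)
    (h0 : 0 < cnt D w 0) (hm : 2 * cnt D w (2 * (m : ℤ)) ≤ cnt D w 0) (i : ℤ) (hi : 0 ≤ i) :
    2 * cnt D w (i + 2 * (m : ℤ)) ≤ cnt D w i := by
  have h := cnt_exch D w hw (i + 2 * (m : ℤ)) 0 (2 * (m : ℤ)) (by positivity) ⟨m, by ring⟩
    (by omega)
  have e1 : (0 : ℤ) + 2 * (m : ℤ) = 2 * m := by ring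
  have e2 : i + 2 * (m : ℤ) - 2 * (m : ℤ) = i := by ring
  rw [e1, e2] at h
  refine le_of_mul_le_mul_right ?_ h0
  calc 2 * cnt D w (i + 2 * (m : ℤ)) * cnt D w 0
      = 2 * (cnt D w (i + 2 * (m : ℤ)) * cnt D w 0) := by ring
    _ ≤ 2 * (cnt D w (2 * (m : ℤ)) * cnt D w i) := Nat.mul_le_mul_left _ h
    _ = (2 * cnt D w (2 * (m : ℤ))) * cnt D w i := by ring
    _ ≤ cnt D w 0 * cnt D w i := Nat.mul_le_mul_right _ hm
    _ = cnt D w i * cnt D w 0 := by ring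

open Classical in
private theorem A12t_fiber (D : Finset V) (w : V) (K M : ℤ) (hM : ∀ h ∈ Om D, h w ≤ M) :
    ((Om D).filter (fun h => K ≤ h w)).card = ∑ i ∈ Finset.Icc K M, cnt D w i := by
  rw [Finset.card_eq_sum_card_fiberwise (f := fun h : V → ℤ => h w) (t := Finset.Icc K M)]
  · refine Finset.sum_congr rfl fun i hi => ?_
    unfold cnt
    congr 1
    ext h
    simp only [Finset.mem_filter, Finset.mem_Icc] at hi ⊢
    constructor
    · rintro ⟨⟨h1, _⟩, h2⟩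
      exact ⟨h1, h2⟩
    · rintro ⟨h1, h2⟩
      exact ⟨⟨h1, by omega⟩, h2⟩
  · intro h hh
    simp only [Finset.coe_filter, Set.mem_ofPred_eq, Finset.coe_Icc, Set.mem_Icc] at hh ⊢
    exact ⟨hh.2, hM h hh.1⟩

open Classical in
private theorem A12t_tail (D : Finset V) (w : V) (hw : w ∈ D) (m : ℕ)
    (h0 : 0 < cnt D w 0) (hm : 2 * cnt D w (2 * (m : ℤ)) ≤ cnt D w 0) (q : ℕ) :
    2 ^ q * ((Om D).filter (fun h => 2 * (m : ℤ) * q ≤ h w)).card ≤ (Om D).card := by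
  obtain ⟨M, hM⟩ : ∃ M : ℤ, ∀ h ∈ Om D, h w ≤ M := by
    refine ⟨∑ h ∈ Om D, |h w|, fun h hh => ?_⟩
    exact (le_abs_self _).trans (Finset.single_le_sum (f := fun h : V → ℤ => |h w|)
      (fun _ _ => abs_nonneg _) hh)
  induction q with
  | zero =>
    rw [pow_zero, one_mul]
    exact Finset.card_le_card (Finset.filter_subset _ _)
  | succ q ih =>
    refine le_trans ?_ ih
    have h1 : 2 * ((Om D).filter (fun h => 2 * (m : ℤ) * ((q + 1 : ℕ) : ℤ) ≤ h w)).card ≤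
        ((Om D).filter (fun h => 2 * (m : ℤ) * q ≤ h w)).card := by
      rw [A12t_fiber D w _ (M + 2 * m) (fun h hh => (hM h hh).trans (by omega)),
        A12t_fiber D w _ M hM]
      have h2 : Finset.Icc (2 * (m : ℤ) * ((q + 1 : ℕ) : ℤ)) (M + 2 * m) =
          (Finset.Icc (2 * (m : ℤ) * q) M).map (addRightEmbedding (2 * (m : ℤ))) := by
        rw [Finset.map_add_right_Icc, Nat.cast_add, Nat.cast_one, mul_add, mul_one]
      rw [h2, Finset.sum_map, Finset.mul_sum]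
      refine Finset.sum_le_sum fun i hi => ?_
      rw [Finset.mem_Icc] at hi
      exact A12t_half D w hw m h0 hm i (le_trans (by positivity) hi.1)
    calc 2 ^ (q + 1) * ((Om D).filter (fun h => 2 * (m : ℤ) * ((q + 1 : ℕ) : ℤ) ≤ h w)).card
        = 2 ^ q * (2 * ((Om D).filter (fun h => 2 * (m : ℤ) * ((q + 1 : ℕ) : ℤ) ≤ h w)).card) := by
          ring
      _ ≤ _ := Nat.mul_le_mul_left _ h1

private theorem A12t_geom (Q : ℕ) :
    ∑ q ∈ range Q, ((q : ℝ) + 1) ^ 2 / 2 ^ q = 12 - (2 * (Q : ℝ) ^ 2 + 8 * Q + 12) / 2 ^ Q := by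
  induction Q with
  | zero => norm_num
  | succ Q ih =>
    rw [Finset.sum_range_succ, ih]
    push_cast
    have h : (2 : ℝ) ^ Q ≠ 0 := by positivity
    rw [pow_succ]
    field_simp
    ring

open Classical in
private theorem A12t_neg (D : Finset V) (w : V) (K : ℤ) :
    ((Om D).filter (fun h => K ≤ -h w)).card = ((Om D).filter (fun h => K ≤ h w)).card := by
  obtain ⟨M, hM⟩ : ∃ M : ℤ, ∀ h ∈ Om D, |h w| ≤ M := by
    refine ⟨∑ h ∈ Om D, |h w|, fun h hh => ?_⟩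
    exact Finset.single_le_sum (f := fun h : V → ℤ => |h w|) (fun _ _ => abs_nonneg _) hh
  rw [A12t_fiber D w K M (fun h hh => (le_abs_self _).trans (hM h hh)),
    Finset.card_eq_sum_card_fiberwise (f := fun h : V → ℤ => -h w) (t := Finset.Icc K M)]
  · refine Finset.sum_congr rfl fun i hi => ?_
    rw [← cnt_neg D w i]
    unfold cnt
    congr 1
    ext h
    simp only [Finset.mem_filter, Finset.mem_Icc] at hi ⊢
    constructor
    · rintro ⟨⟨h1, _⟩, h2⟩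
      exact ⟨h1, by omega⟩
    · rintro ⟨h1, h2⟩
      exact ⟨⟨h1, by omega⟩, by omega⟩
  · intro h hh
    simp only [Finset.coe_filter, Set.mem_ofPred_eq, Finset.coe_Icc, Set.mem_Icc] at hh ⊢
    exact ⟨hh.2, (neg_le_abs _).trans (hM h hh.1)⟩

private theorem A12t_pt (m : ℕ) (hm : 1 ≤ m) (x : ℤ) (Q : ℕ) (hQ : x.natAbs < Q) :
    (x : ℝ) ^ 2 ≤ ∑ q ∈ range Q, (2 * (m : ℝ) * (q + 1)) ^ 2 *
      ((if 2 * (m : ℤ) * q ≤ x then 1 else 0) + (if 2 * (m : ℤ) * q ≤ -x then 1 else 0)) := by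
  have hnn : ∀ q ∈ range Q, 0 ≤ (2 * (m : ℝ) * (q + 1)) ^ 2 *
      ((if 2 * (m : ℤ) * q ≤ x then 1 else 0) + (if 2 * (m : ℤ) * q ≤ -x then 1 else 0)) := by
    intro q _
    refine mul_nonneg (by positivity) (add_nonneg ?_ ?_) <;> split_ifs <;> norm_num
  obtain ⟨q, hq1, hq2⟩ : ∃ q : ℕ, 2 * m * q ≤ x.natAbs ∧ x.natAbs < 2 * m * (q + 1) :=
    ⟨x.natAbs / (2 * m), Nat.mul_div_le _ _, Nat.lt_mul_div_succ _ (by omega)⟩
  have hqQ : q ∈ range Q := by
    rw [Finset.mem_range]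
    have : q ≤ 2 * m * q := Nat.le_mul_of_pos_left _ (by omega)
    omega
  refine le_trans ?_ (Finset.single_le_sum hnn hqQ)
  have h1 : (x : ℝ) ^ 2 ≤ (2 * (m : ℝ) * (q + 1)) ^ 2 := by
    rw [sq_le_sq]
    have h2 : ((x.natAbs : ℕ) : ℝ) ≤ ((2 * m * (q + 1) : ℕ) : ℝ) := by exact_mod_cast hq2.le
    have h3 : |(x : ℝ)| = ((x.natAbs : ℕ) : ℝ) := by
      rw [Nat.cast_natAbs, Int.cast_abs]
    rw [h3]
    refine h2.trans (le_of_eq_of_le ?_ (le_abs_self _))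
    push_cast
    ring
  refine h1.trans (le_mul_of_one_le_right (by positivity) ?_)
  rcases le_total 0 x with hx | hx
  · have h4 : 2 * (m : ℤ) * q ≤ x := by
      have h5 : ((2 * m * q : ℕ) : ℤ) ≤ (x.natAbs : ℤ) := by exact_mod_cast hq1
      push_cast at h5
      rwa [abs_of_nonneg hx] at h5
    rw [if_pos h4]
    split_ifs <;> norm_num
  · have h4 : 2 * (m : ℤ) * q ≤ -x := by
      have h5 : ((2 * m * q : ℕ) : ℤ) ≤ (x.natAbs : ℤ) := by exact_mod_cast hq1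
      push_cast at h5
      rwa [abs_of_nonpos hx] at h5
    rw [if_pos h4]
    split_ifs <;> norm_num

/-
Tail bound.  Let `a j := cnt D w (2 j)`, `N = (Om D).card = Σ_{i} cnt i`, `a 0 ≥ p N`.
`a` is nonincreasing on `j ≥ 0`.  Let `m := ⌈2/p⌉ + 1`: if `a m > a 0 / 2` then `N ≥ Σ_{j ≤ m} a j > (m+1) a 0/2 ≥ a 0 / p ≥ N`, contradiction.
So `a m ≤ a 0/2` and by `cnt_exch` (`a = 2(j+m)`, `b = 0`, `s = 2m`) `a (j+m) a 0 ≤ a m a j`, i.e. `a (j+m) ≤ a j / 2`.
Hence `a (q m + r) ≤ 2^{-q} a 0` and `E (h w)^2 = (2/N) Σ_{j ≥ 1} 4 j^2 a j ≤ 8 Σ_q m ((q+1) m)^2 2^{-q} ≤ 8 * m^3 * 12 = 96 m^3`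
(any explicit constant is fine: `C` depends only on `p`).
-/
theorem tail_bound_ht (p : ℝ) (hp : 0 < p) : ∃ C : ℝ, ∀ (D : Finset V) (w : V), w ∈ D →
    Even (par w) → BdryPar D 0 → p * (Om D).card ≤ cnt D w 0 →
    avg (Om D) (fun h => (h w : ℝ) ^ 2) ≤ C := by
  classical
  set m : ℕ := ⌈2 / p⌉₊ with hm
  have hm1 : 1 ≤ m := Nat.one_le_iff_ne_zero.2 (Nat.ceil_pos.2 (by positivity)).ne'
  have hmp : 2 ≤ p * (m + 1) := by
    have h1 : 2 / p ≤ m := Nat.le_ceil _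
    rw [div_le_iff₀ hp] at h1
    nlinarith
  refine ⟨96 * (m : ℝ) ^ 2, fun D w hw _ _ hc => ?_⟩
  rcases Nat.eq_zero_or_pos (Om D).card with h0 | h0
  · unfold avg
    rw [h0, Nat.cast_zero, div_zero]
    positivity
  have hN : (0 : ℝ) < (Om D).card := by exact_mod_cast h0
  have hc0 : 0 < cnt D w 0 := by
    have : (0 : ℝ) < cnt D w 0 := lt_of_lt_of_le (by positivity) hc
    exact_mod_cast this
  have hhalf : 2 * cnt D w (2 * (m : ℤ)) ≤ cnt D w 0 := by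
    have h1 := A12t_top D w hw m
    have h2 : ((m : ℝ) + 1) * cnt D w (2 * (m : ℤ)) ≤ (Om D).card := by exact_mod_cast h1
    have h3 : (2 : ℝ) * cnt D w (2 * (m : ℤ)) ≤ cnt D w 0 := by
      refine le_trans ?_ hc
      have h4 : (0 : ℝ) ≤ cnt D w (2 * (m : ℤ)) := Nat.cast_nonneg _
      nlinarith [mul_le_mul_of_nonneg_left h2 hp.le, mul_le_mul_of_nonneg_right hmp h4]
    exact_mod_cast h3
  obtain ⟨Q, hQ⟩ : ∃ Q : ℕ, ∀ h ∈ Om D, (h w).natAbs < Q := by
    refine ⟨(∑ h ∈ Om D, (h w).natAbs) + 1, fun h hh => Nat.lt_succ_of_le ?_⟩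
    exact Finset.single_le_sum (f := fun h : V → ℤ => (h w).natAbs) (fun _ _ => Nat.zero_le _) hh
  have hT : ∀ q : ℕ, (((Om D).filter (fun h => 2 * (m : ℤ) * q ≤ h w)).card : ℝ) ≤
      (Om D).card / 2 ^ q := by
    intro q
    rw [le_div_iff₀ (by positivity), mul_comm]
    exact_mod_cast A12t_tail D w hw m hc0 hhalf q
  unfold avg
  rw [div_le_iff₀ hN]
  calc ∑ h ∈ Om D, (h w : ℝ) ^ 2
      ≤ ∑ h ∈ Om D, ∑ q ∈ range Q, (2 * (m : ℝ) * (q + 1)) ^ 2 *
          ((if 2 * (m : ℤ) * q ≤ h w then 1 else 0) + (if 2 * (m : ℤ) * q ≤ -h w then 1 else 0)) :=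
        Finset.sum_le_sum fun h hh => A12t_pt m hm1 (h w) Q (hQ h hh)
    _ = ∑ q ∈ range Q, (2 * (m : ℝ) * (q + 1)) ^ 2 *
          ((((Om D).filter (fun h => 2 * (m : ℤ) * q ≤ h w)).card : ℝ) +
            ((Om D).filter (fun h => 2 * (m : ℤ) * q ≤ -h w)).card) := by
        rw [Finset.sum_comm]
        refine Finset.sum_congr rfl fun q _ => ?_
        rw [← Finset.mul_sum, Finset.sum_add_distrib, Finset.sum_boole, Finset.sum_boole]
    _ ≤ ∑ q ∈ range Q, (8 * (m : ℝ) ^ 2 * (Om D).card) * (((q : ℝ) + 1) ^ 2 / 2 ^ q) := by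
        refine Finset.sum_le_sum fun q _ => ?_
        rw [A12t_neg]
        have h1 := hT q
        have h2 : (0 : ℝ) ≤ (2 * (m : ℝ) * (q + 1)) ^ 2 := by positivity
        calc (2 * (m : ℝ) * (q + 1)) ^ 2 *
              ((((Om D).filter (fun h => 2 * (m : ℤ) * q ≤ h w)).card : ℝ) +
                ((Om D).filter (fun h => 2 * (m : ℤ) * q ≤ h w)).card)
            ≤ (2 * (m : ℝ) * (q + 1)) ^ 2 *
                ((Om D).card / 2 ^ q + (Om D).card / 2 ^ q) := by gcongr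
          _ = _ := by ring
    _ ≤ (8 * (m : ℝ) ^ 2 * (Om D).card) * 12 := by
        rw [← Finset.mul_sum, A12t_geom]
        have h3 : (0 : ℝ) ≤ (2 * (Q : ℝ) ^ 2 + 8 * Q + 12) / 2 ^ Q := by positivity
        have h4 : (0 : ℝ) ≤ 8 * (m : ℝ) ^ 2 * (Om D).card := by positivity
        nlinarith
    _ = 96 * (m : ℝ) ^ 2 * (Om D).card := by ring

end RP4
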