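import Pool.Agent.Helper63.RP4.Conc

/-!
C1.  Harnack inequalities and the infrared bound.
-/

open Real Set Filter Topology MeasureTheory

namespace RP4

variable {S : ℝ → ℝ → ℝ}

/-- from the concavity inequality to the product form -/
private lemma harnack_aux {s s' t r : ℝ} (hs : 0 < s) (hs' : 0 < s') (ht : 0 < t) (hr : 0 ≤ r)
    (h : (1 - r) / s' + r / t ≤ 1 / s) : (1 - r) * s ≤ s' := by
  have h1 : (1 - r) / s' ≤ 1 / s := by
    have h2 : 0 ≤ r / t := div_nonneg hr ht.le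
    linarith
  rw [div_le_div_iff₀ hs' hs] at h1
  linarith

/-- upward step for a positive function on the circle which satisfies the concavity inequality -/
private lemma harnack_aux_up {g : ℝ → ℝ} (hg : ∀ a, 0 < g a)
    (hax : ∀ a a' a'' r : ℝ, 0 ≤ r → r ≤ 1 → cos a = (1 - r) * cos a' + r * cos a'' →
      (1 - r) / g a' + r / g a'' ≤ 1 / g a) {a a' : ℝ} (hc : cos a' ≤ cos a) :
    (1 - cos a) * g a ≤ (1 - cos a') * g a' := by
  rcases eq_or_lt_of_le (Real.cos_le_one a') with h1 | h1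
  · have h2 : cos a = 1 := le_antisymm (Real.cos_le_one a) (h1 ▸ hc)
    rw [h1, h2, sub_self, zero_mul, zero_mul]
  · have h3 : 0 < 1 - cos a' := by linarith
    have h4 : 1 - (cos a - cos a') / (1 - cos a') = (1 - cos a) / (1 - cos a') := by
      field_simp
      ring
    have h5 := hax a a' 0 ((cos a - cos a') / (1 - cos a'))
      (div_nonneg (by linarith) h3.le)
      ((div_le_one h3).2 (by linarith [Real.cos_le_one a]))
      (by
        rw [Real.cos_zero]
        field_simp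
        ring)
    have h6 := harnack_aux (hg a) (hg a') (hg 0) (div_nonneg (by linarith) h3.le) h5
    rw [h4, div_mul_eq_mul_div, div_le_iff₀ h3] at h6
    linarith

/-- downward step -/
private lemma harnack_aux_down {g : ℝ → ℝ} (hg : ∀ a, 0 < g a)
    (hax : ∀ a a' a'' r : ℝ, 0 ≤ r → r ≤ 1 → cos a = (1 - r) * cos a' + r * cos a'' →
      (1 - r) / g a' + r / g a'' ≤ 1 / g a) {a a' : ℝ} (hc : cos a ≤ cos a') :
    (1 + cos a) * g a ≤ (1 + cos a') * g a' := by
  rcases eq_or_lt_of_le (Real.neg_one_le_cos a') with h1 | h1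
  · have h2 : cos a = -1 := le_antisymm (by rw [h1]; exact hc) (Real.neg_one_le_cos a)
    rw [← h1, h2, add_neg_cancel, zero_mul, zero_mul]
  · have h3 : 0 < 1 + cos a' := by linarith
    have h4 : 1 - (cos a' - cos a) / (1 + cos a') = (1 + cos a) / (1 + cos a') := by
      field_simp
      ring
    have h5 := hax a a' π ((cos a' - cos a) / (1 + cos a'))
      (div_nonneg (by linarith) h3.le)
      ((div_le_one h3).2 (by linarith [Real.neg_one_le_cos a]))
      (by
        rw [Real.cos_pi]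
        field_simp
        ring)
    have h6 := harnack_aux (hg a) (hg a') (hg π) (div_nonneg (by linarith) h3.le) h5
    rw [h4, div_mul_eq_mul_div, div_le_iff₀ h3] at h6
    linarith

/-
`cos a = (1 - r) cos a' + r * cos 0` with `r = (cos a - cos a') / (1 - cos a')` (if `cos a' < 1`; if `cos a' = 1` then
`cos a = 1` and both sides vanish). `axis` gives `(1 - r) / S a' b ≤ 1 / S a b`, and `1 - r = (1 - cos a)/(1 - cos a')`.
-/
lemma harnack_up (h : RPSym S) {a a' b : ℝ} (hc : cos a' ≤ cos a) :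
    (1 - cos a) * S a b ≤ (1 - cos a') * S a' b :=
  harnack_aux_up (g := fun x => S x b) (fun x => h.pos x b) (fun a a' a'' r => h.axis b a a' a'' r) hc

/-- the same with the endpoint `cos π = -1` -/
lemma harnack_down (h : RPSym S) {a a' b : ℝ} (hc : cos a ≤ cos a') :
    (1 + cos a) * S a b ≤ (1 + cos a') * S a' b :=
  harnack_aux_down (g := fun x => S x b) (fun x => h.pos x b) (fun a a' a'' r => h.axis b a a' a'' r) hc

lemma harnack_up_diag (h : RPSym S) {a a' b : ℝ} (hc : cos a' ≤ cos a) :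
    (1 - cos a) * S (a + b) (a - b) ≤ (1 - cos a') * S (a' + b) (a' - b) :=
  harnack_aux_up (g := fun x => S (x + b) (x - b)) (fun x => h.pos _ _)
    (fun a a' a'' r => h.diag b a a' a'' r) hc

lemma harnack_down_diag (h : RPSym S) {a a' b : ℝ} (hc : cos a ≤ cos a') :
    (1 + cos a) * S (a + b) (a - b) ≤ (1 + cos a') * S (a' + b) (a' - b) :=
  harnack_aux_down (g := fun x => S (x + b) (x - b)) (fun x => h.pos _ _)
    (fun a a' a'' r => h.diag b a a' a'' r) hc

/-- one diagonal and two axis steps lead from `(π/2, b)` to any point of `[3π/4, π] × [π/2, π]` -/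
private lemma mid_bound_point (h : RPSym S) {b a' b' : ℝ} (hb0 : 0 ≤ b) (hb : b ≤ π / 2)
    (ha1 : 3 * π / 4 ≤ a') (ha2 : a' ≤ π) (hb1 : π / 2 ≤ b') (hb2 : b' ≤ π) :
    S (π / 2) b ≤ 24 * ((1 - cos a') * S a' b') := by
  have hpi := Real.pi_pos
  have hs2 : √2 ≤ 1.4143 := by
    rw [Real.sqrt_le_left (by norm_num)]
    norm_num
  have hcos : ∀ y : ℝ, π / 4 ≤ y → y ≤ π / 2 → cos y ≤ √2 / 2 := fun y h1 h2 => by
    rw [← Real.cos_pi_div_four]
    exact Real.cos_le_cos_of_nonneg_of_le_pi (by positivity) (by linarith) h1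
  -- the diagonal step
  have h1 : (1 - cos ((π / 2 + b) / 2)) * S (π / 2) b ≤
      S (π / 2 + (π / 2 - b) / 2) (π / 2 - (π / 2 - b) / 2) := by
    have hd := harnack_up_diag h (a := (π / 2 + b) / 2) (a' := π / 2) (b := (π / 2 - b) / 2) (by
      rw [Real.cos_pi_div_two]
      exact Real.cos_nonneg_of_mem_Icc ⟨by linarith, by linarith⟩)
    rw [Real.cos_pi_div_two, sub_zero, one_mul] at hd
    have e1 : (π / 2 + b) / 2 + (π / 2 - b) / 2 = π / 2 := by ring
    have e2 : (π / 2 + b) / 2 - (π / 2 - b) / 2 = b := by ring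
    rwa [e1, e2] at hd
  set x : ℝ := π / 2 + (π / 2 - b) / 2 with hx
  set y : ℝ := π / 2 - (π / 2 - b) / 2 with hy
  have hx1 : π / 2 ≤ x := by linarith
  have hx2 : x ≤ 3 * π / 4 := by linarith
  have hy1 : π / 4 ≤ y := by linarith
  have hy2 : y ≤ π / 2 := by linarith
  -- the first axis step
  have h2 : (1 - cos x) * S x y ≤ (1 - cos a') * S a' y :=
    harnack_up h (Real.cos_le_cos_of_nonneg_of_le_pi (by linarith) ha2 (by linarith))
  -- the second axis step
  have h3 : (1 - cos y) * S a' y ≤ (1 - cos b') * S a' b' := by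
    have hd := harnack_up h (a := y) (a' := b') (b := a')
      (Real.cos_le_cos_of_nonneg_of_le_pi (by linarith) hb2 (by linarith))
    rwa [h.swap a' y, h.swap a' b'] at hd
  have c1 : cos ((π / 2 + b) / 2) ≤ √2 / 2 := hcos _ (by linarith) (by linarith)
  have c2 : cos x ≤ 0 := Real.cos_nonpos_of_pi_div_two_le_of_le hx1 (by linarith)
  have c3 : cos y ≤ √2 / 2 := hcos _ hy1 hy2
  have c4 : 0 ≤ 1 - cos a' := by linarith [Real.cos_le_one a']
  have c5 : cos b' ≥ -1 := Real.neg_one_le_cos b'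
  have p1 := h.pos (π / 2) b
  have p2 := h.pos x y
  have p3 := h.pos a' y
  have p4 := h.pos a' b'
  -- numerical combination
  have k1 : 0.29285 * S (π / 2) b ≤ S x y := by
    refine le_trans ?_ h1
    exact mul_le_mul_of_nonneg_right (by linarith) p1.le
  have k2 : S x y ≤ (1 - cos a') * S a' y := by
    refine le_trans ?_ h2
    nlinarith
  have k3 : 0.29285 * S a' y ≤ 2 * S a' b' := by
    calc 0.29285 * S a' y ≤ (1 - cos y) * S a' y := mul_le_mul_of_nonneg_right (by linarith) p3.le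
      _ ≤ (1 - cos b') * S a' b' := h3
      _ ≤ 2 * S a' b' := mul_le_mul_of_nonneg_right (by linarith) p4.le
  have k4 : (1 - cos a') * (0.29285 * S a' y) ≤ (1 - cos a') * (2 * S a' b') :=
    mul_le_mul_of_nonneg_left k3 c4
  have k5 : 0 ≤ (1 - cos a') * S a' b' := mul_nonneg c4 p4.le
  nlinarith

/-- the same for `|b| ≤ π / 2` -/
private lemma mid_bound_point_abs (h : RPSym S) {b a' b' : ℝ} (hb : |b| ≤ π / 2)
    (ha1 : 3 * π / 4 ≤ a') (ha2 : a' ≤ π) (hb1 : π / 2 ≤ b') (hb2 : b' ≤ π) :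
    S (π / 2) b ≤ 24 * ((1 - cos a') * S a' b') := by
  have e : S (π / 2) b = S (π / 2) |b| := by
    rcases abs_choice b with h0 | h0
    · rw [h0]
    · rw [h0, h.swap (-b) (π / 2), h.even, h.swap (π / 2) b]
  rw [e]
  exact mid_bound_point h (abs_nonneg b) hb ha1 ha2 hb1 hb2

/-
(i) For `a, b, a', b' ∈ [π/4, 3π/4]`: `S a b ≤ 9 S a' b ≤ 81 S a' b'` by Harnack in each variable (use `swap`), since
`(1 ± cos a')/(1 ± cos a) ≤ (1 + √2/2)/(1 - √2/2) = 3 + 2√2 ≤ 6`. Integrate over `(a', b') ∈ [π/4, 3π/4]^2` (area `π^2/4`), where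
`1 - cos a' ≥ 1 - √2/2 ≥ 1/4`, and the integrand is nonnegative on `box`: `S a b ≤ C M`.
(ii) For `p, q, p', q' ∈ [π/8, 3π/8]`: `S (p+q) (p-q) ≤ C S (p'+q') (p'-q')` similarly by the diagonal Harnack inequalities (`S (p+q) (p-q)` is
symmetric in `p, q` by `even` and `swap`); integrate over `(p', q') ∈ [π/8, 3π/8]^2`; the linear change of variables
`(a', b') = (p'+q', p'-q')` has Jacobian `2`, its image is contained in `{π/4 ≤ a' ≤ 3π/4, |b'| ≤ π/4} ⊆ box`.
(To avoid a two-dimensional change of variables one can integrate first in one variable: shear maps.)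
(iii) `a = π/2`, `|b| ≤ π/4`: `p = (π/2 + b)/2`, `q = (π/2 - b)/2 ∈ [π/8, 3π/8]`, so (ii); `π/4 ≤ |b| ≤ π/2`: (i).
-/
theorem mid_bound (M : ℝ) : ∃ C : ℝ, 0 < C ∧ ∀ S : ℝ → ℝ → ℝ, RPSym S →
    ∫ k in box, (1 - cos k.1) * S k.1 k.2 ≤ M → ∀ b : ℝ, |b| ≤ π / 2 → S (π / 2) b ≤ C := by
  refine ⟨24 * |M| + 1, by positivity, fun S h hM b hb => ?_⟩
  have hpi := Real.pi_pos
  set Q : Set (ℝ × ℝ) := Icc (3 * π / 4) π ×ˢ Icc (π / 2) π with hQ
  set F : ℝ × ℝ → ℝ := fun k => (1 - cos k.1) * S k.1 k.2 with hF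
  have hFc : Continuous F :=
    (continuous_const.sub (Real.continuous_cos.comp continuous_fst)).mul h.cont
  have hF0 : ∀ k, 0 ≤ F k := fun k =>
    mul_nonneg (by linarith [Real.cos_le_one k.1]) (h.pos _ _).le
  have hQb : Q ⊆ box := Set.prod_mono (Icc_subset_Icc (by linarith) le_rfl)
    (Icc_subset_Icc (by linarith) le_rfl)
  have hbox : IsCompact (box : Set (ℝ × ℝ)) := isCompact_Icc.prod isCompact_Icc
  have hQc : IsCompact Q := isCompact_Icc.prod isCompact_Icc
  have hFi : IntegrableOn F box := hFc.continuousOn.integrableOn_compact hbox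
  have h1 : ∫ k in Q, F k ≤ ∫ k in box, F k :=
    setIntegral_mono_set hFi (ae_of_all _ hF0) (ae_of_all _ hQb)
  have h2 : ∫ k in Q, S (π / 2) b ≤ ∫ k in Q, 24 * F k := by
    refine setIntegral_mono_on (integrableOn_const hQc.measure_lt_top.ne)
      ((hFi.mono_set hQb).const_mul 24) (measurableSet_Icc.prod measurableSet_Icc) ?_
    intro k hk
    exact mid_bound_point_abs h hb hk.1.1 hk.1.2 hk.2.1 hk.2.2
  rw [integral_const_mul, setIntegral_const] at h2
  have h3 : volume.real Q = (π / 4) * (π / 2) := by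
    rw [Measure.real, hQ, Measure.volume_eq_prod, Measure.prod_prod, Real.volume_Icc,
      Real.volume_Icc, ENNReal.toReal_mul, ENNReal.toReal_ofReal (by linarith),
      ENNReal.toReal_ofReal (by linarith)]
    ring
  rw [h3, smul_eq_mul] at h2
  have h4 : (1 : ℝ) ≤ (π / 4) * (π / 2) := by nlinarith [Real.pi_gt_three]
  have h5 : S (π / 2) b ≤ (π / 4) * (π / 2) * S (π / 2) b :=
    le_mul_of_one_le_left (h.pos _ _).le h4
  have h6 : M ≤ |M| := le_abs_self M
  have h7 : ∫ k in box, F k ≤ M := hM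
  linarith

/-
`harnack_up` with `a' = π/2`: `(1 - cos a) S a b ≤ S (π/2) b ≤ C` for `|a|, |b| ≤ π/2`; the same with `a, b` exchanged; and
`1 - cos a ≥ a^2 / 5` (`≥ 2 a^2/π^2`) for `|a| ≤ π/2`.
-/
theorem infrared (M : ℝ) : ∃ C : ℝ, 0 < C ∧ ∀ S : ℝ → ℝ → ℝ, RPSym S →
    ∫ k in box, (1 - cos k.1) * S k.1 k.2 ≤ M →
    ∀ a b : ℝ, |a| ≤ π / 2 → |b| ≤ π / 2 → (a ^ 2 + b ^ 2) * S a b ≤ C := by
  obtain ⟨C, hC, hmid⟩ := mid_bound M
  refine ⟨π ^ 2 * C, by positivity, fun S hS hM => ?_⟩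
  have key : ∀ a b : ℝ, |a| ≤ π / 2 → |b| ≤ π / 2 → a ^ 2 * S a b ≤ π ^ 2 / 2 * C := by
    intro a b ha hb
    have h1 : cos (π / 2) ≤ cos a := by
      rw [cos_pi_div_two]
      exact cos_nonneg_of_mem_Icc (abs_le.1 ha)
    have h2 := harnack_up hS (a := a) (a' := π / 2) (b := b) h1
    rw [cos_pi_div_two, sub_zero, one_mul] at h2
    have h3 := h2.trans (hmid S hS hM b hb)
    have h4 := Real.cos_le_one_sub_mul_cos_sq (ha.trans (by linarith [pi_pos]))
    have h5 : a ^ 2 ≤ π ^ 2 / 2 * (1 - cos a) := by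
      have h6 : π ^ 2 / 2 * (2 / π ^ 2 * a ^ 2) = a ^ 2 := by
        field_simp
      rw [← h6]
      exact mul_le_mul_of_nonneg_left (by linarith) (by positivity)
    calc a ^ 2 * S a b ≤ π ^ 2 / 2 * (1 - cos a) * S a b :=
          mul_le_mul_of_nonneg_right h5 (hS.pos a b).le
      _ = π ^ 2 / 2 * ((1 - cos a) * S a b) := by ring
      _ ≤ π ^ 2 / 2 * C := mul_le_mul_of_nonneg_left h3 (by positivity)
  intro a b ha hb
  have h1 := key a b ha hb
  have h2 := key b a hb ha
  rw [hS.swap a b] at h2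
  linarith

end RP4
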