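import Pool.Agent.Helper63.RP4.Defs

/-!
Conc.  The functions `S_n` of the analysis, and the statement of the two point theorem.
-/

open Real Set Filter Topology MeasureTheory

namespace RP4

/-- The properties of the (regularised) spectral density used in the analysis: positivity, continuity,
symmetry, and concavity of `1 / S` in `cos a` for fixed `b`, and of `1 / S (a + b) (a - b)` in `cos a` for
fixed `b`. -/
structure RPSym (S : ℝ → ℝ → ℝ) : Prop where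
  pos : ∀ a b, 0 < S a b
  cont : Continuous (fun p : ℝ × ℝ => S p.1 p.2)
  per : ∀ a b, S (a + 2 * π) b = S a b
  even : ∀ a b, S (-a) b = S a b
  swap : ∀ a b, S b a = S a b
  axis : ∀ b a a' a'' r : ℝ, 0 ≤ r → r ≤ 1 → cos a = (1 - r) * cos a' + r * cos a'' →
    (1 - r) / S a' b + r / S a'' b ≤ 1 / S a b
  diag : ∀ b a a' a'' r : ℝ, 0 ≤ r → r ≤ 1 → cos a = (1 - r) * cos a' + r * cos a'' →
    (1 - r) / S (a' + b) (a' - b) + r / S (a'' + b) (a'' - b) ≤ 1 / S (a + b) (a - b)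

/-- the momentum torus -/
def box : Set (ℝ × ℝ) := Icc (-π) π ×ˢ Icc (-π) π

/-- upper bound near `0`, lower bound near `0` away from `0`, along the sequence -/
structure TwoPoint (S : ℕ → ℝ → ℝ → ℝ) (K : ℝ) : Prop where
  nonneg : 0 ≤ K
  upper : ∀ ε > 0, ∃ η > 0, ∃ N : ℕ, ∀ n ≥ N, ∀ a b : ℝ, 0 < a ^ 2 + b ^ 2 → a ^ 2 + b ^ 2 ≤ η ^ 2 →
    (a ^ 2 + b ^ 2) * S n a b ≤ K + ε
  lower : ∀ ε > 0, ∃ η > 0, ∀ τ > 0, ∃ N : ℕ, ∀ n ≥ N, ∀ a b : ℝ, τ ^ 2 ≤ a ^ 2 + b ^ 2 →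
    a ^ 2 + b ^ 2 ≤ η ^ 2 → K - ε ≤ (a ^ 2 + b ^ 2) * S n a b

end RP4
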