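import Mathlib

/-!
# Project RP4 (MP_973bc8_pr): definitions

Square ice height functions on finite domains of `ℤ × ℤ`.
-/

open Finset

namespace RP4

/-- vertices of the square lattice -/
abbrev V := ℤ × ℤ

/-- nearest neighbour adjacency -/
def Adj (u v : V) : Prop := |u.1 - v.1| + |u.2 - v.2| = 1

/-- parity class of a vertex -/
def par (v : V) : ℤ := v.1 + v.2

/-- distance in the `L¹` norm -/
def dist1 (u v : V) : ℤ := |u.1 - v.1| + |u.2 - v.2|

/-- vertices of `D` having a neighbour outside `D` -/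
noncomputable def bdry (D : Finset V) : Finset V := by
  classical exact D.filter (fun v => ∃ u, Adj u v ∧ u ∉ D)

lemma mem_bdry {D : Finset V} {v : V} : v ∈ bdry D ↔ v ∈ D ∧ ∃ u, Adj u v ∧ u ∉ D := by
  classical
  unfold bdry
  simp

/-- all boundary vertices have the parity of `q` -/
def BdryPar (D : Finset V) (q : ℤ) : Prop := ∀ v ∈ bdry D, Even (par v - q)

/-- functions vanishing off `D`, with unit steps inside `D`, and `g v ≡ par v + p` on `D` -/
structure IsHom (D : Finset V) (p : ℤ) (g : V → ℤ) : Prop where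
  off : ∀ v, v ∉ D → g v = 0
  par : ∀ v ∈ D, Even (g v - par v - p)
  step : ∀ u ∈ D, ∀ v ∈ D, Adj u v → |g u - g v| = 1

/-- the zero set version: `g = 0` on `Z` -/
def zeroSet (D : Finset V) (p : ℤ) (Z : Finset V) : Set (V → ℤ) :=
  {g | IsHom D p g ∧ ∀ v ∈ Z, g v = 0}

/-- the pinned version: `g w = 0` and `g = c` on the boundary of `D` -/
def pinSet (D : Finset V) (w : V) (c : ℤ) : Set (V → ℤ) :=
  {g | IsHom D (par w) g ∧ g w = 0 ∧ ∀ v ∈ bdry D, g v = c}

open Classical in
/-- `zeroSet` as a finite set -/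
noncomputable def Zs (D : Finset V) (p : ℤ) (Z : Finset V) : Finset (V → ℤ) :=
  if h : (zeroSet D p Z).Finite then h.toFinset else ∅

open Classical in
/-- `pinSet` as a finite set -/
noncomputable def Pin (D : Finset V) (w : V) (c : ℤ) : Finset (V → ℤ) :=
  if h : (pinSet D w c).Finite then h.toFinset else ∅

/-- height functions on `D` with zero boundary values (for a domain with even boundary) -/
noncomputable def Om (D : Finset V) : Finset (V → ℤ) := Zs D 0 (bdry D)

/-- average over a finite set of functions (uniform measure) -/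
noncomputable def avg (S : Finset (V → ℤ)) (F : (V → ℤ) → ℝ) : ℝ := (∑ g ∈ S, F g) / S.card

/-- reflection positivity across the axis line `x₁ = 0` -/
def RP1 (R : V → ℝ) : Prop :=
  ∀ (s : Finset V) (f : V → ℝ), (∀ x ∈ s, 0 ≤ x.1) →
    0 ≤ ∑ x ∈ s, ∑ y ∈ s, f x * f y * R (x.1 + y.1, x.2 - y.2)

/-- reflection positivity across the diagonal line `x₁ + x₂ = 0` -/
def RPd (R : V → ℝ) : Prop :=
  ∀ (s : Finset V) (f : V → ℝ), (∀ x ∈ s, 0 ≤ x.1 + x.2) →
    0 ≤ ∑ x ∈ s, ∑ y ∈ s, f x * f y * R (x.1 + y.2, x.2 + y.1)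

/-- invariance under the symmetries of the square -/
structure Sym4 (R : V → ℝ) : Prop where
  neg1 : ∀ a b : ℤ, R (-a, b) = R (a, b)
  swap : ∀ a b : ℤ, R (b, a) = R (a, b)

lemma Sym4.neg2 {R : V → ℝ} (h : Sym4 R) (a b : ℤ) : R (a, -b) = R (a, b) := by
  rw [← h.swap, h.neg1, h.swap]

end RP4
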