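import Pool.Agent.Helper63.RP4.Defs

/-!
E5.  Mean ergodic theorem for a kernel invariant under even translations.
-/

open Finset Filter Topology

namespace RP4

/-- quadratic form of a kernel -/
noncomputable def kq (c : V → V → ℝ) (s : Finset V) (f : V → ℝ) : ℝ :=
  ∑ x ∈ s, ∑ y ∈ s, f x * f y * c x y

/-- block of side `2 n` with lower left corner `2 n z` -/
noncomputable def blk (n : ℕ) (z : V) : Finset V :=
  (Finset.Ico (2 * n * z.1) (2 * n * z.1 + 2 * n)) ×ˢ (Finset.Ico (2 * n * z.2) (2 * n * z.2 + 2 * n))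

/-- normalised indicator function of the block -/
noncomputable def bav (n : ℕ) (z : V) (x : V) : ℝ := if x ∈ blk n z then 1 / (2 * (n : ℝ)) ^ 2 else 0

/-- the normalised block sums of the kernel -/
private noncomputable def E5K (c : V → V → ℝ) (n : ℕ) (z z' : V) : ℝ :=
  1 / (2 * (n : ℝ)) ^ 2 * (1 / (2 * (n : ℝ)) ^ 2 * ∑ x ∈ blk n z, ∑ y ∈ blk n z', c x y)

private lemma E5_bav_sum (n : ℕ) (z : V) (s : Finset V) (h : blk n z ⊆ s) (φ : V → ℝ) :
    ∑ x ∈ s, bav n z x * φ x = 1 / (2 * (n : ℝ)) ^ 2 * ∑ x ∈ blk n z, φ x := by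
  unfold bav
  simp only [ite_mul, zero_mul]
  rw [Finset.sum_ite_mem, Finset.inter_eq_right.mpr h, Finset.mul_sum]

private lemma E5_form (c : V → V → ℝ) (n : ℕ) (z z' : V) (s : Finset V) (h : blk n z ⊆ s)
    (h' : blk n z' ⊆ s) :
    ∑ x ∈ s, ∑ y ∈ s, bav n z x * bav n z' y * c x y = E5K c n z z' := by
  have h1 : ∀ x, ∑ y ∈ s, bav n z x * bav n z' y * c x y =
      bav n z x * (1 / (2 * (n : ℝ)) ^ 2 * ∑ y ∈ blk n z', c x y) := by
    intro x
    rw [← E5_bav_sum n z' s h', Finset.mul_sum]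
    refine Finset.sum_congr rfl fun y _ => ?_
    ring
  simp_rw [h1]
  rw [E5_bav_sum n z s h, ← Finset.mul_sum]
  rfl

private lemma E5_psd {c : V → V → ℝ}
    (hp : ∀ (s : Finset V) (f : V → ℝ), 0 ≤ ∑ x ∈ s, ∑ y ∈ s, f x * f y * c x y)
    (n : ℕ) {ι : Type} [Fintype ι] (p : ι → V) (e : ι → ℝ) :
    0 ≤ ∑ i, ∑ j, e i * e j * E5K c n (p i) (p j) := by
  classical
  set s : Finset V := Finset.univ.biUnion (fun i => blk n (p i)) with hs
  have hsub : ∀ i, blk n (p i) ⊆ s := fun i =>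
    Finset.subset_biUnion_of_mem (fun i => blk n (p i)) (Finset.mem_univ i)
  have h := hp s (fun x => ∑ i, e i * bav n (p i) x)
  have e1 : ∑ x ∈ s, ∑ y ∈ s, (∑ i, e i * bav n (p i) x) * (∑ j, e j * bav n (p j) y) * c x y =
      ∑ i, ∑ j, e i * e j * E5K c n (p i) (p j) := by
    calc _ = ∑ x ∈ s, ∑ y ∈ s, ∑ i, ∑ j, e i * e j * (bav n (p i) x * bav n (p j) y * c x y) := by
          refine Finset.sum_congr rfl fun x _ => Finset.sum_congr rfl fun y _ => ?_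
          rw [Finset.sum_mul_sum, Finset.sum_mul]
          refine Finset.sum_congr rfl fun i _ => ?_
          rw [Finset.sum_mul]
          refine Finset.sum_congr rfl fun j _ => ?_
          ring
      _ = ∑ x ∈ s, ∑ i, ∑ j, ∑ y ∈ s, e i * e j * (bav n (p i) x * bav n (p j) y * c x y) := by
          refine Finset.sum_congr rfl fun x _ => ?_
          rw [Finset.sum_comm]
          exact Finset.sum_congr rfl fun i _ => Finset.sum_comm
      _ = ∑ i, ∑ j, ∑ x ∈ s, ∑ y ∈ s, e i * e j * (bav n (p i) x * bav n (p j) y * c x y) := by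
          rw [Finset.sum_comm]
          exact Finset.sum_congr rfl fun i _ => Finset.sum_comm
      _ = ∑ i, ∑ j, e i * e j * E5K c n (p i) (p j) := by
          refine Finset.sum_congr rfl fun i _ => Finset.sum_congr rfl fun j _ => ?_
          rw [← E5_form c n (p i) (p j) s (hsub i) (hsub j), Finset.mul_sum]
          refine Finset.sum_congr rfl fun x _ => ?_
          rw [Finset.mul_sum]
  rwa [e1] at h

private lemma E5_shift (n : ℕ) (z w : V) (φ : V → ℝ) :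
    ∑ x ∈ blk n (z + w), φ x = ∑ x ∈ blk n z, φ (x + (2 * n * w.1, 2 * n * w.2)) := by
  refine Finset.sum_nbij' (fun x => x - (2 * n * w.1, 2 * n * w.2))
    (fun x => x + (2 * n * w.1, 2 * n * w.2)) ?_ ?_ ?_ ?_ ?_
  · intro x hx
    simp only [blk, Finset.mem_product, Finset.mem_Ico, Prod.fst_add, Prod.snd_add, mul_add] at hx
    simp only [blk, Finset.mem_product, Finset.mem_Ico, Prod.fst_sub, Prod.snd_sub]
    omega
  · intro x hx
    simp only [blk, Finset.mem_product, Finset.mem_Ico] at hx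
    simp only [blk, Finset.mem_product, Finset.mem_Ico, Prod.fst_add, Prod.snd_add, mul_add]
    omega
  · intro x _
    exact sub_add_cancel _ _
  · intro x _
    exact add_sub_cancel_right _ _
  · intro x _
    rw [sub_add_cancel]

private lemma E5_inv {c : V → V → ℝ}
    (hi : ∀ x y w, Even (par w) → c (x + w) (y + w) = c x y) (n : ℕ) (z z' w : V) :
    E5K c n (z + w) (z' + w) = E5K c n z z' := by
  unfold E5K
  rw [E5_shift]
  congr 2
  refine Finset.sum_congr rfl fun x _ => ?_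
  rw [E5_shift]
  refine Finset.sum_congr rfl fun y _ => ?_
  apply hi
  unfold par
  exact ⟨n * w.1 + n * w.2, by ring⟩

private lemma E5_symm {c : V → V → ℝ} (hs : ∀ x y, c x y = c y x) (n : ℕ) (z z' : V) :
    E5K c n z z' = E5K c n z' z := by
  unfold E5K
  congr 2
  rw [Finset.sum_comm]
  exact Finset.sum_congr rfl fun x _ => Finset.sum_congr rfl fun y _ => hs _ _

private lemma E5_ico (m N : ℕ) (φ : ℤ → ℝ) :
    ∑ t ∈ Finset.Ico (0 : ℤ) ((m : ℤ) * N), φ t =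
      ∑ q ∈ Finset.range N, ∑ t ∈ Finset.Ico ((m : ℤ) * q) ((m : ℤ) * q + m), φ t := by
  induction N with
  | zero => simp
  | succ N ih =>
    rw [Finset.sum_range_succ, ← ih]
    have h1 : (m : ℤ) * ((N + 1 : ℕ) : ℤ) = (m : ℤ) * N + m := by push_cast; ring
    rw [h1, ← Finset.Ico_union_Ico_eq_Ico (b := (m : ℤ) * N) (by positivity) (by omega),
      Finset.sum_union (Finset.Ico_disjoint_Ico_consecutive _ _ _)]

/-- the point with natural coordinates -/
private def E5g (p : ℕ × ℕ) : V := ((p.1 : ℤ), (p.2 : ℤ))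

private lemma E5_block (n N : ℕ) (φ : V → ℝ) :
    ∑ x ∈ blk (n * N) 0, φ x =
      ∑ p ∈ Finset.range N ×ˢ Finset.range N, ∑ x ∈ blk n (E5g p), φ x := by
  have e0 : blk (n * N) 0 = Finset.Ico (0 : ℤ) (((2 * n : ℕ) : ℤ) * N) ×ˢ
      Finset.Ico (0 : ℤ) (((2 * n : ℕ) : ℤ) * N) := by
    unfold blk
    simp only [Prod.fst_zero, Prod.snd_zero, mul_zero, zero_add]
    push_cast
    rw [mul_assoc]
  have e1 : ∀ p : ℕ × ℕ, blk n (E5g p) =
      Finset.Ico (((2 * n : ℕ) : ℤ) * p.1) (((2 * n : ℕ) : ℤ) * p.1 + (2 * n : ℕ)) ×ˢ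
      Finset.Ico (((2 * n : ℕ) : ℤ) * p.2) (((2 * n : ℕ) : ℤ) * p.2 + (2 * n : ℕ)) := by
    intro p
    unfold blk E5g
    push_cast
    rfl
  rw [e0, Finset.sum_product, Finset.sum_product, E5_ico (2 * n) N]
  refine Finset.sum_congr rfl fun a _ => ?_
  have e2 : ∀ s : ℤ, ∑ t ∈ Finset.Ico (0 : ℤ) (((2 * n : ℕ) : ℤ) * N), φ (s, t) =
      ∑ q ∈ Finset.range N, ∑ t ∈ Finset.Ico (((2 * n : ℕ) : ℤ) * q)
        (((2 * n : ℕ) : ℤ) * q + (2 * n : ℕ)), φ (s, t) := fun s => E5_ico (2 * n) N _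
  simp_rw [e2]
  rw [Finset.sum_comm]
  refine Finset.sum_congr rfl fun b _ => ?_
  rw [e1, Finset.sum_product]

private lemma E5_blockK (c : V → V → ℝ) (n N : ℕ) (hN : 0 < N) :
    E5K c (n * N) 0 0 = 1 / (N : ℝ) ^ 4 * ∑ p ∈ Finset.range N ×ˢ Finset.range N,
      ∑ q ∈ Finset.range N ×ˢ Finset.range N, E5K c n (E5g p) (E5g q) := by
  have hN' : (N : ℝ) ≠ 0 := by positivity
  unfold E5K
  rw [E5_block]
  have h1 : ∀ x, ∑ y ∈ blk (n * N) 0, c x y =
      ∑ p ∈ Finset.range N ×ˢ Finset.range N, ∑ y ∈ blk n (E5g p), c x y :=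
    fun x => E5_block n N _
  simp_rw [h1]
  simp_rw [← Finset.mul_sum]
  have h2 : ∀ p : ℕ × ℕ, ∑ x ∈ blk n (E5g p), ∑ q ∈ Finset.range N ×ˢ Finset.range N,
      ∑ y ∈ blk n (E5g q), c x y = ∑ q ∈ Finset.range N ×ˢ Finset.range N,
        ∑ x ∈ blk n (E5g p), ∑ y ∈ blk n (E5g q), c x y := fun p => Finset.sum_comm
  simp_rw [h2]
  push_cast
  by_cases hn : (n : ℝ) = 0
  · simp [hn]
  · field_simp

/-- shifts of sums of bounded functions -/
private lemma E5_step (N : ℕ) (ψ : ℤ → ℝ) (M : ℝ) (hM : ∀ i, |ψ i| ≤ M) (a : ℤ) :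
    |∑ i ∈ Finset.range N, ψ ((i : ℤ) + (a + 1)) - ∑ i ∈ Finset.range N, ψ ((i : ℤ) + a)| ≤
      2 * M := by
  rw [← Finset.sum_sub_distrib]
  have h1 := Finset.sum_range_sub (fun i : ℕ => ψ ((i : ℤ) + a)) N
  have h2 : ∑ i ∈ Finset.range N, (ψ ((i : ℤ) + (a + 1)) - ψ ((i : ℤ) + a)) =
      ψ ((N : ℤ) + a) - ψ (((0 : ℕ) : ℤ) + a) := by
    rw [← h1]
    refine Finset.sum_congr rfl fun i _ => ?_
    congr 2
    push_cast
    ring
  rw [h2]
  refine (abs_sub _ _).trans ?_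
  linarith [hM ((N : ℤ) + a), hM (((0 : ℕ) : ℤ) + a)]

private lemma E5_shift1 (N : ℕ) (ψ : ℤ → ℝ) (M : ℝ) (hM : ∀ i, |ψ i| ≤ M) (a : ℤ) :
    |∑ i ∈ Finset.range N, ψ ((i : ℤ) + a) - ∑ i ∈ Finset.range N, ψ (i : ℤ)| ≤
      2 * M * |(a : ℝ)| := by
  have hM0 : 0 ≤ M := (abs_nonneg _).trans (hM 0)
  induction a using Int.induction_on with
  | zero => simp
  | succ i ih =>
    have h1 := E5_step N ψ M hM i
    have h2 := abs_add_le (∑ k ∈ Finset.range N, ψ ((k : ℤ) + (i + 1)) -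
      ∑ k ∈ Finset.range N, ψ ((k : ℤ) + i)) (∑ k ∈ Finset.range N, ψ ((k : ℤ) + i) -
      ∑ k ∈ Finset.range N, ψ (k : ℤ))
    rw [sub_add_sub_cancel] at h2
    have h3 : |(((i : ℤ) + 1 : ℤ) : ℝ)| = |((i : ℤ) : ℝ)| + 1 := by
      push_cast
      rw [abs_of_nonneg (by positivity), abs_of_nonneg (by positivity)]
    rw [h3]
    nlinarith
  | pred i ih =>
    have h1 := E5_step N ψ M hM (-(i : ℤ) - 1)
    rw [sub_add_cancel, abs_sub_comm] at h1
    have h2 := abs_add_le (∑ k ∈ Finset.range N, ψ ((k : ℤ) + (-(i : ℤ) - 1)) -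
      ∑ k ∈ Finset.range N, ψ ((k : ℤ) + -(i : ℤ))) (∑ k ∈ Finset.range N, ψ ((k : ℤ) + -(i : ℤ)) -
      ∑ k ∈ Finset.range N, ψ (k : ℤ))
    rw [sub_add_sub_cancel] at h2
    have h3 : |((-(i : ℤ) - 1 : ℤ) : ℝ)| = |((-(i : ℤ) : ℤ) : ℝ)| + 1 := by
      push_cast
      have hi : (0 : ℝ) ≤ (i : ℝ) := by positivity
      rw [abs_of_nonpos (by linarith), abs_neg, abs_of_nonneg hi]
      ring
    rw [h3]
    nlinarith

private lemma E5_shift2 (N : ℕ) (φ : V → ℝ) (M : ℝ) (hM : ∀ x, |φ x| ≤ M) (z : V) :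
    |∑ p ∈ Finset.range N ×ˢ Finset.range N, φ (E5g p + z) -
      ∑ p ∈ Finset.range N ×ˢ Finset.range N, φ (E5g p)| ≤
      2 * M * (N * (|(z.1 : ℝ)| + |(z.2 : ℝ)|)) := by
  have e1 : ∑ p ∈ Finset.range N ×ˢ Finset.range N, φ (E5g p + z) =
      ∑ i ∈ Finset.range N, ∑ j ∈ Finset.range N, φ ((i : ℤ) + z.1, (j : ℤ) + z.2) := by
    rw [Finset.sum_product]
    rfl
  have e2 : ∑ p ∈ Finset.range N ×ˢ Finset.range N, φ (E5g p) =
      ∑ i ∈ Finset.range N, ∑ j ∈ Finset.range N, φ ((i : ℤ), (j : ℤ)) := by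
    rw [Finset.sum_product]
    rfl
  have h1 : |∑ i ∈ Finset.range N, ∑ j ∈ Finset.range N, φ ((i : ℤ) + z.1, (j : ℤ) + z.2) -
      ∑ i ∈ Finset.range N, ∑ j ∈ Finset.range N, φ ((i : ℤ), (j : ℤ) + z.2)| ≤
      N * (2 * M * |(z.1 : ℝ)|) := by
    have c1 : ∑ i ∈ Finset.range N, ∑ j ∈ Finset.range N, φ ((i : ℤ) + z.1, (j : ℤ) + z.2) =
        ∑ j ∈ Finset.range N, ∑ i ∈ Finset.range N, φ ((i : ℤ) + z.1, (j : ℤ) + z.2) :=
      Finset.sum_comm
    have c2 : ∑ i ∈ Finset.range N, ∑ j ∈ Finset.range N, φ ((i : ℤ), (j : ℤ) + z.2) =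
        ∑ j ∈ Finset.range N, ∑ i ∈ Finset.range N, φ ((i : ℤ), (j : ℤ) + z.2) :=
      Finset.sum_comm
    rw [c1, c2, ← Finset.sum_sub_distrib]
    refine (Finset.abs_sum_le_sum_abs _ _).trans ?_
    refine (Finset.sum_le_sum fun (j : ℕ) _ => E5_shift1 N
      (fun i : ℤ => φ (i, (j : ℤ) + z.2)) M (fun i => hM _) z.1).trans ?_
    rw [Finset.sum_const, Finset.card_range, nsmul_eq_mul]
  have h2 : |∑ i ∈ Finset.range N, ∑ j ∈ Finset.range N, φ ((i : ℤ), (j : ℤ) + z.2) -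
      ∑ i ∈ Finset.range N, ∑ j ∈ Finset.range N, φ ((i : ℤ), (j : ℤ))| ≤
      N * (2 * M * |(z.2 : ℝ)|) := by
    rw [← Finset.sum_sub_distrib]
    refine (Finset.abs_sum_le_sum_abs _ _).trans ?_
    refine (Finset.sum_le_sum fun (i : ℕ) _ => E5_shift1 N
      (fun j : ℤ => φ ((i : ℤ), j)) M (fun j => hM _) z.2).trans ?_
    rw [Finset.sum_const, Finset.card_range, nsmul_eq_mul]
  rw [e1, e2]
  have h3 := abs_add_le _ _ |>.trans (add_le_add h1 h2)
  rw [sub_add_sub_cancel] at h3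
  refine h3.trans (le_of_eq ?_)
  ring

/-- the averages of a positive definite function on `ℤ × ℤ` -/
private lemma E5_main (k : V → ℝ) (hneg : ∀ x, k (-x) = k x) (hb : ∀ x, |k x| ≤ k 0) (z : V)
    (hh : ∀ x, 2 * k x + k (x + z) + k (x - z) ≤ 2 * k 0 + 2 * k z) (N : ℕ) (hN : 0 < N) :
    1 / (N : ℝ) ^ 4 * ∑ p ∈ Finset.range N ×ˢ Finset.range N,
      ∑ q ∈ Finset.range N ×ˢ Finset.range N, k (E5g p - E5g q) ≤
      (k 0 + k z) / 2 + k 0 * (|(z.1 : ℝ)| + |(z.2 : ℝ)|) / N := by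
  set R := Finset.range N ×ˢ Finset.range N with hR
  have hRc : (R.card : ℝ) = (N : ℝ) ^ 2 := by
    rw [hR, Finset.card_product, Finset.card_range]
    push_cast
    ring
  have hN' : (0 : ℝ) < N := by exact_mod_cast hN
  set W := ∑ p ∈ R, ∑ q ∈ R, k (E5g p - E5g q) with hW
  set W1 := ∑ p ∈ R, ∑ q ∈ R, k (E5g p - E5g q + z) with hW1
  set W2 := ∑ p ∈ R, ∑ q ∈ R, k (E5g p - E5g q - z) with hW2
  have h12 : W2 = W1 := by
    rw [hW2, hW1, Finset.sum_comm]
    refine Finset.sum_congr rfl fun p _ => Finset.sum_congr rfl fun q _ => ?_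
    rw [← hneg]
    congr 1
    abel
  have h3 : 2 * W + W1 + W2 ≤ (N : ℝ) ^ 4 * (2 * k 0 + 2 * k z) := by
    have e : 2 * W + W1 + W2 = ∑ p ∈ R, ∑ q ∈ R, (2 * k (E5g p - E5g q) +
        k (E5g p - E5g q + z) + k (E5g p - E5g q - z)) := by
      rw [hW, hW1, hW2, Finset.mul_sum, ← Finset.sum_add_distrib, ← Finset.sum_add_distrib]
      refine Finset.sum_congr rfl fun p _ => ?_
      rw [Finset.mul_sum, ← Finset.sum_add_distrib, ← Finset.sum_add_distrib]
    rw [e]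
    refine (Finset.sum_le_sum fun p _ => Finset.sum_le_sum fun q _ =>
      hh (E5g p - E5g q)).trans ?_
    rw [Finset.sum_const, Finset.sum_const, nsmul_eq_mul, nsmul_eq_mul, hRc]
    apply le_of_eq
    ring
  have h4 : W - (N : ℝ) ^ 2 * (2 * k 0 * (N * (|(z.1 : ℝ)| + |(z.2 : ℝ)|))) ≤ W1 := by
    have e : W - W1 = ∑ q ∈ R, (∑ p ∈ R, k (E5g p - E5g q) - ∑ p ∈ R, k (E5g p - E5g q + z)) := by
      rw [Finset.sum_sub_distrib, hW, hW1, Finset.sum_comm,
        Finset.sum_comm (f := fun p q => k (E5g p - E5g q + z))]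
    have h5 : W - W1 ≤ ∑ q ∈ R, 2 * k 0 * (N * (|(z.1 : ℝ)| + |(z.2 : ℝ)|)) := by
      rw [e]
      refine Finset.sum_le_sum fun q _ => ?_
      have h6 := E5_shift2 N (fun x => k (x - E5g q)) (k 0) (fun x => hb _) z
      rw [abs_sub_comm] at h6
      refine le_trans (le_trans (le_of_eq ?_) (le_abs_self _)) h6
      congr 1
      refine Finset.sum_congr rfl fun p _ => ?_
      congr 1
      abel
    rw [Finset.sum_const, nsmul_eq_mul, hRc] at h5
    linarith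
  rw [h12] at h3
  rw [one_div_mul_eq_div, div_le_iff₀ (by positivity)]
  have e7 : ((k 0 + k z) / 2 + k 0 * (|(z.1 : ℝ)| + |(z.2 : ℝ)|) / N) * (N : ℝ) ^ 4 =
      (N : ℝ) ^ 4 * (k 0 + k z) / 2 + (N : ℝ) ^ 3 * (k 0 * (|(z.1 : ℝ)| + |(z.2 : ℝ)|)) := by
    field_simp
  rw [e7]
  nlinarith

/-
`‖u‖² := kq c s u` for finitely supported `u` (independent of `s ⊇ supp u`); a semi-norm: `c` is symmetric and positive semidefinite.
Let `g := bav 1 0` (average over a `2 × 2` square), `τ_w u := u (· - w)`; `‖τ_w u‖ = ‖u‖` for even `w`.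
For `w = (2 i, 2 j)`, the functions `τ_w g` are the averages over the `2 × 2` squares with even corners, `bav n z` is the mean of the `n²` functions
`τ_w g`, `w = 2 n z + (2 i, 2 j)`, `0 ≤ i, j < n`.
Let `d := inf ‖Σ_w λ_w τ_w g‖²` over finitely supported probability weights `λ` on `2ℤ × 2ℤ` (`d ≥ 0`).
Take `λ` with `‖g_λ‖² ≤ d + η`, `g_λ = Σ λ_w τ_w g`, support of `λ` in `[-2R, 2R]²`.
`A' := n⁻² Σ_{w ∈ 2[0,n)²} τ_w g_λ` satisfies `‖A'‖ ≤ ‖g_λ‖` (convexity, invariance), and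
`A' - bav n 0 = Σ_v λ_v n⁻² (Σ_{w ∈ 2[0,n)² + v} τ_w g - Σ_{w ∈ 2[0,n)²} τ_w g)` has norm `≤ n⁻² * (8 R n) * √C` (the symmetric difference of the square
and its translate has at most `4 R n` elements for shifts `≤ 2R` in units of 2 ... any bound `const(R) * n` is fine).
So `‖bav n 0‖² ≤ d + 2 η` for large `n`, and by the parallelogram law, with `A_z = bav n z`, `‖A_z‖ = ‖A_0‖`,
`‖A_z - A_0‖² = 2 ‖A_z‖² + 2 ‖A_0‖² - 4 ‖(A_z + A_0)/2‖² ≤ 4 (d + 2 η) - 4 d = 8 η`, since `(A_z + A_0)/2` is again of the form `g_λ`.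
(Suggestion: `PreInnerProductSpace.Core` on `V →₀ ℝ`, or Cauchy-Schwarz for `kq` from the discriminant.)
-/
theorem ergodic (c : V → V → ℝ) (C : ℝ) (hC : ∀ x, c x x ≤ C) (hs : ∀ x y, c x y = c y x)
    (hp : ∀ (s : Finset V) (f : V → ℝ), 0 ≤ ∑ x ∈ s, ∑ y ∈ s, f x * f y * c x y)
    (hi : ∀ x y w, Even (par w) → c (x + w) (y + w) = c x y) (ε : ℝ) (hε : 0 < ε) :
    ∃ n : ℕ, 0 < n ∧ ∀ (z : V) (s : Finset V), blk n z ∪ blk n 0 ⊆ s →
      kq c s (fun x => bav n z x - bav n 0 x) ≤ ε := by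
  -- the kernels of the block averages
  have hk : ∀ (n : ℕ) (a b : V), E5K c n a b = E5K c n (a - b) 0 := by
    intro n a b
    have := E5_inv hi n (a - b) 0 b
    rw [sub_add_cancel, zero_add] at this
    exact this
  have hkneg : ∀ (n : ℕ) (x : V), E5K c n (-x) 0 = E5K c n x 0 := by
    intro n x
    rw [E5_symm hs n x 0, hk n 0 x, zero_sub]
  have h00 : ∀ n : ℕ, 0 ≤ E5K c n 0 0 := by
    intro n
    have := E5_psd hp n (fun _ : Fin 1 => (0 : V)) (fun _ => 1)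
    simpa using this
  have hb : ∀ (n : ℕ) (x : V), |E5K c n x 0| ≤ E5K c n 0 0 := by
    intro n x
    have h1 := E5_psd hp n ![x, 0] ![1, 1]
    have h2 := E5_psd hp n ![x, 0] ![1, -1]
    simp only [Fin.sum_univ_two, Matrix.cons_val_zero, Matrix.cons_val_one] at h1 h2
    rw [E5_symm hs n 0 x, hk n x x, sub_self] at h1 h2
    rw [abs_le]
    constructor <;> linarith
  have hh : ∀ (n : ℕ) (z x : V), 2 * E5K c n x 0 + E5K c n (x + z) 0 + E5K c n (x - z) 0 ≤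
      2 * E5K c n 0 0 + 2 * E5K c n z 0 := by
    intro n z x
    have h1 := E5_psd hp n ![x, x + z, 0, z] ![1, 1, -1, -1]
    simp only [Fin.sum_univ_four, Matrix.cons_val] at h1
    rw [hk n x x, hk n x (x + z), hk n x z, hk n (x + z) x, hk n (x + z) (x + z),
      hk n (x + z) z, hk n 0 x, hk n 0 (x + z), hk n 0 z, hk n z x, hk n z (x + z), hk n z z] at h1
    have a1 : x - (x + z) = -z := by abel
    have a2 : x + z - x = z := by abel
    have a3 : x + z - z = x := by abel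
    have a4 : (0 : V) - x = -x := by abel
    have a5 : (0 : V) - (x + z) = -(x + z) := by abel
    have a6 : (0 : V) - z = -z := by abel
    have a7 : z - x = -(x - z) := by abel
    have a8 : z - (x + z) = -x := by abel
    rw [a1, a2, a3, a4, a5, a6, a7, a8, sub_self, sub_self, sub_self, hkneg, hkneg, hkneg,
      hkneg] at h1
    linarith
  -- the infimum
  have hbdd : BddBelow (Set.range fun n : ℕ => E5K c (n + 1) 0 0) :=
    ⟨0, by rintro _ ⟨n, rfl⟩; exact h00 _⟩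
  set α : ℝ := ⨅ n : ℕ, E5K c (n + 1) 0 0 with hα
  obtain ⟨m, hm⟩ := exists_lt_of_ciInf_lt (show (⨅ n : ℕ, E5K c (n + 1) 0 0) < α + ε / 4 by
    rw [← hα]; linarith)
  refine ⟨m + 1, Nat.succ_pos m, fun z s hs' => ?_⟩
  set n := m + 1 with hn
  have hkey : α ≤ (E5K c n 0 0 + E5K c n z 0) / 2 := by
    apply le_of_forall_pos_le_add
    intro δ hδ
    obtain ⟨N, hN⟩ := exists_nat_gt (E5K c n 0 0 * (|(z.1 : ℝ)| + |(z.2 : ℝ)|) / δ)
    have hN0 : (0 : ℝ) < (N : ℝ) + 1 := by positivity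
    have h1 : α ≤ E5K c (n * (N + 1)) 0 0 := by
      have h2 : n * (N + 1) = (n * (N + 1) - 1) + 1 := by
        have : 0 < n * (N + 1) := Nat.mul_pos (Nat.succ_pos m) (Nat.succ_pos N)
        omega
      rw [h2]
      exact ciInf_le hbdd _
    rw [E5_blockK c n (N + 1) (Nat.succ_pos N)] at h1
    have h2 := E5_main (fun x => E5K c n x 0) (hkneg n) (hb n) z (hh n z) (N + 1)
      (Nat.succ_pos N)
    have h3 : ∑ p ∈ Finset.range (N + 1) ×ˢ Finset.range (N + 1),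
        ∑ q ∈ Finset.range (N + 1) ×ˢ Finset.range (N + 1), E5K c n (E5g p) (E5g q) =
        ∑ p ∈ Finset.range (N + 1) ×ˢ Finset.range (N + 1),
        ∑ q ∈ Finset.range (N + 1) ×ˢ Finset.range (N + 1), E5K c n (E5g p - E5g q) 0 :=
      Finset.sum_congr rfl fun p _ => Finset.sum_congr rfl fun q _ => hk n _ _
    rw [h3] at h1
    refine h1.trans (h2.trans ?_)
    have h4 : E5K c n 0 0 * (|(z.1 : ℝ)| + |(z.2 : ℝ)|) / ((N + 1 : ℕ) : ℝ) ≤ δ := by
      push_cast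
      rw [div_le_iff₀ hN0]
      rw [div_lt_iff₀ hδ] at hN
      nlinarith
    linarith
  have hform : kq c s (fun x => bav n z x - bav n 0 x) =
      2 * E5K c n 0 0 - 2 * E5K c n z 0 := by
    have hz : blk n z ⊆ s := Finset.subset_union_left.trans hs'
    have h0 : blk n 0 ⊆ s := Finset.subset_union_right.trans hs'
    have e1 : kq c s (fun x => bav n z x - bav n 0 x) =
        ∑ x ∈ s, ∑ y ∈ s, bav n z x * bav n z y * c x y -
        ∑ x ∈ s, ∑ y ∈ s, bav n z x * bav n 0 y * c x y -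
        ∑ x ∈ s, ∑ y ∈ s, bav n 0 x * bav n z y * c x y +
        ∑ x ∈ s, ∑ y ∈ s, bav n 0 x * bav n 0 y * c x y := by
      unfold kq
      rw [← Finset.sum_sub_distrib, ← Finset.sum_sub_distrib, ← Finset.sum_add_distrib]
      refine Finset.sum_congr rfl fun x _ => ?_
      rw [← Finset.sum_sub_distrib, ← Finset.sum_sub_distrib, ← Finset.sum_add_distrib]
      refine Finset.sum_congr rfl fun y _ => ?_
      ring
    rw [e1, E5_form c n z z s hz hz, E5_form c n z 0 s hz h0, E5_form c n 0 z s h0 hz,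
      E5_form c n 0 0 s h0 h0, E5_symm hs n 0 z, hk n z z, sub_self]
    ring
  rw [hform]
  linarith

end RP4
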