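import Pool.Agent.Helper63.RP4.C1

/-!
L1.  Logarithmic asymptotics of the variogram.
-/

open Real Set Filter Topology MeasureTheory

namespace RP4

/-- `∫` over the annulus `1/2 < |k| ≤ 1` of `cos (k·y)/|k|²` -/
noncomputable def annI (y : ℝ × ℝ) : ℝ :=
  ∫ k in {k : ℝ × ℝ | 1 / 4 < k.1 ^ 2 + k.2 ^ 2 ∧ k.1 ^ 2 + k.2 ^ 2 ≤ 1},
    cos (y.1 * k.1 + y.2 * k.2) / (k.1 ^ 2 + k.2 ^ 2)

private lemma L1a_meas (a b : ℝ) :
    MeasurableSet {k : ℝ × ℝ | a < k.1 ^ 2 + k.2 ^ 2 ∧ k.1 ^ 2 + k.2 ^ 2 ≤ b} := by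
  have h : Measurable (fun k : ℝ × ℝ => k.1 ^ 2 + k.2 ^ 2) := by fun_prop
  exact (measurableSet_lt measurable_const h).inter (measurableSet_le h measurable_const)

/-- polar coordinates (`integral_comp_polarCoord_symm`): `∫_{1/2<|k|≤1} dk/|k|² = 2π log 2` -/
lemma annI_zero : annI 0 = 2 * π * log 2 := by
  unfold annI
  rw [← integral_indicator (L1a_meas _ _), ← integral_comp_polarCoord_symm]
  have h1 : ∀ p ∈ polarCoord.target,
      p.1 • ({k : ℝ × ℝ | 1 / 4 < k.1 ^ 2 + k.2 ^ 2 ∧ k.1 ^ 2 + k.2 ^ 2 ≤ 1}.indicator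
        (fun k : ℝ × ℝ => cos ((0 : ℝ × ℝ).1 * k.1 + (0 : ℝ × ℝ).2 * k.2) /
          (k.1 ^ 2 + k.2 ^ 2)) (polarCoord.symm p)) =
      (Ioc (1 / 2 : ℝ) 1).indicator (fun r => 1 / r) p.1 * (fun _ : ℝ => (1 : ℝ)) p.2 := by
    rintro ⟨r, θ⟩ hp
    have hr : 0 < r := hp.1
    have h2 : (polarCoord.symm (r, θ)).1 ^ 2 + (polarCoord.symm (r, θ)).2 ^ 2 = r ^ 2 := by
      rw [polarCoord_symm_apply]
      simp only [mul_pow]
      rw [← mul_add, cos_sq_add_sin_sq, mul_one]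
    by_cases h3 : r ∈ Ioc (1 / 2 : ℝ) 1
    · have h4 : polarCoord.symm (r, θ) ∈
          {k : ℝ × ℝ | 1 / 4 < k.1 ^ 2 + k.2 ^ 2 ∧ k.1 ^ 2 + k.2 ^ 2 ≤ 1} := by
        rw [mem_ofPred_eq, h2]
        obtain ⟨h5, h6⟩ := h3
        constructor <;> nlinarith
      rw [indicator_of_mem h4, indicator_of_mem h3, h2]
      simp only [Prod.fst_zero, Prod.snd_zero, zero_mul, add_zero, cos_zero, smul_eq_mul, mul_one]
      field_simp
    · have h4 : polarCoord.symm (r, θ) ∉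
          {k : ℝ × ℝ | 1 / 4 < k.1 ^ 2 + k.2 ^ 2 ∧ k.1 ^ 2 + k.2 ^ 2 ≤ 1} := by
        rw [mem_ofPred_eq, h2]
        rintro ⟨h5, h6⟩
        apply h3
        constructor
        · by_contra h7
          push Not at h7
          nlinarith
        · by_contra h7
          push Not at h7
          nlinarith
      rw [indicator_of_notMem h4, indicator_of_notMem h3]
      simp
  rw [setIntegral_congr_fun polarCoord.open_target.measurableSet h1]
  have h8 : polarCoord.target = Ioi (0 : ℝ) ×ˢ Ioo (-π) π := rfl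
  have h12 := setIntegral_prod_mul (μ := (volume : Measure ℝ)) (ν := (volume : Measure ℝ))
    ((Ioc (1 / 2 : ℝ) 1).indicator (fun r => 1 / r)) (fun _ : ℝ => (1 : ℝ)) (Ioi (0 : ℝ))
    (Ioo (-π) π)
  rw [h8, Measure.volume_eq_prod]
  refine h12.trans ?_
  have h9 : ∫ x in Ioi (0 : ℝ), (Ioc (1 / 2 : ℝ) 1).indicator (fun r => 1 / r) x = log 2 := by
    rw [setIntegral_indicator measurableSet_Ioc]
    have h10 : Ioi (0 : ℝ) ∩ Ioc (1 / 2) 1 = Ioc (1 / 2) 1 := by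
      apply inter_eq_right.mpr
      intro x hx
      exact lt_trans (by norm_num) hx.1
    rw [h10, ← intervalIntegral.integral_of_le (by norm_num),
      integral_one_div_of_pos (by norm_num) (by norm_num)]
    norm_num
  have h11 : ∫ _ in Ioo (-π) π, (1 : ℝ) = 2 * π := by
    rw [setIntegral_const, smul_eq_mul, mul_one, measureReal_def, Real.volume_Ioo,
      ENNReal.toReal_ofReal (by linarith [pi_pos])]
    ring
  rw [h9, h11]
  ring

private noncomputable def L1b_f : ℝ × ℝ → ℂ :=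
  Set.indicator {k : ℝ × ℝ | 1 / 4 < k.1 ^ 2 + k.2 ^ 2 ∧ k.1 ^ 2 + k.2 ^ 2 ≤ 1}
    (fun k => (((k.1 ^ 2 + k.2 ^ 2)⁻¹ : ℝ) : ℂ))

private lemma L1b_meas :
    MeasurableSet {k : ℝ × ℝ | 1 / 4 < k.1 ^ 2 + k.2 ^ 2 ∧ k.1 ^ 2 + k.2 ^ 2 ≤ 1} := by
  have h : Measurable fun k : ℝ × ℝ => k.1 ^ 2 + k.2 ^ 2 := by fun_prop
  exact MeasurableSet.inter (measurableSet_lt measurable_const h)
    (measurableSet_le h measurable_const)

private lemma L1b_int : Integrable L1b_f := by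
  have hsub : {k : ℝ × ℝ | 1 / 4 < k.1 ^ 2 + k.2 ^ 2 ∧ k.1 ^ 2 + k.2 ^ 2 ≤ 1} ⊆
      Set.Icc (-1 : ℝ) 1 ×ˢ Set.Icc (-1 : ℝ) 1 := by
    rintro ⟨a, b⟩ ⟨-, h2⟩
    simp only at h2
    refine ⟨⟨?_, ?_⟩, ⟨?_, ?_⟩⟩ <;> simp only <;> nlinarith [sq_nonneg a, sq_nonneg b]
  have hfin : volume {k : ℝ × ℝ | 1 / 4 < k.1 ^ 2 + k.2 ^ 2 ∧ k.1 ^ 2 + k.2 ^ 2 ≤ 1} ≠ ⊤ :=
    ((measure_mono hsub).trans_lt (isCompact_Icc.prod isCompact_Icc).measure_lt_top).ne
  refine (integrable_indicator_iff L1b_meas).2 ?_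
  refine Measure.integrableOn_of_bounded (M := 4) hfin ?_ ?_
  · exact (Complex.measurable_ofReal.comp (by fun_prop)).aestronglyMeasurable
  · refine (ae_restrict_iff' L1b_meas).2 (Filter.Eventually.of_forall fun k hk => ?_)
    have h1 : (0 : ℝ) < k.1 ^ 2 + k.2 ^ 2 := lt_trans (by norm_num) hk.1
    rw [Complex.norm_real, Real.norm_of_nonneg (inv_nonneg.2 h1.le)]
    rw [inv_le_comm₀ h1 (by norm_num)]
    have := hk.1
    norm_num at this ⊢
    exact this.le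

/-- the linear form `k ↦ (y · k) / 2π` -/
private noncomputable def L1b_L : (ℝ × ℝ) →ₗ[ℝ] StrongDual ℝ (ℝ × ℝ) where
  toFun := fun y => (2 * π)⁻¹ • (y.1 • ContinuousLinearMap.fst ℝ ℝ ℝ +
    y.2 • ContinuousLinearMap.snd ℝ ℝ ℝ)
  map_add' := fun x y => by
    ext <;> simp [mul_add]
  map_smul' := fun c y => by
    ext <;> simp [mul_left_comm]

private lemma L1b_L_apply (y k : ℝ × ℝ) :
    L1b_L y k = (2 * π)⁻¹ * (y.1 * k.1 + y.2 * k.2) := by
  simp [L1b_L, mul_add]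

private lemma L1b_tendsto : Tendsto L1b_L (cocompact (ℝ × ℝ)) (cocompact _) := by
  have hinj : Function.Injective L1b_L := by
    intro y z hyz
    have hp : (2 * π)⁻¹ ≠ 0 := by positivity
    have h1 := DFunLike.congr_fun hyz ((1, 0) : ℝ × ℝ)
    have h2 := DFunLike.congr_fun hyz ((0, 1) : ℝ × ℝ)
    rw [L1b_L_apply, L1b_L_apply] at h1 h2
    have h3 := mul_left_cancel₀ hp h1
    have h4 := mul_left_cancel₀ hp h2
    simp only [mul_one, mul_zero, add_zero, zero_add] at h3 h4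
    exact Prod.ext h3 h4
  exact (LinearMap.isClosedEmbedding_of_injective (LinearMap.ker_eq_bot.2 hinj)).tendsto_cocompact

private lemma L1b_annI (y : ℝ × ℝ) :
    annI y = (∫ k : ℝ × ℝ, Real.fourierChar (-(L1b_L y) k) • L1b_f k).re := by
  have hint : Integrable (fun k : ℝ × ℝ => Real.fourierChar (-(L1b_L y) k) • L1b_f k) := by
    refine L1b_int.mono ?_ (Filter.Eventually.of_forall fun k => ?_)
    · have hc : Continuous fun k : ℝ × ℝ => Real.fourierChar (-(L1b_L y) k) :=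
        Real.continuous_fourierChar.comp ((L1b_L y).continuous.neg)
      exact hc.aestronglyMeasurable.smul L1b_int.aestronglyMeasurable
    · rw [Circle.norm_smul]
  have h1 : (∫ k : ℝ × ℝ, Real.fourierChar (-(L1b_L y) k) • L1b_f k).re =
      ∫ k : ℝ × ℝ, (Real.fourierChar (-(L1b_L y) k) • L1b_f k).re :=
    (integral_re hint).symm
  rw [h1, annI, ← integral_indicator L1b_meas]
  congr 1
  ext k
  by_cases hk : k ∈ {k : ℝ × ℝ | 1 / 4 < k.1 ^ 2 + k.2 ^ 2 ∧ k.1 ^ 2 + k.2 ^ 2 ≤ 1}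
  · rw [Set.indicator_of_mem hk, L1b_f, Set.indicator_of_mem hk, Circle.smul_def, smul_eq_mul,
      Complex.re_mul_ofReal, Real.fourierChar_apply, L1b_L_apply]
    have h2 : ((2 * π * -((2 * π)⁻¹ * (y.1 * k.1 + y.2 * k.2)) : ℝ) : ℂ) * Complex.I =
        ((-(y.1 * k.1 + y.2 * k.2) : ℝ) : ℂ) * Complex.I := by
      congr 2
      have hp : (2 * π) ≠ 0 := by positivity
      field_simp
    rw [h2, Complex.exp_ofReal_mul_I_re, Real.cos_neg, div_eq_mul_inv]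
  · rw [Set.indicator_of_notMem hk, L1b_f, Set.indicator_of_notMem hk, smul_zero, Complex.zero_re]

/-- Riemann-Lebesgue lemma (Mathlib: `Real.tendsto_integral_exp_smul_cocompact`,
`tendsto_integral_exp_inner_smul_cocompact`, for `ℝ × ℝ` use a version with a linear form, or transfer to `EuclideanSpace`) -/
lemma annI_tendsto : Tendsto annI (cocompact (ℝ × ℝ)) (𝓝 0) := by
  have h1 := (tendsto_integral_exp_smul_cocompact L1b_f (volume : Measure (ℝ × ℝ))).comp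
    L1b_tendsto
  have h2 : Tendsto (fun z : ℂ => z.re) (𝓝 0) (𝓝 0) := by
    have := Complex.continuous_re.tendsto (0 : ℂ)
    rwa [Complex.zero_re] at this
  have h3 := h2.comp h1
  refine h3.congr fun y => ?_
  rw [L1b_annI]
  rfl

lemma annI_bound : ∃ C : ℝ, ∀ y, |annI y| ≤ C := by
  have hfin : volume {k : ℝ × ℝ | 1 / 4 < k.1 ^ 2 + k.2 ^ 2 ∧ k.1 ^ 2 + k.2 ^ 2 ≤ 1} < ⊤ := by
    have h1 : {k : ℝ × ℝ | 1 / 4 < k.1 ^ 2 + k.2 ^ 2 ∧ k.1 ^ 2 + k.2 ^ 2 ≤ 1} ⊆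
        Icc (-1 : ℝ) 1 ×ˢ Icc (-1 : ℝ) 1 := by
      rintro ⟨a, b⟩ ⟨_, h⟩
      simp only at h
      refine ⟨⟨?_, ?_⟩, ⟨?_, ?_⟩⟩ <;> simp only <;> nlinarith [sq_nonneg a, sq_nonneg b]
    exact (measure_mono h1).trans_lt (isCompact_Icc.prod isCompact_Icc).measure_lt_top
  refine ⟨4 * volume.real {k : ℝ × ℝ | 1 / 4 < k.1 ^ 2 + k.2 ^ 2 ∧ k.1 ^ 2 + k.2 ^ 2 ≤ 1},
    fun y => ?_⟩
  have h := norm_setIntegral_le_of_norm_le_const (μ := volume) (C := 4) hfin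
    (f := fun k : ℝ × ℝ => cos (y.1 * k.1 + y.2 * k.2) / (k.1 ^ 2 + k.2 ^ 2)) (fun k hk => by
      have h2 : 1 / 4 < k.1 ^ 2 + k.2 ^ 2 := hk.1
      rw [norm_div, Real.norm_eq_abs, Real.norm_eq_abs, abs_of_pos (show 0 < k.1 ^ 2 + k.2 ^ 2 by linarith),
        div_le_iff₀ (by linarith)]
      have h3 := abs_cos_le_one (y.1 * k.1 + y.2 * k.2)
      linarith)
  rw [Real.norm_eq_abs] at h
  exact h

open Pointwise in
/-- scaling by `2^j` -/
lemma ann_scale (R : ℝ) (hR : 0 < R) (y : ℝ × ℝ) :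
    ∫ k in {k : ℝ × ℝ | R ^ 2 / 4 < k.1 ^ 2 + k.2 ^ 2 ∧ k.1 ^ 2 + k.2 ^ 2 ≤ R ^ 2},
      cos (y.1 * k.1 + y.2 * k.2) / (k.1 ^ 2 + k.2 ^ 2) = annI (R • y) := by
  have h1 : {k : ℝ × ℝ | R ^ 2 / 4 < k.1 ^ 2 + k.2 ^ 2 ∧ k.1 ^ 2 + k.2 ^ 2 ≤ R ^ 2} =
      R • {k : ℝ × ℝ | 1 / 4 < k.1 ^ 2 + k.2 ^ 2 ∧ k.1 ^ 2 + k.2 ^ 2 ≤ 1} := by
    ext k
    rw [Set.mem_smul_set_iff_inv_smul_mem₀ hR.ne', mem_ofPred_eq, mem_ofPred_eq]
    have h2 : (R⁻¹ • k).1 ^ 2 + (R⁻¹ • k).2 ^ 2 = (k.1 ^ 2 + k.2 ^ 2) / R ^ 2 := by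
      simp only [Prod.smul_fst, Prod.smul_snd, smul_eq_mul]
      field_simp
    have h3 : 0 < R ^ 2 := by positivity
    rw [h2, lt_div_iff₀ h3, div_le_iff₀ h3, one_mul]
    constructor
    · rintro ⟨h4, h5⟩
      exact ⟨by linarith, h5⟩
    · rintro ⟨h4, h5⟩
      exact ⟨by linarith, h5⟩
  have h6 := Measure.setIntegral_comp_smul_of_pos (volume : Measure (ℝ × ℝ))
    (fun k : ℝ × ℝ => cos (y.1 * k.1 + y.2 * k.2) / (k.1 ^ 2 + k.2 ^ 2))
    {k : ℝ × ℝ | 1 / 4 < k.1 ^ 2 + k.2 ^ 2 ∧ k.1 ^ 2 + k.2 ^ 2 ≤ 1} hR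
  have h7 : Module.finrank ℝ (ℝ × ℝ) = 2 := by simp
  rw [h7, smul_eq_mul] at h6
  have h8 : 0 < R ^ 2 := by positivity
  have h9 : ∀ k : ℝ × ℝ, cos (y.1 * (R • k).1 + y.2 * (R • k).2) /
      ((R • k).1 ^ 2 + (R • k).2 ^ 2) =
      (R ^ 2)⁻¹ * (cos ((R • y).1 * k.1 + (R • y).2 * k.2) / (k.1 ^ 2 + k.2 ^ 2)) := by
    intro k
    simp only [Prod.smul_fst, Prod.smul_snd, smul_eq_mul]
    have e1 : y.1 * (R * k.1) + y.2 * (R * k.2) = R * y.1 * k.1 + R * y.2 * k.2 := by ring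
    have e2 : (R * k.1) ^ 2 + (R * k.2) ^ 2 = R ^ 2 * (k.1 ^ 2 + k.2 ^ 2) := by ring
    rw [e1, e2, div_mul_eq_div_div_swap, inv_mul_eq_div]
  simp only [h9] at h6
  rw [integral_const_mul] at h6
  rw [h1]
  exact (mul_left_cancel₀ (inv_ne_zero h8.ne') h6).symm

/-- annulus -/
private def miA (a b : ℝ) : Set (ℝ × ℝ) := {k | a < k.1 ^ 2 + k.2 ^ 2 ∧ k.1 ^ 2 + k.2 ^ 2 ≤ b}

/-- the integrand of the model integral -/
private noncomputable def miF (y k : ℝ × ℝ) : ℝ :=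
  (1 - cos (y.1 * k.1 + y.2 * k.2)) / (k.1 ^ 2 + k.2 ^ 2)

private lemma miA_meas (a b : ℝ) : MeasurableSet (miA a b) := by
  have h1 : MeasurableSet {k : ℝ × ℝ | a < k.1 ^ 2 + k.2 ^ 2} :=
    measurableSet_lt measurable_const (by fun_prop)
  have h2 : MeasurableSet {k : ℝ × ℝ | k.1 ^ 2 + k.2 ^ 2 ≤ b} :=
    measurableSet_le (by fun_prop) measurable_const
  exact h1.inter h2

private lemma miA_fin (a b : ℝ) : volume (miA a b) < ⊤ := by
  have h1 : miA a b ⊆ Metric.closedBall (0 : ℝ × ℝ) (b + 1) := by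
    rintro ⟨u, v⟩ ⟨-, h2⟩
    simp only at h2
    rw [mem_closedBall_zero_iff, Prod.norm_def, max_le_iff, Real.norm_eq_abs, Real.norm_eq_abs]
    constructor <;> rw [abs_le] <;> constructor <;>
      nlinarith [sq_nonneg (u - 1), sq_nonneg (u + 1), sq_nonneg (v - 1), sq_nonneg (v + 1),
        sq_nonneg u, sq_nonneg v]
  exact lt_of_le_of_lt (measure_mono h1) measure_closedBall_lt_top

private lemma mi_int {a b : ℝ} (ha : 0 < a) {g : ℝ × ℝ → ℝ} (hg : Continuous g)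
    (hb : ∀ k, |g k| ≤ 2) :
    IntegrableOn (fun k : ℝ × ℝ => g k / (k.1 ^ 2 + k.2 ^ 2)) (miA a b) := by
  refine Measure.integrableOn_of_bounded (M := 2 / a) (miA_fin a b).ne ?_ ?_
  · have h1 : Measurable (fun k : ℝ × ℝ => g k / (k.1 ^ 2 + k.2 ^ 2)) :=
      hg.measurable.div (by fun_prop)
    exact h1.aestronglyMeasurable
  · refine (ae_restrict_iff' (miA_meas a b)).2 (Eventually.of_forall fun k hk => ?_)
    have h1 : a < k.1 ^ 2 + k.2 ^ 2 := hk.1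
    rw [Real.norm_eq_abs, abs_div, abs_of_pos (ha.trans h1)]
    calc |g k| / (k.1 ^ 2 + k.2 ^ 2) ≤ 2 / (k.1 ^ 2 + k.2 ^ 2) :=
          div_le_div_of_nonneg_right (hb k) (ha.trans h1).le
      _ ≤ 2 / a := div_le_div_of_nonneg_left (by norm_num) ha h1.le

private lemma miF_int (y : ℝ × ℝ) {a b : ℝ} (ha : 0 < a) : IntegrableOn (miF y) (miA a b) := by
  refine mi_int ha (g := fun k => 1 - cos (y.1 * k.1 + y.2 * k.2)) (by fun_prop) fun k => ?_
  rw [abs_le]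
  constructor <;> linarith [neg_one_le_cos (y.1 * k.1 + y.2 * k.2),
    cos_le_one (y.1 * k.1 + y.2 * k.2)]

private lemma miF_nonneg (y k : ℝ × ℝ) : 0 ≤ miF y k :=
  div_nonneg (by linarith [cos_le_one (y.1 * k.1 + y.2 * k.2)]) (by positivity)

private lemma mi_split (y : ℝ × ℝ) {a b c : ℝ} (ha : 0 < a) (hab : a ≤ b) (hbc : b ≤ c) :
    ∫ k in miA a c, miF y k = (∫ k in miA a b, miF y k) + ∫ k in miA b c, miF y k := by
  have h1 : miA a c = miA a b ∪ miA b c := by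
    ext k
    simp only [miA, mem_union, mem_ofPred_eq]
    constructor
    · rintro ⟨h2, h3⟩
      rcases le_or_gt (k.1 ^ 2 + k.2 ^ 2) b with h4 | h4
      · exact Or.inl ⟨h2, h4⟩
      · exact Or.inr ⟨h4, h3⟩
    · rintro (⟨h2, h3⟩ | ⟨h2, h3⟩)
      · exact ⟨h2, h3.trans hbc⟩
      · exact ⟨hab.trans_lt h2, h3⟩
  have h5 : Disjoint (miA a b) (miA b c) := by
    rw [Set.disjoint_left]
    rintro k ⟨-, h2⟩ ⟨h3, -⟩
    exact absurd h2 (not_le.2 h3)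
  rw [h1]
  exact setIntegral_union h5 (miA_meas b c) (miF_int y ha) (miF_int y (ha.trans_le hab))

private lemma mi_dyad (y : ℝ × ℝ) {R : ℝ} (hR : 0 < R) :
    ∫ k in miA (R ^ 2 / 4) (R ^ 2), miF y k = annI 0 - annI (R • y) := by
  have hp : 0 < R ^ 2 / 4 := by positivity
  have h1 : IntegrableOn (fun k : ℝ × ℝ => 1 / (k.1 ^ 2 + k.2 ^ 2)) (miA (R ^ 2 / 4) (R ^ 2)) :=
    mi_int hp (g := fun _ => 1) continuous_const (fun _ => by norm_num)
  have h2 : IntegrableOn (fun k : ℝ × ℝ => cos (y.1 * k.1 + y.2 * k.2) / (k.1 ^ 2 + k.2 ^ 2))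
      (miA (R ^ 2 / 4) (R ^ 2)) :=
    mi_int hp (g := fun k => cos (y.1 * k.1 + y.2 * k.2)) (by fun_prop)
      (fun k => (abs_cos_le_one _).trans (by norm_num))
  have h3 : ∫ k in miA (R ^ 2 / 4) (R ^ 2), 1 / (k.1 ^ 2 + k.2 ^ 2) = annI 0 := by
    have h4 := ann_scale R hR 0
    simp only [Prod.fst_zero, Prod.snd_zero, zero_mul, add_zero, cos_zero, smul_zero] at h4
    exact h4
  have h5 : ∫ k in miA (R ^ 2 / 4) (R ^ 2), cos (y.1 * k.1 + y.2 * k.2) / (k.1 ^ 2 + k.2 ^ 2) =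
      annI (R • y) := ann_scale R hR y
  rw [← h3, ← h5, ← integral_sub h1 h2]
  refine setIntegral_congr_fun (miA_meas _ _) fun k _ => ?_
  simp only [miF]
  rw [sub_div]

private lemma mi_sum (y : ℝ × ℝ) {η : ℝ} (hη : 0 < η) (m : ℕ) :
    ∫ k in miA ((η / 2 ^ m) ^ 2) (η ^ 2), miF y k =
      m * annI 0 - ∑ j ∈ Finset.range m, annI ((η / 2 ^ j) • y) := by
  induction m with
  | zero =>
    have h1 : miA ((η / 2 ^ 0) ^ 2) (η ^ 2) = ∅ := by
      ext k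
      simp only [miA, pow_zero, div_one, mem_ofPred_eq, mem_empty_iff_false, iff_false, not_and,
        not_le]
      exact fun h => h
    rw [h1]
    simp
  | succ m ih =>
    have h1 : (η / 2 ^ (m + 1)) ^ 2 = (η / 2 ^ m) ^ 2 / 4 := by
      rw [div_pow, div_pow, pow_succ 2 m, mul_pow, div_div]
      norm_num
    have h2 : (η / 2 ^ m) ^ 2 ≤ η ^ 2 := by
      refine pow_le_pow_left₀ (by positivity) ?_ 2
      exact div_le_self hη.le (one_le_pow₀ (by norm_num))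
    have h3 : 0 < η / 2 ^ m := by positivity
    rw [h1, mi_split y (by positivity) (by nlinarith [sq_nonneg (η / 2 ^ m)]) h2, mi_dyad y h3,
      ih, Finset.sum_range_succ]
    push_cast
    ring

private lemma mi_rem (y : ℝ × ℝ) {a R : ℝ} (hR : 0 < R) (ha : R ^ 2 / 4 ≤ a) :
    |∫ k in miA a (R ^ 2), miF y k| ≤ annI 0 - annI (R • y) := by
  have hp : 0 < R ^ 2 / 4 := by positivity
  rw [abs_of_nonneg (setIntegral_nonneg (miA_meas _ _) fun k _ => miF_nonneg y k),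
    ← mi_dyad y hR]
  refine setIntegral_mono_set (miF_int y hp) (Eventually.of_forall fun k => miF_nonneg y k) ?_
  exact Eventually.of_forall fun k hk => ⟨ha.trans_lt hk.1, hk.2⟩

private lemma mi_decay {ε : ℝ} (hε : 0 < ε) : ∃ D : ℝ, 0 ≤ D ∧ ∀ z : ℝ × ℝ,
    0 < Real.sqrt (z.1 ^ 2 + z.2 ^ 2) →
    |annI z| ≤ ε + D / Real.sqrt (z.1 ^ 2 + z.2 ^ 2) := by
  obtain ⟨C, hC⟩ := annI_bound
  have hC0 : 0 ≤ C := (abs_nonneg _).trans (hC 0)
  have h1 : ∀ᶠ z in cocompact (ℝ × ℝ), |annI z| < ε := by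
    have h2 := annI_tendsto.abs
    rw [abs_zero] at h2
    exact h2.eventually (gt_mem_nhds hε)
  obtain ⟨K, hK, hsub⟩ := mem_cocompact.1 h1
  obtain ⟨ρ, hρ⟩ := hK.isBounded.subset_closedBall (0 : ℝ × ℝ)
  refine ⟨C * (2 * max ρ 0), by positivity, fun z hz => ?_⟩
  by_cases hzK : z ∈ K
  · have h3 : ‖z‖ ≤ max ρ 0 := by
      have := hρ hzK
      rw [mem_closedBall_zero_iff] at this
      exact this.trans (le_max_left _ _)
    have h4 : Real.sqrt (z.1 ^ 2 + z.2 ^ 2) ≤ 2 * max ρ 0 := by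
      rw [Prod.norm_def, max_le_iff, Real.norm_eq_abs, Real.norm_eq_abs] at h3
      refine Real.sqrt_le_iff.2 ⟨by positivity, ?_⟩
      have h5 : z.1 ^ 2 ≤ (max ρ 0) ^ 2 := by
        rw [← sq_abs z.1]
        exact pow_le_pow_left₀ (abs_nonneg _) h3.1 2
      have h6 : z.2 ^ 2 ≤ (max ρ 0) ^ 2 := by
        rw [← sq_abs z.2]
        exact pow_le_pow_left₀ (abs_nonneg _) h3.2 2
      nlinarith [sq_nonneg (max ρ 0)]
    have h7 : C ≤ C * (2 * max ρ 0) / Real.sqrt (z.1 ^ 2 + z.2 ^ 2) := by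
      rw [le_div_iff₀ hz]
      exact mul_le_mul_of_nonneg_left h4 hC0
    linarith [hC z]
  · have h3 : |annI z| < ε := hsub hzK
    have h4 : 0 ≤ C * (2 * max ρ 0) / Real.sqrt (z.1 ^ 2 + z.2 ^ 2) := by positivity
    linarith

private lemma mi_main {η ε : ℝ} (hη : 0 < η) (hε : 0 < ε) : ∃ K : ℝ, ∀ y : ℝ × ℝ,
    1 ≤ η * Real.sqrt (y.1 ^ 2 + y.2 ^ 2) →
    |(∫ k in miA (1 / (y.1 ^ 2 + y.2 ^ 2)) (η ^ 2), miF y k) -
        2 * π * log (Real.sqrt (y.1 ^ 2 + y.2 ^ 2))| ≤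
      ε * (log (Real.sqrt (y.1 ^ 2 + y.2 ^ 2)) + |log η|) / log 2 + K := by
  obtain ⟨D, hD0, hD⟩ := mi_decay hε
  obtain ⟨C, hC⟩ := annI_bound
  have hl2 : 0 < log 2 := log_pos (by norm_num)
  refine ⟨D + 2 * C + 2 * π * (|log η| + log 2), fun y hy => ?_⟩
  set r := Real.sqrt (y.1 ^ 2 + y.2 ^ 2) with hr
  have hr0 : 0 < r := by
    by_contra h
    have h1 : r = 0 := le_antisymm (not_lt.1 h) (Real.sqrt_nonneg _)
    rw [h1] at hy
    norm_num at hy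
  have hr2 : y.1 ^ 2 + y.2 ^ 2 = r ^ 2 := (Real.sq_sqrt (by positivity)).symm
  have hL : log (η * r) = log η + log r := log_mul hη.ne' hr0.ne'
  have hL0 : 0 ≤ log (η * r) := log_nonneg hy
  set m := ⌊log (η * r) / log 2⌋₊ with hm
  have hm1 : (m : ℝ) * log 2 ≤ log (η * r) := by
    have h1 := Nat.floor_le (div_nonneg hL0 hl2.le)
    rw [← hm, le_div_iff₀ hl2] at h1
    exact h1
  have hm2 : log (η * r) < (m + 1) * log 2 := by
    have h1 := Nat.lt_floor_add_one (log (η * r) / log 2)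
    rw [← hm, div_lt_iff₀ hl2] at h1
    exact h1
  have h2m : (2 : ℝ) ^ m ≤ η * r := by
    rw [← Real.log_le_log_iff (by positivity) (by positivity), Real.log_pow]
    exact hm1
  have h2m' : η * r < 2 ^ (m + 1) := by
    rw [← Real.log_lt_log_iff (by positivity) (by positivity), Real.log_pow]
    push_cast
    exact hm2
  -- the pieces
  set R := η / 2 ^ m with hR
  have hR0 : 0 < R := by positivity
  have h3 : 1 / (y.1 ^ 2 + y.2 ^ 2) ≤ R ^ 2 := by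
    rw [hr2, div_le_iff₀ (by positivity), ← mul_pow]
    have h4 : 1 ≤ R * r := by
      rw [hR, div_mul_eq_mul_div, le_div_iff₀ (by positivity), one_mul]
      exact h2m
    exact one_le_pow₀ h4
  have h5 : R ^ 2 / 4 ≤ 1 / (y.1 ^ 2 + y.2 ^ 2) := by
    rw [hr2, le_div_iff₀ (by positivity)]
    have h6 : R * r ≤ 2 := by
      rw [hR, div_mul_eq_mul_div, div_le_iff₀ (by positivity)]
      rw [pow_succ] at h2m'
      linarith
    have h7 : 0 ≤ R * r := by positivity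
    nlinarith
  have h8 : R ^ 2 ≤ η ^ 2 := by
    refine pow_le_pow_left₀ (by positivity) ?_ 2
    exact div_le_self hη.le (one_le_pow₀ (by norm_num))
  have hpos : 0 < 1 / (y.1 ^ 2 + y.2 ^ 2) := by
    rw [hr2]
    positivity
  rw [mi_split y hpos h3 h8, mi_sum y hη m, annI_zero]
  have h9 := mi_rem y hR0 h5
  have h10 : annI 0 - annI (R • y) ≤ 2 * C := by
    have h11 := abs_le.1 (hC 0)
    have h12 := abs_le.1 (hC (R • y))
    linarith
  -- the sum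
  have h13 : |∑ j ∈ Finset.range m, annI ((η / 2 ^ j) • y)| ≤ m * ε + D := by
    refine (Finset.abs_sum_le_sum_abs _ _).trans ?_
    have h14 : ∀ j ∈ Finset.range m, |annI ((η / 2 ^ j) • y)| ≤ ε + D / (η * r) * 2 ^ j := by
      intro j _
      have h15 : Real.sqrt (((η / 2 ^ j) • y).1 ^ 2 + ((η / 2 ^ j) • y).2 ^ 2) =
          η / 2 ^ j * r := by
        have h16 : ((η / 2 ^ j) • y).1 ^ 2 + ((η / 2 ^ j) • y).2 ^ 2 = (η / 2 ^ j * r) ^ 2 := by
          simp only [Prod.smul_fst, Prod.smul_snd, smul_eq_mul]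
          rw [mul_pow, mul_pow, mul_pow, ← hr2]
          ring
        rw [h16, Real.sqrt_sq (by positivity)]
      have h17 := hD ((η / 2 ^ j) • y) (by rw [h15]; positivity)
      rw [h15] at h17
      refine h17.trans (le_of_eq ?_)
      congr 1
      field_simp
    refine (Finset.sum_le_sum h14).trans ?_
    rw [Finset.sum_add_distrib, Finset.sum_const, Finset.card_range, nsmul_eq_mul,
      ← Finset.mul_sum]
    have h18 : ∑ j ∈ Finset.range m, (2 : ℝ) ^ j ≤ η * r := by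
      rw [geom_sum_eq (by norm_num : (2 : ℝ) ≠ 1)]
      norm_num
      linarith
    have h19 : D / (η * r) * ∑ j ∈ Finset.range m, (2 : ℝ) ^ j ≤ D := by
      calc D / (η * r) * ∑ j ∈ Finset.range m, (2 : ℝ) ^ j ≤ D / (η * r) * (η * r) :=
            mul_le_mul_of_nonneg_left h18 (by positivity)
        _ = D := by
            field_simp
    linarith
  have h20 : |(m : ℝ) * log 2 - log r| ≤ |log η| + log 2 := by
    have h21 := abs_le.1 (le_refl |log η|)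
    rw [abs_le]
    constructor <;> nlinarith
  have h22 : (m : ℝ) ≤ (log r + |log η|) / log 2 := by
    rw [le_div_iff₀ hl2]
    have h21 := le_abs_self (log η)
    linarith
  have h23 : (m : ℝ) * ε ≤ ε * (log r + |log η|) / log 2 := by
    calc (m : ℝ) * ε ≤ (log r + |log η|) / log 2 * ε := mul_le_mul_of_nonneg_right h22 hε.le
      _ = ε * (log r + |log η|) / log 2 := by ring
  have h24 : |2 * π * ((m : ℝ) * log 2 - log r)| ≤ 2 * π * (|log η| + log 2) := by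
    rw [abs_mul, abs_of_pos (by positivity : (0 : ℝ) < 2 * π)]
    exact mul_le_mul_of_nonneg_left h20 (by positivity)
  have e1 := abs_le.1 (h9.trans h10)
  have e2 := abs_le.1 h13
  have e3 := abs_le.1 h24
  rw [abs_le]
  constructor <;> nlinarith

/-
The model integral: for `η > 0` fixed,
`J η y := ∫_{1/|y| < |k| ≤ η} (1 - cos (k·y)) / |k|² dk` satisfies `J η y / log |y| → 2π` as `|y| → ∞`.
Proof: choose `m = m(y)` with `2^{-m-1} η < 1/|y| ≤ 2^{-m} η` (so `m log 2 = log |y| + O(1)`); the annulus is the disjoint union of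
`2^{-j-1} η < |k| ≤ 2^{-j} η`, `j < m`, and a remainder of at most one dyadic annulus (integral bounded by `2 * 2π log 2`);
`∫` over the `j`-th annulus `= annI 0 - annI (2^{-j} η y)`; and `(1/m) Σ_{j<m} annI (2^{-j} η y) → 0` as `|2^{-j} η y| ≥ 2^{m-j}`, by
`annI_tendsto` and `annI_bound`.
-/
theorem model_integral (η : ℝ) (hη : 0 < η) :
    Tendsto (fun y : ℝ × ℝ =>
      (∫ k in {k : ℝ × ℝ | 1 / (y.1 ^ 2 + y.2 ^ 2) < k.1 ^ 2 + k.2 ^ 2 ∧ k.1 ^ 2 + k.2 ^ 2 ≤ η ^ 2},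
        (1 - cos (y.1 * k.1 + y.2 * k.2)) / (k.1 ^ 2 + k.2 ^ 2)) / log (Real.sqrt (y.1 ^ 2 + y.2 ^ 2)))
      (cocompact (ℝ × ℝ)) (𝓝 (2 * π)) := by
  have hl2 : 0 < log 2 := log_pos (by norm_num)
  have hr : Tendsto (fun y : ℝ × ℝ => Real.sqrt (y.1 ^ 2 + y.2 ^ 2)) (cocompact (ℝ × ℝ))
      atTop := by
    refine tendsto_atTop_mono (fun y => ?_) (tendsto_norm_cocompact_atTop (E := ℝ × ℝ))
    rw [Prod.norm_def, max_le_iff, Real.norm_eq_abs, Real.norm_eq_abs]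
    constructor
    · exact Real.abs_le_sqrt (by nlinarith [sq_nonneg y.2])
    · exact Real.abs_le_sqrt (by nlinarith [sq_nonneg y.1])
  have hL : Tendsto (fun y : ℝ × ℝ => log (Real.sqrt (y.1 ^ 2 + y.2 ^ 2))) (cocompact (ℝ × ℝ))
      atTop := tendsto_log_atTop.comp hr
  rw [Metric.tendsto_nhds]
  intro ε hε
  obtain ⟨K, hK⟩ := mi_main hη (ε := ε * log 2 / 2) (by positivity)
  have e1 : ∀ᶠ y : ℝ × ℝ in cocompact (ℝ × ℝ), 1 / η ≤ Real.sqrt (y.1 ^ 2 + y.2 ^ 2) :=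
    hr.eventually_ge_atTop _
  have e2 : ∀ᶠ y : ℝ × ℝ in cocompact (ℝ × ℝ),
      (|K| + ε * |log η| + 1) / (ε / 4) ≤ log (Real.sqrt (y.1 ^ 2 + y.2 ^ 2)) :=
    hL.eventually_ge_atTop _
  filter_upwards [e1, e2] with y h1 h2
  have h3 : 1 ≤ η * Real.sqrt (y.1 ^ 2 + y.2 ^ 2) := by
    rw [div_le_iff₀ hη] at h1
    linarith
  have h4 := hK y h3
  have h5 : 0 < (|K| + ε * |log η| + 1) / (ε / 4) := by positivity
  set L := log (Real.sqrt (y.1 ^ 2 + y.2 ^ 2)) with hLd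
  have hL0 : 0 < L := h5.trans_le h2
  rw [Real.dist_eq]
  change |(∫ k in miA (1 / (y.1 ^ 2 + y.2 ^ 2)) (η ^ 2), miF y k) / L - 2 * π| < ε
  have h6 : (∫ k in miA (1 / (y.1 ^ 2 + y.2 ^ 2)) (η ^ 2), miF y k) / L - 2 * π =
      ((∫ k in miA (1 / (y.1 ^ 2 + y.2 ^ 2)) (η ^ 2), miF y k) - 2 * π * L) / L := by
    field_simp
  rw [h6, abs_div, abs_of_pos hL0, div_lt_iff₀ hL0]
  refine h4.trans_lt ?_
  have h7 : ε * log 2 / 2 * (L + |log η|) / log 2 = ε / 2 * (L + |log η|) := by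
    field_simp
  rw [h7]
  rw [div_le_iff₀ (by positivity)] at h2
  have h8 := le_abs_self K
  have h9 : 0 ≤ ε * |log η| := by positivity
  nlinarith

end RP4
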