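import Pool.Agent.Helper63.RP4.E1

/-!
M1.  Products of several heights as cluster quantities.
-/

open Finset

namespace RP4

open Classical in
/-- cluster weight of marked points `p`: all marked heights are nonzero and every cluster of `{g ≠ 0}` contains an even number of marked points
(with multiplicity) -/
noncomputable def clm {n : ℕ} (p : Fin n → V) (g : V → ℤ) : ℝ :=
  if (∀ i, g (p i) ≠ 0) ∧ ∀ i, Even (Finset.univ.filter (fun j => Conn g (p i) (p j))).card
  then ∏ i, |(g (p i) : ℝ)| else 0

lemma clm_nonneg {n : ℕ} (p : Fin n → V) (g : V → ℤ) : 0 ≤ clm p g := by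
  unfold clm
  split_ifs
  · exact Finset.prod_nonneg fun i _ => abs_nonneg _
  · exact le_rfl

private lemma M1a_conn_mono {x y : V} {g g' : V → ℤ} (h : ∀ v, g v ≠ 0 → g' v ≠ 0)
    (hc : Conn g x y) : Conn g' x y := by
  obtain ⟨hx, hr⟩ := hc
  refine ⟨h x hx, ?_⟩
  induction hr with
  | refl => exact Relation.ReflTransGen.refl
  | tail _ huv ih => exact ih.tail ⟨huv.1, h _ huv.2⟩

private lemma M1a_conn_iff {x y : V} {g g' : V → ℤ} (h : ∀ v, |g v| = |g' v|) :
    Conn g x y ↔ Conn g' x y :=
  ⟨M1a_conn_mono (fun v hv => abs_ne_zero.1 (by rw [← h v]; exact abs_ne_zero.2 hv)),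
    M1a_conn_mono (fun v hv => abs_ne_zero.1 (by rw [h v]; exact abs_ne_zero.2 hv))⟩

private lemma M1a_conn_symm {g : V → ℤ} {x y : V} (hc : Conn g x y) : Conn g y x := by
  obtain ⟨hx, hr⟩ := hc
  induction hr with
  | refl => exact ⟨hx, Relation.ReflTransGen.refl⟩
  | @tail u v _ huv ih =>
    have hvu : Adj v u := by
      have h := huv.1
      unfold Adj at *
      rw [abs_sub_comm v.1, abs_sub_comm v.2]
      exact h
    exact ⟨huv.2, Relation.ReflTransGen.head ⟨hvu, ih.1⟩ ih.2⟩

private lemma M1a_conn_trans {g : V → ℤ} {x y z : V} (h1 : Conn g x y) (h2 : Conn g y z) :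
    Conn g x z := ⟨h1.1, h1.2.trans h2.2⟩

private lemma M1a_conn_refl {g : V → ℤ} {x : V} (h : g x ≠ 0) : Conn g x x :=
  ⟨h, Relation.ReflTransGen.refl⟩

/-
If `g v ≠ 0` then `g' v ≠ 0`.  The relation `i ~ j := Conn g (p i) (p j)` is an equivalence relation on `Fin n` (all `g (p i) ≠ 0`; `Conn` is symmetric: reverse
the path); its classes are even.  `Conn g → Conn g'`, so every class of `g'` is a disjoint union of classes of `g`, hence even.  The product increases.
-/
lemma clm_mono {n : ℕ} {p : Fin n → V} {g g' : V → ℤ} (h : ∀ v, |g v| ≤ |g' v|) :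
    clm p g ≤ clm p g' := by
  classical
  by_cases hg : (∀ i, g (p i) ≠ 0) ∧
      ∀ i, Even (Finset.univ.filter (fun j => Conn g (p i) (p j))).card
  · have hne : ∀ v, g v ≠ 0 → g' v ≠ 0 := by
      intro v hv h0
      have h2 := h v
      rw [h0, abs_zero] at h2
      exact hv (abs_nonpos_iff.1 h2)
    have hg' : (∀ i, g' (p i) ≠ 0) ∧
        ∀ i, Even (Finset.univ.filter (fun j => Conn g' (p i) (p j))).card := by
      refine ⟨fun i => hne _ (hg.1 i), fun i => ?_⟩
      set S : Finset (Fin n) := Finset.univ.filter (fun j => Conn g' (p i) (p j)) with hS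
      set f : Fin n → Finset (Fin n) := fun j => Finset.univ.filter (fun k => Conn g (p j) (p k))
        with hf
      have hmaps : ∀ j ∈ S, f j ∈ S.image f := fun j hj => Finset.mem_image_of_mem f hj
      rw [Finset.card_eq_sum_card_fiberwise hmaps]
      refine Finset.even_sum _ fun c hc => ?_
      obtain ⟨j0, hj0, rfl⟩ := Finset.mem_image.1 hc
      have hfib : S.filter (fun j => f j = f j0) = f j0 := by
        ext j
        rw [Finset.mem_filter]
        constructor
        · rintro ⟨-, hj⟩
          rw [← hj, hf]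
          simp only [Finset.mem_filter, Finset.mem_univ, true_and]
          exact M1a_conn_refl (hg.1 j)
        · intro hj
          have hj' : Conn g (p j0) (p j) := by
            rw [hf] at hj
            simpa only [Finset.mem_filter, Finset.mem_univ, true_and] using hj
          refine ⟨?_, ?_⟩
          · rw [hS] at hj0 ⊢
            simp only [Finset.mem_filter, Finset.mem_univ, true_and] at hj0 ⊢
            exact M1a_conn_trans hj0 (M1a_conn_mono hne hj')
          · rw [hf]
            ext k
            simp only [Finset.mem_filter, Finset.mem_univ, true_and]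
            exact ⟨fun hk => M1a_conn_trans hj' hk,
              fun hk => M1a_conn_trans (M1a_conn_symm hj') hk⟩
      rw [hfib]
      exact hg.2 j0
    unfold clm
    rw [if_pos hg, if_pos hg']
    refine Finset.prod_le_prod (fun i _ => abs_nonneg _) fun i _ => ?_
    have := h (p i)
    exact_mod_cast this
  · have h2 : clm p g = 0 := by
      unfold clm
      rw [if_neg hg]
    rw [h2]
    exact clm_nonneg p g'

lemma clm_abs {n : ℕ} (p : Fin n → V) (g : V → ℤ) : clm p (fun v => |g v|) = clm p g := by
  have h1 : Conn (fun v => |g v|) = Conn g := by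
    funext x y
    exact propext (M1a_conn_iff (fun v => abs_abs (g v)))
  unfold clm
  rw [h1]
  simp only [ne_eq, abs_eq_zero, Int.cast_abs, abs_abs]

private lemma M1b_sign {D : Finset V} {q : ℤ} {h : V → ℤ} (hh : IsHom D q h) {x y : V}
    (hc : Conn h x y) : 0 < h x * h y := by
  obtain ⟨hx, hr⟩ := hc
  induction hr with
  | refl => exact mul_self_pos.2 hx
  | @tail u v _ huv ih =>
    have hu : h u ≠ 0 := by
      intro h0
      rw [h0, mul_zero] at ih
      exact lt_irrefl _ ih
    have huD : u ∈ D := by
      by_contra hcon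
      exact hu (hh.off u hcon)
    have hvD : v ∈ D := by
      by_contra hcon
      exact huv.2 (hh.off v hcon)
    have h1 := hh.step u huD v hvD huv.1
    have h2 := huv.2
    have h3 : (0 < h u ∧ 0 < h v) ∨ (h u < 0 ∧ h v < 0) := by
      rcases abs_cases (h u - h v) with ⟨h4, h5⟩ | ⟨h4, h5⟩ <;> rw [h4] at h1 <;> omega
    rcases h3 with ⟨h4, h5⟩ | ⟨h4, h5⟩
    · have h6 : 0 < h x := by
        by_contra hcon
        push Not at hcon
        have := mul_nonpos_of_nonpos_of_nonneg hcon h4.le
        omega
      exact mul_pos h6 h5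
    · have h6 : h x < 0 := by
        by_contra hcon
        push Not at hcon
        have := mul_nonpos_of_nonneg_of_nonpos hcon h4.le
        omega
      exact mul_pos_of_neg_of_neg h6 h5

open Classical in
/-- change of the sign on the cluster of `x` -/
private noncomputable def M1b_flip (x : V) (h : V → ℤ) : V → ℤ :=
  fun v => if Conn h x v then - h v else h v

private lemma M1b_flip_abs (x : V) (h : V → ℤ) (v : V) : |M1b_flip x h v| = |h v| := by
  unfold M1b_flip
  split_ifs
  · exact abs_neg _
  · rfl

private lemma M1b_flip_conn (x : V) (h : V → ℤ) : Conn (M1b_flip x h) = Conn h := by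
  funext a b
  exact propext (M1a_conn_iff (M1b_flip_abs x h))

private lemma M1b_flip_flip (x : V) (h : V → ℤ) : M1b_flip x (M1b_flip x h) = h := by
  funext v
  by_cases hc : Conn h x v
  · have h2 : Conn (M1b_flip x h) x v := by
      rw [M1b_flip_conn]
      exact hc
    have e1 : M1b_flip x (M1b_flip x h) v = - M1b_flip x h v := by
      conv_lhs => unfold M1b_flip
      exact if_pos h2
    have e2 : M1b_flip x h v = - h v := by
      unfold M1b_flip
      exact if_pos hc
    rw [e1, e2, neg_neg]
  · have h2 : ¬ Conn (M1b_flip x h) x v := by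
      rw [M1b_flip_conn]
      exact hc
    have e1 : M1b_flip x (M1b_flip x h) v = M1b_flip x h v := by
      conv_lhs => unfold M1b_flip
      exact if_neg h2
    have e2 : M1b_flip x h v = h v := by
      unfold M1b_flip
      exact if_neg hc
    rw [e1, e2]

private lemma M1b_ext {h : V → ℤ} {x u v : V} (hc : Conn h x u) (huv : Adj u v) (hv : h v ≠ 0) :
    Conn h x v := ⟨hc.1, hc.2.tail ⟨huv, hv⟩⟩

private lemma M1b_flip_mem {D Z : Finset V} {q : ℤ} (hZ : bdry D ⊆ Z) {x : V} {h : V → ℤ}
    (hh : h ∈ Zs D q Z) : M1b_flip x h ∈ Zs D q Z := by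
  rw [mem_Zs hZ] at hh ⊢
  obtain ⟨hh, hb⟩ := hh
  have hzero : ∀ v, h v = 0 → M1b_flip x h v = 0 := by
    intro v hv
    have h2 := M1b_flip_abs x h v
    rw [hv, abs_zero] at h2
    exact abs_eq_zero.1 h2
  refine ⟨⟨fun v hv => hzero v (hh.off v hv), fun v hv => ?_, fun u hu v hv huv => ?_⟩,
    fun v hv => hzero v (hb v hv)⟩
  · have h1 := hh.par v hv
    unfold M1b_flip
    split_ifs
    · rw [Int.even_iff] at h1 ⊢
      omega
    · exact h1
  · have h1 := hh.step u hu v hv huv
    have hvu : Adj v u := by
      have h := huv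
      unfold Adj at *
      rw [abs_sub_comm v.1, abs_sub_comm v.2]
      exact h
    unfold M1b_flip
    by_cases hu' : Conn h x u
    · by_cases hv' : Conn h x v
      · rw [if_pos hu', if_pos hv']
        have h2 : - h u - - h v = -(h u - h v) := by ring
        rw [h2, abs_neg, h1]
      · rw [if_pos hu', if_neg hv']
        have h2 : h v = 0 := by
          by_contra hcon
          exact hv' (M1b_ext hu' huv hcon)
        rw [h2, sub_zero] at h1 ⊢
        rw [abs_neg, h1]
    · by_cases hv' : Conn h x v
      · rw [if_neg hu', if_pos hv']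
        have h2 : h u = 0 := by
          by_contra hcon
          exact hu' (M1b_ext hv' hvu hcon)
        rw [h2, zero_sub] at h1 ⊢
        rw [neg_neg]
        rw [abs_neg] at h1
        exact h1
      · rw [if_neg hu', if_neg hv']
        exact h1

open Classical in
/-- some index with an odd class -/
private noncomputable def M1b_sel {n : ℕ} (Q : Fin n → Prop) : Option (Fin n) :=
  if hQ : ∃ i, Q i then some hQ.choose else none

private lemma M1b_sel_some {n : ℕ} {Q : Fin n → Prop} {i : Fin n} (h : M1b_sel Q = some i) :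
    Q i := by
  unfold M1b_sel at h
  split_ifs at h with hQ
  have h2 := hQ.choose_spec
  rw [Option.some.inj h] at h2
  exact h2

private lemma M1b_sel_none {n : ℕ} {Q : Fin n → Prop} (h : M1b_sel Q = none) (i : Fin n) :
    ¬ Q i := by
  unfold M1b_sel at h
  split_ifs at h with hQ
  exact fun hi => hQ ⟨i, hi⟩

open Classical in
/-- the class of an index is odd -/
private def M1b_odd {n : ℕ} (p : Fin n → V) (h : V → ℤ) (i : Fin n) : Prop :=
  Odd (Finset.univ.filter (fun j => Conn h (p i) (p j))).card

/-- change of the sign on an odd cluster -/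
private noncomputable def M1b_inv {n : ℕ} (p : Fin n → V) (h : V → ℤ) : V → ℤ :=
  match M1b_sel (M1b_odd p h) with
  | none => h
  | some i => M1b_flip (p i) h

private lemma M1b_inv_none {n : ℕ} {p : Fin n → V} {h : V → ℤ}
    (hs : M1b_sel (M1b_odd p h) = none) : M1b_inv p h = h := by
  unfold M1b_inv
  rw [hs]

private lemma M1b_inv_some {n : ℕ} {p : Fin n → V} {h : V → ℤ} {i : Fin n}
    (hs : M1b_sel (M1b_odd p h) = some i) : M1b_inv p h = M1b_flip (p i) h := by
  unfold M1b_inv
  rw [hs]

private lemma M1b_odd_flip {n : ℕ} (p : Fin n → V) (h : V → ℤ) (x : V) :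
    M1b_odd p (M1b_flip x h) = M1b_odd p h := by
  funext i
  unfold M1b_odd
  rw [M1b_flip_conn]

private lemma M1b_inv_inv {n : ℕ} (p : Fin n → V) (h : V → ℤ) :
    M1b_inv p (M1b_inv p h) = h := by
  rcases hs : M1b_sel (M1b_odd p h) with _ | i
  · rw [M1b_inv_none hs, M1b_inv_none hs]
  · rw [M1b_inv_some hs, M1b_inv_some (i := i) (by rw [M1b_odd_flip]; exact hs), M1b_flip_flip]

private lemma M1b_clm_zero {n : ℕ} {p : Fin n → V} {h : V → ℤ} {i : Fin n}
    (hi : M1b_odd p h i) : clm p h = 0 := by
  unfold clm
  rw [if_neg]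
  rintro ⟨-, h2⟩
  exact (Nat.not_even_iff_odd.2 hi) (h2 i)

private lemma M1b_prod_flip {n : ℕ} {p : Fin n → V} {h : V → ℤ} {i : Fin n}
    (hi : M1b_odd p h i) :
    ∏ j, (M1b_flip (p i) h (p j) : ℝ) = - ∏ j, (h (p j) : ℝ) := by
  classical
  have h1 : ∀ j, (M1b_flip (p i) h (p j) : ℝ) =
      (if Conn h (p i) (p j) then (-1 : ℝ) else 1) * (h (p j) : ℝ) := by
    intro j
    unfold M1b_flip
    split_ifs
    · push_cast
      ring
    · ring
  rw [Finset.prod_congr rfl fun j _ => h1 j, Finset.prod_mul_distrib, Finset.prod_ite,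
    Finset.prod_const, Finset.prod_const_one, mul_one]
  have h2 : (-1 : ℝ) ^ (Finset.univ.filter (fun j => Conn h (p i) (p j))).card = -1 := by
    have h3 : Odd (Finset.univ.filter (fun j => Conn h (p i) (p j))).card := by
      unfold M1b_odd at hi
      convert hi
    exact h3.neg_one_pow
  rw [h2]
  ring

private lemma M1b_prod_even {n : ℕ} {D : Finset V} {q : ℤ} {p : Fin n → V} {h : V → ℤ}
    (hh : IsHom D q h) (hne : ∀ i, h (p i) ≠ 0) (hev : ∀ i, ¬ M1b_odd p h i) :
    ∏ j, (h (p j) : ℝ) = ∏ j, |(h (p j) : ℝ)| := by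
  classical
  set s : Fin n → ℝ := fun j => if 0 < h (p j) then 1 else -1 with hs
  have h1 : ∀ j, (h (p j) : ℝ) = s j * |(h (p j) : ℝ)| := by
    intro j
    rw [hs]
    dsimp only
    split_ifs with h0
    · rw [abs_of_pos (by exact_mod_cast h0), one_mul]
    · have h2 : (h (p j) : ℝ) ≤ 0 := by exact_mod_cast not_lt.1 h0
      rw [abs_of_nonpos h2]
      ring
  rw [Finset.prod_congr rfl fun j _ => h1 j, Finset.prod_mul_distrib]
  have h2 : ∏ j, s j = 1 := by
    set f : Fin n → Finset (Fin n) := fun j => Finset.univ.filter (fun k => Conn h (p j) (p k))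
      with hf
    rw [← Finset.prod_fiberwise_of_maps_to (s := Finset.univ) (t := Finset.univ.image f) (g := f)
      (fun j _ => Finset.mem_image_of_mem f (Finset.mem_univ j)) s]
    refine Finset.prod_eq_one fun c hc => ?_
    obtain ⟨j0, -, rfl⟩ := Finset.mem_image.1 hc
    have hfib : Finset.univ.filter (fun j => f j = f j0) = f j0 := by
      ext j
      rw [Finset.mem_filter]
      constructor
      · rintro ⟨-, hj⟩
        rw [← hj, hf]
        simp only [Finset.mem_filter, Finset.mem_univ, true_and]
        exact M1a_conn_refl (hne j)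
      · intro hj
        have hj' : Conn h (p j0) (p j) := by
          rw [hf] at hj
          simpa only [Finset.mem_filter, Finset.mem_univ, true_and] using hj
        refine ⟨Finset.mem_univ _, ?_⟩
        rw [hf]
        ext k
        simp only [Finset.mem_filter, Finset.mem_univ, true_and]
        exact ⟨fun hk => M1a_conn_trans hj' hk, fun hk => M1a_conn_trans (M1a_conn_symm hj') hk⟩
    rw [hfib]
    have hconst : ∀ j ∈ f j0, s j = s j0 := by
      intro j hj
      have hj' : Conn h (p j0) (p j) := by
        rw [hf] at hj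
        simpa only [Finset.mem_filter, Finset.mem_univ, true_and] using hj
      have h3 := M1b_sign hh hj'
      rw [hs]
      dsimp only
      by_cases h4 : 0 < h (p j0)
      · have h6 : 0 < h (p j) := by
          by_contra hcon
          push Not at hcon
          nlinarith
        rw [if_pos h4, if_pos h6]
      · have h5 : h (p j0) < 0 := lt_of_le_of_ne (not_lt.1 h4) (hne j0)
        have h6 : ¬ 0 < h (p j) := fun h6 => by nlinarith
        rw [if_neg h4, if_neg h6]
    rw [Finset.prod_congr rfl hconst, Finset.prod_const]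
    have h7 : Even (f j0).card := by
      have h8 := hev j0
      unfold M1b_odd at h8
      rw [Nat.not_odd_iff_even] at h8
      convert h8
    have h9 : s j0 = 1 ∨ s j0 = -1 := by
      rw [hs]
      dsimp only
      split_ifs
      · exact Or.inl rfl
      · exact Or.inr rfl
    rcases h9 with h9 | h9
    · rw [h9, one_pow]
    · rw [h9, h7.neg_one_pow]
  rw [h2, one_mul]

/-
(Compare `cov_clu` in E1.lean, `n = 2`.)  (1) If all classes are even, the product of the heights is the product of the absolute values (heights in one cluster have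
the same sign).  (2) The sum of `∏ h (p i)` over the `h` with all `h (p i) ≠ 0` for which some class is odd vanishes: let `i` be the least index with an odd class; change the
sign of `h` on the cluster of `p i` (involution preserving `|h|`, the clusters and `i`; the product is multiplied by `(-1)^odd`).  The changed function is again in
`Zs D q Z`: see the proof of `cov_clu`.  (3) If some `h (p i) = 0` both sides are `0`.
-/
theorem prod_clm {n : ℕ} (D : Finset V) (q : ℤ) (Z : Finset V) (hZ : bdry D ⊆ Z) (p : Fin n → V) :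
    ∑ h ∈ Zs D q Z, ∏ i, (h (p i) : ℝ) = ∑ h ∈ Zs D q Z, clm p h := by
  classical
  rw [← sub_eq_zero, ← Finset.sum_sub_distrib]
  have hnone : ∀ h ∈ Zs D q Z, M1b_sel (M1b_odd p h) = none →
      ∏ i, (h (p i) : ℝ) - clm p h = 0 := by
    intro h hh hs
    have hev := M1b_sel_none hs
    by_cases hne : ∀ i, h (p i) ≠ 0
    · rw [M1b_prod_even ((mem_Zs hZ).1 hh).1 hne hev]
      unfold clm
      rw [if_pos ⟨hne, fun i => by
        have h8 := hev i
        unfold M1b_odd at h8
        rw [Nat.not_odd_iff_even] at h8
        convert h8⟩, sub_self]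
    · have h1 : clm p h = 0 := by
        unfold clm
        rw [if_neg (fun hcon => hne hcon.1)]
      push Not at hne
      obtain ⟨i, hi⟩ := hne
      rw [h1, Finset.prod_eq_zero (Finset.mem_univ i) (by rw [hi]; simp), sub_zero]
  refine Finset.sum_involution (fun h _ => M1b_inv p h) ?_ ?_ ?_ ?_
  · intro h hh
    rcases hs : M1b_sel (M1b_odd p h) with _ | i
    · rw [M1b_inv_none hs, hnone h hh hs, add_zero]
    · have hi := M1b_sel_some hs
      have hi' : M1b_odd p (M1b_flip (p i) h) i := by
        rw [M1b_odd_flip]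
        exact hi
      rw [M1b_inv_some hs, M1b_clm_zero hi, M1b_clm_zero hi', M1b_prod_flip hi]
      ring
  · intro h hh hne heq
    rcases hs : M1b_sel (M1b_odd p h) with _ | i
    · exact hne (hnone h hh hs)
    · have hi := M1b_sel_some hs
      rw [M1b_clm_zero hi, sub_zero] at hne
      have hx : h (p i) ≠ 0 := by
        intro h0
        apply hne
        rw [Finset.prod_eq_zero (Finset.mem_univ i) (by rw [h0]; simp)]
      rw [M1b_inv_some hs] at heq
      have h3 := congrFun heq (p i)
      have h2 : M1b_flip (p i) h (p i) = - h (p i) := by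
        unfold M1b_flip
        rw [if_pos (M1a_conn_refl hx)]
      rw [h2] at h3
      omega
  · intro h hh
    rcases hs : M1b_sel (M1b_odd p h) with _ | i
    · rw [M1b_inv_none hs]
      exact hh
    · rw [M1b_inv_some hs]
      exact M1b_flip_mem hZ hh
  · intro h hh
    exact M1b_inv_inv p h

end RP4
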