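import Pool.Agent.Helper63.RP4.E3
import Pool.Agent.Helper63.RP4.M1

/-!
M2.  Products of pinned heights increase with the domain.
-/

open Finset

namespace RP4

/-- `avg_restrict` for functions which only depend on the inner part -/
private lemma M2_restrict (D D' : Finset V) (hDD' : D ⊆ D') (q : ℤ) (hp : BdryPar D q)
    (hp' : BdryPar D' q) (Z0 : Finset V) (hZ0 : Z0 ⊆ D) (hZ0p : ∀ v ∈ Z0, Even (par v - q))
    (F : (V → ℤ) → ℝ)
    (hF : ∀ g ∈ Zs D' q (bdry D' ∪ bdry D ∪ Z0), F g = F (A06_in D g)) :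
    avg (Zs D' q (bdry D' ∪ bdry D ∪ Z0)) F = avg (Zs D q (bdry D ∪ Z0)) F := by
  classical
  set A := Zs D' q (bdry D' ∪ bdry D ∪ Z0) with hA
  set B := Zs D q (bdry D ∪ Z0) with hB
  have hne : A.Nonempty := by
    refine ⟨flat D' q, flat_mem_Zs (A06_sub1 D D' Z0) ?_ ?_⟩
    · intro v hv
      rcases mem_union.1 hv with hv | hv
      · rcases mem_union.1 hv with hv | hv
        · exact bdry_subset D' hv
        · exact hDD' (bdry_subset D hv)
      · exact hDD' (hZ0 hv)
    · intro v hv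
      rcases mem_union.1 hv with hv | hv
      · rcases mem_union.1 hv with hv | hv
        · exact hp' v hv
        · exact hp v hv
      · exact hZ0p v hv
  have hBoff : ∀ u ∈ B, ∀ v, v ∉ D → u v = 0 := fun u hu v hv =>
    ((mem_Zs (A06_sub2 D Z0)).1 hu).1.off v hv
  set O := A.image (A06_out D) with hO
  have hOne : O.Nonempty := hne.image _
  have key : ∀ G : (V → ℤ) → ℝ, (∀ g ∈ A, G g = G (A06_in D g)) →
      ∑ g ∈ A, G g = O.card * ∑ u ∈ B, G u := by
    intro G hG
    have h1 : ∑ g ∈ A, G g = ∑ q ∈ B ×ˢ O, G q.1 := by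
      refine Finset.sum_nbij' (fun g => (A06_in D g, A06_out D g)) (fun q => q.1 + q.2)
        ?_ ?_ ?_ ?_ ?_
      · intro g hg
        exact mem_product.2 ⟨A06_rho hDD' hZ0 hg, mem_image_of_mem _ hg⟩
      · intro q hq
        obtain ⟨h1, h2⟩ := mem_product.1 hq
        obtain ⟨g, hg, hg'⟩ := mem_image.1 h2
        rw [← hg']
        exact A06_glue hDD' h1 hg
      · intro g hg
        funext v
        by_cases hv : v ∈ D
        · simp only [Pi.add_apply, A06_in_mem D g hv, A06_out_mem D g hv, add_zero]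
        · simp only [Pi.add_apply, A06_in_not D g hv, A06_out_not D g hv, zero_add]
      · intro q hq
        obtain ⟨h1, h2⟩ := mem_product.1 hq
        obtain ⟨g, hg, hg'⟩ := mem_image.1 h2
        have h3 := hBoff _ h1
        ext v
        · by_cases hv : v ∈ D
          · simp only [A06_in_mem D _ hv, Pi.add_apply, ← hg', A06_out_mem D g hv, add_zero]
          · simp only [A06_in_not D _ hv, h3 v hv]
        · by_cases hv : v ∈ D
          · simp only [A06_out_mem D _ hv, ← hg']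
          · simp only [A06_out_not D _ hv, Pi.add_apply, h3 v hv, zero_add]
      · intro g hg
        exact hG g hg
    rw [h1, Finset.sum_product, Finset.mul_sum]
    refine Finset.sum_congr rfl fun u _ => ?_
    simp only [sum_const, nsmul_eq_mul]
  have hc := key (fun _ => 1) (fun _ _ => rfl)
  simp only [sum_const, nsmul_eq_mul, mul_one] at hc
  have hOc : (O.card : ℝ) ≠ 0 := by
    exact_mod_cast hOne.card_pos.ne'
  unfold avg
  rw [key F hF, hc, mul_div_mul_left _ _ hOc]

private lemma M2_step_in {D : Finset V} {g : V → ℤ} {v : V} (h : A06_in D g v ≠ 0) : g v ≠ 0 := by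
  by_cases hv : v ∈ D
  · rwa [A06_in_mem D g hv] at h
  · exact absurd (A06_in_not D g hv) h

private lemma M2_conn {D : Finset V} {g : V → ℤ} (h0 : ∀ v ∈ bdry D, g v = 0) {x y : V}
    (hx : x ∈ D) : Conn g x y ↔ Conn (A06_in D g) x y := by
  constructor
  · rintro ⟨h1, h2⟩
    have key : ∀ z, Relation.ReflTransGen (fun u v => Adj u v ∧ g v ≠ 0) x z →
        z ∈ D ∧ g z ≠ 0 ∧
          Relation.ReflTransGen (fun u v => Adj u v ∧ A06_in D g v ≠ 0) x z := by
      intro z hz
      induction hz with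
      | refl => exact ⟨hx, h1, Relation.ReflTransGen.refl⟩
      | @tail b c _ hbc ih =>
        obtain ⟨i1, i2, i3⟩ := ih
        have hcD : c ∈ D := by
          by_contra hc
          exact i2 (h0 b (mem_bdry.2 ⟨i1, c, A06_adj hbc.1, hc⟩))
        refine ⟨hcD, hbc.2, i3.tail ⟨hbc.1, ?_⟩⟩
        rw [A06_in_mem D g hcD]
        exact hbc.2
    refine ⟨?_, (key y h2).2.2⟩
    rw [A06_in_mem D g hx]
    exact h1
  · rintro ⟨h1, h2⟩
    exact ⟨M2_step_in h1, Relation.ReflTransGen.mono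
      (fun u v huv => ⟨huv.1, M2_step_in huv.2⟩) _ _ h2⟩

/-
As `clu_restrict` (E3.lean) and `avg_restrict` (A06.lean).
-/
theorem clm_restrict {n : ℕ} (D D' : Finset V) (hDD' : D ⊆ D') (q : ℤ) (hp : BdryPar D q)
    (hp' : BdryPar D' q) (Z0 : Finset V) (hZ0 : Z0 ⊆ D) (hZ0p : ∀ v ∈ Z0, Even (par v - q))
    (p : Fin n → V) (hpD : ∀ i, p i ∈ D) :
    avg (Zs D' q (bdry D' ∪ bdry D ∪ Z0)) (clm p) = avg (Zs D q (bdry D ∪ Z0)) (clm p) := by
  classical
  refine M2_restrict D D' hDD' q hp hp' Z0 hZ0 hZ0p _ fun g hg => ?_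
  have h0 : ∀ v ∈ bdry D, g v = 0 := fun v hv =>
    ((mem_Zs (A06_sub1 D D' Z0)).1 hg).2 v (mem_union_left _ (mem_union_right _ hv))
  have h1 : ∀ i, A06_in D g (p i) = g (p i) := fun i => A06_in_mem D g (hpD i)
  have h2 : ∀ i j, Conn (A06_in D g) (p i) (p j) ↔ Conn g (p i) (p j) :=
    fun i j => (M2_conn h0 (hpD i)).symm
  unfold clm
  simp only [h1, h2]

private lemma M2_pin (D : Finset V) :
    Pin D (0, 0) 0 = Zs D 0 (bdry D ∪ {((0, 0) : V)}) := by
  have h1 : par ((0, 0) : V) = 0 := by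
    unfold par
    norm_num
  rw [Pin_zero_eq, h1, Finset.insert_eq, union_comm]

private lemma M2_avg {n : ℕ} (D : Finset V) (p : Fin n → V) :
    avg (Pin D (0, 0) 0) (fun g => ∏ i, (g (p i) : ℝ)) =
      avg (Zs D 0 (bdry D ∪ {((0, 0) : V)})) (clm p) := by
  rw [M2_pin]
  unfold avg
  rw [prod_clm D 0 (bdry D ∪ {((0, 0) : V)}) subset_union_left p]

/-
`Pin D 0 0 = Zs D 0 (bdry D ∪ {0})` (`Pin_zero_eq`), `prod_clm`, `clm_restrict` with `Z0 = {0}`, `abs_fkg_gen`.
-/
theorem pin_prod_mono {n : ℕ} (D D' : Finset V) (hDD' : D ⊆ D') (h0 : ((0, 0) : V) ∈ D)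
    (hp : BdryPar D 0) (hp' : BdryPar D' 0) (p : Fin n → V) (hpD : ∀ i, p i ∈ D) :
    avg (Pin D (0, 0) 0) (fun g => ∏ i, (g (p i) : ℝ)) ≤
      avg (Pin D' (0, 0) 0) (fun g => ∏ i, (g (p i) : ℝ)) := by
  classical
  have h00 : ∀ v ∈ ({((0, 0) : V)} : Finset V), Even (par v - 0) := by
    intro v hv
    rw [mem_singleton.1 hv]
    unfold par
    norm_num
  rw [M2_avg, M2_avg, ← clm_restrict D D' hDD' 0 hp hp' {((0, 0) : V)}
    (singleton_subset_iff.2 h0) h00 p hpD]
  refine abs_fkg_gen D' 0 (bdry D' ∪ {((0, 0) : V)}) (bdry D' ∪ bdry D ∪ {((0, 0) : V)})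
    subset_union_left ?_ ?_ ?_ (clm p) (clm_nonneg p) (clm_abs p) ?_
  · intro v hv
    rcases mem_union.1 hv with hv | hv
    · exact mem_union_left _ (mem_union_left _ hv)
    · exact mem_union_right _ hv
  · intro v hv
    rcases mem_union.1 hv with hv | hv
    · rcases mem_union.1 hv with hv | hv
      · exact bdry_subset D' hv
      · exact hDD' (bdry_subset D hv)
    · rw [mem_singleton.1 hv]
      exact hDD' h0
  · intro v hv
    rcases mem_union.1 hv with hv | hv
    · rcases mem_union.1 hv with hv | hv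
      · exact hp' v hv
      · exact hp v hv
    · exact h00 v hv
  · intro g g' hg hgg'
    refine clm_mono fun v => ?_
    rw [abs_of_nonneg (hg v), abs_of_nonneg ((hg v).trans (hgg' v))]
    exact hgg' v

end RP4
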