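import Pool.Agent.Helper63.RP4.M2
import Pool.Agent.Helper63.RP4.T3

/-!
M3.  Local limit of the pinned measures.
-/

open Finset Filter Topology

namespace RP4

private lemma M3a_mono_limit (M : Finset V → ℝ) (F₀ : Finset V) (B : ℝ)
    (hmono : ∀ D D' : Finset V, F₀ ⊆ D → D ⊆ D' → BdryPar D 0 → BdryPar D' 0 → M D ≤ M D')
    (hB : ∀ D : Finset V, F₀ ⊆ D → BdryPar D 0 → M D ≤ B) :
    ∃ S : ℝ, Tendsto M dom (𝓝 S) := by
  set T : Set ℝ := {r | ∃ D, F₀ ⊆ D ∧ BdryPar D 0 ∧ M D = r} with hT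
  have hne : T.Nonempty := by
    have h0 : ∀ᶠ D in dom, F₀ ⊆ D ∧ BdryPar D 0 :=
      eventually_dom.2 ⟨F₀, fun D h1 h2 => ⟨h1, h2⟩⟩
    obtain ⟨D, hD⟩ := h0.exists
    exact ⟨M D, D, hD.1, hD.2, rfl⟩
  have hbd : BddAbove T := ⟨B, by rintro r ⟨D, h1, h2, rfl⟩; exact hB D h1 h2⟩
  refine ⟨sSup T, ?_⟩
  rw [Metric.tendsto_nhds]
  intro ε hε
  obtain ⟨r, ⟨D₀, h1, h2, rfl⟩, hr⟩ := exists_lt_of_lt_csSup hne (sub_lt_self (sSup T) hε)
  rw [eventually_dom]
  refine ⟨D₀, fun D hD hD' => ?_⟩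
  have h3 := hmono D₀ D h1 hD h2 hD'
  have h4 : M D ≤ sSup T := le_csSup hbd ⟨D, h1.trans hD, hD', rfl⟩
  rw [Real.dist_eq, abs_lt]
  constructor <;> linarith

/-
Monotone (`pin_prod_mono`) and bounded by `∏ dist1 0 (p i)` for large `D` (`IsHom.lip`): converges along `dom` (see `T3_mono_limit` / the proof of `pin_limit` in T3.lean).
-/
theorem pin_prod_limit {n : ℕ} (p : Fin n → V) :
    ∃ l : ℝ, Tendsto (fun D => avg (Pin D (0, 0) 0) (fun g => ∏ i, (g (p i) : ℝ))) dom (𝓝 l) := by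
  have hp0 : par ((0, 0) : V) = 0 := by simp [par]
  set m : ℕ := Finset.univ.sup (fun i : Fin n => (dist1 (0, 0) (p i)).toNat) with hm
  have hd0 : ∀ i, 0 ≤ dist1 (0, 0) (p i) := fun i => by unfold dist1; positivity
  have hle : ∀ i, dist1 (0, 0) (p i) ≤ m := by
    intro i
    have h1 : (dist1 (0, 0) (p i)).toNat ≤ m :=
      Finset.le_sup (f := fun i : Fin n => (dist1 (0, 0) (p i)).toNat) (Finset.mem_univ i)
    have h2 := Int.toNat_of_nonneg (hd0 i)
    omega
  have hball : ∀ i v, dist1 (0, 0) v ≤ dist1 (0, 0) (p i) → v ∈ diam m := by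
    intro i v hv
    rw [mem_diam]
    refine le_trans (le_of_eq ?_) (hv.trans (hle i))
    simp [dist1]
  have hy : ∀ i, p i ∈ diam m := fun i => hball i (p i) le_rfl
  have h0 : ((0, 0) : V) ∈ diam m := by
    rw [mem_diam]
    simp
  refine M3a_mono_limit _ (diam m) (∏ i, (dist1 (0, 0) (p i) : ℝ)) ?_ ?_
  · intro D D' hD hDD' hp hp'
    exact pin_prod_mono D D' hDD' (hD h0) hp hp' p (fun i => hD (hy i))
  · intro D hD hp
    have hne : (Pin D (0, 0) 0).Nonempty := by
      refine ⟨flat D (par ((0, 0) : V)), ?_⟩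
      rw [Pin_zero_eq]
      refine flat_mem_Zs (Finset.subset_insert _ _) ?_ ?_
      · exact Finset.insert_subset (hD h0) (bdry_subset D)
      · intro v hv
        rcases Finset.mem_insert.1 hv with rfl | hv
        · simp
        · rw [hp0]
          exact hp v hv
    have hc : (0 : ℝ) < (Pin D (0, 0) 0).card := by exact_mod_cast Finset.card_pos.2 hne
    unfold avg
    rw [div_le_iff₀ hc, mul_comm, ← nsmul_eq_mul]
    apply Finset.sum_le_card_nsmul
    intro g hg
    rw [mem_Pin] at hg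
    refine (le_abs_self _).trans ?_
    rw [Finset.abs_prod]
    refine Finset.prod_le_prod (fun i _ => abs_nonneg _) fun i _ => ?_
    have h3 := hg.1.lip (0, 0) (p i) (fun v hv => hD (hball i v hv))
    rw [hg.2.1, sub_zero] at h3
    exact_mod_cast h3

/-- the evaluation functions -/
private def M3_ev (x : V) : (V → ℤ) → ℝ := fun g => (g x : ℝ)

/-- the polynomials in the heights -/
private noncomputable def M3_alg : Subalgebra ℝ ((V → ℤ) → ℝ) := Algebra.adjoin ℝ (Set.range M3_ev)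

private lemma M3_mon {f : (V → ℤ) → ℝ} (hf : f ∈ Submonoid.closure (Set.range M3_ev)) :
    ∃ l : List V, f = fun g => (l.map (fun x => (g x : ℝ))).prod := by
  induction hf using Submonoid.closure_induction with
  | mem x hx =>
    obtain ⟨y, rfl⟩ := hx
    exact ⟨[y], by funext g; simp [M3_ev]⟩
  | one => exact ⟨[], by funext g; simp⟩
  | mul x y _ _ hx hy =>
    obtain ⟨l, rfl⟩ := hx
    obtain ⟨l', rfl⟩ := hy
    exact ⟨l ++ l', by funext g; simp⟩

private lemma M3_lim {f : (V → ℤ) → ℝ} (hf : f ∈ M3_alg) :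
    ∃ l : ℝ, Tendsto (fun D => avg (Pin D (0, 0) 0) f) dom (𝓝 l) := by
  have h1 : f ∈ Submodule.span ℝ (Submonoid.closure (Set.range M3_ev) : Set ((V → ℤ) → ℝ)) := by
    rw [← Algebra.adjoin_eq_span]
    exact hf
  clear hf
  induction h1 using Submodule.span_induction with
  | mem x hx =>
    obtain ⟨l, rfl⟩ := M3_mon hx
    obtain ⟨c, hc⟩ := pin_prod_limit (fun i : Fin l.length => l[i])
    refine ⟨c, hc.congr fun D => ?_⟩
    congr 1
    funext g
    exact Fin.prod_univ_fun_getElem l (fun x => (g x : ℝ))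
  | zero =>
    refine ⟨0, ?_⟩
    have : (fun D => avg (Pin D (0, 0) 0) (0 : (V → ℤ) → ℝ)) = fun _ => 0 := by
      funext D
      simp [avg]
    rw [this]
    exact tendsto_const_nhds
  | add x y _ _ hx hy =>
    obtain ⟨a, ha⟩ := hx
    obtain ⟨b, hb⟩ := hy
    refine ⟨a + b, (ha.add hb).congr fun D => ?_⟩
    simp only [avg, Pi.add_apply, Finset.sum_add_distrib, add_div]
  | smul c x _ hx =>
    obtain ⟨a, ha⟩ := hx
    refine ⟨c * a, (ha.const_mul c).congr fun D => ?_⟩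
    simp only [avg, Pi.smul_apply, smul_eq_mul, ← Finset.mul_sum, mul_div_assoc]

/-- the indicator of `g = a` on `s`, for `|g| ≤ N` on `s` -/
private noncomputable def M3_ind (s : Finset V) (N : ℤ) (a : V → ℤ) : (V → ℤ) → ℝ := fun g =>
  ∏ x ∈ s, ∏ b ∈ (Finset.Icc (-N) N).erase (a x), ((g x : ℝ) - b) / ((a x : ℝ) - b)

private lemma M3_ind_mem (s : Finset V) (N : ℤ) (a : V → ℤ) : M3_ind s N a ∈ M3_alg := by
  have h : M3_ind s N a = ∏ x ∈ s, ∏ b ∈ (Finset.Icc (-N) N).erase (a x),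
      ((1 / ((a x : ℝ) - b)) • (M3_ev x - algebraMap ℝ ((V → ℤ) → ℝ) b)) := by
    funext g
    unfold M3_ind
    rw [Finset.prod_apply]
    refine Finset.prod_congr rfl fun x _ => ?_
    rw [Finset.prod_apply]
    refine Finset.prod_congr rfl fun b _ => ?_
    simp only [Pi.smul_apply, Pi.sub_apply, M3_ev, smul_eq_mul, Pi.algebraMap_apply,
      Algebra.algebraMap_self, RingHom.id_apply]
    ring
  rw [h]
  refine Subalgebra.prod_mem _ fun x _ => Subalgebra.prod_mem _ fun b _ => ?_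
  refine Subalgebra.smul_mem _ (Subalgebra.sub_mem _ ?_ (Subalgebra.algebraMap_mem _ _)) _
  exact Algebra.subset_adjoin ⟨x, rfl⟩

private lemma M3_ind_one (s : Finset V) (N : ℤ) (a g : V → ℤ) (h : ∀ x ∈ s, g x = a x) :
    M3_ind s N a g = 1 := by
  unfold M3_ind
  refine Finset.prod_eq_one fun x hx => Finset.prod_eq_one fun b hb => ?_
  rw [h x hx]
  refine div_self ?_
  rw [Finset.mem_erase] at hb
  have h1 : (a x : ℝ) ≠ b := by exact_mod_cast hb.1.symm
  exact sub_ne_zero.2 h1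

private lemma M3_ind_zero (s : Finset V) (N : ℤ) (a g : V → ℤ) {x : V} (hx : x ∈ s)
    (hg : |g x| ≤ N) (h : g x ≠ a x) : M3_ind s N a g = 0 := by
  unfold M3_ind
  refine Finset.prod_eq_zero hx ?_
  refine Finset.prod_eq_zero (i := g x) ?_ ?_
  · rw [Finset.mem_erase, Finset.mem_Icc]
    exact ⟨h, abs_le.1 hg⟩
  · simp

open Classical in
/-- the grid -/
private noncomputable def M3_grid (s : Finset V) (N : ℤ) : Finset (V → ℤ) :=
  (s.pi fun _ => Finset.Icc (-N) N).image fun f x => if h : x ∈ s then f x h else 0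

private lemma M3_sum (s : Finset V) (F : (V → ℤ) → ℝ)
    (hF : ∀ g g' : V → ℤ, (∀ x ∈ s, g x = g' x) → F g = F g') (N : ℤ) (g : V → ℤ)
    (hg : ∀ x ∈ s, |g x| ≤ N) :
    ∑ a ∈ M3_grid s N, F a * M3_ind s N a g = F g := by
  classical
  set a0 : V → ℤ := fun x => if x ∈ s then g x else 0 with ha0
  have h0 : a0 ∈ M3_grid s N := by
    unfold M3_grid
    rw [Finset.mem_image]
    refine ⟨fun x _ => g x, ?_, ?_⟩
    · rw [Finset.mem_pi]
      intro x hx
      rw [Finset.mem_Icc]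
      exact abs_le.1 (hg x hx)
    · funext x
      by_cases hx : x ∈ s
      · simp [ha0, hx]
      · simp [ha0, hx]
  have h1 : ∀ x ∈ s, g x = a0 x := fun x hx => by simp [ha0, hx]
  rw [Finset.sum_eq_single a0]
  · rw [M3_ind_one s N a0 g h1, mul_one]
    exact (hF g a0 h1).symm
  · intro a ha hne
    have h2 : ∃ x ∈ s, g x ≠ a x := by
      by_contra hc
      push Not at hc
      apply hne
      funext x
      by_cases hx : x ∈ s
      · rw [← hc x hx]
        simp [ha0, hx]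
      · unfold M3_grid at ha
        rw [Finset.mem_image] at ha
        obtain ⟨f, -, rfl⟩ := ha
        simp [ha0, hx]
    obtain ⟨x, hx, h3⟩ := h2
    rw [M3_ind_zero s N a g hx (hg x hx) h3, mul_zero]
  · intro h
    exact absurd h0 h

/-
For `D` containing the balls, `|g x| ≤ N` for `x ∈ s`.  Lagrange interpolation: on such `g`, `F g = Σ_{a : s → Icc (-N) N} F(a) ∏_{x ∈ s} ∏_{b ≠ a x} (g x - b)/(a x - b)`, a finite
linear combination of monomials `∏_{x ∈ s} (g x)^{k x} = ∏ i, g (p i)` (suitable `n`, `p : Fin n → V`), so `pin_prod_limit` and linearity.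
-/
theorem pin_local_limit (s : Finset V) (F : (V → ℤ) → ℝ)
    (hF : ∀ g g' : V → ℤ, (∀ x ∈ s, g x = g' x) → F g = F g') :
    ∃ l : ℝ, Tendsto (fun D => avg (Pin D (0, 0) 0) F) dom (𝓝 l) := by
  set m : ℕ := s.sup (fun x => (dist1 (0, 0) x).toNat) with hm
  have hle : ∀ x ∈ s, dist1 (0, 0) x ≤ m := by
    intro x hx
    have h1 : (dist1 (0, 0) x).toNat ≤ m :=
      Finset.le_sup (f := fun x : V => (dist1 (0, 0) x).toNat) hx
    have h2 : 0 ≤ dist1 (0, 0) x := by unfold dist1; positivity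
    omega
  set G : (V → ℤ) → ℝ := ∑ a ∈ M3_grid s m, F a • M3_ind s m a with hG
  have hGm : G ∈ M3_alg := Subalgebra.sum_mem _ fun a _ => Subalgebra.smul_mem _
    (M3_ind_mem s m a) _
  obtain ⟨l, hl⟩ := M3_lim hGm
  refine ⟨l, hl.congr' ?_⟩
  have h1 : ∀ᶠ D in dom, diam m ⊆ D := by
    rw [eventually_dom]
    exact ⟨diam m, fun D h _ => h⟩
  refine h1.mono fun D hD => ?_
  have key : ∑ g ∈ Pin D (0, 0) 0, G g = ∑ g ∈ Pin D (0, 0) 0, F g := by
    refine Finset.sum_congr rfl fun g hg => ?_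
    rw [mem_Pin] at hg
    have hb : ∀ x ∈ s, |g x| ≤ m := by
      intro x hx
      have h3 := hg.1.lip (0, 0) x (fun v hv => hD (by
        rw [mem_diam]
        have h4 : dist1 (0, 0) v = |v.1| + |v.2| := by simp [dist1]
        rw [← h4]
        exact hv.trans (hle x hx)))
      rw [hg.2.1, sub_zero] at h3
      exact h3.trans (hle x hx)
    refine Eq.trans ?_ (M3_sum s F hF m g hb)
    rw [hG, Finset.sum_apply]
    rfl
  show avg (Pin D (0, 0) 0) G = avg (Pin D (0, 0) 0) F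
  unfold avg
  rw [key]

end RP4
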