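import Pool.Agent.Helper63.RP4.A08s
import Pool.Agent.Helper63.RP4.A09
import Pool.Agent.Helper63.RP4.A10
import Pool.Agent.Helper63.RP4.A11

/-!
M4.  The key estimate for functions of several heights.
-/

open Finset

namespace RP4

private lemma M4_dom_even (D : Finset V) (w : V) (c : ℤ) (hq : BdryPar D (par w)) (hw : w ∈ D)
    (hc : 0 ≤ c) (hne : (Pin D w c).Nonempty) (s : Finset V)
    (Φ : (V → ℤ) → ℝ) (hΦ : ∀ g g' : V → ℤ, (∀ x ∈ s, g x ≤ g' x) → Φ g ≤ Φ g') :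
    avg (Pin D w 0) Φ ≤ avg (Pin D w c) Φ := by
  refine holley_avg (Pin D w c) (Pin D w 0) hne ?_ ?_ ?_ Φ ?_
  · refine ⟨flat D (par w), ?_⟩
    rw [Pin_zero_eq]
    refine flat_mem_Zs (Finset.subset_insert _ _) ?_ ?_
    · exact Finset.insert_subset hw (bdry_subset D)
    · intro v hv
      rcases Finset.mem_insert.1 hv with rfl | hv
      · simp
      · exact hq v hv
  · intro a ha b hb
    rw [mem_Pin] at ha hb ⊢
    refine ⟨ha.1.sup hb.1, ?_, fun v hv => ?_⟩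
    · rw [Pi.sup_apply, ha.2.1, hb.2.1, sup_idem]
    · rw [Pi.sup_apply, ha.2.2 v hv, hb.2.2 v hv]
      exact max_eq_left hc
  · intro a ha b hb
    rw [mem_Pin] at ha hb ⊢
    refine ⟨ha.1.inf hb.1, ?_, fun v hv => ?_⟩
    · rw [Pi.inf_apply, ha.2.1, hb.2.1, inf_idem]
    · rw [Pi.inf_apply, ha.2.2 v hv, hb.2.2 v hv]
      exact min_eq_right hc
  · intro a _ b _
    exact hΦ _ _ fun x _ => (le_sup_right : b x ≤ (a ⊔ b) x)

private lemma M4_dom_odd (D : Finset V) (w : V) (c : ℤ) (hq : BdryPar D (par w + 1))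
    (hw : w ∈ core D) (hc : 1 ≤ c) (hne : (Pin D w c).Nonempty) (s : Finset V)
    (hs : ∀ x ∈ s, x ∈ core D) (Φ : (V → ℤ) → ℝ)
    (hΦ : ∀ g g' : V → ℤ, (∀ x ∈ s, g x ≤ g' x) → Φ g ≤ Φ g') :
    avg (Pin (core D) w 0) Φ ≤ avg (Pin D w c) Φ := by
  classical
  obtain ⟨B, hB⟩ : ∃ B : Finset (V → ℤ), ∀ g, g ∈ B ↔
      (g ∈ Pin D w 1 ∧ ∀ v ∈ bdry (core D), g v = 0) :=
    ⟨(Pin D w 1).filter (fun g => ∀ v ∈ bdry (core D), g v = 0), fun g => mem_filter⟩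
  have hext : ∀ g ∈ Pin (core D) w 0, A08o_ext D g ∈ B :=
    fun g hg => (hB _).2 (A08o_ext_mem hq hw hg)
  have hres : ∀ g ∈ B, A08o_res D g ∈ Pin (core D) w 0 :=
    fun g hg => A08o_res_mem hw ((hB g).1 hg).1 ((hB g).1 hg).2
  have hl : ∀ g ∈ Pin (core D) w 0, A08o_res D (A08o_ext D g) = g := by
    intro g hg
    funext v
    unfold A08o_res A08o_ext
    by_cases h4 : v ∈ bdry D
    · simp only [if_pos h4]
      exact ((mem_Pin.1 hg).1.off v (A08o_not_core h4)).symm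
    · simp only [if_neg h4]
  have hr : ∀ g ∈ B, A08o_ext D (A08o_res D g) = g := by
    intro g hg
    funext v
    unfold A08o_res A08o_ext
    by_cases h4 : v ∈ bdry D
    · simp only [if_pos h4]
      exact ((mem_Pin.1 ((hB g).1 hg).1).2.2 v h4).symm
    · simp only [if_neg h4]
  have hcard : (Pin (core D) w 0).card = B.card :=
    Finset.card_nbij' (A08o_ext D) (A08o_res D) hext hres hl hr
  have hsum : ∑ g ∈ Pin (core D) w 0, Φ g = ∑ g ∈ B, Φ g := by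
    refine Finset.sum_nbij' (A08o_ext D) (A08o_res D) hext hres hl hr ?_
    intro g hg
    have hx : ∀ x ∈ s, A08o_ext D g x = g x := by
      intro x hx
      unfold A08o_ext
      rw [if_neg (A08o_core_not_bdry (hs x hx)).2]
    exact le_antisymm (hΦ _ _ fun x h => (hx x h).ge) (hΦ _ _ fun x h => (hx x h).le)
  have havg : avg (Pin (core D) w 0) Φ = avg B Φ := by
    unfold avg
    rw [hcard, hsum]
  rw [havg]
  have hBne : B.Nonempty := ⟨_, hext _ (A08o_flat hq hw)⟩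
  refine holley_avg _ B hne hBne ?_ ?_ _ ?_
  · intro a ha b hb
    obtain ⟨a1, a2, a3⟩ := mem_Pin.1 ha
    obtain ⟨b1, b2, b3⟩ := mem_Pin.1 ((hB b).1 hb).1
    refine mem_Pin.2 ⟨a1.sup b1, ?_, ?_⟩
    · rw [Pi.sup_apply, a2, b2, sup_idem]
    · intro v hv
      rw [Pi.sup_apply, a3 v hv, b3 v hv]
      exact sup_eq_left.2 hc
  · intro a ha b hb
    obtain ⟨a1, a2, a3⟩ := mem_Pin.1 ha
    obtain ⟨hb1, hb2⟩ := (hB b).1 hb
    obtain ⟨b1, b2, b3⟩ := mem_Pin.1 hb1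
    refine (hB _).2 ⟨mem_Pin.2 ⟨a1.inf b1, ?_, ?_⟩, ?_⟩
    · rw [Pi.inf_apply, a2, b2, inf_idem]
    · intro v hv
      rw [Pi.inf_apply, a3 v hv, b3 v hv]
      exact inf_eq_right.2 hc
    · intro v hv
      obtain ⟨v1, v2, u, hu, huv⟩ := bdry_core hv
      rw [Pi.inf_apply, hb2 v hv]
      apply inf_eq_right.2
      have h5 := a1.step u (bdry_subset D hu) v v1 huv
      rw [a3 u hu] at h5
      have h6 := le_abs_self (c - a v)
      omega
  · intro a _ b _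
    exact hΦ _ _ fun x _ => (le_sup_right : b x ≤ (a ⊔ b) x)

/-
As `dom_star` (A08.lean, A08o.lean, A08s.lean), with `Φ` in place of `fun g => φ (g x)`: `holley_avg` is already stated for general functions.
-/
theorem dom_star_gen (D : Finset V) (w : V) (c : ℤ) (hq : BdryPar D 0) (hw : w ∈ dstar D w)
    (hc : 0 ≤ c) (hne : (Pin D w c).Nonempty) (s : Finset V) (hs : ∀ x ∈ s, x ∈ dstar D w)
    (Φ : (V → ℤ) → ℝ) (hΦ : ∀ g g' : V → ℤ, (∀ x ∈ s, g x ≤ g' x) → Φ g ≤ Φ g') :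
    avg (Pin (dstar D w) w 0) Φ ≤ avg (Pin D w c) Φ := by
  have hpar := dstar_bdryPar hq w
  unfold dstar at hw hs hpar ⊢
  split_ifs at hw hs hpar ⊢ with h
  · exact M4_dom_even D w c hpar hw hc hne s Φ hΦ
  · refine M4_dom_odd D w c ?_ hw ?_ hne s hs Φ hΦ
    · intro v hv
      have h1 := hq v hv
      rw [Int.even_iff] at h h1 ⊢
      omega
    · obtain ⟨g, hg⟩ := hne
      obtain ⟨h1, -, h3⟩ := mem_Pin.1 hg
      have hwD : w ∈ D := (A08o_core_not_bdry hw).1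
      obtain ⟨b, hb, -⟩ := exists_bdry_right D hwD
      have h4 := h1.par b (bdry_subset D hb)
      have h5 := hq b hb
      rw [h3 b hb] at h4
      rw [Int.even_iff] at h h4 h5
      omega

/-
As `key_est` (A11.lean), with the functions `g ↦ L Σ_{x ∈ s} g x ± Ψ g`, which are monotone in the values on `s`.  For `c < 0` use `avg_neg_Pin` for the function `g ↦ Ψ (-g)`
(`Ψ` need not be even): `|avg (Pin D w c) Ψ - avg (Pin (dstar D w) w 0) Ψ| ≤ L Σ_{x ∈ s} e_x |c|`, `e_x c = avg (Pin D w c) (g x)`; the averages of `e_x |c|` are estimated as in `key_est`.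
-/
private lemma M4b_sum_avg (S : Finset (V → ℤ)) (F : (V → ℤ) → ℝ) :
    ∑ g ∈ S, F g = S.card * avg S F := by
  unfold avg
  rcases S.eq_empty_or_nonempty with h | h
  · rw [h]; simp
  · have : (S.card : ℝ) ≠ 0 := by
      exact_mod_cast (Finset.card_pos.2 h).ne'
    field_simp

private lemma M4b_sum_neg (D : Finset V) (w : V) (c : ℤ) (F : (V → ℤ) → ℝ) :
    ∑ g ∈ Pin D w (-c), F (-g) = ∑ g ∈ Pin D w c, F g := by
  rw [M4b_sum_avg (Pin D w c) F, ← avg_neg_Pin D w c F, ← card_Pin_neg D w c, ← M4b_sum_avg]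

private lemma M4b_mean_zero (D : Finset V) (w x : V) :
    avg (Pin D w 0) (fun g => (g x : ℝ)) = 0 := by
  have h := avg_neg_Pin D w 0 (fun g => (g x : ℝ))
  rw [neg_zero] at h
  have h1 : avg (Pin D w 0) (fun g => (((-g) x : ℤ) : ℝ)) =
      - avg (Pin D w 0) (fun g => (g x : ℝ)) := by
    unfold avg
    rw [← neg_div, ← Finset.sum_neg_distrib]
    congr 1
    apply Finset.sum_congr rfl
    intro g _
    simp
  have h2 : - avg (Pin D w 0) (fun g => (g x : ℝ)) = avg (Pin D w 0) (fun g => (g x : ℝ)) := by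
    rw [← h1]
    exact h
  linarith

private lemma M4b_avg_lin (S : Finset (V → ℤ)) (s : Finset V) (L t : ℝ) (Ψ : (V → ℤ) → ℝ) :
    avg S (fun g => L * ∑ x ∈ s, (g x : ℝ) + t * Ψ g) =
      L * ∑ x ∈ s, avg S (fun g => (g x : ℝ)) + t * avg S Ψ := by
  have h : ∑ x ∈ s, avg S (fun g => (g x : ℝ)) = (∑ g ∈ S, ∑ x ∈ s, (g x : ℝ)) / S.card := by
    unfold avg
    rw [← Finset.sum_div, Finset.sum_comm]
  rw [h]
  unfold avg
  rw [Finset.sum_add_distrib, ← Finset.mul_sum, ← Finset.mul_sum, add_div, mul_div_assoc,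
    mul_div_assoc]

private lemma M4b_mono (s : Finset V) (L t : ℝ) (ht : t = 1 ∨ t = -1) (Ψ : (V → ℤ) → ℝ)
    (hL : ∀ g g' : V → ℤ, |Ψ g - Ψ g'| ≤ L * ∑ x ∈ s, |(g x : ℝ) - g' x|)
    (g g' : V → ℤ) (hg : ∀ x ∈ s, g x ≤ g' x) :
    L * ∑ x ∈ s, (g x : ℝ) + t * Ψ g ≤ L * ∑ x ∈ s, (g' x : ℝ) + t * Ψ g' := by
  have h1 := hL g g'
  have h2 : ∑ x ∈ s, |(g x : ℝ) - g' x| = ∑ x ∈ s, (g' x : ℝ) - ∑ x ∈ s, (g x : ℝ) := by
    rw [← Finset.sum_sub_distrib]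
    apply Finset.sum_congr rfl
    intro x hx
    have h3 : (g x : ℝ) ≤ g' x := by exact_mod_cast hg x hx
    rw [abs_of_nonpos (by linarith)]
    ring
  rw [h2] at h1
  have h3 := abs_le.1 h1
  rcases ht with rfl | rfl
  · nlinarith [h3.1, h3.2]
  · nlinarith [h3.1, h3.2]

private lemma M4b_star (D : Finset V) (hq : BdryPar D 0) (w : V) (s : Finset V)
    (hw : w ∈ dstar D w) (hs : ∀ x ∈ s, x ∈ dstar D w) (Ψ : (V → ℤ) → ℝ) (L : ℝ)
    (hL : ∀ g g' : V → ℤ, |Ψ g - Ψ g'| ≤ L * ∑ x ∈ s, |(g x : ℝ) - g' x|) (c : ℤ) (hc : 0 ≤ c)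
    (hne : (Pin D w c).Nonempty) :
    |avg (Pin D w c) Ψ - avg (Pin (dstar D w) w 0) Ψ| ≤
      L * ∑ x ∈ s, avg (Pin D w c) (fun g => (g x : ℝ)) := by
  have h1 := dom_star_gen D w c hq hw hc hne s hs _ (M4b_mono s L 1 (Or.inl rfl) Ψ hL)
  have h2 := dom_star_gen D w c hq hw hc hne s hs _ (M4b_mono s L (-1) (Or.inr rfl) Ψ hL)
  rw [M4b_avg_lin, M4b_avg_lin] at h1 h2
  have h3 : ∑ x ∈ s, avg (Pin (dstar D w) w 0) (fun g => (g x : ℝ)) = 0 :=
    Finset.sum_eq_zero (fun x _ => M4b_mean_zero _ _ _)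
  rw [h3] at h1 h2
  rw [abs_le]
  constructor <;> linarith

/-- the three facts on the pinned sums for `c ≥ 0` -/
private lemma M4b_pos (D : Finset V) (hq : BdryPar D 0) (w : V) (s : Finset V)
    (hw : w ∈ dstar D w) (hs : ∀ x ∈ s, x ∈ dstar D w) (Ψ : (V → ℤ) → ℝ) (L : ℝ)
    (hL : ∀ g g' : V → ℤ, |Ψ g - Ψ g'| ≤ L * ∑ x ∈ s, |(g x : ℝ) - g' x|) (c : ℤ) (hc : 0 ≤ c) :
    |∑ g ∈ Pin D w c, (Ψ g - avg (Pin (dstar D w) w 0) Ψ)| ≤
      L * ∑ x ∈ s, ∑ g ∈ Pin D w c, (g x : ℝ) := by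
  rcases (Pin D w c).eq_empty_or_nonempty with h0 | hne
  · rw [h0]; simp
  have h1 := M4b_star D hq w s hw hs Ψ L hL c hc hne
  rw [Finset.sum_sub_distrib, Finset.sum_const, nsmul_eq_mul, M4b_sum_avg (Pin D w c) Ψ,
    ← mul_sub, abs_mul, Nat.abs_cast]
  have h3 : ∑ x ∈ s, ∑ g ∈ Pin D w c, (g x : ℝ) =
      (Pin D w c).card * ∑ x ∈ s, avg (Pin D w c) (fun g => (g x : ℝ)) := by
    rw [Finset.mul_sum]
    apply Finset.sum_congr rfl
    intro x _
    rw [M4b_sum_avg (Pin D w c) (fun g => (g x : ℝ))]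
  rw [h3]
  have h2 : (0 : ℝ) ≤ (Pin D w c).card := Nat.cast_nonneg _
  nlinarith [mul_le_mul_of_nonneg_left h1 h2]

private lemma M4b_mean (D : Finset V) (w x : V)
    (hball : ∀ v, dist1 w v ≤ dist1 w x → v ∈ D) (c : ℤ) (hc : 0 ≤ c) :
    0 ≤ ∑ g ∈ Pin D w c, (g x : ℝ) ∧
      ∑ g ∈ Pin D w c, (g x : ℝ) ≤ (Pin D w c).card * (dist1 w x : ℝ) := by
  refine ⟨?_, ?_⟩
  · rw [M4b_sum_avg]
    exact mul_nonneg (Nat.cast_nonneg _) (pin_mean_nonneg D w c hc x)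
  · rw [← nsmul_eq_mul]
    apply Finset.sum_le_card_nsmul
    intro g hg
    rw [mem_Pin] at hg
    have h3 := hg.1.lip w x hball
    rw [hg.2.1, sub_zero] at h3
    have h4 := (abs_le.1 h3).2
    exact_mod_cast h4

private lemma M4b_sum_neg_x (D : Finset V) (w x : V) (c : ℤ) :
    ∑ g ∈ Pin D w (-c), (g x : ℝ) = - ∑ g ∈ Pin D w c, (g x : ℝ) := by
  rw [← Finset.sum_neg_distrib, ← M4b_sum_neg D w c (fun g => -(g x : ℝ))]
  apply Finset.sum_congr rfl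
  intro g _
  rw [Pi.neg_apply]
  push_cast
  ring

/-- the facts on the means for all `c` -/
private lemma M4b_mean_all (D : Finset V) (w x : V)
    (hball : ∀ v, dist1 w v ≤ dist1 w x → v ∈ D) (c : ℤ) :
    |(c : ℝ)| * |∑ g ∈ Pin D w c, (g x : ℝ)| = c * ∑ g ∈ Pin D w c, (g x : ℝ) ∧
      |∑ g ∈ Pin D w c, (g x : ℝ)| ≤ (Pin D w c).card * (dist1 w x : ℝ) := by
  rcases le_total 0 c with hc | hc
  · obtain ⟨h2, h3⟩ := M4b_mean D w x hball c hc
    rw [abs_of_nonneg h2]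
    refine ⟨?_, h3⟩
    rw [abs_of_nonneg (by exact_mod_cast hc)]
  · obtain ⟨c', rfl⟩ : ∃ c', c = -c' := ⟨-c, by ring⟩
    have hc' : 0 ≤ c' := by omega
    obtain ⟨h2, h3⟩ := M4b_mean D w x hball c' hc'
    rw [M4b_sum_neg_x, abs_neg, abs_of_nonneg h2, card_Pin_neg]
    refine ⟨?_, h3⟩
    push_cast
    rw [abs_neg, abs_of_nonneg (show (0 : ℝ) ≤ (c' : ℝ) by exact_mod_cast hc')]
    ring

/-- the bound for all `c` -/
private lemma M4b_all (D : Finset V) (hq : BdryPar D 0) (w : V) (s : Finset V)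
    (hw : w ∈ dstar D w) (hs : ∀ x ∈ s, x ∈ dstar D w) (Ψ : (V → ℤ) → ℝ) (L : ℝ)
    (hL0 : 0 ≤ L)
    (hL : ∀ g g' : V → ℤ, |Ψ g - Ψ g'| ≤ L * ∑ x ∈ s, |(g x : ℝ) - g' x|) (c : ℤ) :
    |∑ g ∈ Pin D w c, (Ψ g - avg (Pin (dstar D w) w 0) Ψ)| ≤
      L * ∑ x ∈ s, |∑ g ∈ Pin D w c, (g x : ℝ)| := by
  rcases le_total 0 c with hc | hc
  · refine (M4b_pos D hq w s hw hs Ψ L hL c hc).trans (mul_le_mul_of_nonneg_left ?_ hL0)
    exact Finset.sum_le_sum (fun x _ => le_abs_self _)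
  · obtain ⟨c', rfl⟩ : ∃ c', c = -c' := ⟨-c, by ring⟩
    have hc' : 0 ≤ c' := by omega
    have hL' : ∀ g g' : V → ℤ, |(fun g => Ψ (-g)) g - (fun g => Ψ (-g)) g'| ≤
        L * ∑ x ∈ s, |(g x : ℝ) - g' x| := by
      intro g g'
      refine (hL (-g) (-g')).trans (le_of_eq ?_)
      congr 1
      apply Finset.sum_congr rfl
      intro x _
      rw [Pi.neg_apply, Pi.neg_apply]
      push_cast
      rw [show -(g x : ℝ) - -(g' x : ℝ) = -((g x : ℝ) - g' x) by ring, abs_neg]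
    have h1 := M4b_pos D hq w s hw hs (fun g => Ψ (-g)) L hL' c' hc'
    have h2 : avg (Pin (dstar D w) w 0) (fun g => Ψ (-g)) = avg (Pin (dstar D w) w 0) Ψ := by
      have h := avg_neg_Pin (dstar D w) w 0 Ψ
      rw [neg_zero] at h
      exact h
    rw [h2] at h1
    have e1 : ∑ g ∈ Pin D w (-c'), (Ψ g - avg (Pin (dstar D w) w 0) Ψ) =
        ∑ g ∈ Pin D w c', (Ψ (-g) - avg (Pin (dstar D w) w 0) Ψ) := by
      rw [← M4b_sum_neg D w c' (fun g => Ψ (-g) - avg (Pin (dstar D w) w 0) Ψ)]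
      apply Finset.sum_congr rfl
      intro g _
      rw [neg_neg]
    rw [e1]
    refine h1.trans (mul_le_mul_of_nonneg_left ?_ hL0)
    apply Finset.sum_le_sum
    intro x _
    rw [M4b_sum_neg_x, abs_neg]
    exact le_abs_self _

theorem key_est_gen (D : Finset V) (hq : BdryPar D 0) (w : V) (s : Finset V)
    (hball : ∀ x ∈ s, ∀ v, dist1 w v ≤ dist1 w x → v ∈ D) (hw : w ∈ dstar D w)
    (hs : ∀ x ∈ s, x ∈ dstar D w) (Ψ : (V → ℤ) → ℝ) (L : ℝ) (hL0 : 0 ≤ L)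
    (hL : ∀ g g' : V → ℤ, |Ψ g - Ψ g'| ≤ L * ∑ x ∈ s, |(g x : ℝ) - g' x|) (J : ℕ) (hJ : 0 < J) :
    |avg (Om D) (fun h => Ψ (fun v => h v - h w)) - avg (Pin (dstar D w) w 0) Ψ| ≤
      L * ∑ x ∈ s, ((dist1 w x : ℝ) * avg (Om D) (fun h => if |h w| < J then 1 else 0) +
        (dist1 w x : ℝ) ^ 2 / J) := by
  classical
  have hD : dstar D w ⊆ D := by
    unfold dstar
    split_ifs
    · exact subset_rfl
    · exact Finset.sdiff_subset
  have hwD : w ∈ D := hD hw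
  have hxD : ∀ x ∈ s, x ∈ D := fun x hx => hD (hs x hx)
  have hJ' : (0 : ℝ) < J := by exact_mod_cast hJ
  have hN : (0 : ℝ) < ((Om D).card : ℝ) := by
    exact_mod_cast Finset.card_pos.2 (Om_nonempty hq)
  set a : ℝ := avg (Pin (dstar D w) w 0) Ψ with ha
  have hcongr : ∀ g g' : V → ℤ, (∀ x ∈ s, g x = g' x) → Ψ g = Ψ g' := by
    intro g g' h
    have h1 := hL g g'
    have h2 : ∑ x ∈ s, |(g x : ℝ) - g' x| = 0 := by
      apply Finset.sum_eq_zero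
      intro x hx
      rw [h x hx, sub_self, abs_zero]
    rw [h2, mul_zero] at h1
    have h3 := abs_nonneg (Ψ g - Ψ g')
    have h4 : |Ψ g - Ψ g'| = 0 := le_antisymm h1 h3
    exact sub_eq_zero.1 (abs_eq_zero.1 h4)
  have hsh : ∀ h : V → ℤ, ∀ x ∈ s, shift D w h x = h x - h w := by
    intro h x hx
    unfold shift
    simp [hxD x hx]
  -- the three uses of the decomposition
  have s1 : ∑ h ∈ Om D, (Ψ (fun v => h v - h w) - a) =
      ∑ c ∈ Finset.Icc (-(D.card : ℤ)) (D.card : ℤ), ∑ g ∈ Pin D w c, (Ψ g - a) := by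
    rw [← sum_Om D hq w hwD (fun _ g => Ψ g - a)]
    apply Finset.sum_congr rfl
    intro h _
    rw [hcongr (shift D w h) (fun v => h v - h w) (fun x hx => hsh h x hx)]
  have s2 : ∑ h ∈ Om D, (if |h w| < (J : ℤ) then (1 : ℝ) else 0) =
      ∑ c ∈ Finset.Icc (-(D.card : ℤ)) (D.card : ℤ),
        ∑ g ∈ Pin D w c, (if |c| < (J : ℤ) then (1 : ℝ) else 0) := by
    rw [← sum_Om D hq w hwD (fun c _ => if |c| < (J : ℤ) then (1 : ℝ) else 0)]
    apply Finset.sum_congr rfl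
    intro h _
    rw [abs_neg]
  have s3 : ∀ x ∈ s, ∑ h ∈ Om D, (-(h w : ℝ)) * ((h x : ℝ) - h w) =
      ∑ c ∈ Finset.Icc (-(D.card : ℤ)) (D.card : ℤ), ∑ g ∈ Pin D w c, (c : ℝ) * (g x : ℝ) := by
    intro x hx
    rw [← sum_Om D hq w hwD (fun c g => (c : ℝ) * (g x : ℝ))]
    apply Finset.sum_congr rfl
    intro h _
    rw [hsh h x hx]
    push_cast
    ring
  -- the second moment
  have s4 : ∀ x ∈ s, ∑ h ∈ Om D, (-(h w : ℝ)) * ((h x : ℝ) - h w) ≤
      (Om D).card * (dist1 w x : ℝ) ^ 2 := by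
    intro x hx
    have h1 := corr_nonneg D x w (hxD x hx) hwD
    have h2 : 0 ≤ ∑ h ∈ Om D, (h x : ℝ) * ((h x : ℝ) - h w) := by
      rw [M4b_sum_avg]
      exact mul_nonneg hN.le h1
    have h3 : ∑ h ∈ Om D, ((h x : ℝ) - h w) ^ 2 ≤ (Om D).card * (dist1 w x : ℝ) ^ 2 := by
      rw [← nsmul_eq_mul]
      apply Finset.sum_le_card_nsmul
      intro h hh
      rw [mem_Om] at hh
      have h4 := hh.1.lip w x (hball x hx)
      have h5 : |(h x : ℝ) - h w| ≤ (dist1 w x : ℝ) := by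
        exact_mod_cast h4
      rw [← sq_abs]
      exact pow_le_pow_left₀ (abs_nonneg _) h5 2
    have h6 : ∑ h ∈ Om D, (-(h w : ℝ)) * ((h x : ℝ) - h w) =
        ∑ h ∈ Om D, ((h x : ℝ) - h w) ^ 2 - ∑ h ∈ Om D, (h x : ℝ) * ((h x : ℝ) - h w) := by
      rw [← Finset.sum_sub_distrib]
      apply Finset.sum_congr rfl
      intro h _
      ring
    rw [h6]
    linarith
  -- bound for each value of c
  have s5 : ∀ c : ℤ, |∑ g ∈ Pin D w c, (Ψ g - a)| ≤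
      L * ∑ x ∈ s, ((dist1 w x : ℝ) * (∑ g ∈ Pin D w c, (if |c| < (J : ℤ) then (1 : ℝ) else 0)) +
        (∑ g ∈ Pin D w c, (c : ℝ) * (g x : ℝ)) / J) := by
    intro c
    have h1 := M4b_all D hq w s hw hs Ψ L hL0 hL c
    rw [← ha] at h1
    refine h1.trans (mul_le_mul_of_nonneg_left ?_ hL0)
    apply Finset.sum_le_sum
    intro x hx
    obtain ⟨h2, h3⟩ := M4b_mean_all D w x (hball x hx) c
    rw [← Finset.mul_sum, ← h2]
    by_cases hcJ : |c| < (J : ℤ)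
    · rw [Finset.sum_congr rfl (fun _ _ => if_pos hcJ), Finset.sum_const, nsmul_eq_mul, mul_one]
      have h4 : 0 ≤ |(c : ℝ)| * |∑ g ∈ Pin D w c, (g x : ℝ)| / J := by positivity
      linarith
    · rw [Finset.sum_congr rfl (fun _ _ => if_neg hcJ), Finset.sum_const_zero, mul_zero, zero_add,
        le_div_iff₀ hJ', mul_comm]
      apply mul_le_mul_of_nonneg_right _ (abs_nonneg _)
      push Not at hcJ
      exact_mod_cast hcJ
  -- conclusion
  have e1 : avg (Om D) (fun h => Ψ (fun v => h v - h w)) - a =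
      (∑ h ∈ Om D, (Ψ (fun v => h v - h w) - a)) / (Om D).card := by
    unfold avg
    rw [Finset.sum_sub_distrib, Finset.sum_const, nsmul_eq_mul]
    field_simp
  have e2 : avg (Om D) (fun h => if |h w| < (J : ℤ) then (1 : ℝ) else 0) =
      (∑ h ∈ Om D, (if |h w| < (J : ℤ) then (1 : ℝ) else 0)) / (Om D).card := rfl
  rw [e1, e2, abs_div, Nat.abs_cast, div_le_iff₀ hN, s1]
  refine (Finset.abs_sum_le_sum_abs _ _).trans ((Finset.sum_le_sum (fun c _ => s5 c)).trans ?_)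
  rw [← Finset.mul_sum, Finset.sum_comm, mul_assoc]
  apply mul_le_mul_of_nonneg_left _ hL0
  rw [Finset.sum_mul]
  apply Finset.sum_le_sum
  intro x hx
  rw [Finset.sum_add_distrib, ← Finset.mul_sum, ← Finset.sum_div, ← s2, ← s3 x hx]
  rw [add_mul, mul_assoc, div_mul_cancel₀ _ hN.ne']
  have h7 : (∑ h ∈ Om D, (-(h w : ℝ)) * ((h x : ℝ) - h w)) / J ≤
      (Om D).card * (dist1 w x : ℝ) ^ 2 / J :=
    div_le_div_of_nonneg_right (s4 x hx) hJ'.le
  have h8 : ((Om D).card : ℝ) * (dist1 w x : ℝ) ^ 2 / J =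
      (dist1 w x : ℝ) ^ 2 / J * (Om D).card := by ring
  linarith

end RP4
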