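import Pool.Agent.Helper63.RP4.M3
import Pool.Agent.Helper63.RP4.M4

/-!
M5.  Local limit of the zero boundary measures, translation invariance.
-/

open Finset Filter Topology

namespace RP4

/-- limit of the pinned measures -/
noncomputable def PinLim (F : (V → ℤ) → ℝ) : ℝ := limUnder dom (fun D => avg (Pin D (0, 0) 0) F)

lemma pinLim_tendsto (s : Finset V) (F : (V → ℤ) → ℝ)
    (hF : ∀ g g' : V → ℤ, (∀ x ∈ s, g x = g' x) → F g = F g') :
    Tendsto (fun D => avg (Pin D (0, 0) 0) F) dom (𝓝 (PinLim F)) := by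
  obtain ⟨l, hl⟩ := pin_local_limit s F hF
  have : PinLim F = l := hl.limUnder_eq
  rw [this]
  exact hl

/-- the neighbourhood of a set -/
private noncomputable def M5_nb (F : Finset V) : Finset V :=
  F.biUnion (fun v => (Finset.Icc (v.1 - 1) (v.1 + 1)) ×ˢ (Finset.Icc (v.2 - 1) (v.2 + 1)))

private lemma M5_mem_dstar {D : Finset V} {F : Finset V} (h : M5_nb F ⊆ D) (w : V) {v : V}
    (hv : v ∈ F) : v ∈ dstar D w := by
  have h1 : ∀ u : V, |u.1 - v.1| + |u.2 - v.2| ≤ 1 → u ∈ D := by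
    intro u hu
    apply h
    unfold M5_nb
    rw [Finset.mem_biUnion]
    refine ⟨v, hv, ?_⟩
    rw [Finset.mem_product, Finset.mem_Icc, Finset.mem_Icc]
    have h2 := abs_nonneg (u.1 - v.1)
    have h3 := abs_nonneg (u.2 - v.2)
    have h4 := abs_le.1 (show |u.1 - v.1| ≤ 1 by omega)
    have h5 := abs_le.1 (show |u.2 - v.2| ≤ 1 by omega)
    omega
  have hvD : v ∈ D := h1 v (by simp)
  unfold dstar
  split_ifs
  · exact hvD
  · unfold core
    rw [Finset.mem_sdiff]
    refine ⟨hvD, fun hb => ?_⟩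
    obtain ⟨_, u, hu, hu'⟩ := mem_bdry.1 hb
    exact hu' (h1 u (le_of_eq hu))

private lemma M5_dstar_sub (D : Finset V) (w : V) : dstar D w ⊆ D := by
  unfold dstar
  split_ifs
  · exact Finset.Subset.refl _
  · unfold core
    exact Finset.sdiff_subset

private lemma M5_star_tendsto (w : V) :
    Tendsto (fun D => img (trans (-w)) (dstar D w)) dom dom := by
  intro P hP
  have hP' : ∀ᶠ D in dom, D ∈ P := hP
  rw [eventually_dom] at hP'
  obtain ⟨F, hF⟩ := hP'
  change ∀ᶠ D in dom, img (trans (-w)) (dstar D w) ∈ P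
  rw [eventually_dom]
  refine ⟨M5_nb (img (trans w) F), fun D hD hp => hF _ ?_ ?_⟩
  · intro v hv
    unfold img
    rw [Finset.mem_map]
    refine ⟨v + w, M5_mem_dstar hD w ?_, ?_⟩
    · unfold img
      rw [Finset.mem_map]
      exact ⟨v, hv, by simp [trans]⟩
    · simp [trans]
  · have h1 := (bdryPar_img (trans_lsym (-w)) (dstar D w) w).2 (dstar_bdryPar hp w)
    have h2 : par (trans (-w) w) = 0 := by simp [trans, par]
    rwa [h2] at h1

private lemma M5_avg_congr {S : Finset (V → ℤ)} {F G : (V → ℤ) → ℝ} (h : ∀ g ∈ S, F g = G g) :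
    avg S F = avg S G := by
  unfold avg
  rw [Finset.sum_congr rfl h]

/-- a function of finitely many bounded integers is bounded -/
private lemma M5_bdd (s : Finset V) (F : (V → ℤ) → ℝ)
    (hF : ∀ g g' : V → ℤ, (∀ x ∈ s, g x = g' x) → F g = F g') (N : ℤ) :
    ∃ B : ℝ, 0 ≤ B ∧ ∀ g : V → ℤ, (∀ x ∈ s, |g x| ≤ N) → |F g| ≤ B := by
  classical
  set Φ : ({x // x ∈ s} → {a : ℤ // a ∈ Finset.Icc (-N) N}) → ℝ :=
    fun a => F (fun v => if h : v ∈ s then (a ⟨v, h⟩ : ℤ) else 0) with hΦ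
  refine ⟨∑ a, |Φ a|, Finset.sum_nonneg fun a _ => abs_nonneg _, fun g hg => ?_⟩
  obtain ⟨a, ha⟩ : ∃ a, F g = Φ a := by
    refine ⟨fun x => ⟨g x, Finset.mem_Icc.2 (abs_le.1 (hg x x.2))⟩, hF _ _ fun x hx => ?_⟩
    rw [dif_pos hx]
  rw [ha]
  exact Finset.single_le_sum (f := fun a => |Φ a|) (fun a _ => abs_nonneg _) (Finset.mem_univ a)

/-
As `main_limit` (T3.lean).  First replace `F` by a bounded Lipschitz function: with `N` larger than all `dist1 w x`, `x ∈ s`, let `F' g := F (g clamped to [-N, N] on s, 0 off s)`; it takes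
finitely many values, so `|F' g - F' g'| ≤ L Σ_{x ∈ s} |g x - g' x|` for a suitable `L` (if the integer values on `s` differ, the right side is `≥ L`), and `F' = F` on the
functions which occur (`|h x - h w| ≤ dist1 w x`, `|g x| ≤ dist1 w x` for large `D`).  Then `key_est_gen`, `deloc_small`, and
`avg (Pin (dstar D w) w 0) F = avg (Pin (img (trans (-w)) (dstar D w)) 0 0) (fun g => F (fun v => g (v - w)))` (`avg_Pin_img`), and these domains tend to `dom`.
-/
theorem loc_limit (hd : Deloc) (w : V) (s : Finset V) (F : (V → ℤ) → ℝ)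
    (hF : ∀ g g' : V → ℤ, (∀ x ∈ s, g x = g' x) → F g = F g') :
    Tendsto (fun D => avg (Om D) (fun h => F (fun v => h v - h w))) dom
      (𝓝 (PinLim (fun g => F (fun v => g (v - w))))) := by
  classical
  -- the limit of the pinned averages
  have hB : Tendsto (fun D => avg (Pin (dstar D w) w 0) F) dom
      (𝓝 (PinLim (fun g => F (fun v => g (v - w))))) := by
    have h0 := pinLim_tendsto (s.image (fun v => v - w)) (fun g => F (fun v => g (v - w)))
      (fun g g' hg => hF _ _ fun x hx => hg _ (Finset.mem_image_of_mem _ hx))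
    refine (h0.comp (M5_star_tendsto w)).congr fun D => ?_
    have h1 := avg_Pin_img (trans_lsym (-w)) (dstar D w) w 0 F
    have h2 : trans (-w) w = (0, 0) := by simp [trans]; rfl
    have h3 : ∀ v, trans (-w) v = v - w := fun v => by simp [trans, sub_eq_add_neg]
    rw [h2] at h1
    simp only [h3] at h1
    exact h1
  have hdn : ∀ x : V, 0 ≤ dist1 w x := fun x => by unfold dist1; positivity
  set N : ℤ := ∑ x ∈ s, dist1 w x with hN
  have hN0 : 0 ≤ N := Finset.sum_nonneg fun x _ => hdn x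
  have hNx : ∀ x ∈ s, dist1 w x ≤ N := fun x hx =>
    Finset.single_le_sum (f := fun x => dist1 w x) (fun y _ => hdn y) hx
  set Bd : Finset V := (Finset.Icc (w.1 - N) (w.1 + N)) ×ˢ (Finset.Icc (w.2 - N) (w.2 + N)) with hBd
  have hBdm : ∀ v, dist1 w v ≤ N → v ∈ Bd := by
    intro v hv
    rw [hBd, Finset.mem_product, Finset.mem_Icc, Finset.mem_Icc]
    have h1 : |w.1 - v.1| + |w.2 - v.2| ≤ N := hv
    have h2 := abs_nonneg (w.1 - v.1)
    have h3 := abs_nonneg (w.2 - v.2)
    have h4 := abs_le.1 (show |w.1 - v.1| ≤ N by omega)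
    have h5 := abs_le.1 (show |w.2 - v.2| ≤ N by omega)
    omega
  -- the clamped function
  set cl : ℤ → ℤ := fun a => max (-N) (min N a) with hcl
  have hcl1 : ∀ a, |a| ≤ N → cl a = a := by
    intro a ha
    have h1 := abs_le.1 ha
    simp only [hcl]
    rw [min_eq_right h1.2, max_eq_right h1.1]
  have hcl2 : ∀ a, |cl a| ≤ N := by
    intro a
    simp only [hcl]
    rw [abs_le]
    exact ⟨le_max_left _ _, max_le (by omega) (min_le_left _ _)⟩
  obtain ⟨B, hB0, hBF⟩ := M5_bdd s F hF N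
  set Ψ : (V → ℤ) → ℝ := fun g => F (fun v => cl (g v)) with hΨ
  have hΨL : ∀ g g' : V → ℤ, |Ψ g - Ψ g'| ≤ (2 * B) * ∑ x ∈ s, |(g x : ℝ) - g' x| := by
    intro g g'
    by_cases h : ∀ x ∈ s, g x = g' x
    · have h1 : Ψ g = Ψ g' := hF _ _ fun x hx => by rw [h x hx]
      rw [h1, sub_self, abs_zero]
      exact mul_nonneg (by positivity) (Finset.sum_nonneg fun x _ => abs_nonneg _)
    · push Not at h
      obtain ⟨x, hx, hne⟩ := h
      have h1 : |Ψ g - Ψ g'| ≤ 2 * B := by
        have h2 : |Ψ g| ≤ B := hBF _ fun x _ => hcl2 _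
        have h3 : |Ψ g'| ≤ B := hBF _ fun x _ => hcl2 _
        refine (abs_sub _ _).trans ?_
        linarith
      have h4 : (1 : ℝ) ≤ |(g x : ℝ) - g' x| := by
        have h5 : 1 ≤ |g x - g' x| := Int.one_le_abs (sub_ne_zero.2 hne)
        exact_mod_cast h5
      have h6 : (1 : ℝ) ≤ ∑ x ∈ s, |(g x : ℝ) - g' x| :=
        h4.trans (Finset.single_le_sum (f := fun x => |(g x : ℝ) - g' x|)
          (fun y _ => abs_nonneg _) hx)
      exact h1.trans (le_mul_of_one_le_right (by positivity) h6)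
  have hA : Tendsto (fun D => avg (Om D) (fun h => F (fun v => h v - h w)) -
      avg (Pin (dstar D w) w 0) F) dom (𝓝 0) := by
    rw [Metric.tendsto_nhds]
    intro ε hε
    set S1 : ℝ := ∑ x ∈ s, (dist1 w x : ℝ) with hS1
    set S2 : ℝ := ∑ x ∈ s, (dist1 w x : ℝ) ^ 2 with hS2
    have hS10 : 0 ≤ S1 := Finset.sum_nonneg fun x _ => by exact_mod_cast hdn x
    have hS20 : 0 ≤ S2 := Finset.sum_nonneg fun x _ => by positivity
    obtain ⟨J, hJ⟩ := exists_nat_gt (2 * (2 * B) * S2 / ε)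
    have hJ1 : 2 * (2 * B) * S2 / ε < ((J + 1 : ℕ) : ℝ) := by push_cast; linarith
    have hJ0 : (0 : ℝ) < ((J + 1 : ℕ) : ℝ) := by positivity
    obtain ⟨G, hG⟩ := deloc_small hd w (J + 1) (ε / (2 * (2 * B * S1 + 1))) (by positivity)
    rw [eventually_dom]
    refine ⟨G ∪ M5_nb Bd, fun D hD hp => ?_⟩
    have hD1 := Finset.union_subset_left hD
    have hD2 := Finset.union_subset_right hD
    have hst : ∀ v, dist1 w v ≤ N → v ∈ dstar D w := fun v hv => M5_mem_dstar hD2 w (hBdm v hv)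
    have hD3 : ∀ v, dist1 w v ≤ N → v ∈ D := fun v hv => M5_dstar_sub D w (hst v hv)
    have hw0 : dist1 w w ≤ N := by
      unfold dist1
      simpa using hN0
    have h1 := key_est_gen D hp w s (fun x hx v hv => hD3 v (hv.trans (hNx x hx))) (hst w hw0)
      (fun x hx => hst x (hNx x hx)) Ψ (2 * B) (by positivity) hΨL (J + 1) (Nat.succ_pos J)
    have h2 := hG D hD1 hp
    have e1 : avg (Om D) (fun h => Ψ (fun v => h v - h w)) =
        avg (Om D) (fun h => F (fun v => h v - h w)) := by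
      refine M5_avg_congr fun g hg => ?_
      refine hF _ _ fun x hx => ?_
      have h3 := (mem_Om.1 hg).1.lip w x (fun v hv => hD3 v (hv.trans (hNx x hx)))
      exact hcl1 _ (h3.trans (hNx x hx))
    have e2 : avg (Pin (dstar D w) w 0) Ψ = avg (Pin (dstar D w) w 0) F := by
      refine M5_avg_congr fun g hg => ?_
      refine hF _ _ fun x hx => ?_
      rw [mem_Pin] at hg
      have h3 := hg.1.lip w x (fun v hv => hst v (hv.trans (hNx x hx)))
      rw [hg.2.1, sub_zero] at h3
      exact hcl1 _ (h3.trans (hNx x hx))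
    rw [e1, e2] at h1
    rw [Real.dist_eq, sub_zero]
    refine lt_of_le_of_lt h1 ?_
    rw [Finset.sum_add_distrib, ← Finset.sum_mul, ← Finset.sum_div, ← hS1, ← hS2]
    set p : ℝ := avg (Om D) (fun h => if |h w| < ((J + 1 : ℕ) : ℤ) then 1 else 0) with hpdef
    have h3 : 2 * B * (S1 * p) ≤ 2 * B * S1 * (ε / (2 * (2 * B * S1 + 1))) := by
      rw [← mul_assoc]
      exact mul_le_mul_of_nonneg_left h2.le (by positivity)
    have h4 : 2 * B * S1 * (ε / (2 * (2 * B * S1 + 1))) ≤ ε / 2 := by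
      rw [mul_div_assoc', div_le_div_iff₀ (by positivity) (by norm_num)]
      nlinarith [mul_nonneg hB0 hS10]
    have h5 : 2 * B * (S2 / ((J + 1 : ℕ) : ℝ)) < ε / 2 := by
      rw [mul_div_assoc', div_lt_div_iff₀ hJ0 (by norm_num)]
      rw [div_lt_iff₀ hε] at hJ1
      linarith
    rw [mul_add]
    linarith
  have h := hA.add hB
  simpa using h

end RP4
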