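import Pool.Agent.Helper63.RP4.A02

/-!
T1.  Lattice symmetries act on everything.
-/

open Finset

namespace RP4

/-- adjacency preserving bijections of the lattice which preserve parity differences -/
structure LSym (τ : V ≃ V) : Prop where
  adj : ∀ u v, Adj (τ u) (τ v) ↔ Adj u v
  par : ∀ u v, Even (RP4.par (τ u) - RP4.par (τ v) - (RP4.par u - RP4.par v))

/-- translations -/
def trans (w : V) : V ≃ V := Equiv.addRight w

lemma trans_lsym (w : V) : LSym (trans w) := by
  constructor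
  · intro u v
    simp only [Adj, trans, Equiv.coe_addRight, Prod.fst_add, Prod.snd_add, add_sub_add_right_eq_sub]
  · intro u v
    simp only [RP4.par, trans, Equiv.coe_addRight, Prod.fst_add, Prod.snd_add]
    rw [Int.even_iff]
    omega

/-- `(a, b) ↦ (-a, b)` -/
def refl1 : V ≃ V := ⟨fun x => (-x.1, x.2), fun x => (-x.1, x.2), fun x => by simp, fun x => by simp⟩

/-- `(a, b) ↦ (b, a)` -/
def swapV : V ≃ V := ⟨fun x => (x.2, x.1), fun x => (x.2, x.1), fun x => by simp, fun x => by simp⟩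

lemma refl1_lsym : LSym refl1 := by
  constructor
  · intro u v
    have h1 : -u.1 - -v.1 = -(u.1 - v.1) := by ring
    simp only [Adj, refl1, Equiv.coe_fn_mk, h1, abs_neg]
  · intro u v
    simp only [RP4.par, refl1, Equiv.coe_fn_mk]
    rw [Int.even_iff]
    omega

lemma swapV_lsym : LSym swapV := by
  constructor
  · intro u v
    simp only [Adj, swapV, Equiv.coe_fn_mk]
    rw [add_comm]
  · intro u v
    simp only [RP4.par, swapV, Equiv.coe_fn_mk]
    rw [Int.even_iff]
    omega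

/-- image of a domain -/
def img (τ : V ≃ V) (D : Finset V) : Finset V := D.map τ.toEmbedding

lemma T1_mem_img {τ : V ≃ V} {D : Finset V} {v : V} : v ∈ img τ D ↔ τ.symm v ∈ D := by
  unfold img
  rw [Finset.mem_map_equiv]

lemma T1_mem_img' {τ : V ≃ V} {D : Finset V} {v : V} : τ v ∈ img τ D ↔ v ∈ D := by
  rw [T1_mem_img, Equiv.symm_apply_apply]

lemma T1_img_symm (τ : V ≃ V) (D : Finset V) : img τ.symm (img τ D) = D := by
  ext v
  rw [T1_mem_img, Equiv.symm_symm, T1_mem_img']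

lemma T1_symm {τ : V ≃ V} (h : LSym τ) : LSym τ.symm := by
  constructor
  · intro u v
    have := h.adj (τ.symm u) (τ.symm v)
    rw [Equiv.apply_symm_apply, Equiv.apply_symm_apply] at this
    exact this.symm
  · intro u v
    have := h.par (τ.symm u) (τ.symm v)
    rw [Equiv.apply_symm_apply, Equiv.apply_symm_apply] at this
    rw [Int.even_iff] at this ⊢
    omega

lemma bdry_img {τ : V ≃ V} (h : LSym τ) (D : Finset V) : bdry (img τ D) = img τ (bdry D) := by
  ext v
  rw [mem_bdry, T1_mem_img, T1_mem_img, mem_bdry]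
  refine and_congr_right fun _ => ⟨?_, ?_⟩
  · rintro ⟨u, h1, h2⟩
    exact ⟨τ.symm u, ((T1_symm h).adj u v).2 h1, fun h3 => h2 (T1_mem_img.2 h3)⟩
  · rintro ⟨u, h1, h2⟩
    refine ⟨τ u, ?_, fun h3 => h2 (T1_mem_img'.1 h3)⟩
    have := (h.adj u (τ.symm v)).2 h1
    rwa [Equiv.apply_symm_apply] at this

lemma bdryPar_img {τ : V ≃ V} (h : LSym τ) (D : Finset V) (w : V) :
    BdryPar (img τ D) (par (τ w)) ↔ BdryPar D (par w) := by
  unfold BdryPar
  rw [bdry_img h]
  constructor
  · intro h1 v hv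
    have h2 := h1 (τ v) (T1_mem_img'.2 hv)
    have h3 := h.par v w
    rw [Int.even_iff] at h2 h3 ⊢
    omega
  · intro h1 v hv
    have h2 := h1 (τ.symm v) (T1_mem_img.1 hv)
    have h3 := h.par (τ.symm v) w
    rw [Equiv.apply_symm_apply] at h3
    rw [Int.even_iff] at h2 h3 ⊢
    omega

lemma T1_isHom {τ : V ≃ V} (h : LSym τ) {D : Finset V} {p q : ℤ}
    (hpq : ∀ v, Even (par (τ v) + q - par v - p)) {g : V → ℤ} (hg : IsHom (img τ D) q g) :
    IsHom D p (fun v => g (τ v)) := by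
  refine ⟨fun v hv => hg.off _ fun h1 => hv (T1_mem_img'.1 h1), fun v hv => ?_,
    fun u hu v hv huv => hg.step _ (T1_mem_img'.2 hu) _ (T1_mem_img'.2 hv) ((h.adj u v).2 huv)⟩
  have h1 := hg.par (τ v) (T1_mem_img'.2 hv)
  have h2 := hpq v
  rw [Int.even_iff] at h1 h2 ⊢
  omega

lemma T1_avg (τ : V ≃ V) (S T : Finset (V → ℤ)) (F : (V → ℤ) → ℝ)
    (h1 : ∀ g ∈ S, (fun v => g (τ v)) ∈ T) (h2 : ∀ f ∈ T, (fun v => f (τ.symm v)) ∈ S) :
    avg S (fun g => F (fun v => g (τ v))) = avg T F := by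
  have hc : S.card = T.card := by
    refine Finset.card_bij' (fun g _ => fun v => g (τ v)) (fun f _ => fun v => f (τ.symm v))
      (fun g hg => h1 g hg) (fun f hf => h2 f hf) (fun g _ => ?_) (fun f _ => ?_)
    · funext v
      simp only [Equiv.apply_symm_apply]
    · funext v
      simp only [Equiv.symm_apply_apply]
  have hs : ∑ g ∈ S, F (fun v => g (τ v)) = ∑ f ∈ T, F f := by
    refine Finset.sum_bij' (fun g _ => fun v => g (τ v)) (fun f _ => fun v => f (τ.symm v))
      (fun g hg => h1 g hg) (fun f hf => h2 f hf) (fun g _ => ?_) (fun f _ => ?_) (fun g _ => rfl)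
    · funext v
      simp only [Equiv.apply_symm_apply]
    · funext v
      simp only [Equiv.symm_apply_apply]
  unfold avg
  rw [hc, hs]

lemma T1_pin {τ : V ≃ V} (h : LSym τ) {D : Finset V} {w : V} {c : ℤ} {g : V → ℤ}
    (hg : g ∈ Pin (img τ D) (τ w) c) : (fun v => g (τ v)) ∈ Pin D w c := by
  rw [mem_Pin] at hg ⊢
  obtain ⟨h1, h2, h3⟩ := hg
  refine ⟨T1_isHom h (fun v => ?_) h1, h2, fun v hv => h3 _ ?_⟩
  · have := h.par v w
    rw [Int.even_iff] at this ⊢
    omega
  · rw [bdry_img h]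
    exact T1_mem_img'.2 hv

lemma T1_om {τ : V ≃ V} (h : LSym τ) (he : ∀ v, Even (par (τ v) - par v)) {D : Finset V}
    {g : V → ℤ} (hg : g ∈ Om (img τ D)) : (fun v => g (τ v)) ∈ Om D := by
  rw [mem_Om] at hg ⊢
  obtain ⟨h1, h3⟩ := hg
  refine ⟨T1_isHom h (fun v => ?_) h1, fun v hv => h3 _ ?_⟩
  · have := he v
    rw [Int.even_iff] at this ⊢
    omega
  · rw [bdry_img h]
    exact T1_mem_img'.2 hv

/-
`g ↦ g ∘ τ⁻¹` is a bijection `Pin D w c → Pin (img τ D) (τ w) c`.
-/
lemma avg_Pin_img {τ : V ≃ V} (h : LSym τ) (D : Finset V) (w : V) (c : ℤ) (F : (V → ℤ) → ℝ) :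
    avg (Pin (img τ D) (τ w) c) (fun g => F (fun v => g (τ v))) = avg (Pin D w c) F := by
  refine T1_avg τ _ _ F (fun g hg => T1_pin h hg) (fun f hf => ?_)
  refine T1_pin (T1_symm h) ?_
  rw [T1_img_symm, Equiv.symm_apply_apply]
  exact hf

/-- the same for `Om` if `τ` preserves the parity -/
lemma avg_Om_img {τ : V ≃ V} (h : LSym τ) (he : ∀ v, Even (par (τ v) - par v)) (D : Finset V)
    (F : (V → ℤ) → ℝ) :
    avg (Om (img τ D)) (fun g => F (fun v => g (τ v))) = avg (Om D) F := by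
  refine T1_avg τ _ _ F (fun g hg => T1_om h he hg) (fun f hf => ?_)
  refine T1_om (T1_symm h) (fun v => ?_) ?_
  · have := he (τ.symm v)
    rw [Equiv.apply_symm_apply] at this
    rw [Int.even_iff] at this ⊢
    omega
  · rw [T1_img_symm]
    exact hf

end RP4
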