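import Pool.Agent.Helper63.RP4.T1
import Pool.Agent.Helper63.RP4.A07
import Pool.Agent.Helper63.RP4.A08s
import Pool.Agent.Helper63.RP4.A12t

/-!
T2.  Delocalisation.
-/

open Finset Filter Topology

namespace RP4

/-- probability that `h w = 0` -/
noncomputable def p0 (D : Finset V) (w : V) : ℝ := avg (Om D) (fun h => if h w = 0 then 1 else 0)

/-- delocalisation (theorem of Chandgotia, Peled, Sheffield and Tassy) in the form `P(h 0 = 0) → 0` -/
def Deloc : Prop := ∀ ε > 0, ∃ D : Finset V, BdryPar D 0 ∧ ((0, 0) : V) ∈ D ∧ p0 D (0, 0) < ε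

private lemma T2_compl (S : Finset (V → ℤ)) (hS : S.Nonempty) (w : V) :
    avg S (fun h => if h w = 0 then 1 else 0) +
      avg S (fun g => (fun a : ℤ => if a ≤ 0 then (0 : ℝ) else 1) |g w|) = 1 := by
  unfold avg
  have hc : (0 : ℝ) < (S.card : ℝ) := by exact_mod_cast hS.card_pos
  rw [← add_div, ← Finset.sum_add_distrib, div_eq_one_iff_eq hc.ne']
  have h1 : ∀ g ∈ S, ((if g w = 0 then (1 : ℝ) else 0) +
      (fun a : ℤ => if a ≤ 0 then (0 : ℝ) else 1) |g w|) = 1 := by
    intro g _
    by_cases h : g w = 0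
    · simp [h]
    · have h2 : ¬ |g w| ≤ 0 := by
        rw [abs_nonpos_iff]
        exact h
      simp only [if_neg h, if_neg h2, zero_add]
  rw [Finset.sum_congr rfl h1, Finset.sum_const, nsmul_eq_mul, mul_one]

/-- `p0` decreases with the domain: `om_mono` with `ψ a = if a ≤ 0 then 0 else 1` -/
lemma p0_anti (D D' : Finset V) (hDD' : D ⊆ D') (hp : BdryPar D 0) (hp' : BdryPar D' 0) (w : V)
    (hw : w ∈ D) : p0 D' w ≤ p0 D w := by
  have h := om_mono D D' hDD' hp hp' w hw (fun a => if a ≤ 0 then 0 else 1) (by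
    intro a b _ hab
    show (if a ≤ 0 then (0 : ℝ) else 1) ≤ (if b ≤ 0 then (0 : ℝ) else 1)
    split_ifs with h1 h2 h2
    · exact le_rfl
    · exact zero_le_one
    · exact absurd (hab.trans h2) h1
    · exact le_rfl)
  have h1 := T2_compl (Om D) (Om_nonempty hp) w
  have h2 := T2_compl (Om D') (Om_nonempty hp') w
  unfold p0
  linarith

/-- translation by an even vector -/
lemma p0_trans (D : Finset V) (w v : V) (hv : Even (par v)) :
    p0 (img (trans v) D) (w + v) = p0 D w := by
  have h := avg_Om_img (trans_lsym v) (fun u => by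
    have h1 : par (trans v u) - par u = par v := by
      show par (u + v) - par u = par v
      unfold par
      rw [Prod.fst_add, Prod.snd_add]
      ring
    rw [h1]
    exact hv) D (fun h => if h w = 0 then 1 else 0)
  exact h

private lemma T2_avg_mono (S : Finset (V → ℤ)) (F G : (V → ℤ) → ℝ) (h : ∀ g ∈ S, F g ≤ G g) :
    avg S F ≤ avg S G := by
  unfold avg
  exact div_le_div_of_nonneg_right (Finset.sum_le_sum h) (Nat.cast_nonneg _)

private lemma T2_window (D : Finset V) (w : V) (hw : w ∈ D) (he : Even (par w)) (J : ℕ) :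
    avg (Om D) (fun h => if |h w| < J then 1 else 0) ≤ (2 * (J : ℝ) + 1) * p0 D w := by
  classical
  have h1 : (((Om D).filter (fun h => |h w| < (J : ℤ))).card : ℝ) ≤
      (2 * (J : ℝ) + 1) * (cnt D w 0 : ℝ) := by
    have h2 : ((Om D).filter (fun h => |h w| < (J : ℤ))).card ≤
        (Finset.Icc (-(J : ℤ)) (J : ℤ)).card * cnt D w 0 := by
      rw [Finset.card_eq_sum_card_fiberwise (f := fun h : V → ℤ => h w)
        (t := Finset.Icc (-(J : ℤ)) (J : ℤ))]
      · rw [← smul_eq_mul]
        refine Finset.sum_le_card_nsmul _ _ _ fun i _ => ?_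
        refine le_trans ?_ (cnt_le D w hw he i)
        unfold cnt
        refine Finset.card_le_card fun g hg => ?_
        rw [Finset.mem_filter] at hg ⊢
        exact ⟨(Finset.mem_filter.1 hg.1).1, hg.2⟩
      · intro g hg
        have h3 := (Finset.mem_filter.1 (Finset.mem_coe.1 hg)).2
        rw [abs_lt] at h3
        exact Finset.mem_coe.2 (Finset.mem_Icc.2 ⟨h3.1.le, h3.2.le⟩)
    rw [Int.card_Icc] at h2
    have h4 : ((J : ℤ) + 1 - -(J : ℤ)).toNat = 2 * J + 1 := by omega
    rw [h4] at h2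
    exact_mod_cast h2
  have h5 : p0 D w = (cnt D w 0 : ℝ) / ((Om D).card : ℝ) := by
    unfold p0 avg cnt
    rw [Finset.sum_boole]
  have h6 : avg (Om D) (fun h => if |h w| < J then 1 else 0) =
      (((Om D).filter (fun h => |h w| < (J : ℤ))).card : ℝ) / ((Om D).card : ℝ) := by
    unfold avg
    rw [Finset.sum_boole]
  rw [h5, h6, ← mul_div_assoc]
  exact div_le_div_of_nonneg_right h1 (Nat.cast_nonneg _)

private lemma T2_even (hd : Deloc) (w : V) (hw : Even (par w)) (J : ℕ) (ε : ℝ) (hε : 0 < ε) :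
    ∃ F : Finset V, w ∈ F ∧ ∀ D : Finset V, F ⊆ D → BdryPar D 0 →
      avg (Om D) (fun h => if |h w| < J then 1 else 0) < ε := by
  have hJ : (0 : ℝ) < 2 * (J : ℝ) + 1 := by positivity
  obtain ⟨D₀, hD₀, h0, hlt⟩ := hd (ε / (2 * (J : ℝ) + 1)) (by positivity)
  have hwF : w ∈ img (trans w) D₀ := by
    unfold img
    refine Finset.mem_map.2 ⟨(0, 0), h0, ?_⟩
    show ((0, 0) : V) + w = w
    exact zero_add w
  have hF : BdryPar (img (trans w) D₀) 0 := by
    have h1 := (bdryPar_img (trans_lsym w) D₀ ((0, 0) : V)).2 hD₀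
    have h2 : par (trans w ((0, 0) : V)) = par w := by
      show par (((0, 0) : V) + w) = par w
      rw [show ((0, 0) : V) + w = w from zero_add w]
    rw [h2] at h1
    intro v hv
    have h3 := h1 v hv
    rw [Int.even_iff] at h3 hw ⊢
    omega
  refine ⟨img (trans w) D₀, hwF, fun D hFD hD => ?_⟩
  have h1 := p0_anti _ D hFD hF hD w hwF
  have h2 := p0_trans D₀ (0, 0) w hw
  rw [show ((0, 0) : V) + w = w from zero_add w] at h2
  rw [h2] at h1
  have h3 := T2_window D w (hFD hwF) hw J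
  have h4 : p0 D w < ε / (2 * (J : ℝ) + 1) := lt_of_le_of_lt h1 hlt
  rw [lt_div_iff₀ hJ] at h4
  calc avg (Om D) (fun h => if |h w| < J then 1 else 0) ≤ (2 * (J : ℝ) + 1) * p0 D w := h3
    _ = p0 D w * (2 * (J : ℝ) + 1) := by ring
    _ < ε := h4

/-
Even `w`: `Deloc` gives `D₀ ∋ 0` with `p0 D₀ 0 < ε / (2J+1)`, `F := D₀ + w`; `P(|h w| < J) ≤ (2J+1) * p0 D w` by `cnt_le`.
Odd `w`: `w' = w + (1,0)` is even, `F` contains `w, w'`; `|h w - h w'| = 1`, so `{|h w| < J} ⊆ {|h w'| < J + 1}`.
-/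
theorem deloc_small (hd : Deloc) (w : V) (J : ℕ) (ε : ℝ) (hε : 0 < ε) :
    ∃ F : Finset V, ∀ D : Finset V, F ⊆ D → BdryPar D 0 →
      avg (Om D) (fun h => if |h w| < J then 1 else 0) < ε := by
  rcases Int.even_or_odd (par w) with hw | hw
  · obtain ⟨F, -, hF⟩ := T2_even hd w hw J ε hε
    exact ⟨F, hF⟩
  · have hw' : Even (par (w + (1, 0))) := by
      unfold par at hw ⊢
      rw [Prod.fst_add, Prod.snd_add]
      rw [Int.odd_iff] at hw
      rw [Int.even_iff]
      show (w.1 + 1 + (w.2 + 0)) % 2 = 0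
      omega
    obtain ⟨F, hwF, hF⟩ := T2_even hd (w + (1, 0)) hw' (J + 1) ε hε
    refine ⟨insert w F, fun D hFD hD => ?_⟩
    have hFD' : F ⊆ D := (Finset.subset_insert _ _).trans hFD
    have hwD : w ∈ D := hFD (Finset.mem_insert_self _ _)
    have hwD' : w + (1, 0) ∈ D := hFD' hwF
    refine lt_of_le_of_lt (T2_avg_mono (Om D) _ _ fun g hg => ?_) (hF D hFD' hD)
    have hadj : Adj w (w + (1, 0)) := by
      unfold Adj
      rw [Prod.fst_add, Prod.snd_add]
      show |w.1 - (w.1 + 1)| + |w.2 - (w.2 + 0)| = 1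
      rw [show w.1 - (w.1 + 1) = -1 by ring, show w.2 - (w.2 + 0) = 0 by ring]
      rfl
    have hst := (mem_Om.1 hg).1.step w hwD (w + (1, 0)) hwD' hadj
    by_cases h1 : |g w| < (J : ℤ)
    · have h2 : |g (w + (1, 0))| < ((J + 1 : ℕ) : ℤ) := by
        have h3 := abs_sub_abs_le_abs_sub (g (w + (1, 0))) (g w)
        rw [abs_sub_comm] at h3
        push_cast
        omega
      rw [if_pos h1, if_pos h2]
    · rw [if_neg h1]
      split_ifs
      · exact zero_le_one
      · exact le_rfl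

/-
`¬ Deloc`: `p0 D 0 ≥ ε₀ > 0` for all `D ∋ 0`, by translation for all even `w ∈ D`; `tail_bound_ht`.
Odd `w ∈ D`: `w ∉ bdry D` so `w' = w + (1,0) ∈ D` is even and `(h w)² ≤ 2 (h w')² + 2`.
-/
theorem not_deloc_bdd (hnd : ¬ Deloc) : ∃ C : ℝ, ∀ D : Finset V, BdryPar D 0 → ∀ w ∈ D,
    avg (Om D) (fun h => (h w : ℝ) ^ 2) ≤ C := by
  unfold Deloc at hnd
  push Not at hnd
  obtain ⟨ε, hε, hnd⟩ := hnd
  obtain ⟨C, hC⟩ := tail_bound_ht ε hε
  have heven : ∀ D : Finset V, BdryPar D 0 → ∀ w ∈ D, Even (par w) →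
      avg (Om D) (fun h => (h w : ℝ) ^ 2) ≤ C := by
    intro D hD w hw hpar
    refine hC D w hw hpar hD ?_
    have hpn : Even (par (-w)) := by
      obtain ⟨k, hk⟩ := hpar
      refine ⟨-k, ?_⟩
      unfold par at hk ⊢
      rw [Prod.fst_neg, Prod.snd_neg]
      omega
    have h1 : p0 (img (trans (-w)) D) (w + -w) = p0 D w := p0_trans D w (-w) hpn
    have hw0 : w + -w = ((0, 0) : V) := add_neg_cancel w
    have hmem : ((0, 0) : V) ∈ img (trans (-w)) D := by
      unfold img
      rw [Finset.mem_map]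
      exact ⟨w, hw, hw0⟩
    have hb : BdryPar (img (trans (-w)) D) 0 := by
      have h2 := (bdryPar_img (trans_lsym (-w)) D w).2 (by
        intro v hv
        obtain ⟨a, ha⟩ := hD v hv
        obtain ⟨b, hb⟩ := hpar
        exact ⟨a - b, by omega⟩)
      have h3 : (trans (-w)) w = ((0, 0) : V) := hw0
      rw [h3] at h2
      exact h2
    have h2 := hnd _ hb hmem
    rw [hw0] at h1
    rw [h1] at h2
    have hpos : (0 : ℝ) < (Om D).card := by
      exact_mod_cast (Om_nonempty hD).card_pos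
    have h3 : p0 D w = (cnt D w 0 : ℝ) / (Om D).card := by
      unfold p0 avg cnt
      rw [Finset.sum_boole]
    rw [h3, le_div_iff₀ hpos] at h2
    exact h2
  refine ⟨max C (2 * C + 2), fun D hD w hw => ?_⟩
  by_cases hpar : Even (par w)
  · exact (heven D hD w hw hpar).trans (le_max_left _ _)
  · refine le_trans ?_ (le_max_right _ _)
    have hwb : w ∉ bdry D := by
      intro hwb
      have := hD w hwb
      rw [sub_zero] at this
      exact hpar this
    set w' : V := (w.1 + 1, w.2) with hw'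
    have hadj : Adj w' w := by
      unfold Adj
      simp [hw']
    have hw'D : w' ∈ D := by
      by_contra hn
      exact hwb (mem_bdry.2 ⟨hw, w', hadj, hn⟩)
    have hpar' : Even (par w') := by
      rw [Int.not_even_iff_odd] at hpar
      obtain ⟨k, hk⟩ := hpar
      refine ⟨k + 1, ?_⟩
      unfold par at hk ⊢
      simp only [hw']
      omega
    have h1 := heven D hD w' hw'D hpar'
    have hpos : (0 : ℝ) < (Om D).card := by
      exact_mod_cast (Om_nonempty hD).card_pos
    have h2 : avg (Om D) (fun h => (h w : ℝ) ^ 2) ≤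
        avg (Om D) (fun h => 2 * (h w' : ℝ) ^ 2 + 2) := by
      unfold avg
      refine div_le_div_of_nonneg_right (Finset.sum_le_sum fun h hh => ?_) hpos.le
      have hstep := (mem_Om.1 hh).1.step w' hw'D w hw hadj
      have hs : (h w : ℝ) = h w' - 1 ∨ (h w : ℝ) = h w' + 1 := by
        rcases abs_eq (by norm_num : (0 : ℤ) ≤ 1) |>.1 hstep with h3 | h3
        · left
          have : h w = h w' - 1 := by omega
          rw [this]
          push_cast
          ring
        · right
          have : h w = h w' + 1 := by omega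
          rw [this]
          push_cast
          ring
      rcases hs with hs | hs <;> rw [hs] <;> nlinarith [sq_nonneg ((h w' : ℝ) + 1),
        sq_nonneg ((h w' : ℝ) - 1)]
    have h3 : avg (Om D) (fun h => 2 * (h w' : ℝ) ^ 2 + 2) =
        2 * avg (Om D) (fun h => (h w' : ℝ) ^ 2) + 2 := by
      unfold avg
      rw [Finset.sum_add_distrib, ← Finset.mul_sum, Finset.sum_const, nsmul_eq_mul]
      field_simp
    rw [h3] at h2
    linarith

/-- unbounded variance at `0` implies `Deloc` (contrapositive of `not_deloc_bdd`) -/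
theorem deloc_of_unbounded (h : ∀ C : ℝ, ∃ D : Finset V, BdryPar D 0 ∧ ((0, 0) : V) ∈ D ∧
    C < avg (Om D) (fun h => (h (0, 0) : ℝ) ^ 2)) : Deloc := by
  by_contra hnd
  obtain ⟨C, hC⟩ := not_deloc_bdd hnd
  obtain ⟨D, hD, h0, hlt⟩ := h C
  exact absurd (hC D hD _ h0) (not_le.mpr hlt)

end RP4
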